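import Pool.Agent.Helper5.RS.Fub
import Pool.Agent.Helper5.RM.HC4
import Pool.Agent.Helper5.RM.LG5

/-!
# Block RS-U1: chaining in `N`

`X = 2^a`, `N ∈ [X, 2X]`, `N0 = 2^s0 ⌊N / 2^s0⌋`. For `s < s0` let `N_s = 2^s ⌊N / 2^s⌋`; `N_s - N_(s+1)` is `0` or `2^s`, so `SN N - SN N0 = ∑_{s < s0} (SN N_s - SN N_(s+1))` and every term is `0` or the sum over one
dyadic interval `I = (2^s w, 2^s (w+1)]` inside `(X, 2X]` (`X` is a multiple of `2^(s+1)`). If all these interval sums (all `s < s0`, all `w`) have norm `≤ √X 2^(-(s0-s)/4)`, then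
`‖SN N - SN N0‖ ≤ √X ∑_{t ≥ 1} 2^(-t/4) ≤ 6 √X` (`2^(1/4) ≥ 1.18`).
For one interval at level `s`: by `hyper_sqf` (coefficients `e (n x)`, squarefree `n ∈ I`) and Hoelder, `av ‖∑_I‖^(2k) ≤ (∑_{n ∈ I} (2k-1)^(om n))^k ≤ (2^s)^(k-1) ∑_{n ∈ I} ((2k-1)^k)^(om n) ≤ (2^s)^(k-1) ∑_{n ∈ I} W^(om n)`
(power mean inequality: `pow_sum_div_card_le_sum_pow` in Mathlib, `(∑ f)^(n+1) / |s|^n ≤ ∑ f^(n+1)`).
Sum over the intervals of level `s` (they are disjoint subsets of `[1, 2X]`): `≤ (2^s)^(k-1) ∑_{n ≤ 2X squarefree} W^(om n) ≤ (2^s)^(k-1) 2X LL (2X)^W` (`omega_sum`, RM/LG5). Markov: the probability that some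
interval of level `s` fails is at most `(2^s)^(k-1) 2X LL^W / (X^k 2^(-k(s0-s)/2)) = 2 LL^W (2^s0/X)^(k-1) 2^(-(k-1-k/2)(s0-s)) ≤ 2 LL^W (2^s0/X)^(k-1) 2^(-(s0-s))` (`k ≥ 4`). Sum over `s < s0`: `≤ 2 LL^W (2^s0/X)^(k-1)`.
-/

set_option autoImplicit false

namespace Pool.Agent.Helper5.RS

open Finset Pool.Agent.Helper5.RM

/-- the sum over one dyadic interval -/
private noncomputable def Dy81 (s w : ℕ) (x : ℝ) (T : Finset ℕ) : ℂ :=
  ∑ n ∈ Finset.Ioc (2 ^ s * w) (2 ^ s * (w + 1)), (rf T n : ℂ) * e (n * x)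

private theorem SN_sub81 {A B : ℕ} (h : A ≤ B) (x : ℝ) (T : Finset ℕ) :
    SN B T x - SN A T x = ∑ n ∈ Finset.Ioc A B, (rf T n : ℂ) * e (n * x) := by
  unfold SN
  have h1 : Finset.Icc 1 B = Finset.Icc 1 A ∪ Finset.Ioc A B := by
    ext n
    simp only [Finset.mem_union, Finset.mem_Icc, Finset.mem_Ioc]
    omega
  have h2 : Disjoint (Finset.Icc 1 A) (Finset.Ioc A B) := by
    rw [Finset.disjoint_left]
    intro n hn hn'
    rw [Finset.mem_Icc] at hn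
    rw [Finset.mem_Ioc] at hn'
    omega
  rw [h1, Finset.sum_union h2]
  ring

/-- one step of the chain -/
private theorem step81 (N s : ℕ) (x : ℝ) (T : Finset ℕ) :
    SN (2 ^ s * (N / 2 ^ s)) T x - SN (2 ^ (s + 1) * (N / 2 ^ (s + 1))) T x = 0 ∨
      ∃ w, 2 ^ s * (w + 1) ≤ N ∧ w = 2 * (N / 2 ^ (s + 1)) ∧
        SN (2 ^ s * (N / 2 ^ s)) T x - SN (2 ^ (s + 1) * (N / 2 ^ (s + 1))) T x = Dy81 s w x T := by
  have hd : N / 2 ^ (s + 1) = N / 2 ^ s / 2 := by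
    rw [pow_succ, Nat.div_div_eq_div_mul]
  have hm := Nat.div_add_mod (N / 2 ^ s) 2
  rcases Nat.mod_two_eq_zero_or_one (N / 2 ^ s) with h0 | h1
  · left
    have : 2 ^ s * (N / 2 ^ s) = 2 ^ (s + 1) * (N / 2 ^ (s + 1)) := by
      rw [hd, pow_succ, mul_assoc]
      congr 1
      omega
    rw [this, sub_self]
  · right
    refine ⟨2 * (N / 2 ^ (s + 1)), ?_, rfl, ?_⟩
    · have h2 : 2 * (N / 2 ^ (s + 1)) + 1 = N / 2 ^ s := by
        rw [hd]; omega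
      rw [h2]
      exact Nat.mul_div_le N (2 ^ s)
    · have h2 : N / 2 ^ s = 2 * (N / 2 ^ (s + 1)) + 1 := by
        rw [hd]; omega
      have h3 : 2 ^ (s + 1) * (N / 2 ^ (s + 1)) = 2 ^ s * (2 * (N / 2 ^ (s + 1))) := by
        rw [pow_succ]; ring
      rw [h3, h2, SN_sub81 (Nat.mul_le_mul_left _ (Nat.le_succ _))]
      rfl

/-- the deterministic part -/
private theorem det81 (a N s0 : ℕ) (x : ℝ) (T : Finset ℕ) (hN : 2 ^ a ≤ N)
    (hN2 : N ≤ 2 ^ (a + 1)) (th : ℕ → ℝ) (hth : ∀ s, 0 ≤ th s) (hs : s0 ≤ a)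
    (h : ∀ s ∈ Finset.range s0, ∀ w ∈ Finset.Ico (2 ^ (a - s)) (2 ^ (a + 1 - s)),
      ‖Dy81 s w x T‖ ≤ th s) :
    ‖SN N T x - SN (2 ^ s0 * (N / 2 ^ s0)) T x‖ ≤ ∑ s ∈ Finset.range s0, th s := by
  induction s0 with
  | zero => simp
  | succ s ih =>
    rw [Finset.sum_range_succ]
    have ih' := ih (by omega) (fun s' hs' => h s' (Finset.mem_range.2 (by
      have := Finset.mem_range.1 hs'; omega)))
    have h1 : SN N T x - SN (2 ^ (s + 1) * (N / 2 ^ (s + 1))) T x =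
        (SN N T x - SN (2 ^ s * (N / 2 ^ s)) T x) +
        (SN (2 ^ s * (N / 2 ^ s)) T x - SN (2 ^ (s + 1) * (N / 2 ^ (s + 1))) T x) := by ring
    rw [h1]
    refine (norm_add_le _ _).trans (add_le_add ih' ?_)
    rcases step81 N s x T with h2 | ⟨w, hw1, hw2, h2⟩
    · rw [h2, norm_zero]; exact hth s
    · rw [h2]
      refine h s (Finset.mem_range.2 (Nat.lt_succ_self s)) w (Finset.mem_Ico.2 ⟨?_, ?_⟩)
      · -- 2^a ≤ 2^s w
        have e1 : 2 ^ a = 2 ^ (a - (s + 1)) * 2 ^ (s + 1) := by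
          rw [← pow_add]; congr 1; omega
        have e2 : 2 ^ (a - (s + 1)) ≤ N / 2 ^ (s + 1) := by
          rw [Nat.le_div_iff_mul_le (by positivity), ← e1]
          exact hN
        have e3 : 2 ^ (a - s) = 2 * 2 ^ (a - (s + 1)) := by
          rw [← pow_succ']; congr 1; omega
        rw [hw2, e3]
        omega
      · have e1 : 2 ^ s * (w + 1) ≤ 2 ^ s * 2 ^ (a + 1 - s) := by
          rw [← pow_add, show s + (a + 1 - s) = a + 1 by omega]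
          exact hw1.trans hN2
        have e2 := Nat.le_of_mul_le_mul_left e1 (by positivity)
        omega

/-- the moment of one interval -/
private theorem mom81 (k W a s w M : ℕ) (x : ℝ) (hk : 4 ≤ k) (hW : (2 * k - 1) ^ k ≤ W)
    (hM : 2 ^ (a + 1) ≤ M) (hs : s ≤ a) (hw : w ∈ Finset.Ico (2 ^ (a - s)) (2 ^ (a + 1 - s))) :
    av (PP M) (fun T => ‖Dy81 s w x T‖ ^ (2 * k)) ≤ ((2 : ℝ) ^ s) ^ (k - 1) *
      ∑ n ∈ ((Finset.Icc 1 (2 ^ (a + 1))).filter Squarefree).filter (fun n => (n - 1) / 2 ^ s = w),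
        (W : ℝ) ^ om n := by
  rw [Finset.mem_Ico] at hw
  have hle : 2 ^ s * (w + 1) ≤ 2 ^ (a + 1) := by
    have e1 : 2 ^ s * (w + 1) ≤ 2 ^ s * 2 ^ (a + 1 - s) := Nat.mul_le_mul_left _ (by omega)
    rwa [← pow_add, show s + (a + 1 - s) = a + 1 by omega] at e1
  set I := (Finset.Ioc (2 ^ s * w) (2 ^ s * (w + 1))).filter Squarefree with hI
  have h1 : ∀ T, Dy81 s w x T = ∑ n ∈ I, (rf T n : ℂ) * e (n * x) := by
    intro T
    rw [hI, Finset.sum_filter]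
    refine Finset.sum_congr rfl fun n _ => ?_
    split_ifs with h
    · rfl
    · rw [rf_not h]; simp
  simp only [h1]
  have h2 := hyper_sqf k (by omega) (PP M) I (fun n hn => by
    rw [hI, Finset.mem_filter, Finset.mem_Ioc] at hn
    exact ⟨hn.2, primeFactors_subset_PP ((hn.1.2.trans hle).trans hM)⟩) (fun n => e (n * x))
  refine h2.trans ?_
  simp only [norm_e, one_pow, mul_one]
  have hcard : I.card ≤ 2 ^ s := by
    refine (Finset.card_filter_le _ _).trans ?_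
    rw [Nat.card_Ioc, ← Nat.mul_sub]
    simp
  obtain ⟨k', rfl⟩ : ∃ k', k = k' + 1 := ⟨k - 1, by omega⟩
  have hb : ((2 * ((k' + 1 : ℕ) : ℝ) - 1)) = ((2 * (k' + 1) - 1 : ℕ) : ℝ) := by
    rw [Nat.cast_sub (by omega)]; push_cast; ring
  have h3 := pow_sum_le_card_mul_sum_pow (s := I)
    (f := fun n => ((2 * ((k' + 1 : ℕ) : ℝ) - 1)) ^ om n)
    (fun n _ => by rw [hb]; positivity) k'
  refine h3.trans ?_
  have h4 : ((I.card : ℝ)) ^ k' ≤ ((2 : ℝ) ^ s) ^ k' := by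
    refine pow_le_pow_left₀ (Nat.cast_nonneg _) ?_ _
    exact_mod_cast hcard
  have h5 : ∑ n ∈ I, ((2 * ((k' + 1 : ℕ) : ℝ) - 1) ^ om n) ^ (k' + 1) ≤
      ∑ n ∈ ((Finset.Icc 1 (2 ^ (a + 1))).filter Squarefree).filter (fun n => (n - 1) / 2 ^ s = w),
        (W : ℝ) ^ om n := by
    have hb0 : (0 : ℝ) ≤ 2 * ((k' + 1 : ℕ) : ℝ) - 1 := by rw [hb]; positivity
    have e1 : ∀ n, ((2 * ((k' + 1 : ℕ) : ℝ) - 1) ^ om n) ^ (k' + 1) ≤ (W : ℝ) ^ om n := by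
      intro n
      rw [← pow_mul, mul_comm (om n) (k' + 1), pow_mul]
      refine pow_le_pow_left₀ (pow_nonneg hb0 _) ?_ _
      rw [hb]
      exact_mod_cast hW
    refine (Finset.sum_le_sum fun n _ => e1 n).trans ?_
    refine Finset.sum_le_sum_of_subset_of_nonneg ?_ (fun n _ _ => by positivity)
    intro n hn
    rw [hI, Finset.mem_filter, Finset.mem_Ioc] at hn
    rw [Finset.mem_filter, Finset.mem_filter, Finset.mem_Icc]
    obtain ⟨⟨hn1, hn2⟩, hn3⟩ := hn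
    refine ⟨⟨⟨by omega, hn2.trans hle⟩, hn3⟩, ?_⟩
    have hpos : 0 < 2 ^ s := by positivity
    apply Nat.div_eq_of_lt_le
    · rw [mul_comm]; omega
    · rw [mul_comm]; omega
  calc _ ≤ ((2 : ℝ) ^ s) ^ k' * ∑ n ∈ I, ((2 * ((k' + 1 : ℕ) : ℝ) - 1) ^ om n) ^ (k' + 1) := by
        refine mul_le_mul_of_nonneg_right h4 (Finset.sum_nonneg fun n _ => ?_)
        rw [hb]; positivity
    _ ≤ _ := mul_le_mul_of_nonneg_left h5 (by positivity)

/-- the probability at one level -/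
private theorem lev81 (k W a s0 s M : ℕ) (x r : ℝ) (hk : 4 ≤ k) (hW : (2 * k - 1) ^ k ≤ W)
    (hM : 2 ^ (a + 1) ≤ M) (hs : s < s0) (hs0 : s0 ≤ a) (hr : 0 < r) (hr4 : r ^ 4 = 1 / 2) :
    ∑ w ∈ Finset.Ico (2 ^ (a - s)) (2 ^ (a + 1 - s)), pr (PP M) (fun T =>
      Real.sqrt (2 ^ a) * r ^ (s0 - s) ≤ ‖Dy81 s w x T‖) ≤
      2 * LL (2 ^ (a + 1)) ^ W * ((2 : ℝ) ^ s0 / 2 ^ a) ^ (k - 1) * (1 / 2) ^ (s0 - s) := by
  set th := Real.sqrt (2 ^ a) * r ^ (s0 - s) with hth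
  have hsq : Real.sqrt ((2 : ℝ) ^ a) ^ 2 = 2 ^ a := Real.sq_sqrt (by positivity)
  have hsp : 0 < Real.sqrt ((2 : ℝ) ^ a) := Real.sqrt_pos.2 (by positivity)
  have hth0 : 0 < th := by positivity
  have hLL : 0 ≤ LL (2 ^ (a + 1)) := by
    unfold LL
    have := Real.log_natCast_nonneg (2 ^ (a + 1))
    linarith
  -- Markov
  have h1 : ∀ w ∈ Finset.Ico (2 ^ (a - s)) (2 ^ (a + 1 - s)), pr (PP M) (fun T =>
      th ≤ ‖Dy81 s w x T‖) ≤ (((2 : ℝ) ^ s) ^ (k - 1) *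
      ∑ n ∈ ((Finset.Icc 1 (2 ^ (a + 1))).filter Squarefree).filter (fun n => (n - 1) / 2 ^ s = w),
        (W : ℝ) ^ om n) / th ^ (2 * k) := fun w hw =>
    markov_pow (2 * k) (fun T _ => norm_nonneg _) hth0 (mom81 k W a s w M x hk hW hM (by omega) hw)
  refine (Finset.sum_le_sum h1).trans ?_
  rw [← Finset.sum_div, ← Finset.mul_sum, Finset.sum_fiberwise_eq_sum_filter]
  have h2 : ∑ n ∈ ((Finset.Icc 1 (2 ^ (a + 1))).filter Squarefree).filter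
      (fun n => (n - 1) / 2 ^ s ∈ Finset.Ico (2 ^ (a - s)) (2 ^ (a + 1 - s))), (W : ℝ) ^ om n ≤
      2 ^ (a + 1) * LL (2 ^ (a + 1)) ^ W := by
    refine (Finset.sum_le_sum_of_subset_of_nonneg (Finset.filter_subset _ _)
      (fun n _ _ => by positivity)).trans ?_
    have := omega_sum W (2 ^ (a + 1)) Nat.one_le_two_pow
    push_cast at this
    unfold LL
    push_cast
    exact this
  have h3 : 0 < th ^ (2 * k) := by positivity
  rw [div_le_iff₀ h3]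
  refine (mul_le_mul_of_nonneg_left h2 (by positivity)).trans ?_
  -- powers
  set t := s0 - s with ht
  have ht1 : 1 ≤ t := by omega
  have hst : (2 : ℝ) ^ s0 = 2 ^ s * 2 ^ t := by rw [← pow_add]; congr 1; omega
  have hth2 : th ^ (2 * k) = (2 ^ a) ^ k * (r ^ (2 * k)) ^ t := by
    rw [hth, mul_pow, pow_mul (Real.sqrt ((2 : ℝ) ^ a)) 2 k, hsq, ← pow_mul r t (2 * k),
      ← pow_mul r (2 * k) t, mul_comm t (2 * k)]
  obtain ⟨k', rfl⟩ : ∃ k', k = k' + 4 := ⟨k - 4, by omega⟩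
  rw [show k' + 4 - 1 = k' + 3 by omega]
  rw [hth2, hst]
  have hr2 : 1 ≤ 2 * r ^ 2 := by
    by_contra hcon
    push Not at hcon
    have h5 : (2 * r ^ 2) ^ 2 < 1 := by
      have : 0 ≤ 2 * r ^ 2 := by positivity
      nlinarith
    nlinarith
  have hkey : 1 ≤ 2 ^ (k' + 2) * r ^ (2 * (k' + 4)) := by
    have e1 : (2 : ℝ) ^ (k' + 2) * r ^ (2 * (k' + 4)) = (2 * r ^ 2) ^ k' * (4 * (r ^ 4) ^ 2) := by
      rw [mul_pow, ← pow_mul]
      ring
    rw [e1, hr4]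
    have := one_le_pow₀ (n := k') hr2
    linarith
  have hkeyt : 1 ≤ (2 ^ (k' + 2) * r ^ (2 * (k' + 4))) ^ t := one_le_pow₀ hkey
  have hX : (2 : ℝ) ^ a ≠ 0 := by positivity
  have e2 : 2 * LL (2 ^ (a + 1)) ^ W * ((2 : ℝ) ^ s * 2 ^ t / 2 ^ a) ^ (k' + 3) * (1 / 2) ^ t *
      ((2 ^ a) ^ (k' + 4) * (r ^ (2 * (k' + 4))) ^ t) =
      (((2 : ℝ) ^ s) ^ (k' + 3) * (2 ^ (a + 1) * LL (2 ^ (a + 1)) ^ W)) *
        (2 ^ (k' + 2) * r ^ (2 * (k' + 4))) ^ t := by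
    have e3 : ((2 : ℝ) ^ t) ^ (k' + 3) * (1 / 2) ^ t = (2 ^ (k' + 2)) ^ t := by
      rw [← pow_mul, one_div, inv_pow, ← pow_mul]
      rw [show (2 : ℝ) ^ (t * (k' + 3)) = 2 ^ ((k' + 2) * t) * 2 ^ t by rw [← pow_add]; congr 1; ring]
      field_simp
    rw [div_pow, mul_pow, mul_pow (2 ^ (k' + 2) : ℝ), ← e3]
    rw [show (2 : ℝ) ^ (a + 1) = 2 * 2 ^ a by rw [pow_succ]; ring]
    field_simp
    ring
  rw [e2]
  refine le_mul_of_one_le_right ?_ hkeyt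
  positivity

theorem chain (k W a s0 M : ℕ) (x : ℝ) (hk : 4 ≤ k) (hW : (2 * k - 1) ^ k ≤ W) (hs : s0 ≤ a)
    (hM : 2 ^ (a + 1) ≤ M) :
    pr (PP M) (fun T => ∃ N : ℕ, 2 ^ a ≤ N ∧ N ≤ 2 ^ (a + 1) ∧
      6 * Real.sqrt (2 ^ a) < ‖SN N T x - SN (2 ^ s0 * (N / 2 ^ s0)) T x‖) ≤
      2 * LL (2 ^ (a + 1)) ^ W * ((2 : ℝ) ^ s0 / 2 ^ a) ^ (k - 1) := by
  classical
  obtain ⟨r, hr, hr4⟩ : ∃ r : ℝ, 0 < r ∧ r ^ 4 = 1 / 2 := by
    refine ⟨(1 / 2 : ℝ) ^ (1 / 4 : ℝ), by positivity, ?_⟩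
    rw [← Real.rpow_natCast, ← Real.rpow_mul (by norm_num)]
    norm_num
  have hr67 : r ≤ 6 / 7 := by
    by_contra hcon
    push Not at hcon
    have : (6 / 7 : ℝ) ^ 4 < r ^ 4 := pow_lt_pow_left₀ hcon (by norm_num) (by norm_num)
    rw [hr4] at this
    norm_num at this
  have hsp : 0 ≤ Real.sqrt ((2 : ℝ) ^ a) := Real.sqrt_nonneg _
  -- the sum of the thresholds
  have hgeo : ∀ n : ℕ, ∑ s ∈ Finset.range n, r ^ (n - s) ≤ 6 - 6 * r ^ n := by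
    intro n
    induction n with
    | zero => simp
    | succ n ih =>
      rw [Finset.sum_range_succ]
      have e1 : ∑ s ∈ Finset.range n, r ^ (n + 1 - s) = r * ∑ s ∈ Finset.range n, r ^ (n - s) := by
        rw [Finset.mul_sum]
        refine Finset.sum_congr rfl fun s hs => ?_
        have := Finset.mem_range.1 hs
        rw [← pow_succ']
        congr 1
        omega
      rw [e1, show n + 1 - n = 1 by omega, pow_one]
      have e2 := mul_le_mul_of_nonneg_left ih hr.le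
      rw [pow_succ]
      nlinarith
  have hhalf : ∀ n : ℕ, ∑ s ∈ Finset.range n, (1 / 2 : ℝ) ^ (n - s) ≤ 1 - (1 / 2) ^ n := by
    intro n
    induction n with
    | zero => simp
    | succ n ih =>
      rw [Finset.sum_range_succ]
      have e1 : ∑ s ∈ Finset.range n, (1 / 2 : ℝ) ^ (n + 1 - s) =
          1 / 2 * ∑ s ∈ Finset.range n, (1 / 2 : ℝ) ^ (n - s) := by
        rw [Finset.mul_sum]
        refine Finset.sum_congr rfl fun s hs => ?_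
        have := Finset.mem_range.1 hs
        rw [← pow_succ']
        congr 1
        omega
      rw [e1, show n + 1 - n = 1 by omega, pow_one]
      rw [pow_succ]
      linarith
  have h1 : pr (PP M) (fun T => ∃ N : ℕ, 2 ^ a ≤ N ∧ N ≤ 2 ^ (a + 1) ∧
      6 * Real.sqrt (2 ^ a) < ‖SN N T x - SN (2 ^ s0 * (N / 2 ^ s0)) T x‖) ≤
      pr (PP M) (fun T => ∃ s ∈ Finset.range s0, ∃ w ∈ Finset.Ico (2 ^ (a - s)) (2 ^ (a + 1 - s)),
        Real.sqrt (2 ^ a) * r ^ (s0 - s) ≤ ‖Dy81 s w x T‖) := by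
    refine pr_mono fun T _ hT => ?_
    obtain ⟨N, hN1, hN2, hN3⟩ := hT
    by_contra hcon
    push Not at hcon
    have h2 := det81 a N s0 x T hN1 hN2 (fun s => Real.sqrt (2 ^ a) * r ^ (s0 - s))
      (fun s => by positivity) hs (fun s hs' w hw => (hcon s hs' w hw).le)
    rw [← Finset.mul_sum] at h2
    have h3 : Real.sqrt (2 ^ a) * ∑ s ∈ Finset.range s0, r ^ (s0 - s) ≤ 6 * Real.sqrt (2 ^ a) := by
      have h4 : ∑ s ∈ Finset.range s0, r ^ (s0 - s) ≤ 6 := by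
        have := hgeo s0
        have h5 : 0 < r ^ s0 := by positivity
        linarith
      nlinarith
    linarith
  refine h1.trans ?_
  refine (pr_exists (PP M) (Finset.range s0) (fun s T => ∃ w ∈ Finset.Ico (2 ^ (a - s)) (2 ^ (a + 1 - s)),
        Real.sqrt (2 ^ a) * r ^ (s0 - s) ≤ ‖Dy81 s w x T‖)).trans ?_
  have h2 : ∀ s ∈ Finset.range s0, pr (PP M) (fun T => ∃ w ∈ Finset.Ico (2 ^ (a - s)) (2 ^ (a + 1 - s)),
        Real.sqrt (2 ^ a) * r ^ (s0 - s) ≤ ‖Dy81 s w x T‖) ≤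
      2 * LL (2 ^ (a + 1)) ^ W * ((2 : ℝ) ^ s0 / 2 ^ a) ^ (k - 1) * (1 / 2) ^ (s0 - s) := by
    intro s hs'
    refine (pr_exists (PP M) (Finset.Ico (2 ^ (a - s)) (2 ^ (a + 1 - s))) (fun w T =>
        Real.sqrt (2 ^ a) * r ^ (s0 - s) ≤ ‖Dy81 s w x T‖)).trans ?_
    exact lev81 k W a s0 s M x r hk hW hM (Finset.mem_range.1 hs') hs hr hr4
  refine (Finset.sum_le_sum h2).trans ?_
  rw [← Finset.mul_sum]
  have hLL : 0 ≤ LL (2 ^ (a + 1)) := by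
    unfold LL
    have := Real.log_natCast_nonneg (2 ^ (a + 1))
    linarith
  refine mul_le_of_le_one_right (by positivity) ?_
  have := hhalf s0
  have h5 : (0 : ℝ) < (1 / 2) ^ s0 := by positivity
  linarith

end Pool.Agent.Helper5.RS
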