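import Pool.Agent.Helper5.RS.GoodA

/-!
# Block RS-G3: the good event has probability `1 - O(Λ^(-ε))`, `Λ = 2^i`

`good_abs` with `Y = 2^(2Λ)`, `R = 2^(4Λ)`, `Q = Λ^C1`, `J = 3 Λ^C1`, `v = Λ^(2+ε)`, `S = PP (2^(2Λ))`: `LL Y = 1 + 2Λ log 2 ≤ 3Λ`, `2 J Y = 6 Λ^C1 2^(2Λ) ≤ 2^(4Λ)` and `164 LL Y ≤ 492 Λ ≤ Λ^(2+ε)` for large `i`;
`LL Y^4 / v^2 ≤ 81 Λ^(-2ε)`, `LL Q`, `log J`, `LL J ≤ C i` (`log Λ = i log 2`), so the bound is at most `C' i^130 Λ^(-2ε) ≤ Λ^(-ε)` for large `i` (`Λ^ε = 2^(ε i)` beats every power of `i`).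
-/

set_option autoImplicit false

namespace Pool.Agent.Helper5.RS

open Finset Pool.Agent.Helper5.RM

theorem good_prob (C1 : ℕ) (ε : ℝ) (hε : 0 < ε) : ∃ i0 : ℕ, ∀ i : ℕ, i0 ≤ i → ∀ z Rs : ℕ, 1 ≤ Rs →
    pr (PP (2 ^ (2 * 2 ^ i))) (fun T => ¬ Good z (2 ^ (2 * 2 ^ i)) (2 ^ (4 * 2 ^ i)) Rs ((2 ^ i) ^ C1)
      (3 * (2 ^ i) ^ C1) (((2 : ℝ) ^ i) ^ (2 + ε)) T) ≤ ((2 : ℝ) ^ i) ^ (-ε) := by
  obtain ⟨K, hK⟩ : ∃ K : ℝ, K = 2 * C1 + 7 := ⟨_, rfl⟩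
  have hK0 : 0 < K := by rw [hK]; positivity
  have hM0 : 0 < 130000000 * 81 * K ^ 130 := by positivity
  have h2ε : (1 : ℝ) < 2 ^ ε := Real.one_lt_rpow (by norm_num) hε
  have ev1 : ∀ᶠ i : ℕ in Filter.atTop, (i : ℝ) ^ 130 / ((2 : ℝ) ^ ε) ^ i <
      1 / (130000000 * 81 * K ^ 130) :=
    (tendsto_pow_const_div_const_pow_of_one_lt 130 h2ε).eventually_lt_const (one_div_pos.2 hM0)
  have hC3 : (0 : ℝ) < (C1 : ℝ) + 3 := by positivity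
  have ev2 : ∀ᶠ i : ℕ in Filter.atTop, (i : ℝ) ^ 1 / (2 : ℝ) ^ i < 1 / ((C1 : ℝ) + 3) :=
    (tendsto_pow_const_div_const_pow_of_one_lt 1 (by norm_num : (1 : ℝ) < 2)).eventually_lt_const
      (one_div_pos.2 hC3)
  obtain ⟨i1, h1⟩ := Filter.eventually_atTop.1 ev1
  obtain ⟨i2, h2⟩ := Filter.eventually_atTop.1 ev2
  refine ⟨i1 + i2 + 9, fun i hi z Rs hRs => ?_⟩
  have g1 := h1 i (by omega)
  have g2 := h2 i (by omega)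
  have hI : (9 : ℝ) ≤ i := by exact_mod_cast (by omega : 9 ≤ i)
  have hL : (512 : ℝ) ≤ (2 : ℝ) ^ i := by
    calc (512 : ℝ) = 2 ^ 9 := by norm_num
      _ ≤ 2 ^ i := pow_le_pow_right₀ (by norm_num) (by omega)
  have hlog : Real.log 2 ≤ 1 := by
    have := Real.log_two_lt_d9
    linarith
  have hlog0 : 0 ≤ Real.log 2 := Real.log_nonneg (by norm_num)
  have hlog3 : Real.log 3 ≤ 2 := by
    have := Real.log_le_sub_one_of_pos (by norm_num : (0 : ℝ) < 3)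
    linarith
  have hYle : LL (2 ^ (2 * 2 ^ i)) ≤ 3 * (2 : ℝ) ^ i := by
    unfold LL
    rw [Nat.cast_pow, Real.log_pow]
    push_cast
    nlinarith
  have hY0 : 0 ≤ LL (2 ^ (2 * 2 ^ i)) := by
    unfold LL
    have : 0 ≤ Real.log ((2 ^ (2 * 2 ^ i) : ℕ) : ℝ) := Real.log_natCast_nonneg _
    linarith
  have hlQ : Real.log (((2 ^ i) ^ C1 : ℕ) : ℝ) ≤ C1 * i := by
    rw [Nat.cast_pow, Nat.cast_pow, Real.log_pow, Real.log_pow]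
    push_cast
    have h3 : (i : ℝ) * Real.log 2 ≤ i := by nlinarith
    exact mul_le_mul_of_nonneg_left h3 (by positivity)
  have hQ0 : 0 ≤ Real.log (((2 ^ i) ^ C1 : ℕ) : ℝ) := Real.log_natCast_nonneg _
  have hlJ : Real.log ((3 * (2 ^ i) ^ C1 : ℕ) : ℝ) ≤ 2 + C1 * i := by
    rw [Nat.cast_mul, Real.log_mul (by norm_num) (by positivity)]
    push_cast at hlQ ⊢
    linarith
  have hJ0 : 0 ≤ Real.log ((3 * (2 ^ i) ^ C1 : ℕ) : ℝ) := Real.log_natCast_nonneg _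
  have hCi : (0 : ℝ) ≤ C1 * i := by positivity
  have hLQ : LL ((2 ^ i) ^ C1) ≤ K * i := by
    rw [hK]
    unfold LL
    nlinarith
  have hLQ0 : 0 ≤ LL ((2 ^ i) ^ C1) := by
    unfold LL
    linarith
  have hJ1 : 4 + Real.log ((3 * (2 ^ i) ^ C1 : ℕ) : ℝ) ≤ K * i := by
    rw [hK]
    nlinarith
  have hJ2 : 1 + 2 * LL (3 * (2 ^ i) ^ C1) ≤ K * i := by
    rw [hK]
    unfold LL
    nlinarith
  have hJ20 : 0 ≤ 1 + 2 * LL (3 * (2 ^ i) ^ C1) := by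
    unfold LL
    linarith
  have hL0 : (0 : ℝ) < (2 : ℝ) ^ i := by linarith
  have hE0 : 0 < ((2 : ℝ) ^ i) ^ ε := Real.rpow_pos_of_pos hL0 _
  have hE1 : 1 ≤ ((2 : ℝ) ^ i) ^ ε := Real.one_le_rpow (by linarith) hε.le
  have hv : ((2 : ℝ) ^ i) ^ (2 + ε) = ((2 : ℝ) ^ i) ^ 2 * ((2 : ℝ) ^ i) ^ ε := by
    rw [Real.rpow_add hL0, Real.rpow_two]
  have hEi : ((2 : ℝ) ^ i) ^ ε = ((2 : ℝ) ^ ε) ^ i := by
    rw [← Real.rpow_natCast, ← Real.rpow_natCast, ← Real.rpow_mul (by norm_num),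
      ← Real.rpow_mul (by norm_num), mul_comm]
  have hpoly : 6 * (2 ^ i) ^ C1 ≤ 2 ^ (2 * 2 ^ i) := by
    rw [pow_one, div_lt_div_iff₀ hL0 hC3, one_mul] at g2
    have g3 : i * (C1 + 3) < 2 ^ i := by exact_mod_cast g2
    calc 6 * (2 ^ i) ^ C1 ≤ 2 ^ 3 * (2 ^ i) ^ C1 := Nat.mul_le_mul_right _ (by norm_num)
      _ = 2 ^ (3 + i * C1) := by rw [← pow_mul, ← pow_add]
      _ ≤ 2 ^ (2 * 2 ^ i) := by
          refine Nat.pow_le_pow_right (by norm_num) ?_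
          have g4 : i * (C1 + 3) = i * C1 + 3 * i := by ring
          omega
  have main := good_abs (PP (2 ^ (2 * 2 ^ i))) z (2 ^ (2 * 2 ^ i)) (2 ^ (4 * 2 ^ i)) Rs ((2 ^ i) ^ C1)
    (3 * (2 ^ i) ^ C1) (((2 : ℝ) ^ i) ^ (2 + ε)) (Finset.Subset.refl _) Nat.one_le_two_pow
    Nat.one_le_two_pow hRs (Nat.one_le_pow _ _ (by positivity))
    (by
      have : 1 ≤ (2 ^ i) ^ C1 := Nat.one_le_pow _ _ (by positivity)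
      omega)
    (by
      calc 2 * (3 * (2 ^ i) ^ C1) * 2 ^ (2 * 2 ^ i) = 6 * (2 ^ i) ^ C1 * 2 ^ (2 * 2 ^ i) := by ring
        _ ≤ 2 ^ (2 * 2 ^ i) * 2 ^ (2 * 2 ^ i) := Nat.mul_le_mul_right _ hpoly
        _ = 2 ^ (4 * 2 ^ i) := by
            rw [← pow_add]
            congr 1
            ring)
    (by
      rw [hv]
      calc 164 * LL (2 ^ (2 * 2 ^ i)) ≤ 164 * (3 * (2 : ℝ) ^ i) := by linarith
        _ = 492 * (2 : ℝ) ^ i := by ring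
        _ ≤ (2 : ℝ) ^ i * (2 : ℝ) ^ i := by nlinarith
        _ = ((2 : ℝ) ^ i) ^ 2 * 1 := by ring
        _ ≤ ((2 : ℝ) ^ i) ^ 2 * ((2 : ℝ) ^ i) ^ ε := by gcongr)
  refine main.trans ?_
  have b1 : LL (2 ^ (2 * 2 ^ i)) ^ 4 / (((2 : ℝ) ^ i) ^ (2 + ε)) ^ 2 ≤ 81 / (((2 : ℝ) ^ i) ^ ε) ^ 2 := by
    rw [hv, div_le_div_iff₀ (by positivity) (by positivity)]
    have b2 : LL (2 ^ (2 * 2 ^ i)) ^ 4 ≤ (3 * (2 : ℝ) ^ i) ^ 4 := by gcongr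
    calc LL (2 ^ (2 * 2 ^ i)) ^ 4 * (((2 : ℝ) ^ i) ^ ε) ^ 2
        ≤ (3 * (2 : ℝ) ^ i) ^ 4 * (((2 : ℝ) ^ i) ^ ε) ^ 2 := by gcongr
      _ = 81 * (((2 : ℝ) ^ i) ^ 2 * ((2 : ℝ) ^ i) ^ ε) ^ 2 := by ring
  have b3 : (i : ℝ) ^ 130 * (130000000 * 81 * K ^ 130) ≤ ((2 : ℝ) ^ i) ^ ε := by
    rw [hEi]
    rw [div_lt_div_iff₀ (by positivity) hM0, one_mul] at g1
    exact g1.le
  calc 130000000 * LL (2 ^ (2 * 2 ^ i)) ^ 4 / (((2 : ℝ) ^ i) ^ (2 + ε)) ^ 2 * LL ((2 ^ i) ^ C1) ^ 128 *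
        ((4 + Real.log ((3 * (2 ^ i) ^ C1 : ℕ) : ℝ)) * (1 + 2 * LL (3 * (2 ^ i) ^ C1)))
      = 130000000 * (LL (2 ^ (2 * 2 ^ i)) ^ 4 / (((2 : ℝ) ^ i) ^ (2 + ε)) ^ 2) * LL ((2 ^ i) ^ C1) ^ 128 *
        ((4 + Real.log ((3 * (2 ^ i) ^ C1 : ℕ) : ℝ)) * (1 + 2 * LL (3 * (2 ^ i) ^ C1))) := by
        rw [mul_div_assoc]
    _ ≤ 130000000 * (81 / (((2 : ℝ) ^ i) ^ ε) ^ 2) * (K * i) ^ 128 *
        ((K * i) * (K * i)) := by gcongr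
    _ = ((i : ℝ) ^ 130 * (130000000 * 81 * K ^ 130)) / (((2 : ℝ) ^ i) ^ ε) ^ 2 := by ring
    _ ≤ ((2 : ℝ) ^ i) ^ ε / (((2 : ℝ) ^ i) ^ ε) ^ 2 := by gcongr
    _ = (((2 : ℝ) ^ i) ^ ε)⁻¹ := by field_simp
    _ = ((2 : ℝ) ^ i) ^ (-ε) := (Real.rpow_neg hL0.le _).symm

end Pool.Agent.Helper5.RS
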