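import Pool.Agent.Helper5.RS.BTq

/-!
# Block RS-S2: Brun-Titchmarsh in arithmetic progressions, with some constant

Put `y = h / q ≥ 2`, `φ = φ(q)`, `C2` of BT. If `y < 4^8`: the number of integers in the class is at most `y + 1 ≤ 2 y`, and `log y ≤ 8 log 4`, so it is at most
`16 log 4 * y / log y ≤ 16 log 4 * h / (φ log y)` (`φ ≤ q`). If `y ≥ 4^8`: `z = ⌊y ^ (1/8)⌋`, so `z ≥ 4`, `z ^ 4 ≤ y ^ (1/2)`, `log z ≥ (log y) / 16` (`z ≥ y^(1/8) / 2 ≥ y^(1/16)`).
`sieve_q` and `Gq_lower`: `h / (q Gq) ≤ C2 h / (φ log z) ≤ 16 C2 h / (φ log y)`, and `z + z^4 ≤ 2 y ^ (1/2) ≤ 4 y / log y ≤ 4 h / (φ log y)` (`log y ≤ 2 y ^ (1/2)`).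
-/

set_option autoImplicit false

namespace Pool.Agent.Helper5.RS

open Finset

private lemma btap_count (q b u h : ℕ) (hq : 1 ≤ q) :
    (((Finset.Ioc u (u + h)).filter (fun p => p.Prime ∧ p ≡ b [MOD q])).card : ℝ) ≤ (h : ℝ) / q + 1 := by
  have h1 : ((Finset.Ioc u (u + h)).filter (fun p => p.Prime ∧ p ≡ b [MOD q])).card ≤
      ((Finset.Ioc u (u + h)).filter (fun p => p ≡ b [MOD q])).card := by
    refine Finset.card_le_card fun p hp => ?_
    rw [Finset.mem_filter] at hp ⊢
    exact ⟨hp.1, hp.2.2⟩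
  have h2 := Nat.Ioc_filter_modEq_card u (u + h) (r := q) hq b
  have hq0 : (0 : ℚ) < q := by exact_mod_cast hq
  have h3 : (((Finset.Ioc u (u + h)).filter (fun p => p ≡ b [MOD q])).card : ℚ) ≤ (h : ℚ) / q + 1 := by
    have h4 : (((Finset.Ioc u (u + h)).filter (fun p => p ≡ b [MOD q])).card : ℚ) =
        ((((Finset.Ioc u (u + h)).filter (fun p => p ≡ b [MOD q])).card : ℤ) : ℚ) := by push_cast; rfl
    rw [h4, h2]
    push_cast
    refine max_le ?_ (by positivity)
    have a1 := Int.floor_le (((u : ℚ) + h - b) / q)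
    have a2 := Int.lt_floor_add_one (((u : ℚ) - b) / q)
    have a3 : ((u : ℚ) + h - b) / q = (u - b) / q + h / q := by ring
    rw [a3] at a1 ⊢
    linarith
  have h5 : (((Finset.Ioc u (u + h)).filter (fun p => p ≡ b [MOD q])).card : ℝ) ≤ (h : ℝ) / q + 1 := by
    have h6 := (Rat.cast_le (K := ℝ)).2 h3
    push_cast at h6
    exact h6
  exact le_trans (by exact_mod_cast h1) h5

theorem bt_ap : ∃ C : ℝ, 0 < C ∧ ∀ q b u h : ℕ, 1 ≤ q → Nat.Coprime b q → 2 * q ≤ h →
    (((Finset.Ioc u (u + h)).filter (fun p => p.Prime ∧ p ≡ b [MOD q])).card : ℝ) ≤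
      C * ((h : ℝ) / ((Nat.totient q : ℝ) * Real.log ((h : ℝ) / q))) := by
  have hC2 := Pool.Agent.Helper66.AF.BT.one_le_C2
  set C2 := Pool.Agent.Helper66.AF.BT.C2 with hC2d
  refine ⟨16 * C2 + 24, by linarith, fun q b u h hq hb hh => ?_⟩
  have hq0 : (0 : ℝ) < q := by exact_mod_cast hq
  have hφ : (1 : ℝ) ≤ Nat.totient q := by exact_mod_cast Nat.totient_pos.2 hq
  have hφq : (Nat.totient q : ℝ) ≤ q := by exact_mod_cast Nat.totient_le q
  set φ : ℝ := (Nat.totient q : ℝ) with hφd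
  set y : ℝ := (h : ℝ) / q with hy
  have hy2 : 2 ≤ y := by
    rw [hy, le_div_iff₀ hq0]
    exact_mod_cast hh
  have hlog : 0 < Real.log y := Real.log_pos (by linarith)
  have hhy : (h : ℝ) = y * q := by rw [hy, div_mul_cancel₀ _ hq0.ne']
  set Y : ℝ := (h : ℝ) / (φ * Real.log y) with hY
  -- `y / log y ≤ Y`
  have hYy : y / Real.log y ≤ Y := by
    rw [hY, hhy, div_le_div_iff₀ hlog (by positivity)]
    nlinarith [mul_le_mul_of_nonneg_left hφq (mul_nonneg (by linarith : (0 : ℝ) ≤ y) hlog.le)]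
  have hY0 : 0 ≤ Y := le_trans (by positivity) hYy
  rcases lt_or_ge y (65536 : ℝ) with hc | hc
  · -- small `y`
    have h1 := btap_count q b u h hq
    have h2 : Real.log y ≤ 12 := by
      have a1 : Real.log y ≤ Real.log (2 ^ 16) := Real.log_le_log (by linarith) (by norm_num; exact hc.le)
      rw [Real.log_pow] at a1
      have := Real.log_two_lt_d9
      push_cast at a1
      linarith
    have h3 : y ≤ 12 * (y / Real.log y) := by
      rw [mul_div_assoc', le_div_iff₀ hlog]
      nlinarith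
    calc _ ≤ y + 1 := h1
      _ ≤ 24 * Y := by linarith
      _ ≤ (16 * C2 + 24) * Y := by nlinarith
  · -- large `y`
    have hy0 : (0 : ℝ) < y := by linarith
    set t : ℝ := y ^ ((1 : ℝ) / 16) with ht
    have ht0 : 0 < t := Real.rpow_pos_of_pos hy0 _
    have ht16 : t ^ 16 = y := by
      rw [ht, ← Real.rpow_natCast, ← Real.rpow_mul hy0.le]
      norm_num
    have ht2 : 2 ≤ t := by
      by_contra hcon
      push Not at hcon
      have : t ^ 16 < 2 ^ 16 := pow_lt_pow_left₀ hcon ht0.le (by norm_num)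
      rw [ht16] at this
      norm_num at this
      linarith
    set z : ℕ := ⌊t ^ 2⌋₊ with hz
    have hz1 : (z : ℝ) ≤ t ^ 2 := Nat.floor_le (by positivity)
    have hz2 : t ^ 2 < z + 1 := Nat.lt_floor_add_one _
    have hzt : t ≤ z := by nlinarith
    have hz0 : (1 : ℝ) ≤ z := by linarith
    have hzn : 1 ≤ z := by exact_mod_cast hz0
    have hlz : Real.log y / 16 ≤ Real.log z := by
      have a1 : Real.log y = 16 * Real.log t := by
        rw [← ht16, Real.log_pow]
        norm_num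
      have a2 := Real.log_le_log ht0 hzt
      linarith
    have hlz0 : 0 < Real.log z := by linarith
    have s1 := sieve_q q b u h z hq hb hzn
    have s2 := Gq_lower q z hq hzn
    rw [← hC2d, ← hφd] at s2
    have hG : 0 < Gq q z := by
      have : 0 < Real.log z * (φ / q) := by positivity
      by_contra hcon
      push Not at hcon
      nlinarith
    have h1 : (h : ℝ) / (q * Gq q z) ≤ 16 * C2 * Y := by
      rw [hY, mul_div_assoc', div_le_div_iff₀ (by positivity) (by positivity)]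
      have a1 : φ * Real.log y ≤ 16 * C2 * (q * Gq q z) := by
        have a2 : Real.log z * φ ≤ C2 * Gq q z * q := by
          have a3 := mul_le_mul_of_nonneg_right s2 hq0.le
          have a4 : Real.log z * (φ / q) * q = Real.log z * φ := by field_simp
          rw [a4] at a3
          exact a3
        have a5 : Real.log y * φ ≤ 16 * Real.log z * φ := by
          apply mul_le_mul_of_nonneg_right _ (by linarith)
          linarith
        linarith
      have hh0 : (0 : ℝ) ≤ h := Nat.cast_nonneg h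
      calc (h : ℝ) * (φ * Real.log y) ≤ h * (16 * C2 * (q * Gq q z)) := mul_le_mul_of_nonneg_left a1 hh0
        _ = 16 * C2 * h * (q * Gq q z) := by ring
    have h2 : (z : ℝ) + (z : ℝ) ^ 4 ≤ 4 * Y := by
      have a1 : (z : ℝ) ≤ (z : ℝ) ^ 4 := by
        calc (z : ℝ) = (z : ℝ) ^ 1 := (pow_one _).symm
          _ ≤ (z : ℝ) ^ 4 := pow_le_pow_right₀ hz0 (by norm_num)
      have a2 : (z : ℝ) ^ 4 ≤ t ^ 8 := by
        calc (z : ℝ) ^ 4 ≤ (t ^ 2) ^ 4 := pow_le_pow_left₀ (by positivity) hz1 4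
          _ = t ^ 8 := by ring
      have a3 : Real.log y ≤ 2 * t ^ 8 := by
        have b1 : Real.log y = 2 * Real.log (t ^ 8) := by
          rw [← ht16, show t ^ 16 = (t ^ 8) ^ 2 by ring, Real.log_pow]
          norm_num
        rw [b1]
        have := Real.log_le_self (by positivity : (0 : ℝ) ≤ t ^ 8)
        linarith
      have a4 : 2 * t ^ 8 ≤ 4 * (y / Real.log y) := by
        rw [mul_div_assoc', le_div_iff₀ hlog]
        calc 2 * t ^ 8 * Real.log y ≤ 2 * t ^ 8 * (2 * t ^ 8) := mul_le_mul_of_nonneg_left a3 (by positivity)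
          _ = 4 * y := by rw [← ht16]; ring
      linarith
    calc _ ≤ (h : ℝ) / (q * Gq q z) + z + (z : ℝ) ^ 4 := s1
      _ ≤ 16 * C2 * Y + 4 * Y := by linarith
      _ ≤ (16 * C2 + 24) * Y := by nlinarith

end Pool.Agent.Helper5.RS
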