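import Pool.Agent.Helper5.RS.Defs

/-!
# Block RS-L5: `VF` for `H > N / B`

Expand the squares: `VF - mF = ∑_{m1 ≠ m2} rf T m1 * rf T m2 * ∑_{l} e (l (m1 - m2) θ)`, `m1, m2` squarefree `≤ N / H` (for `l ≥ H`), the inner sum over the `l ∈ [H, 2H)` with `f ∣ l`, `l ≤ N / max m1 m2` (i.e. `max m1 m2 ≤ N / l`), `l` larger than the primes
of `m1`, `m2`; the diagonal is `mF` (`rf^2 = 1`). With `l = f l'` the inner sum is over an interval of `l'`, so at most `mn M (f (m1 - m2) θ)` (`geo`, any `M` larger than the length). `Far N θ D` at `m = f |m1 - m2| ≥ 1`: `D ≤ f |m1 - m2| + N nd (f (m1-m2) θ)`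
and `f |m1 - m2| ≤ f N / H ≤ f B ≤ D / 2` (`f ≤ B`, `B^4 ≤ D`, `B ≥ 36`), so `nd ≥ D / (2N)` and `mn ≤ N / D` (`mn_le_of_nd`). There are at most `(N/H)^2 ≤ B^2` pairs: `|VF - mF| ≤ B^2 N / D ≤ N / B`. Compare `RM/B8a.lean`.
-/

set_option autoImplicit false

namespace Pool.Agent.Helper5.RS

open Finset Pool.Agent.Helper5.RM

/-- multiples of `f` in an interval -/
private lemma reidx53 (g : ℕ → ℂ) (a b f : ℕ) (hf : 1 ≤ f) :
    ∑ l ∈ (Finset.Icc a b).filter (fun l => f ∣ l), g l =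
      ∑ k ∈ Finset.Icc ((a + f - 1) / f) (b / f), g (f * k) := by
  refine Finset.sum_nbij' (fun l => l / f) (fun k => f * k) ?_ ?_ ?_ ?_ ?_
  · intro l hl
    rw [Finset.mem_filter, Finset.mem_Icc] at hl
    obtain ⟨⟨h1, h2⟩, k, rfl⟩ := hl
    have hk : f * k / f = k := Nat.mul_div_cancel_left k (by omega)
    simp only [hk, Finset.mem_Icc]
    constructor
    · have : (a + f - 1) / f < k + 1 := by
        rw [Nat.div_lt_iff_lt_mul (by omega)]
        have : (k + 1) * f = f * k + f := by ring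
        omega
      omega
    · rw [Nat.le_div_iff_mul_le (by omega), mul_comm]
      exact h2
  · intro k hk
    rw [Finset.mem_Icc] at hk
    obtain ⟨h1, h2⟩ := hk
    rw [Finset.mem_filter, Finset.mem_Icc]
    refine ⟨⟨?_, ?_⟩, Dvd.intro k rfl⟩
    · have h3 : (a + f - 1) / f < k + 1 := by omega
      rw [Nat.div_lt_iff_lt_mul (by omega)] at h3
      have : (k + 1) * f = f * k + f := by ring
      omega
    · rw [Nat.le_div_iff_mul_le (by omega), mul_comm] at h2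
      exact h2
  · intro l hl
    rw [Finset.mem_filter] at hl
    exact Nat.mul_div_cancel' hl.2
  · intro k _
    exact Nat.mul_div_cancel_left k (by omega)
  · intro l hl
    rw [Finset.mem_filter] at hl
    simp only [Nat.mul_div_cancel' hl.2]

/-- expansion of the squares: the deviation from the mean -/
private lemma gram53 (S M : Finset ℕ) (c : ℕ → ℝ) (hc : ∀ m ∈ M, c m * c m = 1) (lo hi : ℕ → ℕ) (θ : ℝ) :
    |∑ l ∈ S, ‖∑ m ∈ M.filter (fun m => lo m ≤ l ∧ l ≤ hi m), (c m : ℂ) * e (l * m * θ)‖ ^ 2 -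
        ∑ l ∈ S, ((M.filter (fun m => lo m ≤ l ∧ l ≤ hi m)).card : ℝ)| ≤
      ∑ m1 ∈ M, ∑ m2 ∈ M, if m1 = m2 then 0 else
        ‖∑ l ∈ S.filter (fun l => (lo m1 ≤ l ∧ l ≤ hi m1) ∧ (lo m2 ≤ l ∧ l ≤ hi m2)),
          e (l * (((m1 : ℝ) - m2) * θ))‖ := by
  classical
  set Y : ℕ → ℂ := fun l => ∑ m ∈ M, if lo m ≤ l ∧ l ≤ hi m then (c m : ℂ) * e (l * m * θ) else 0 with hY
  have h1 : ∀ l, ∑ m ∈ M.filter (fun m => lo m ≤ l ∧ l ≤ hi m), (c m : ℂ) * e (l * m * θ) = Y l := by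
    intro l
    rw [hY, Finset.sum_filter]
  have habs : ∀ m ∈ M, |c m| = 1 := by
    intro m hm
    have h := hc m hm
    have h2 : |c m| * |c m| = 1 := by rw [← abs_mul, h, abs_one]
    have h3 := abs_nonneg (c m)
    nlinarith
  simp only [h1]
  have h2 : ((∑ l ∈ S, ‖Y l‖ ^ 2 : ℝ) : ℂ) =
      ∑ m1 ∈ M, ∑ m2 ∈ M, ((c m1 : ℂ) * (c m2 : ℂ)) *
        ∑ l ∈ S.filter (fun l => (lo m1 ≤ l ∧ l ≤ hi m1) ∧ (lo m2 ≤ l ∧ l ≤ hi m2)),
        e (l * (((m1 : ℝ) - m2) * θ)) := by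
    have h3 : ∀ l, ((‖Y l‖ ^ 2 : ℝ) : ℂ) = ∑ m1 ∈ M, ∑ m2 ∈ M,
        (if lo m1 ≤ l ∧ l ≤ hi m1 then (c m1 : ℂ) * e (l * m1 * θ) else 0) *
        (starRingEnd ℂ) (if lo m2 ≤ l ∧ l ≤ hi m2 then (c m2 : ℂ) * e (l * m2 * θ) else 0) := by
      intro l
      rw [← Complex.normSq_eq_norm_sq, ← Complex.mul_conj]
      rw [hY]
      simp only []
      rw [map_sum, Finset.sum_mul_sum]
    rw [Complex.ofReal_sum]
    simp only [h3]
    rw [Finset.sum_comm]
    refine Finset.sum_congr rfl fun m1 _ => ?_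
    rw [Finset.sum_comm]
    refine Finset.sum_congr rfl fun m2 _ => ?_
    rw [Finset.sum_filter, Finset.mul_sum]
    refine Finset.sum_congr rfl fun l _ => ?_
    by_cases hA : lo m1 ≤ l ∧ l ≤ hi m1
    · by_cases hB : lo m2 ≤ l ∧ l ≤ hi m2
      · rw [if_pos hA, if_pos hB, if_pos ⟨hA, hB⟩, map_mul, ← e_neg, Complex.conj_ofReal]
        have h5 : e ((l : ℝ) * (((m1 : ℝ) - m2) * θ)) = e (l * m1 * θ) * e (-(l * m2 * θ)) := by
          rw [← e_add]; congr 1; ring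
        rw [h5]; ring
      · have hAB : ¬ ((lo m1 ≤ l ∧ l ≤ hi m1) ∧ (lo m2 ≤ l ∧ l ≤ hi m2)) := fun h => hB h.2
        rw [if_neg hB, if_neg hAB, map_zero, mul_zero, mul_zero]
    · have hAB : ¬ ((lo m1 ≤ l ∧ l ≤ hi m1) ∧ (lo m2 ≤ l ∧ l ≤ hi m2)) := fun h => hA h.1
      rw [if_neg hA, if_neg hAB, zero_mul, mul_zero]
  have hd : ((∑ l ∈ S, ((M.filter (fun m => lo m ≤ l ∧ l ≤ hi m)).card : ℝ) : ℝ) : ℂ) =
      ∑ m1 ∈ M, ∑ m2 ∈ M, if m1 = m2 then ((c m1 : ℂ) * (c m2 : ℂ)) *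
        ∑ l ∈ S.filter (fun l => (lo m1 ≤ l ∧ l ≤ hi m1) ∧ (lo m2 ≤ l ∧ l ≤ hi m2)),
        e (l * (((m1 : ℝ) - m2) * θ)) else 0 := by
    have hd1 : ∀ m1 ∈ M, (∑ m2 ∈ M, if m1 = m2 then ((c m1 : ℂ) * (c m2 : ℂ)) *
        ∑ l ∈ S.filter (fun l => (lo m1 ≤ l ∧ l ≤ hi m1) ∧ (lo m2 ≤ l ∧ l ≤ hi m2)),
        e (l * (((m1 : ℝ) - m2) * θ)) else 0) = ((∑ l ∈ S, if lo m1 ≤ l ∧ l ≤ hi m1 then (1 : ℝ) else 0 : ℝ) : ℂ) := by
      intro m1 hm1
      rw [Finset.sum_ite_eq, if_pos hm1]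
      have e1 : ((c m1 : ℂ) * (c m1 : ℂ)) = 1 := by
        rw [← Complex.ofReal_mul, hc m1 hm1, Complex.ofReal_one]
      rw [e1, one_mul]
      have e2 : ∀ l : ℕ, e ((l : ℝ) * (((m1 : ℝ) - m1) * θ)) = 1 := by
        intro l
        rw [sub_self, zero_mul, mul_zero, e_zero]
      simp only [e2, and_self]
      rw [Finset.sum_filter, Complex.ofReal_sum]
      refine Finset.sum_congr rfl fun l _ => ?_
      split_ifs <;> simp
    rw [Finset.sum_congr rfl hd1, ← Complex.ofReal_sum]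
    congr 1
    rw [Finset.sum_comm]
    refine Finset.sum_congr rfl fun l _ => ?_
    rw [Finset.sum_boole]
  have h4 : |∑ l ∈ S, ‖Y l‖ ^ 2 - ∑ l ∈ S, ((M.filter (fun m => lo m ≤ l ∧ l ≤ hi m)).card : ℝ)| =
      ‖((∑ l ∈ S, ‖Y l‖ ^ 2 - ∑ l ∈ S, ((M.filter (fun m => lo m ≤ l ∧ l ≤ hi m)).card : ℝ) : ℝ) : ℂ)‖ := by
    rw [Complex.norm_real, Real.norm_eq_abs]
  rw [h4, Complex.ofReal_sub, h2, hd, ← Finset.sum_sub_distrib]
  refine (norm_sum_le _ _).trans (Finset.sum_le_sum fun m1 hm1 => ?_)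
  rw [← Finset.sum_sub_distrib]
  refine (norm_sum_le _ _).trans (Finset.sum_le_sum fun m2 hm2 => ?_)
  by_cases h : m1 = m2
  · rw [if_pos h, if_pos h, sub_self, norm_zero]
  · rw [if_neg h, if_neg h, sub_zero, norm_mul, norm_mul, Complex.norm_real, Complex.norm_real,
      Real.norm_eq_abs, Real.norm_eq_abs, habs m1 hm1, habs m2 hm2, one_mul, one_mul]

theorem fluct_large (N : ℕ) (θ D : ℝ) (hD4 : 4 ≤ D) (hDN : D ≤ N) (hF : Far N θ D) (B H f : ℕ)
    (hB36 : 36 ≤ B) (hBD : (B : ℝ) ^ 4 ≤ D) (hH : 1 ≤ H) (hH2 : N < B * H) (hf : 1 ≤ f) (hfB : f ≤ B)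
    (T : Finset ℕ) : |VF N θ H f T - mF N H f| ≤ (N : ℝ) / B := by
  classical
  have hN0 : (0:ℝ) < N := by linarith
  have hD0 : 0 < D := by linarith
  have hB0 : (36:ℝ) ≤ B := by exact_mod_cast hB36
  have hB2D : (B : ℝ) ^ 2 ≤ D / 2 := by
    have h1 : (2:ℝ) ≤ (B:ℝ) ^ 2 := by nlinarith
    have h2 : (B:ℝ) ^ 2 * 2 ≤ (B:ℝ) ^ 2 * (B:ℝ) ^ 2 := mul_le_mul_of_nonneg_left h1 (by positivity)
    have h3 : (B:ℝ) ^ 2 * (B:ℝ) ^ 2 = (B:ℝ) ^ 4 := by ring
    linarith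
  have hNHB : N / H < B := by
    rw [Nat.div_lt_iff_lt_mul (by omega)]
    exact hH2
  set M : Finset ℕ := (Finset.Icc 1 (N / H)).filter Squarefree with hM
  set lo : ℕ → ℕ := fun m => m.primeFactors.sup id + 1 with hlo
  set hi : ℕ → ℕ := fun m => N / m with hhi
  set S : Finset ℕ := (Finset.Ico H (2 * H)).filter (fun l => f ∣ l) with hS
  have hMcard : M.card ≤ N / H := by
    have := Finset.card_filter_le (Finset.Icc 1 (N / H)) Squarefree
    rw [Nat.card_Icc, Nat.add_sub_cancel] at this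
    exact this
  have hMcardB : (M.card : ℝ) ≤ B := by
    have : M.card ≤ B := by omega
    exact_mod_cast this
  have hMle : ∀ m ∈ M, 1 ≤ m ∧ m ≤ N / H := by
    intro m hm
    rw [hM, Finset.mem_filter, Finset.mem_Icc] at hm
    exact hm.1
  have hMP : ∀ l ∈ S, MP N l = M.filter (fun m => lo m ≤ l ∧ l ≤ hi m) := by
    intro l hl
    rw [hS, Finset.mem_filter, Finset.mem_Ico] at hl
    have hHl := hl.1.1
    have hl0 : 0 < l := by omega
    ext m
    unfold MP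
    rw [hM]
    simp only [Finset.mem_filter, Finset.mem_Icc, hlo, hhi]
    constructor
    · rintro ⟨⟨h1, h2⟩, h3, h4⟩
      have h2' : m * l ≤ N := (Nat.le_div_iff_mul_le hl0).1 h2
      refine ⟨⟨⟨h1, ?_⟩, h3⟩, ?_, ?_⟩
      · rw [Nat.le_div_iff_mul_le (by omega)]
        exact (Nat.mul_le_mul_left m hHl).trans h2'
      · have : m.primeFactors.sup id < l := by
          rw [Finset.sup_lt_iff (by simpa using hl0)]
          intro q hq
          exact h4 q hq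
        omega
      · rw [Nat.le_div_iff_mul_le (by omega), mul_comm]
        exact h2'
    · rintro ⟨⟨⟨h1, h2⟩, h3⟩, h4, h5⟩
      refine ⟨⟨h1, ?_⟩, h3, ?_⟩
      · rw [Nat.le_div_iff_mul_le hl0]
        rw [Nat.le_div_iff_mul_le (by omega), mul_comm] at h5
        exact h5
      · intro q hq
        have : q ≤ m.primeFactors.sup id := Finset.le_sup (f := id) hq
        omega
  have hVF : VF N θ H f T = ∑ l ∈ S,
      ‖∑ m ∈ M.filter (fun m => lo m ≤ l ∧ l ≤ hi m), (rf T m : ℂ) * e (l * m * θ)‖ ^ 2 := by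
    unfold VF XP
    refine Finset.sum_congr rfl fun l hl => ?_
    rw [hMP l hl]
  have hmF : mF N H f = ∑ l ∈ S, ((M.filter (fun m => lo m ≤ l ∧ l ≤ hi m)).card : ℝ) := by
    unfold mF
    refine Finset.sum_congr rfl fun l hl => ?_
    rw [hMP l hl]
  have hc : ∀ m ∈ M, rf T m * rf T m = 1 := by
    intro m hm
    rw [hM, Finset.mem_filter] at hm
    exact rf_mul_self hm.2
  rw [hVF, hmF]
  refine (gram53 S M (fun m => rf T m) hc lo hi θ).trans ?_
  -- bound of one pair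
  have hpair : ∀ m1 ∈ M, ∀ m2 ∈ M, (if m1 = m2 then (0 : ℝ) else
        ‖∑ l ∈ S.filter (fun l => (lo m1 ≤ l ∧ l ≤ hi m1) ∧ (lo m2 ≤ l ∧ l ≤ hi m2)),
          e (l * (((m1 : ℝ) - m2) * θ))‖) ≤ N / D := by
    intro m1 h1 m2 h2
    by_cases h : m1 = m2
    · rw [if_pos h]
      positivity
    · rw [if_neg h]
      have hset : S.filter (fun l => (lo m1 ≤ l ∧ l ≤ hi m1) ∧ (lo m2 ≤ l ∧ l ≤ hi m2)) =
          (Finset.Icc (max H (max (lo m1) (lo m2))) (min (2 * H - 1) (min (hi m1) (hi m2)))).filter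
            (fun l => f ∣ l) := by
        ext l
        rw [hS]
        simp only [Finset.mem_Icc, Finset.mem_filter, Finset.mem_Ico, max_le_iff, le_min_iff]
        constructor
        · rintro ⟨⟨⟨h1, h2⟩, h3⟩, ⟨h4, h5⟩, h6, h7⟩
          exact ⟨⟨⟨h1, h4, h6⟩, by omega, h5, h7⟩, h3⟩
        · rintro ⟨⟨⟨h1, h4, h6⟩, h2, h5, h7⟩, h3⟩
          exact ⟨⟨⟨h1, by omega⟩, h3⟩, ⟨h4, h5⟩, h6, h7⟩
      rw [hset, reidx53 _ _ _ f hf]
      set a' := (max H (max (lo m1) (lo m2)) + f - 1) / f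
      set b' := min (2 * H - 1) (min (hi m1) (hi m2)) / f
      have hre : ∑ k ∈ Finset.Icc a' b', e (((f * k : ℕ) : ℝ) * (((m1 : ℝ) - m2) * θ)) =
          ∑ k ∈ Finset.Icc a' b', e ((k : ℝ) * ((f : ℝ) * (((m1 : ℝ) - m2) * θ))) := by
        refine Finset.sum_congr rfl fun k _ => ?_
        congr 1
        push_cast
        ring
      rw [hre]
      have hg := geo a' b' ((b' : ℝ) + 1) ((f : ℝ) * (((m1 : ℝ) - m2) * θ)) (by positivity)
        (by have : (0:ℝ) ≤ (a' : ℝ) := Nat.cast_nonneg _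
            linarith)
      refine hg.trans ?_
      obtain ⟨m, hm1, hmle, hmnd⟩ : ∃ m : ℕ, 1 ≤ m ∧ m ≤ f * (N / H) ∧
          nd ((f : ℝ) * (((m1 : ℝ) - m2) * θ)) = nd ((m : ℝ) * θ) := by
        have b1 := hMle m1 h1
        have b2 := hMle m2 h2
        rcases lt_or_gt_of_ne h with hlt | hgt
        · refine ⟨f * (m2 - m1), Nat.mul_pos hf (by omega), Nat.mul_le_mul_left f (by omega), ?_⟩
          rw [Nat.cast_mul, Nat.cast_sub hlt.le, ← nd_neg]
          congr 1; ring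
        · refine ⟨f * (m1 - m2), Nat.mul_pos hf (by omega), Nat.mul_le_mul_left f (by omega), ?_⟩
          rw [Nat.cast_mul, Nat.cast_sub (le_of_lt hgt)]
          congr 1; ring
      have h4 := hF m hm1
      have h5 : (m : ℝ) ≤ D / 2 := by
        have k1 : m ≤ B * B := hmle.trans (Nat.mul_le_mul hfB (by omega))
        have k2 : (m : ℝ) ≤ (B : ℝ) * B := by exact_mod_cast k1
        nlinarith
      have h6 : D / (2 * N) ≤ nd ((m : ℝ) * θ) := by
        rw [div_le_iff₀ (by positivity)]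
        nlinarith
      rw [← hmnd] at h6
      have h7 := mn_le_of_nd (M := (b' : ℝ) + 1) (x := (f : ℝ) * (((m1 : ℝ) - m2) * θ)) (c := D / (2 * N))
        (by positivity) h6
      refine h7.trans (le_of_eq ?_)
      field_simp
  calc _ ≤ ∑ m1 ∈ M, ∑ m2 ∈ M, (N : ℝ) / D :=
        Finset.sum_le_sum fun m1 h1 => Finset.sum_le_sum fun m2 h2 => hpair m1 h1 m2 h2
    _ = M.card * M.card * (N / D) := by
        simp only [Finset.sum_const, nsmul_eq_mul]
        ring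
    _ ≤ B * B * (N / D) := by
        have k0 : (0:ℝ) ≤ M.card := Nat.cast_nonneg _
        gcongr
    _ ≤ (N : ℝ) / B := by
        have hBp : (0:ℝ) < B := by linarith
        rw [mul_div_assoc', div_le_div_iff₀ hD0 hBp]
        have k1 : (B:ℝ) * B * B ≤ (B:ℝ) ^ 4 := by
          have : (B:ℝ) ^ 4 = B * B * B * B := by ring
          rw [this]
          have k2 : (0:ℝ) ≤ (B:ℝ) * B * B := by positivity
          nlinarith
        have k3 : (B:ℝ) * B * B ≤ D := k1.trans hBD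
        calc (B:ℝ) * B * N * B = N * (B * B * B) := by ring
          _ ≤ N * D := mul_le_mul_of_nonneg_left k3 hN0.le

end Pool.Agent.Helper5.RS
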