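import Pool.Agent.Helper5.RS.Defs

/-!
# Block RS-N2b: the asymptotic inequalities (real analysis only)

`L = 2^i` (real), `β = ⌈L^(1-δ)⌉`, `z = 2^β`; `L^(1-δ) ≤ β ≤ 2 L^(1-δ)` for `i ≥ 1`, `log z = β log 2`, `β ≥ L^(3/4)`. All inequalities hold for large `i`:
(a)-(c), (e): taking logarithms to base 2, the left sides are `O(i)` (`L = 2^i`), the right side of (a), (b), (e) is `β ≥ 2^(3i/4)`; (c): `β ≤ 2L`; (d) `κ0 i ≤ 4 * 2^i`.
(f) `log (4N) ≤ 2L + 2 ≤ 4 L`, `log z ≥ L^(1-δ)/2`, so `1 + log (4N)/log z ≤ 9 L^δ` and the left side is at most `C 9^(4W) L^(4Wδ) * 2 L^(-1+δ) = C' L^(-1+(1+4W)δ) ≤ L^(-1+ε/2)` as `(1+4W) δ ≤ ε/4`; also `≤ 1` as `(1+4W) δ ≤ 1/2`.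
(g) divide by `N`: `4 N^(-1/2) ≤ 4 * 2^(-L/2)`, and `log N / (2 log z) ≥ L/(2β) ≥ L^δ/4`, `(1 + log z)^12 ≤ (3 L)^12`: `4 exp (-L^δ/4) (3L)^12 exp 18`; both `≤ 1/(6 L^K)` for large `i` (`L^δ = 2^(δ i)`, `exp (-2^(δ i)/4)` beats `2^(-(K+13) i)`).
Use `Filter.Tendsto` lemmas (`tendsto_pow_const_mul_const_pow_of_abs_lt_one`, `Real.tendsto_pow_mul_exp_neg_atTop_nhds_zero`, `tendsto_rpow_atTop`) or elementary bounds, whichever is easier.
-/

set_option autoImplicit false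

namespace Pool.Agent.Helper5.RS

open Finset Pool.Agent.Helper5.RM

private theorem as21_GL (a b c : ℝ) (hc : 0 < c) :
    ∃ i0 : ℕ, ∀ i : ℕ, i0 ≤ i → a * i + b ≤ (2 : ℝ) ^ (c * (i : ℝ)) := by
  have hl : 0 < Real.log 2 := Real.log_pos one_lt_two
  have hcl : 0 < (c * Real.log 2) ^ 2 := by positivity
  refine ⟨⌈2 * (|a| + |b|) / (c * Real.log 2) ^ 2⌉₊ + 1, fun i hi => ?_⟩
  have h1 : (⌈2 * (|a| + |b|) / (c * Real.log 2) ^ 2⌉₊ : ℝ) + 1 ≤ i := by exact_mod_cast hi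
  have h2 : 2 * (|a| + |b|) / (c * Real.log 2) ^ 2 ≤ i :=
    (Nat.le_ceil _).trans (by linarith)
  have h3 : (1 : ℝ) ≤ i := by
    have : (0 : ℝ) ≤ (⌈2 * (|a| + |b|) / (c * Real.log 2) ^ 2⌉₊ : ℝ) := Nat.cast_nonneg _
    linarith
  rw [div_le_iff₀ hcl] at h2
  have h4 : (2 : ℝ) ^ (c * (i : ℝ)) = Real.exp (c * Real.log 2 * i) := by
    rw [Real.rpow_def_of_pos two_pos]
    congr 1
    ring
  have h5 : 0 ≤ c * Real.log 2 * i := by positivity
  have h6 := Real.quadratic_le_exp_of_nonneg h5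
  rw [h4]
  have h7 : (|a| + |b|) * i ≤ (c * Real.log 2 * i) ^ 2 / 2 := by
    have := mul_le_mul_of_nonneg_right h2 (show (0 : ℝ) ≤ i by linarith)
    nlinarith
  have h8 : a * i ≤ |a| * i := mul_le_mul_of_nonneg_right (le_abs_self a) (by linarith)
  have h9 : b ≤ |b| * i := (le_abs_self b).trans (le_mul_of_one_le_right (abs_nonneg b) h3)
  linarith

theorem asym (C1 K κ0 W : ℕ) (C ε δ : ℝ) (hC : 0 < C) (hε : 0 < ε) (hδ : 0 < δ) (hδ1 : δ ≤ 1 / 4)
    (hδ2 : (1 + 4 * (W : ℝ)) * δ ≤ ε / 4) (hδ3 : (1 + 4 * (W : ℝ)) * δ ≤ 1 / 2) :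
    ∃ i0 : ℕ, ∀ i : ℕ, i0 ≤ i → ∃ z : ℕ, 4 ≤ z ∧ 2 ^ (κ0 * i) ≤ z ∧ (2 ^ i) ^ C1 ≤ z ∧ z ≤ 2 ^ (2 * 2 ^ i) ∧
      κ0 * i ≤ 4 * 2 ^ i ∧ ((8 * (2 ^ i) ^ C1 * 2 ^ (κ0 * i + 1) : ℕ) : ℝ) ^ 2 ≤ z ∧
      (∀ N : ℕ, 2 ^ 2 ^ i ≤ N → N ≤ 2 ^ (2 * 2 ^ i) →
        C * (1 + Real.log (4 * N) / Real.log z) ^ (4 * W) / Real.log z ≤ ((2 : ℝ) ^ i) ^ (-1 + ε / 2) ∧
        C * (1 + Real.log (4 * N) / Real.log z) ^ (4 * W) / Real.log z ≤ 1 ∧
        4 * (Real.sqrt N + N * Real.exp (-(Real.log N / (2 * Real.log z))) *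
          ((1 + Real.log z) ^ 12 * Real.exp 18)) ≤ N / (3 * ((2 : ℝ) ^ i) ^ K)) := by
  obtain ⟨i1, h1⟩ := as21_GL (2 * ((C1 : ℝ) + κ0)) 8 (3 / 4) (by norm_num)
  obtain ⟨i2, h2⟩ := as21_GL 0 (2 * C * 9 ^ (4 * W)) (ε / 4) (by positivity)
  obtain ⟨i3, h3⟩ := as21_GL 0 (2 * C * 9 ^ (4 * W)) (1 / 2) (by norm_num)
  obtain ⟨i4, h4⟩ := as21_GL (2 * (K : ℝ)) 10 1 one_pos
  obtain ⟨i5, h5⟩ := as21_GL (4 * ((K : ℝ) + 12)) 136 δ hδ
  refine ⟨i1 + i2 + i3 + i4 + i5 + 2, fun i hi => ?_⟩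
  replace h1 := h1 i (by omega)
  replace h2 := h2 i (by omega)
  replace h3 := h3 i (by omega)
  replace h4 := h4 i (by omega)
  replace h5 := h5 i (by omega)
  have hi2 : (2 : ℝ) ≤ i := by exact_mod_cast (show 2 ≤ i by omega)
  have hl2 : 0 < Real.log 2 := Real.log_pos one_lt_two
  have hl2' : Real.log 2 ≤ 1 := by
    have := Real.log_two_lt_d9
    linarith
  have hl2'' : 1 / 2 ≤ Real.log 2 := by
    have := Real.log_two_gt_d9
    linarith
  -- the parameters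
  obtain ⟨L, hL⟩ : ∃ L : ℝ, L = 2 ^ i := ⟨_, rfl⟩
  obtain ⟨y, hy⟩ : ∃ y : ℝ, y = (2 : ℝ) ^ (δ * (i : ℝ)) := ⟨_, rfl⟩
  obtain ⟨B, hB⟩ : ∃ B : ℝ, B = (2 : ℝ) ^ ((1 - δ) * (i : ℝ)) := ⟨_, rfl⟩
  have hL0 : 0 < L := by rw [hL]; positivity
  have hy0 : 0 < y := by rw [hy]; positivity
  have hB0 : 0 < B := by rw [hB]; positivity
  have hLr : L = (2 : ℝ) ^ (i : ℝ) := by rw [hL, Real.rpow_natCast]
  have hBy : B * y = L := by
    rw [hB, hy, ← Real.rpow_add two_pos, hLr]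
    congr 1
    ring
  have hB34 : (2 : ℝ) ^ (3 / 4 * (i : ℝ)) ≤ B := by
    rw [hB]
    exact Real.rpow_le_rpow_of_exponent_le one_le_two
      (mul_le_mul_of_nonneg_right (by linarith) (by linarith))
  have hBL : B ≤ L := by
    rw [hB, hLr]
    refine Real.rpow_le_rpow_of_exponent_le one_le_two ?_
    nlinarith
  have hy1 : 1 ≤ y := by
    rw [hy]
    exact Real.one_le_rpow one_le_two (by positivity)
  have hCκ : (0 : ℝ) ≤ 2 * ((C1 : ℝ) + κ0) := by positivity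
  have hB8 : 2 * ((C1 : ℝ) + κ0) * i + 8 ≤ B := h1.trans hB34
  have hB8' : 8 ≤ B := by
    have : 0 ≤ 2 * ((C1 : ℝ) + κ0) * i := by positivity
    linarith
  obtain ⟨β, hβ⟩ : ∃ β : ℕ, β = ⌈B⌉₊ := ⟨_, rfl⟩
  have hβ1 : B ≤ β := by rw [hβ]; exact Nat.le_ceil _
  have hβ2 : (β : ℝ) ≤ 2 * B := by
    have := Nat.ceil_lt_add_one hB0.le
    rw [hβ]
    linarith
  have hβL : β ≤ 2 ^ i := by
    rw [hβ, Nat.ceil_le]
    rw [hL] at hBL
    exact_mod_cast hBL
  have hβL' : (β : ℝ) ≤ L := by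
    rw [hL]
    exact_mod_cast hβL
  have hβ8 : 2 * (C1 + κ0) * i + 8 ≤ β := by
    have : 2 * ((C1 : ℝ) + κ0) * i + 8 ≤ β := hB8.trans hβ1
    exact_mod_cast this
  have hβpos : (0 : ℝ) < β := by linarith
  have hz : Real.log ((2 ^ β : ℕ) : ℝ) = β * Real.log 2 := by
    push_cast
    rw [Real.log_pow]
  have e1 : κ0 * i ≤ (C1 + κ0) * i := Nat.mul_le_mul_right i (Nat.le_add_left κ0 C1)
  have e2 : C1 * i ≤ (C1 + κ0) * i := Nat.mul_le_mul_right i (Nat.le_add_right C1 κ0)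
  have e3 : 2 * (C1 + κ0) * i = 2 * ((C1 + κ0) * i) := by ring
  refine ⟨2 ^ β, ?_, ?_, ?_, ?_, ?_, ?_, ?_⟩
  · calc 4 = 2 ^ 2 := by norm_num
      _ ≤ 2 ^ β := Nat.pow_le_pow_right two_pos (by omega)
  · exact Nat.pow_le_pow_right two_pos (by omega)
  · rw [← pow_mul]
    refine Nat.pow_le_pow_right two_pos ?_
    rw [mul_comm i C1]
    omega
  · exact Nat.pow_le_pow_right two_pos (by omega)
  · have : κ0 * i ≤ 2 ^ i := by omega
    omega
  · have e4 : (8 * (2 ^ i) ^ C1 * 2 ^ (κ0 * i + 1)) ^ 2 ≤ 2 ^ β := by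
      have e5 : (8 * (2 ^ i) ^ C1 * 2 ^ (κ0 * i + 1)) ^ 2 = 2 ^ (2 * ((C1 + κ0) * i) + 8) := by
        have e6 : (8 : ℕ) = 2 ^ 3 := by norm_num
        rw [e6, ← pow_mul 2 i C1, ← pow_add, ← pow_add, ← pow_mul]
        congr 1
        ring
      rw [e5]
      exact Nat.pow_le_pow_right two_pos (by omega)
    exact_mod_cast e4
  · intro N hN1 hN2
    have hN1' : (2 : ℝ) ^ (2 ^ i) ≤ N := by exact_mod_cast hN1
    have hN2' : (N : ℝ) ≤ 2 ^ (2 * 2 ^ i) := by exact_mod_cast hN2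
    have hN0 : (0 : ℝ) < N := lt_of_lt_of_le (by positivity) hN1'
    have hlN1 : L * Real.log 2 ≤ Real.log N := by
      have := Real.log_le_log (by positivity) hN1'
      rw [Real.log_pow] at this
      push_cast at this
      rw [hL]
      exact this
    have hlN2 : Real.log N ≤ 2 * L * Real.log 2 := by
      have := Real.log_le_log hN0 hN2'
      rw [Real.log_pow] at this
      push_cast at this
      rw [hL]
      exact this
    have hlz : B / 2 ≤ Real.log ((2 ^ β : ℕ) : ℝ) := by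
      rw [hz]
      nlinarith
    have hlz0 : 0 < Real.log ((2 ^ β : ℕ) : ℝ) := by linarith
    have hL8 : 8 ≤ L := hB8'.trans hBL
    have hl4N : Real.log (4 * N) ≤ 4 * L := by
      rw [Real.log_mul (by norm_num) hN0.ne']
      have e4 : Real.log 4 = 2 * Real.log 2 := by
        rw [show (4 : ℝ) = 2 ^ 2 by norm_num, Real.log_pow]
        push_cast
        ring
      rw [e4]
      nlinarith
    have hl4N0 : 0 ≤ Real.log (4 * N) := by
      refine Real.log_nonneg ?_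
      have : (1 : ℝ) ≤ 2 ^ (2 ^ i) := one_le_pow₀ one_le_two
      linarith
    have hquot : 1 + Real.log (4 * N) / Real.log ((2 ^ β : ℕ) : ℝ) ≤ 9 * y := by
      have e4 : Real.log (4 * N) / Real.log ((2 ^ β : ℕ) : ℝ) ≤ 8 * y := by
        rw [div_le_iff₀ hlz0]
        calc Real.log (4 * N) ≤ 4 * L := hl4N
          _ = 8 * y * (B / 2) := by rw [← hBy]; ring
          _ ≤ 8 * y * Real.log ((2 ^ β : ℕ) : ℝ) := mul_le_mul_of_nonneg_left hlz (by positivity)
      linarith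
    have hquot0 : 0 ≤ 1 + Real.log (4 * N) / Real.log ((2 ^ β : ℕ) : ℝ) := by
      have := div_nonneg hl4N0 hlz0.le
      linarith
    -- the common bound
    have hmain : C * (1 + Real.log (4 * N) / Real.log ((2 ^ β : ℕ) : ℝ)) ^ (4 * W) /
        Real.log ((2 ^ β : ℕ) : ℝ) ≤
        2 * C * 9 ^ (4 * W) * (2 : ℝ) ^ ((1 + 4 * (W : ℝ)) * δ * i - i) := by
      have e4 : (1 + Real.log (4 * N) / Real.log ((2 ^ β : ℕ) : ℝ)) ^ (4 * W) ≤ (9 * y) ^ (4 * W) :=
        pow_le_pow_left₀ hquot0 hquot _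
      have e5 : (2 : ℝ) ^ ((1 + 4 * (W : ℝ)) * δ * i - i) = y ^ (4 * W) / B := by
        rw [hy, hB, ← Real.rpow_natCast ((2 : ℝ) ^ (δ * (i : ℝ))) (4 * W), ← Real.rpow_mul two_pos.le,
          ← Real.rpow_sub two_pos]
        congr 1
        push_cast
        ring
      rw [e5]
      calc C * (1 + Real.log (4 * N) / Real.log ((2 ^ β : ℕ) : ℝ)) ^ (4 * W) /
            Real.log ((2 ^ β : ℕ) : ℝ) ≤ C * (9 * y) ^ (4 * W) / (B / 2) := by
            refine div_le_div₀ (by positivity) (mul_le_mul_of_nonneg_left e4 hC.le) (by positivity) hlz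
        _ = 2 * C * 9 ^ (4 * W) * (y ^ (4 * W) / B) := by
            rw [mul_pow]
            field_simp
    refine ⟨?_, ?_, ?_⟩
    · refine hmain.trans ?_
      have e4 : ((2 : ℝ) ^ i) ^ (-1 + ε / 2) = (2 : ℝ) ^ (ε / 4 * (i : ℝ)) * (2 : ℝ) ^ (ε / 4 * i - i) := by
        rw [← Real.rpow_natCast 2 i, ← Real.rpow_mul two_pos.le, ← Real.rpow_add two_pos]
        congr 1
        ring
      rw [e4]
      have e5 : 2 * C * 9 ^ (4 * W) ≤ (2 : ℝ) ^ (ε / 4 * (i : ℝ)) := by linarith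
      refine mul_le_mul e5 ?_ (by positivity) (by positivity)
      refine Real.rpow_le_rpow_of_exponent_le one_le_two ?_
      have := mul_le_mul_of_nonneg_right hδ2 (show (0 : ℝ) ≤ i by linarith)
      linarith
    · refine hmain.trans ?_
      have e5 : 2 * C * 9 ^ (4 * W) ≤ (2 : ℝ) ^ (1 / 2 * (i : ℝ)) := by linarith
      have e6 : (2 : ℝ) ^ ((1 + 4 * (W : ℝ)) * δ * i - i) ≤ (2 : ℝ) ^ (-(1 / 2 * (i : ℝ))) := by
        refine Real.rpow_le_rpow_of_exponent_le one_le_two ?_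
        have := mul_le_mul_of_nonneg_right hδ3 (show (0 : ℝ) ≤ i by linarith)
        linarith
      calc 2 * C * 9 ^ (4 * W) * (2 : ℝ) ^ ((1 + 4 * (W : ℝ)) * δ * i - i) ≤
            (2 : ℝ) ^ (1 / 2 * (i : ℝ)) * (2 : ℝ) ^ (-(1 / 2 * (i : ℝ))) :=
            mul_le_mul e5 e6 (by positivity) (by positivity)
        _ = 1 := by rw [← Real.rpow_add two_pos, add_neg_cancel, Real.rpow_zero]
    · -- the last inequality
      rw [← hL]
      have hLK : 0 < L ^ K := pow_pos hL0 K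
      have g1 : 24 * L ^ K ≤ Real.sqrt N := by
        refine Real.le_sqrt_of_sq_le (le_trans ?_ hN1')
        have g2 : 10 + 2 * K * i ≤ 2 ^ i := by
          have : (10 : ℝ) + 2 * K * i ≤ 2 ^ i := by
            rw [one_mul, Real.rpow_natCast] at h4
            linarith
          exact_mod_cast this
        calc (24 * L ^ K) ^ 2 = 576 * 2 ^ (2 * K * i) := by
              rw [hL, mul_pow, ← pow_mul, ← pow_mul]
              norm_num
              ring
          _ ≤ 2 ^ 10 * 2 ^ (2 * K * i) :=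
              mul_le_mul_of_nonneg_right (by norm_num) (by positivity)
          _ = 2 ^ (10 + 2 * K * i) := by rw [← pow_add]
          _ ≤ 2 ^ (2 ^ i) := pow_le_pow_right₀ one_le_two g2
      have g3 : 4 * Real.sqrt N ≤ N / (6 * L ^ K) := by
        rw [le_div_iff₀ (by positivity)]
        calc 4 * Real.sqrt N * (6 * L ^ K) = Real.sqrt N * (24 * L ^ K) := by ring
          _ ≤ Real.sqrt N * Real.sqrt N := mul_le_mul_of_nonneg_left g1 (Real.sqrt_nonneg _)
          _ = N := Real.mul_self_sqrt hN0.le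
      have g4 : y / 4 ≤ Real.log N / (2 * Real.log ((2 ^ β : ℕ) : ℝ)) := by
        rw [hz, le_div_iff₀ (by positivity)]
        calc y / 4 * (2 * (β * Real.log 2)) = y * β / 2 * Real.log 2 := by ring
          _ ≤ y * (2 * B) / 2 * Real.log 2 := by
              refine mul_le_mul_of_nonneg_right ?_ hl2.le
              have := mul_le_mul_of_nonneg_left hβ2 hy0.le
              linarith
          _ = L * Real.log 2 := by rw [← hBy]; ring
          _ ≤ Real.log N := hlN1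
      have g5 : 1 + Real.log ((2 ^ β : ℕ) : ℝ) ≤ 2 * L := by
        rw [hz]
        nlinarith
      have g6 : 24 * L ^ K * ((2 * L) ^ 12 * Real.exp 18) ≤ Real.exp (y / 4) := by
        have hLe : L ≤ Real.exp i := by
          rw [hL, ← Real.exp_one_pow i]
          refine pow_le_pow_left₀ two_pos.le ?_ i
          have := Real.add_one_le_exp (1 : ℝ)
          linarith
        have h2e : (2 : ℝ) ≤ Real.exp 1 := by
          have := Real.add_one_le_exp (1 : ℝ)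
          linarith
        have h24 : (24 : ℝ) ≤ Real.exp 4 := by
          have := Real.exp_one_gt_d9
          have e7 : Real.exp 4 = Real.exp 1 ^ 4 := by
            rw [← Real.exp_nat_mul]
            norm_num
          rw [e7]
          calc (24 : ℝ) ≤ 2.7 ^ 4 := by norm_num
            _ ≤ Real.exp 1 ^ 4 := pow_le_pow_left₀ (by norm_num) (by linarith) 4
        have e8 : (2 * L) ^ 12 ≤ Real.exp (12 + 12 * i) := by
          calc (2 * L) ^ 12 ≤ (Real.exp 1 * Real.exp i) ^ 12 :=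
                pow_le_pow_left₀ (by positivity) (mul_le_mul h2e hLe hL0.le (Real.exp_pos _).le) 12
            _ = Real.exp (12 + 12 * i) := by
                rw [← Real.exp_add, ← Real.exp_nat_mul]
                congr 1
                push_cast
                ring
        have e9 : L ^ K ≤ Real.exp (K * i) := by
          calc L ^ K ≤ (Real.exp i) ^ K := pow_le_pow_left₀ hL0.le hLe K
            _ = Real.exp (K * i) := by rw [← Real.exp_nat_mul]
        calc 24 * L ^ K * ((2 * L) ^ 12 * Real.exp 18) ≤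
              Real.exp 4 * Real.exp (K * i) * (Real.exp (12 + 12 * i) * Real.exp 18) := by
              refine mul_le_mul (mul_le_mul h24 e9 hLK.le (Real.exp_pos _).le)
                (mul_le_mul_of_nonneg_right e8 (Real.exp_pos _).le) (by positivity) (by positivity)
          _ = Real.exp (((K : ℝ) + 12) * i + 34) := by
              rw [← Real.exp_add, ← Real.exp_add, ← Real.exp_add]
              congr 1
              ring
          _ ≤ Real.exp (y / 4) := by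
              refine Real.exp_le_exp.2 ?_
              rw [← hy] at h5
              linarith
      have g7 : 4 * (N * Real.exp (-(Real.log N / (2 * Real.log ((2 ^ β : ℕ) : ℝ)))) *
          ((1 + Real.log ((2 ^ β : ℕ) : ℝ)) ^ 12 * Real.exp 18)) ≤ N / (6 * L ^ K) := by
        rw [le_div_iff₀ (by positivity)]
        have g8 : Real.exp (-(Real.log N / (2 * Real.log ((2 ^ β : ℕ) : ℝ)))) ≤ Real.exp (-(y / 4)) :=
          Real.exp_le_exp.2 (by linarith)
        have g9 : (1 + Real.log ((2 ^ β : ℕ) : ℝ)) ^ 12 ≤ (2 * L) ^ 12 :=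
          pow_le_pow_left₀ (by linarith) g5 12
        calc 4 * (N * Real.exp (-(Real.log N / (2 * Real.log ((2 ^ β : ℕ) : ℝ)))) *
              ((1 + Real.log ((2 ^ β : ℕ) : ℝ)) ^ 12 * Real.exp 18)) * (6 * L ^ K) ≤
              4 * (N * Real.exp (-(y / 4)) * ((2 * L) ^ 12 * Real.exp 18)) * (6 * L ^ K) := by
              gcongr
          _ = N * Real.exp (-(y / 4)) * (24 * L ^ K * ((2 * L) ^ 12 * Real.exp 18)) := by ring
          _ ≤ N * Real.exp (-(y / 4)) * Real.exp (y / 4) :=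
              mul_le_mul_of_nonneg_left g6 (by positivity)
          _ = N := by rw [mul_assoc, ← Real.exp_add, neg_add_cancel, Real.exp_zero, mul_one]
      calc 4 * (Real.sqrt N + N * Real.exp (-(Real.log N / (2 * Real.log ((2 ^ β : ℕ) : ℝ)))) *
            ((1 + Real.log ((2 ^ β : ℕ) : ℝ)) ^ 12 * Real.exp 18)) =
            4 * Real.sqrt N + 4 * (N * Real.exp (-(Real.log N / (2 * Real.log ((2 ^ β : ℕ) : ℝ)))) *
            ((1 + Real.log ((2 ^ β : ℕ) : ℝ)) ^ 12 * Real.exp 18)) := by ring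
        _ ≤ N / (6 * L ^ K) + N / (6 * L ^ K) := add_le_add g3 g7
        _ = N / (3 * L ^ K) := by
            field_simp
            norm_num

end Pool.Agent.Helper5.RS
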