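import Pool.Agent.Helper5.RS.Defs

/-!
# Block RS-S3: the sum of `1/p` over `z < p ≤ x`

For every `k ≥ 1`: `∑_{p prime, Nat.log 2 p = k} 1/p ≤ 4 / k` (private lemma `PRB_block_inv` of `RM/PRB.lean`, copy it, or `Pool.Agent.Helper66.MB.block_inv`).
The primes `z < p ≤ x` have `k0 ≤ Nat.log 2 p ≤ k1` with `k0 = Nat.log 2 z ≥ 1`, `k1 = Nat.log 2 x`. So the sum is at most `4 ∑_{k=k0}^{k1} 1/k ≤ 4 (1/k0 + log (k1/k0)) ≤ 4 + 4 log (k1/k0)`.
`k1 ≤ log x / log 2` and `k0 ≥ (log z / log 2) / 2` (`⌊y⌋ ≥ y/2` for `y ≥ 1`), so `k1 / k0 ≤ 2 log x / log z` and `C = 4 + 4 log 2` works.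
-/

set_option autoImplicit false

namespace Pool.Agent.Helper5.RS

open Finset Pool.Agent.Helper5.RM

/-- the sum over one dyadic block (same proof as in `RM/PRB.lean`) -/
private theorem RS30_block_inv (x k : ℕ) (hk : 1 ≤ k) :
    ∑ p ∈ ((Icc 1 x).filter Nat.Prime).filter (fun p => Nat.log 2 p = k), (1 : ℝ) / p ≤ 4 / k := by
  have hk0 : (0 : ℝ) < k := by exact_mod_cast hk
  have hl2 : 0 < Real.log 2 := Real.log_pos (by norm_num)
  have hp2 : (0 : ℝ) < 2 ^ k := by positivity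
  have hth := Chebyshev.theta_le_log4_mul_x (x := ((2 ^ (k + 1) : ℕ) : ℝ)) (Nat.cast_nonneg _)
  rw [Chebyshev.theta_eq_sum_Icc, Nat.floor_natCast] at hth
  have h1 : ∑ p ∈ ((Icc 1 x).filter Nat.Prime).filter (fun p => Nat.log 2 p = k), (1 : ℝ) / p ≤
      ∑ p ∈ ((Icc 1 x).filter Nat.Prime).filter (fun p => Nat.log 2 p = k),
        Real.log p * (1 / (k * Real.log 2 * 2 ^ k)) := by
    refine Finset.sum_le_sum fun p hp => ?_
    rw [mem_filter, mem_filter] at hp
    obtain ⟨⟨_, hpp⟩, hpk⟩ := hp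
    have h2 : 2 ^ k ≤ p := by rw [← hpk]; exact Nat.pow_log_le_self 2 hpp.ne_zero
    have h2' : (2 : ℝ) ^ k ≤ p := by exact_mod_cast h2
    have h3 : (k : ℝ) * Real.log 2 ≤ Real.log p := by
      rw [← Real.log_pow]
      exact Real.log_le_log hp2 h2'
    have h4 : (1 : ℝ) / p ≤ 1 / 2 ^ k := one_div_le_one_div_of_le hp2 h2'
    refine h4.trans ?_
    have h5 : (1 : ℝ) / 2 ^ k = (k * Real.log 2) * (1 / (k * Real.log 2 * 2 ^ k)) := by
      field_simp
    rw [h5]
    exact mul_le_mul_of_nonneg_right h3 (by positivity)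
  refine h1.trans ?_
  rw [← Finset.sum_mul]
  have h6 : ∑ p ∈ ((Icc 1 x).filter Nat.Prime).filter (fun p => Nat.log 2 p = k), Real.log p ≤
      ∑ p ∈ (Icc 0 (2 ^ (k + 1))).filter Nat.Prime, Real.log p := by
    refine Finset.sum_le_sum_of_subset_of_nonneg ?_ ?_
    · intro p hp
      rw [mem_filter, mem_filter] at hp
      obtain ⟨⟨_, hpp⟩, hpk⟩ := hp
      rw [mem_filter, mem_Icc]
      refine ⟨⟨Nat.zero_le _, ?_⟩, hpp⟩
      have := Nat.lt_pow_succ_log_self (b := 2) (by norm_num) p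
      rw [hpk] at this
      exact this.le
    · intro p _ _
      exact Real.log_natCast_nonneg p
  have h7 := h6.trans hth
  have h8 : (0 : ℝ) ≤ 1 / (k * Real.log 2 * 2 ^ k) := by positivity
  refine (mul_le_mul_of_nonneg_right h7 h8).trans (le_of_eq ?_)
  have h9 : Real.log 4 = 2 * Real.log 2 := by
    rw [show (4 : ℝ) = 2 ^ 2 by norm_num, Real.log_pow]; norm_num
  rw [h9]
  push_cast
  rw [pow_succ]
  field_simp
  norm_num

private theorem RS30_harm (k0 k1 : ℕ) (h0 : 1 ≤ k0) (h1 : k0 ≤ k1) :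
    ∑ k ∈ Icc k0 k1, 1 / (k : ℝ) ≤ 1 + Real.log ((k1 : ℝ) / k0) := by
  have hk0 : (1 : ℝ) ≤ k0 := by exact_mod_cast h0
  induction k1, h1 using Nat.le_induction with
  | base =>
    rw [Icc_self, sum_singleton, div_self (by linarith), Real.log_one, add_zero,
      div_le_one (by linarith)]
    exact hk0
  | succ n hn ih =>
    have hn0 : (1 : ℝ) ≤ n := hk0.trans (by exact_mod_cast hn)
    rw [Finset.sum_Icc_succ_top (by omega), add_comm]
    have h2 := Real.one_sub_inv_le_log_of_pos (show (0 : ℝ) < ((n : ℝ) + 1) / n by positivity)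
    have h3 : 1 - (((n : ℝ) + 1) / n)⁻¹ = 1 / (((n + 1 : ℕ) : ℝ)) := by
      push_cast
      field_simp
      ring
    rw [h3] at h2
    have h4 : Real.log (((n + 1 : ℕ) : ℝ) / k0) = Real.log (((n : ℝ) + 1) / n) + Real.log ((n : ℝ) / k0) := by
      rw [← Real.log_mul (by positivity) (by positivity)]
      congr 1
      push_cast
      field_simp
    rw [h4]
    linarith

theorem prime_inv_rough : ∃ C : ℝ, 0 ≤ C ∧ ∀ z x : ℕ, 2 ≤ z → z ≤ x →
    ∑ p ∈ (PP x).filter (fun p => z < p), (1 : ℝ) / p ≤ 4 * Real.log (Real.log x / Real.log z) + C := by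
  have hl2 : (0 : ℝ) < Real.log 2 := Real.log_pos (by norm_num)
  refine ⟨4 + 4 * Real.log 2, by positivity, fun z x hz hzx => ?_⟩
  set k0 : ℕ := Nat.log 2 z with hk0
  set k1 : ℕ := Nat.log 2 x with hk1
  have h01 : k0 ≤ k1 := Nat.log_mono_right hzx
  have h0 : 1 ≤ k0 := by
    rw [hk0, Nat.le_log_iff_pow_le (by norm_num) (by omega)]
    simpa using hz
  have hmaps : ∀ p ∈ (PP x).filter (fun p => z < p), Nat.log 2 p ∈ Icc k0 k1 := by
    intro p hp
    rw [mem_filter] at hp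
    obtain ⟨hp1, hp2⟩ := hp
    unfold PP at hp1
    rw [mem_filter, mem_Icc] at hp1
    rw [mem_Icc]
    exact ⟨Nat.log_mono_right hp2.le, Nat.log_mono_right hp1.1.2⟩
  rw [← Finset.sum_fiberwise_of_maps_to hmaps]
  have h1 : ∑ k ∈ Icc k0 k1, ∑ p ∈ ((PP x).filter (fun p => z < p)).filter (fun p => Nat.log 2 p = k),
      (1 : ℝ) / p ≤ ∑ k ∈ Icc k0 k1, 4 * (1 / (k : ℝ)) := by
    refine Finset.sum_le_sum fun k hk => ?_
    rw [mem_Icc] at hk
    have h2 := RS30_block_inv x k (h0.trans hk.1)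
    have h3 : ∑ p ∈ ((PP x).filter (fun p => z < p)).filter (fun p => Nat.log 2 p = k), (1 : ℝ) / p ≤
        ∑ p ∈ ((Icc 1 x).filter Nat.Prime).filter (fun p => Nat.log 2 p = k), (1 : ℝ) / p := by
      refine Finset.sum_le_sum_of_subset_of_nonneg ?_ ?_
      · intro p hp
        rw [mem_filter, mem_filter] at hp
        rw [mem_filter]
        exact ⟨hp.1.1, hp.2⟩
      · intro p _ _
        positivity
    refine h3.trans (h2.trans (le_of_eq ?_))
    ring
  refine h1.trans ?_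
  rw [← Finset.mul_sum]
  have h2 := RS30_harm k0 k1 h0 h01
  have hk0' : (1 : ℝ) ≤ k0 := by exact_mod_cast h0
  have hk1' : (k0 : ℝ) ≤ k1 := by exact_mod_cast h01
  have hx0 : 0 < x := by omega
  have hz0 : 0 < z := by omega
  have hz1 : (1 : ℝ) < z := by exact_mod_cast (by omega : 1 < z)
  have hlz : 0 < Real.log z := Real.log_pos hz1
  have hzx' : (z : ℝ) ≤ x := by exact_mod_cast hzx
  have hlzx : Real.log z ≤ Real.log x := Real.log_le_log (by linarith) hzx'
  have h3 : (k1 : ℝ) * Real.log 2 ≤ Real.log x := by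
    have h6 : 2 ^ k1 ≤ x := Nat.pow_log_le_self 2 (by omega)
    have h7 : (2 : ℝ) ^ k1 ≤ x := by exact_mod_cast h6
    rw [← Real.log_pow]
    exact Real.log_le_log (by positivity) h7
  have h4 : Real.log z ≤ 2 * k0 * Real.log 2 := by
    have h6 : z < 2 ^ (k0 + 1) := Nat.lt_pow_succ_log_self (by norm_num) z
    have h7 : (z : ℝ) ≤ (2 : ℝ) ^ (k0 + 1) := by exact_mod_cast h6.le
    have h8 := Real.log_le_log (by linarith) h7
    rw [Real.log_pow] at h8
    push_cast at h8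
    nlinarith
  have h5 : (k1 : ℝ) / k0 ≤ 2 * (Real.log x / Real.log z) := by
    rw [← mul_div_assoc, div_le_div_iff₀ (by linarith) hlz]
    have h9 : (k1 : ℝ) * Real.log z ≤ k1 * (2 * k0 * Real.log 2) :=
      mul_le_mul_of_nonneg_left h4 (by linarith)
    have h10 : (2 * (k0 : ℝ)) * (k1 * Real.log 2) ≤ (2 * (k0 : ℝ)) * Real.log x :=
      mul_le_mul_of_nonneg_left h3 (by linarith)
    linarith
  have hu : 0 < Real.log x / Real.log z := div_pos (hlz.trans_le hlzx) hlz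
  have h6 : Real.log ((k1 : ℝ) / k0) ≤ Real.log 2 + Real.log (Real.log x / Real.log z) := by
    rw [← Real.log_mul (by norm_num) hu.ne']
    exact Real.log_le_log (div_pos (by linarith) (by linarith)) h5
  linarith

end Pool.Agent.Helper5.RS
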