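import Pool.Agent.Helper5.RS.BTap
import Pool.Agent.Helper5.RS.Mer

/-!
# Block RS-S4: rough numbers in short arithmetic progressions, weighted with `W ^ om l`

Let `l` be in the sum: squarefree, `l > 1`, all primes `> z`. Write `l = p l'` with `p` its largest prime; `l ↦ (p, l')` is injective, `l'` is squarefree with all primes `> z` (or `l' = 1`),
`l' < (lo + g) / p ≤ 2 lo / z`, `om l = 1 + om l'`, `l'` is coprime to `q` (`l ≡ b`, `b` coprime to `q`). For given `l'` the primes `p` satisfy `lo ≤ p l' < lo + g` and lie in one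
residue class mod `q` (coprime to `q`), so they are in `Ioc u (u + h)`, `u = ⌈lo / l'⌉ - 1`, `h = g / l' + 1` (natural division). From `(8 q lo)^2 ≤ g^2 z`: `g / lo ≥ 8 q / √z`, so
`g / l' ≥ g z / (2 lo) ≥ 4 q √z ≥ 8 q` (`z ≥ 4`), hence `2 q ≤ h ≤ 2 g / l'` and `log (h / q) ≥ log (4 √z) ≥ (log z) / 2`. By `bt_ap` (constant `C0`) there are at most
`4 C0 g / (l' φ(q) log z)` such `p`. So the sum is at most `W * 4 C0 g / (φ(q) log z) * ∑_{l'} W ^ om l' / l'`, and
`∑_{l'} W ^ om l' / l' ≤ ∏_{p ∈ PP (2 lo), z < p} (1 + W/p) ≤ exp (W ∑ 1/p) ≤ exp (W C1) * (log (2 lo) / log z) ^ (4 W)` if `z ≤ 2 lo` (`prime_inv_rough`, constant `C1`);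
for `∑ ≤ ∏` see the private lemma `B10_sum_sqf_le` in `RM/B10.lean`. If `2 lo < z` the sum is empty (`l < lo + g ≤ 2 lo < z`, but `l` has a prime factor `> z`) and the right side is `≥ 0`.
-/

set_option autoImplicit false

namespace Pool.Agent.Helper5.RS

open Finset Pool.Agent.Helper5.RM

private theorem struct56 {l : ℕ} (h1 : 1 < l) (hs : Squarefree l) :
    l.minFac.Prime ∧ l.minFac * (l / l.minFac) = l ∧ 1 ≤ l / l.minFac ∧
      Squarefree (l / l.minFac) ∧ (l / l.minFac).primeFactors ⊆ l.primeFactors ∧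
      om l = 1 + om (l / l.minFac) := by
  have hp : l.minFac.Prime := Nat.minFac_prime (by omega)
  have hmul : l.minFac * (l / l.minFac) = l := Nat.mul_div_cancel' (Nat.minFac_dvd l)
  have hl'1 : 1 ≤ l / l.minFac := Nat.div_pos (Nat.minFac_le (by omega)) hp.pos
  have hsq' : Squarefree (l.minFac * (l / l.minFac)) := by rw [hmul]; exact hs
  have hcop' : Nat.Coprime l.minFac (l / l.minFac) := Nat.coprime_of_squarefree_mul hsq'
  have hdvd : l / l.minFac ∣ l := Nat.div_dvd_of_dvd (Nat.minFac_dvd l)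
  have hpf : l.primeFactors = {l.minFac} ∪ (l / l.minFac).primeFactors := by
    conv_lhs => rw [← hmul]
    rw [hcop'.primeFactors_mul, hp.primeFactors]
  refine ⟨hp, hmul, hl'1, hs.squarefree_of_dvd hdvd, ?_, ?_⟩
  · conv_rhs => rw [hpf]
    exact Finset.subset_union_right
  · unfold om
    conv_lhs => rw [hpf]
    rw [Finset.card_union_of_disjoint, Finset.card_singleton]
    have := hcop'.disjoint_primeFactors
    rwa [hp.primeFactors] at this

private theorem fiber56 {C0 : ℝ} (hC0 : 0 < C0)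
    (hbt : ∀ q b u h : ℕ, 1 ≤ q → Nat.Coprime b q → 2 * q ≤ h →
      (((Finset.Ioc u (u + h)).filter (fun p => p.Prime ∧ p ≡ b [MOD q])).card : ℝ) ≤
        C0 * ((h : ℝ) / ((Nat.totient q : ℝ) * Real.log ((h : ℝ) / q))))
    {z q b lo g : ℕ} (hz : 4 ≤ z) (hq : 1 ≤ q) (hb : Nat.Coprime b q)
    (hbig : ((8 * q * lo : ℕ) : ℝ) ^ 2 ≤ (g : ℝ) ^ 2 * z) {l' : ℕ} (hl' : 1 ≤ l')
    (hl'z : l' * z < 2 * lo) (P : Finset ℕ)
    (hP : ∀ p ∈ P, p.Prime ∧ lo ≤ p * l' ∧ p * l' < lo + g ∧ p * l' ≡ b [MOD q]) :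
    (P.card : ℝ) ≤ 4 * C0 * ((g : ℝ) / ((Nat.totient q : ℝ) * Real.log z)) * (1 / l') := by
  have hzR : (4 : ℝ) ≤ z := by exact_mod_cast hz
  have hlogz : 0 < Real.log z := Real.log_pos (by linarith)
  have hφ : (0 : ℝ) < (Nat.totient q : ℝ) := by exact_mod_cast Nat.totient_pos.2 hq
  rcases P.eq_empty_or_nonempty with rfl | ⟨p0, hp0⟩
  · simp only [Finset.card_empty, Nat.cast_zero]
    positivity
  obtain ⟨-, -, -, hp0m⟩ := hP p0 hp0
  have hcop : Nat.Coprime (p0 * l') q := by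
    have h1 := hp0m.gcd_eq
    unfold Nat.Coprime
    rw [h1]
    exact hb
  have hcop1 : Nat.Coprime p0 q := Nat.Coprime.coprime_mul_right hcop
  have hcop2 : Nat.Coprime l' q := Nat.Coprime.coprime_mul_left hcop
  have hL : (1 : ℝ) ≤ l' := by exact_mod_cast hl'
  have hQ : (1 : ℝ) ≤ q := by exact_mod_cast hq
  have hLz : (l' : ℝ) * z < 2 * lo := by exact_mod_cast hl'z
  have hG0 : (0 : ℝ) ≤ g := Nat.cast_nonneg g
  have hLO0 : (0 : ℝ) ≤ lo := Nat.cast_nonneg lo
  -- the real inequality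
  have hr2 : √(z : ℝ) * √(z : ℝ) = z := Real.mul_self_sqrt (by linarith)
  have hr : 2 ≤ √(z : ℝ) := by
    apply Real.le_sqrt_of_sq_le
    linarith
  have hb1 : 8 * (q : ℝ) * lo ≤ g * √(z : ℝ) := by
    have h1 : (8 * (q : ℝ) * lo) ^ 2 ≤ (g * √(z : ℝ)) ^ 2 := by
      have h2 : (g * √(z : ℝ)) ^ 2 = (g : ℝ) ^ 2 * z := by
        calc (g * √(z : ℝ)) ^ 2 = (g : ℝ) ^ 2 * (√(z : ℝ) * √(z : ℝ)) := by ring
          _ = _ := by rw [hr2]
      rw [h2]
      push_cast at hbig
      exact hbig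
    exact (pow_le_pow_iff_left₀ (by positivity) (by positivity) two_ne_zero).1 h1
  have hmain : 4 * (q : ℝ) * l' * √(z : ℝ) < g := by
    have h1 : 4 * (q : ℝ) * l' * √(z : ℝ) * √(z : ℝ) < g * √(z : ℝ) := by
      calc 4 * (q : ℝ) * l' * √(z : ℝ) * √(z : ℝ) = 4 * (q : ℝ) * (l' * (√(z : ℝ) * √(z : ℝ))) := by
            ring
        _ = 4 * (q : ℝ) * (l' * z) := by rw [hr2]
        _ < 4 * (q : ℝ) * (2 * lo) := mul_lt_mul_of_pos_left hLz (by positivity)
        _ = 8 * (q : ℝ) * lo := by ring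
        _ ≤ g * √(z : ℝ) := hb1
    exact lt_of_mul_lt_mul_right h1 (by linarith)
  have h8R : 8 * (q : ℝ) * l' < g := by
    have h1 : 4 * (q : ℝ) * l' * 2 ≤ 4 * (q : ℝ) * l' * √(z : ℝ) :=
      mul_le_mul_of_nonneg_left hr (by positivity)
    linarith
  have h8 : 8 * q * l' < g := by exact_mod_cast h8R
  have hdiv : 8 * q ≤ g / l' := (Nat.le_div_iff_mul_le (by omega)).2 h8.le
  have hl'g : (l' : ℝ) ≤ g := by nlinarith
  have e1 : lo - 1 < ((lo - 1) / l' + 1) * l' :=
    (Nat.div_lt_iff_lt_mul (by omega)).1 (Nat.lt_succ_self _)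
  have e2 : g < (g / l' + 1) * l' := (Nat.div_lt_iff_lt_mul (by omega)).1 (Nat.lt_succ_self _)
  have hlo1 : 1 ≤ lo := by
    by_contra hcon
    have : lo = 0 := by omega
    subst this
    omega
  -- the count
  have hsub : P ⊆ (Finset.Ioc ((lo - 1) / l') ((lo - 1) / l' + (g / l' + 1))).filter
      (fun p => p.Prime ∧ p ≡ p0 [MOD q]) := by
    intro p hp
    obtain ⟨hpp, hp1, hp2, hp3⟩ := hP p hp
    rw [Finset.mem_filter, Finset.mem_Ioc]
    refine ⟨⟨(Nat.div_lt_iff_lt_mul (by omega)).2 (by omega), ?_⟩, hpp, ?_⟩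
    · by_contra hcon
      have h3 : (lo - 1) / l' + 1 + (g / l' + 1) ≤ p := by omega
      have h4 := Nat.mul_le_mul_right l' h3
      rw [add_mul] at h4
      omega
    · have h5 : p * l' ≡ p0 * l' [MOD q] := hp3.trans hp0m.symm
      exact Nat.ModEq.cancel_right_of_coprime (Nat.Coprime.symm hcop2) h5
  have hcount := hbt q p0 ((lo - 1) / l') (g / l' + 1) hq hcop1 (by omega)
  have hcard : (P.card : ℝ) ≤ C0 * (((g / l' + 1 : ℕ) : ℝ) /
      ((Nat.totient q : ℝ) * Real.log (((g / l' + 1 : ℕ) : ℝ) / q))) := by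
    refine le_trans ?_ hcount
    exact_mod_cast Finset.card_le_card hsub
  refine hcard.trans ?_
  have hh1 : ((g / l' + 1 : ℕ) : ℝ) ≤ 2 * (g / l') := by
    push_cast
    have h1 : ((g / l' : ℕ) : ℝ) ≤ (g : ℝ) / l' := Nat.cast_div_le
    have h2 : 1 ≤ (g : ℝ) / l' := by
      rw [le_div_iff₀ (by linarith)]
      linarith
    linarith
  have hh2 : (g : ℝ) / l' < ((g / l' + 1 : ℕ) : ℝ) := by
    rw [div_lt_iff₀ (by linarith)]
    exact_mod_cast e2
  have hlog : Real.log z / 2 ≤ Real.log (((g / l' + 1 : ℕ) : ℝ) / q) := by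
    rw [← Real.log_sqrt (by linarith)]
    apply Real.log_le_log (by linarith)
    rw [le_div_iff₀ (by linarith)]
    have h3 : √(z : ℝ) * q ≤ (g : ℝ) / l' := by
      rw [le_div_iff₀ (by linarith)]
      have h4 : 0 ≤ √(z : ℝ) * q * l' := by positivity
      nlinarith
    linarith
  have hfin : ((g / l' + 1 : ℕ) : ℝ) / ((Nat.totient q : ℝ) * Real.log (((g / l' + 1 : ℕ) : ℝ) / q)) ≤
      (2 * (g / l')) / ((Nat.totient q : ℝ) * (Real.log z / 2)) := by
    apply div_le_div₀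
    · positivity
    · exact hh1
    · positivity
    · exact mul_le_mul_of_nonneg_left hlog hφ.le
  calc C0 * (((g / l' + 1 : ℕ) : ℝ) /
      ((Nat.totient q : ℝ) * Real.log (((g / l' + 1 : ℕ) : ℝ) / q)))
      ≤ C0 * ((2 * (g / l')) / ((Nat.totient q : ℝ) * (Real.log z / 2))) :=
        mul_le_mul_of_nonneg_left hfin hC0.le
    _ = 4 * C0 * ((g : ℝ) / ((Nat.totient q : ℝ) * Real.log z)) * (1 / l') := by
        field_simp
        ring

private theorem sumsqf56 (s Q : Finset ℕ) (c : ℕ → ℝ) (hc : ∀ p ∈ Q, 0 ≤ c p)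
    (hs : ∀ n ∈ s, Squarefree n ∧ n.primeFactors ⊆ Q) :
    ∑ n ∈ s, ∏ p ∈ n.primeFactors, c p ≤ ∏ p ∈ Q, (1 + c p) := by
  classical
  rw [Finset.prod_one_add]
  have hinj : Set.InjOn (fun n : ℕ => n.primeFactors) (s : Set ℕ) := by
    intro a ha b hb hab
    have h1 := Nat.prod_primeFactors_of_squarefree (hs a ha).1
    have h2 := Nat.prod_primeFactors_of_squarefree (hs b hb).1
    simp only at hab
    rw [hab] at h1
    exact h1.symm.trans h2
  rw [← Finset.sum_image (f := fun T : Finset ℕ => ∏ p ∈ T, c p) hinj]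
  refine Finset.sum_le_sum_of_subset_of_nonneg ?_ ?_
  · intro T hT
    obtain ⟨n, hn, rfl⟩ := Finset.mem_image.1 hT
    exact Finset.mem_powerset.2 (hs n hn).2
  · intro T hT _
    exact Finset.prod_nonneg fun p hp => hc p (Finset.mem_powerset.1 hT hp)

private theorem wsum56 (W : ℕ) (s Q : Finset ℕ)
    (hs : ∀ n ∈ s, Squarefree n ∧ n.primeFactors ⊆ Q) :
    ∑ n ∈ s, (W : ℝ) ^ om n * (1 / n) ≤ Real.exp (W * ∑ p ∈ Q, (1 : ℝ) / p) := by
  have h1 : ∀ n ∈ s, (W : ℝ) ^ om n * (1 / n) = ∏ p ∈ n.primeFactors, ((W : ℝ) / p) := by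
    intro n hn
    have h2 : (n : ℝ) = ∏ p ∈ n.primeFactors, (p : ℝ) := by
      conv_lhs => rw [← Nat.prod_primeFactors_of_squarefree (hs n hn).1]
      push_cast
      rfl
    unfold om
    rw [Finset.prod_div_distrib, Finset.prod_const, ← h2]
    ring
  rw [Finset.sum_congr rfl h1]
  refine le_trans (sumsqf56 s Q _ (fun p _ => by positivity) hs) ?_
  rw [Finset.mul_sum, Real.exp_sum]
  apply Finset.prod_le_prod
  · intro p _
    positivity
  · intro p _
    have h3 := Real.add_one_le_exp ((W : ℝ) * (1 / p))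
    have h4 : (W : ℝ) / p = W * (1 / p) := by ring
    rw [h4]
    linarith

theorem rough_sum (W : ℕ) : ∃ C : ℝ, 0 < C ∧ ∀ z q b lo g : ℕ, 4 ≤ z → 1 ≤ q → Nat.Coprime b q →
    1 ≤ g → g ≤ lo → ((8 * q * lo : ℕ) : ℝ) ^ 2 ≤ (g : ℝ) ^ 2 * z →
    ∑ l ∈ (Finset.Ico lo (lo + g)).filter
      (fun l => 1 < l ∧ Squarefree l ∧ (∀ p ∈ l.primeFactors, z < p) ∧ l ≡ b [MOD q]), (W : ℝ) ^ om l ≤
    C * ((g : ℝ) / ((Nat.totient q : ℝ) * Real.log z)) * (1 + Real.log (2 * lo) / Real.log z) ^ (4 * W) := by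
  classical
  obtain ⟨C0, hC0, hbt⟩ := bt_ap
  obtain ⟨C1, hC1, hmer⟩ := prime_inv_rough
  refine ⟨4 * W * C0 * Real.exp (W * C1) + 1, by positivity, ?_⟩
  intro z q b lo g hz hq hb hg hglo hbig
  have hzR : (4 : ℝ) ≤ z := by exact_mod_cast hz
  have hlogz : 0 < Real.log z := Real.log_pos (by linarith)
  have hφ : (0 : ℝ) < (Nat.totient q : ℝ) := by exact_mod_cast Nat.totient_pos.2 hq
  have hlo1 : (1 : ℝ) ≤ lo := by exact_mod_cast hg.trans hglo
  have hlog2 : 0 ≤ Real.log (2 * lo) := Real.log_nonneg (by linarith)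
  set K : ℝ := (g : ℝ) / ((Nat.totient q : ℝ) * Real.log z) with hK
  have hK0 : 0 ≤ K := by positivity
  set R : ℝ := Real.log (2 * lo) / Real.log z with hR
  have hR0 : 0 ≤ R := by positivity
  set S := (Finset.Ico lo (lo + g)).filter
      (fun l => 1 < l ∧ Squarefree l ∧ (∀ p ∈ l.primeFactors, z < p) ∧ l ≡ b [MOD q]) with hS
  have hmem : ∀ l ∈ S, lo ≤ l ∧ l < lo + g ∧ 1 < l ∧ Squarefree l ∧
      (∀ p ∈ l.primeFactors, z < p) ∧ l ≡ b [MOD q] := by
    intro l hl
    rw [hS, Finset.mem_filter, Finset.mem_Ico] at hl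
    exact ⟨hl.1.1, hl.1.2, hl.2⟩
  by_cases hzlo : 2 * lo < z
  · have hempty : S = ∅ := by
      rw [Finset.eq_empty_iff_forall_notMem]
      intro l hl
      obtain ⟨h1, h2, h3, h4, h5, h6⟩ := hmem l hl
      have h7 := h5 l.minFac (Nat.mem_primeFactors.2
        ⟨Nat.minFac_prime (by omega), Nat.minFac_dvd l, by omega⟩)
      have h8 := Nat.minFac_le (n := l) (by omega)
      omega
    rw [hempty, Finset.sum_empty]
    positivity
  · have hzlo' : z ≤ 2 * lo := by omega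
    -- properties of the cofactors
    have hprop : ∀ l ∈ S, 1 ≤ l / l.minFac ∧ (l / l.minFac) * z < 2 * lo := by
      intro l hl
      obtain ⟨h1, h2, h3, h4, h5, h6⟩ := hmem l hl
      obtain ⟨hp, hmul, hl1, hsq, hsub, hom⟩ := struct56 h3 h4
      refine ⟨hl1, ?_⟩
      have h7 := h5 l.minFac (Nat.mem_primeFactors.2 ⟨hp, Nat.minFac_dvd l, by omega⟩)
      have h8 : (l / l.minFac) * z < (l / l.minFac) * l.minFac :=
        Nat.mul_lt_mul_of_pos_left h7 (by omega)
      have h9 : (l / l.minFac) * l.minFac = l := by rw [mul_comm]; exact hmul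
      omega
    have hstep : ∑ l ∈ S, (W : ℝ) ^ om l ≤
        ∑ l' ∈ S.image (fun l => l / l.minFac), 4 * W * C0 * K * ((W : ℝ) ^ om l' * (1 / l')) := by
      rw [← Finset.sum_fiberwise_of_maps_to (g := fun l => l / l.minFac)
        (fun l hl => Finset.mem_image_of_mem _ hl)]
      apply Finset.sum_le_sum
      intro l' hl'
      obtain ⟨l0, hl0, hl0'⟩ := Finset.mem_image.1 hl'
      have hpr := hprop l0 hl0
      rw [hl0'] at hpr
      set F := S.filter (fun l => l / l.minFac = l') with hF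
      have hFom : ∀ l ∈ F, (W : ℝ) ^ om l = (W : ℝ) ^ (1 + om l') := by
        intro l hl
        rw [hF, Finset.mem_filter] at hl
        obtain ⟨h1, h2, h3, h4, h5, h6⟩ := hmem l hl.1
        obtain ⟨hp, hmul, hl1, hsq, hsub, hom⟩ := struct56 h3 h4
        rw [hom, hl.2]
      have hinj : Set.InjOn Nat.minFac (F : Set ℕ) := by
        intro l hl m hm hlm
        rw [Finset.mem_coe, hF, Finset.mem_filter] at hl hm
        obtain ⟨-, -, h3, h4, -, -⟩ := hmem l hl.1
        obtain ⟨-, hmul, -, -, -, -⟩ := struct56 h3 h4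
        obtain ⟨-, -, h3', h4', -, -⟩ := hmem m hm.1
        obtain ⟨-, hmul', -, -, -, -⟩ := struct56 h3' h4'
        rw [← hmul, ← hmul', hl.2, hm.2, hlm]
      have hcard := fiber56 hC0 hbt hz hq hb hbig hpr.1 hpr.2 (F.image Nat.minFac) (by
        intro p hp
        obtain ⟨l, hl, rfl⟩ := Finset.mem_image.1 hp
        rw [hF, Finset.mem_filter] at hl
        obtain ⟨h1, h2, h3, h4, h5, h6⟩ := hmem l hl.1
        obtain ⟨hpp, hmul, -, -, -, -⟩ := struct56 h3 h4
        rw [hl.2] at hmul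
        rw [hmul]
        exact ⟨hpp, h1, h2, h6⟩)
      rw [Finset.card_image_of_injOn hinj, ← hK] at hcard
      rw [Finset.sum_congr rfl hFom, Finset.sum_const, nsmul_eq_mul]
      calc (F.card : ℝ) * (W : ℝ) ^ (1 + om l')
          ≤ (4 * C0 * K * (1 / l')) * (W : ℝ) ^ (1 + om l') :=
            mul_le_mul_of_nonneg_right hcard (by positivity)
        _ = 4 * W * C0 * K * ((W : ℝ) ^ om l' * (1 / l')) := by
            rw [pow_add, pow_one]
            ring
    refine hstep.trans ?_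
    rw [← Finset.mul_sum]
    have hws := wsum56 W (S.image (fun l => l / l.minFac)) ((PP (2 * lo)).filter (fun p => z < p)) (by
      intro n hn
      obtain ⟨l, hl, rfl⟩ := Finset.mem_image.1 hn
      obtain ⟨h1, h2, h3, h4, h5, h6⟩ := hmem l hl
      obtain ⟨hp, hmul, hl1, hsq, hsub, hom⟩ := struct56 h3 h4
      refine ⟨hsq, fun p hp' => ?_⟩
      have h7 := hsub hp'
      rw [Finset.mem_filter, mem_PP]
      refine ⟨⟨Nat.prime_of_mem_primeFactors h7, ?_⟩, h5 p h7⟩
      have h8 := Nat.le_of_mem_primeFactors h7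
      omega)
    have hm := hmer z (2 * lo) (by omega) hzlo'
    have hcast : Real.log ((2 * lo : ℕ) : ℝ) = Real.log (2 * lo) := by push_cast; rfl
    rw [hcast, ← hR] at hm
    have hRpos : 0 < R := by
      rw [hR]
      apply div_pos _ hlogz
      apply Real.log_pos
      linarith
    have hexp : Real.exp (W * ∑ p ∈ (PP (2 * lo)).filter (fun p => z < p), (1 : ℝ) / p) ≤
        Real.exp (W * C1) * (1 + R) ^ (4 * W) := by
      calc Real.exp (W * ∑ p ∈ (PP (2 * lo)).filter (fun p => z < p), (1 : ℝ) / p)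
          ≤ Real.exp (W * (4 * Real.log R + C1)) :=
            Real.exp_le_exp.2 (mul_le_mul_of_nonneg_left hm (Nat.cast_nonneg W))
        _ = Real.exp (W * C1) * R ^ (4 * W) := by
            have e1 : (W : ℝ) * (4 * Real.log R + C1) = W * C1 + ((4 * W : ℕ) : ℝ) * Real.log R := by
              push_cast
              ring
            rw [e1, Real.exp_add, Real.exp_nat_mul (Real.log R) (4 * W), Real.exp_log hRpos]
        _ ≤ Real.exp (W * C1) * (1 + R) ^ (4 * W) := by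
            apply mul_le_mul_of_nonneg_left _ (Real.exp_pos _).le
            exact pow_le_pow_left₀ hR0 (by linarith) _
    calc 4 * W * C0 * K * ∑ n ∈ S.image (fun l => l / l.minFac), (W : ℝ) ^ om n * (1 / n)
        ≤ 4 * W * C0 * K * (Real.exp (W * C1) * (1 + R) ^ (4 * W)) :=
          mul_le_mul_of_nonneg_left (hws.trans hexp) (by positivity)
      _ = 4 * W * C0 * Real.exp (W * C1) * K * (1 + R) ^ (4 * W) := by ring
      _ ≤ (4 * W * C0 * Real.exp (W * C1) + 1) * K * (1 + R) ^ (4 * W) := by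
          apply mul_le_mul_of_nonneg_right _ (by positivity)
          apply mul_le_mul_of_nonneg_right _ hK0
          linarith

end Pool.Agent.Helper5.RS
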