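import Pool.Agent.Helper5.RS.Blk
import Pool.Agent.Helper5.RS.Rsum

/-!
# Block RS-N2a: the sieve bound on the blocks

`C` from `rough_sum W`. For `c ∈ Bk κ N` (`Bk_bounds`): `1 ≤ g ≤ lo < 2^(κ+1) g`, `2 lo ≤ 4 N`, so `(8 q lo)^2 ≤ (8 q 2^(κ+1))^2 g^2 ≤ z g^2`. `JB κ c = Ico lo (lo + g)`; the filter in the claim is contained in the filter of `rough_sum`
(`l ∈ Ro z N`: `2 ≤ l`, squarefree, primes `> z`). `log (2 lo) ≤ log (4 N)`. Second statement: `q = 1`, `b = 0` (`Nat.ModEq 1`), `φ(1) = 1`.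
-/

set_option autoImplicit false

namespace Pool.Agent.Helper5.RS

open Finset Pool.Agent.Helper5.RM

private lemma blk_bound (W κ z N q b : ℕ) (C : ℝ) (hC : 0 < C) (hz : 4 ≤ z) (hN : 1 ≤ N) (hq : 1 ≤ q)
    (hb : Nat.Coprime b q) (hκ : ((8 * q * 2 ^ (κ + 1) : ℕ) : ℝ) ^ 2 ≤ z) (c : ℕ × ℕ) (hc : c ∈ Bk κ N)
    (H : ∀ z q b lo g : ℕ, 4 ≤ z → 1 ≤ q → Nat.Coprime b q →
      1 ≤ g → g ≤ lo → ((8 * q * lo : ℕ) : ℝ) ^ 2 ≤ (g : ℝ) ^ 2 * z →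
      ∑ l ∈ (Finset.Ico lo (lo + g)).filter
        (fun l => 1 < l ∧ Squarefree l ∧ (∀ p ∈ l.primeFactors, z < p) ∧ l ≡ b [MOD q]), (W : ℝ) ^ om l ≤
      C * ((g : ℝ) / ((Nat.totient q : ℝ) * Real.log z)) * (1 + Real.log (2 * lo) / Real.log z) ^ (4 * W)) :
    ∑ l ∈ (Ro z N).filter (fun l => l ∈ JB κ c ∧ l ≡ b [MOD q]), (W : ℝ) ^ om l ≤
      (C * (1 + Real.log (4 * N) / Real.log z) ^ (4 * W) / Real.log z) * gp κ c / Nat.totient q := by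
  obtain ⟨h1, h2, h3, h4⟩ := Bk_bounds hc hN
  have hglo : gp κ c ≤ lo κ c := by
    calc gp κ c = gp κ c * 1 := (mul_one _).symm
      _ ≤ gp κ c * 2 ^ κ := Nat.mul_le_mul_left _ Nat.one_le_two_pow
      _ ≤ lo κ c := h2
  have hlo1 : 1 ≤ lo κ c := h1.trans hglo
  have hz0 : (0 : ℝ) < Real.log z := Real.log_pos (by exact_mod_cast (by omega : 1 < z))
  have hsz : ((8 * q * lo κ c : ℕ) : ℝ) ^ 2 ≤ (gp κ c : ℝ) ^ 2 * z := by
    have h5 : ((8 * q * lo κ c : ℕ) : ℝ) ≤ ((8 * q * 2 ^ (κ + 1) : ℕ) : ℝ) * (gp κ c : ℝ) := by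
      have : 8 * q * lo κ c ≤ 8 * q * 2 ^ (κ + 1) * gp κ c := by
        calc 8 * q * lo κ c ≤ 8 * q * (gp κ c * 2 ^ (κ + 1)) := Nat.mul_le_mul_left _ h3.le
          _ = 8 * q * 2 ^ (κ + 1) * gp κ c := by ring
      exact_mod_cast this
    calc ((8 * q * lo κ c : ℕ) : ℝ) ^ 2 ≤ (((8 * q * 2 ^ (κ + 1) : ℕ) : ℝ) * (gp κ c : ℝ)) ^ 2 :=
          pow_le_pow_left₀ (by positivity) h5 2
      _ = ((8 * q * 2 ^ (κ + 1) : ℕ) : ℝ) ^ 2 * (gp κ c : ℝ) ^ 2 := by ring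
      _ ≤ (z : ℝ) * (gp κ c : ℝ) ^ 2 := mul_le_mul_of_nonneg_right hκ (by positivity)
      _ = (gp κ c : ℝ) ^ 2 * z := mul_comm _ _
  have h6 := H z q b (lo κ c) (gp κ c) hz hq hb h1 hglo hsz
  have hsub : (Ro z N).filter (fun l => l ∈ JB κ c ∧ l ≡ b [MOD q]) ⊆
      (Finset.Ico (lo κ c) (lo κ c + gp κ c)).filter
        (fun l => 1 < l ∧ Squarefree l ∧ (∀ p ∈ l.primeFactors, z < p) ∧ l ≡ b [MOD q]) := by
    intro l hl
    rw [Finset.mem_filter] at hl ⊢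
    obtain ⟨hl1, hl2, hl3⟩ := hl
    unfold Ro at hl1
    rw [Finset.mem_filter, Finset.mem_Icc] at hl1
    exact ⟨hl2, by omega, hl1.2.1, hl1.2.2, hl3⟩
  have hlog2 : Real.log (2 * (lo κ c : ℝ)) ≤ Real.log (4 * (N : ℝ)) := by
    have h7 : (0 : ℝ) < 2 * (lo κ c : ℝ) := by
      have : (1 : ℝ) ≤ lo κ c := by exact_mod_cast hlo1
      linarith
    have h8 : 2 * (lo κ c : ℝ) ≤ 4 * (N : ℝ) := by
      have : 2 * lo κ c ≤ 4 * N := by omega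
      exact_mod_cast this
    exact Real.log_le_log h7 h8
  have hlog1 : 0 ≤ Real.log (2 * (lo κ c : ℝ)) := by
    apply Real.log_nonneg
    have : (1 : ℝ) ≤ lo κ c := by exact_mod_cast hlo1
    linarith
  have hph : (0 : ℝ) < Nat.totient q := by
    exact_mod_cast Nat.totient_pos.2 hq
  have hpow : (1 + Real.log (2 * (lo κ c : ℝ)) / Real.log z) ^ (4 * W) ≤
      (1 + Real.log (4 * (N : ℝ)) / Real.log z) ^ (4 * W) := by
    apply pow_le_pow_left₀ (by positivity)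
    gcongr
  calc ∑ l ∈ (Ro z N).filter (fun l => l ∈ JB κ c ∧ l ≡ b [MOD q]), (W : ℝ) ^ om l
      ≤ ∑ l ∈ (Finset.Ico (lo κ c) (lo κ c + gp κ c)).filter
        (fun l => 1 < l ∧ Squarefree l ∧ (∀ p ∈ l.primeFactors, z < p) ∧ l ≡ b [MOD q]), (W : ℝ) ^ om l :=
        Finset.sum_le_sum_of_subset_of_nonneg hsub (fun _ _ _ => by positivity)
    _ ≤ C * ((gp κ c : ℝ) / ((Nat.totient q : ℝ) * Real.log z)) *
          (1 + Real.log (2 * (lo κ c : ℝ)) / Real.log z) ^ (4 * W) := h6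
    _ ≤ C * ((gp κ c : ℝ) / ((Nat.totient q : ℝ) * Real.log z)) *
          (1 + Real.log (4 * (N : ℝ)) / Real.log z) ^ (4 * W) :=
        mul_le_mul_of_nonneg_left hpow (by positivity)
    _ = (C * (1 + Real.log (4 * N) / Real.log z) ^ (4 * W) / Real.log z) * gp κ c / Nat.totient q := by
        field_simp

theorem rough_blocks (W : ℕ) : ∃ C : ℝ, 0 < C ∧ ∀ κ z N q : ℕ, 4 ≤ z → 1 ≤ N → 1 ≤ q →
    ((8 * q * 2 ^ (κ + 1) : ℕ) : ℝ) ^ 2 ≤ z → ∀ c ∈ Bk κ N,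
    (∀ b : ℕ, Nat.Coprime b q → ∑ l ∈ (Ro z N).filter (fun l => l ∈ JB κ c ∧ l ≡ b [MOD q]), (W : ℝ) ^ om l ≤
      (C * (1 + Real.log (4 * N) / Real.log z) ^ (4 * W) / Real.log z) * gp κ c / Nat.totient q) ∧
    ∑ l ∈ (Ro z N).filter (fun l => l ∈ JB κ c), (W : ℝ) ^ om l ≤
      (C * (1 + Real.log (4 * N) / Real.log z) ^ (4 * W) / Real.log z) * gp κ c := by
  obtain ⟨C, hC, H⟩ := rough_sum W
  refine ⟨C, hC, ?_⟩
  intro κ z N q hz hN hq hκ c hc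
  refine ⟨fun b hb => blk_bound W κ z N q b C hC hz hN hq hb hκ c hc H, ?_⟩
  have hκ1 : ((8 * 1 * 2 ^ (κ + 1) : ℕ) : ℝ) ^ 2 ≤ z := by
    refine le_trans (pow_le_pow_left₀ (by positivity) ?_ 2) hκ
    have : 8 * 1 * 2 ^ (κ + 1) ≤ 8 * q * 2 ^ (κ + 1) :=
      Nat.mul_le_mul_right _ (Nat.mul_le_mul_left _ hq)
    exact_mod_cast this
  have h := blk_bound W κ z N 1 0 C hC hz hN le_rfl (Nat.coprime_one_right 0) hκ1 c hc H
  rw [Nat.totient_one, Nat.cast_one, div_one] at h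
  refine le_trans (le_of_eq ?_) h
  congr 1
  apply Finset.filter_congr
  intro l _
  constructor
  · intro hl
    exact ⟨hl, Nat.modEq_one⟩
  · intro hl
    exact hl.1

end Pool.Agent.Helper5.RS
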