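import Pool.Agent.Helper5.RS.Defs
import Pool.Agent.Helper5.RM.PRB

/-!
# Block RS-F4: the number of smooth squarefree numbers (Rankin)

Put `α = 1 / log z`. The `m ∈ Sm z N` with `m ≤ √N` are at most `√N` many. For `m > √N`, `m ≤ N`: `1 ≤ (N / m) * (m ^ α / N ^ (α/2))`, so their number is at most
`N * N ^ (-α/2) * ∑_{m ∈ Sm z N} m ^ (α - 1)`, and `N ^ (-α/2) = exp (-(log N) / (2 log z))`. For squarefree `m`: `m ^ (α-1) = ∏_{p ∣ m} p ^ (α-1)`, and
`p ^ α ≤ z ^ α = e ≤ 3`, so `∑ m ^ (α-1) ≤ ∑_{m} ∏_{p ∣ m} 3/p ≤ ∏_{p ∈ PP z} (1 + 3/p) ≤ (1 + log z)^12 * exp 18`: the last inequality is the private lemma `B10_prod`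
of `RM/B10.lean` (it comes from `prime_inv` in `RM/PRB.lean`: `∑ 1/p ≤ 4 log (1 + log z) + 6`, and `1 + y ≤ exp y`), the one before is `B10_sum_sqf_le` there. Copy them.
-/

set_option autoImplicit false

namespace Pool.Agent.Helper5.RS

open Finset Pool.Agent.Helper5.RM

private lemma h93_sum_sqf_le (s Q : Finset ℕ) (c : ℕ → ℝ) (hc : ∀ p ∈ Q, 0 ≤ c p)
    (hs : ∀ n ∈ s, Squarefree n ∧ n.primeFactors ⊆ Q) :
    ∑ n ∈ s, ∏ p ∈ n.primeFactors, c p ≤ ∏ p ∈ Q, (1 + c p) := by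
  classical
  rw [Finset.prod_one_add]
  have hinj : Set.InjOn (fun n : ℕ => n.primeFactors) (s : Set ℕ) := by
    intro a ha b hb hab
    have h1 := Nat.prod_primeFactors_of_squarefree (hs a ha).1
    have h2 := Nat.prod_primeFactors_of_squarefree (hs b hb).1
    simp only at hab
    rw [hab] at h1
    exact h1.symm.trans h2
  rw [← Finset.sum_image (f := fun T : Finset ℕ => ∏ p ∈ T, c p) hinj]
  refine Finset.sum_le_sum_of_subset_of_nonneg ?_ ?_
  · intro T hT
    obtain ⟨n, hn, rfl⟩ := Finset.mem_image.1 hT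
    exact Finset.mem_powerset.2 (hs n hn).2
  · intro T hT _
    exact Finset.prod_nonneg fun p hp => hc p (Finset.mem_powerset.1 hT hp)

private lemma h93_prod (B : ℕ) (hB : 2 ≤ B) :
    ∏ q ∈ PP B, (1 + 3 / (q : ℝ)) ≤ (1 + Real.log B) ^ 12 * Real.exp 18 := by
  have h1 : ∏ q ∈ PP B, (1 + 3 / (q : ℝ)) ≤ ∏ q ∈ PP B, Real.exp (3 * (1 / q)) := by
    refine Finset.prod_le_prod (fun p _ => by positivity) fun p _ => ?_
    have := Real.add_one_le_exp (3 * (1 / (p : ℝ)))
    rw [mul_one_div] at this ⊢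
    linarith
  refine h1.trans ?_
  rw [← Real.exp_sum, ← Finset.mul_sum]
  have h2 := prime_inv B (by omega)
  have hlB : 0 ≤ Real.log B := Real.log_natCast_nonneg B
  calc Real.exp (3 * ∑ q ∈ PP B, 1 / (q : ℝ)) ≤ Real.exp (12 * Real.log (1 + Real.log B) + 18) := by
        apply Real.exp_le_exp.2; linarith
    _ = (1 + Real.log B) ^ 12 * Real.exp 18 := by
        rw [Real.exp_add]
        congr 1
        rw [show (12 : ℝ) * Real.log (1 + Real.log B) = ((12 : ℕ) : ℝ) * Real.log (1 + Real.log B) by norm_num,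
          Real.exp_nat_mul, Real.exp_log (by linarith)]

private lemma h93_weight {z N m : ℕ} (hz : 2 ≤ z) (hm1 : 1 ≤ m) (hmN : m ≤ N) (hsq : Squarefree m)
    (hp : ∀ p ∈ m.primeFactors, p ≤ z) (hN2 : N < m ^ 2) :
    1 ≤ N * Real.exp (-(Real.log N / (2 * Real.log z))) * ∏ q ∈ m.primeFactors, (3 / (q : ℝ)) := by
  have hm0 : (0 : ℝ) < m := by exact_mod_cast hm1
  have hz1 : (1 : ℝ) < z := by exact_mod_cast (by omega : 1 < z)
  have hN0 : (0 : ℝ) < N := by exact_mod_cast (by omega : 0 < N)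
  have hlogz : 0 < Real.log z := Real.log_pos hz1
  have hlogm : Real.log m = ∑ q ∈ m.primeFactors, Real.log q := by
    conv_lhs => rw [← Nat.prod_primeFactors_of_squarefree hsq]
    rw [Nat.cast_prod, Real.log_prod]
    intro q hq
    have := (Nat.prime_of_mem_primeFactors hq).pos
    positivity
  have hom : Real.log m ≤ (m.primeFactors.card : ℝ) * Real.log z := by
    rw [hlogm]
    calc ∑ q ∈ m.primeFactors, Real.log (q : ℝ) ≤ ∑ _q ∈ m.primeFactors, Real.log z := by
          refine Finset.sum_le_sum fun q hq => Real.log_le_log ?_ ?_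
          · exact_mod_cast (Nat.prime_of_mem_primeFactors hq).pos
          · exact_mod_cast hp q hq
      _ = (m.primeFactors.card : ℝ) * Real.log z := by rw [Finset.sum_const, nsmul_eq_mul]
  have hNm : Real.log N ≤ 2 * Real.log m := by
    have h1 : (N : ℝ) ≤ (m : ℝ) ^ 2 := by exact_mod_cast hN2.le
    have := Real.log_le_log hN0 h1
    rw [Real.log_pow] at this
    exact_mod_cast this
  have hexp : -(m.primeFactors.card : ℝ) ≤ -(Real.log N / (2 * Real.log z)) := by
    rw [neg_le_neg_iff, div_le_iff₀ (by positivity)]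
    linarith
  have hprod : ∏ q ∈ m.primeFactors, (3 / (q : ℝ)) = 3 ^ m.primeFactors.card / m := by
    rw [Finset.prod_div_distrib, Finset.prod_const]
    congr 1
    rw [← Nat.cast_prod, Nat.prod_primeFactors_of_squarefree hsq]
  rw [hprod]
  have he3 : Real.exp 1 ≤ 3 := by
    have := Real.exp_one_lt_d9
    linarith
  have h3 : Real.exp (-(m.primeFactors.card : ℝ)) * 3 ^ m.primeFactors.card ≥ 1 := by
    have h4 : Real.exp 1 ^ m.primeFactors.card ≤ 3 ^ m.primeFactors.card :=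
      pow_le_pow_left₀ (Real.exp_pos 1).le he3 _
    have h5 : Real.exp (-(m.primeFactors.card : ℝ)) * Real.exp 1 ^ m.primeFactors.card = 1 := by
      rw [← Real.exp_nat_mul, ← Real.exp_add]; simp
    rw [ge_iff_le, ← h5]
    exact mul_le_mul_of_nonneg_left h4 (Real.exp_pos _).le
  have h6 : 1 ≤ Real.exp (-(Real.log N / (2 * Real.log z))) * 3 ^ m.primeFactors.card := by
    refine le_trans h3 ?_
    exact mul_le_mul_of_nonneg_right (Real.exp_le_exp.2 hexp) (by positivity)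
  have h7 : 1 ≤ (N : ℝ) / m := by
    rw [le_div_iff₀ (by positivity), one_mul]
    exact_mod_cast hmN
  calc (1 : ℝ) = 1 * 1 := by ring
    _ ≤ ((N : ℝ) / m) * (Real.exp (-(Real.log N / (2 * Real.log z))) * 3 ^ m.primeFactors.card) :=
        mul_le_mul h7 h6 (by norm_num) (by positivity)
    _ = N * Real.exp (-(Real.log N / (2 * Real.log z))) * (3 ^ m.primeFactors.card / m) := by
        field_simp

theorem smooth_card (z N : ℕ) (hz : 2 ≤ z) (hN : 1 ≤ N) :
    ((Sm z N).card : ℝ) ≤ Real.sqrt N +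
      N * Real.exp (-(Real.log N / (2 * Real.log z))) * ((1 + Real.log z) ^ 12 * Real.exp 18) := by
  classical
  set E : ℝ := Real.exp (-(Real.log N / (2 * Real.log z))) with hE
  have hE0 : 0 < E := Real.exp_pos _
  have hmem : ∀ m ∈ Sm z N, 1 ≤ m ∧ m ≤ N ∧ Squarefree m ∧ ∀ p ∈ m.primeFactors, p ≤ z := by
    intro m hm
    unfold Sm at hm
    simp only [Finset.mem_filter, Finset.mem_Icc] at hm
    exact ⟨hm.1.1, hm.1.2, hm.2.1, hm.2.2⟩
  rw [← Finset.card_filter_add_card_filter_not (s := Sm z N) (fun m => m ^ 2 ≤ N)]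
  push_cast
  refine add_le_add ?_ ?_
  · have h1 : ((Sm z N).filter (fun m => m ^ 2 ≤ N)).card ≤ (Icc 1 (Nat.sqrt N)).card := by
      refine Finset.card_le_card ?_
      intro m hm
      rw [Finset.mem_filter] at hm
      rw [Finset.mem_Icc, Nat.le_sqrt']
      exact ⟨(hmem m hm.1).1, hm.2⟩
    rw [Nat.card_Icc, Nat.add_sub_cancel] at h1
    have h2 : ((Nat.sqrt N : ℕ) : ℝ) ≤ Real.sqrt N := Real.nat_sqrt_le_real_sqrt
    exact le_trans (by exact_mod_cast h1) h2
  · set S2 := (Sm z N).filter (fun m => ¬ m ^ 2 ≤ N) with hS2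
    have hc1 : (S2.card : ℝ) ≤ ∑ m ∈ S2, N * E * ∏ q ∈ m.primeFactors, (3 / (q : ℝ)) := by
      rw [Finset.card_eq_sum_ones]
      push_cast
      refine Finset.sum_le_sum fun m hm => ?_
      rw [hS2, Finset.mem_filter] at hm
      obtain ⟨h1, h2, h3, h4⟩ := hmem m hm.1
      exact h93_weight hz h1 h2 h3 h4 (not_le.1 hm.2)
    have hc4 : ∑ m ∈ S2, ∏ q ∈ m.primeFactors, (3 / (q : ℝ)) ≤ ∏ q ∈ PP z, (1 + 3 / (q : ℝ)) := by
      refine h93_sum_sqf_le S2 (PP z) (fun q => 3 / (q : ℝ)) (fun _ _ => by positivity) ?_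
      intro m hm
      rw [hS2, Finset.mem_filter] at hm
      obtain ⟨h1, h2, h3, h4⟩ := hmem m hm.1
      refine ⟨h3, fun q hq => ?_⟩
      rw [mem_PP]
      exact ⟨Nat.prime_of_mem_primeFactors hq, h4 q hq⟩
    refine hc1.trans ?_
    rw [← Finset.mul_sum]
    exact mul_le_mul_of_nonneg_left (hc4.trans (h93_prod z hz)) (by positivity)

end Pool.Agent.Helper5.RS
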