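import Pool.Agent.Helper5.RS.Defs

/-!
# Block RS-U2: the sum over the points of large complexity

As `DD_sum` of `RM/NET3.lean`: layers `2^i Y ≤ DD < 2^(i+1) Y` contain at most `3 (2^(i+1) Y)^2` points (`DD_count`), so the sum is at most `∑_i 12 (2^i Y)^2 (2^i Y)^(-17/8) = 12 Y^(-1/8) ∑_i 2^(-i/8) ≤ 150 Y^(-1/8)`
(`2^(-1/8) ≤ 0.918`, `12 / 0.082 ≤ 150`).
-/

set_option autoImplicit false

namespace Pool.Agent.Helper5.RS

open Finset Pool.Agent.Helper5.RM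

private theorem c_le : (2 : ℝ) ^ (-(1 / 8) : ℝ) ≤ 0.918 := by
  have h0 : 0 ≤ (2 : ℝ) ^ (-(1 / 8) : ℝ) := by positivity
  by_contra hcon
  rw [not_le] at hcon
  have h1 : ((2 : ℝ) ^ (-(1 / 8) : ℝ)) ^ 8 = 1 / 2 := by
    rw [← Real.rpow_natCast, ← Real.rpow_mul (by norm_num)]
    have : (-(1 / 8) : ℝ) * ((8 : ℕ) : ℝ) = -1 := by norm_num
    rw [this, Real.rpow_neg_one]
    norm_num
  have h2 : (0.918 : ℝ) ^ 8 < ((2 : ℝ) ^ (-(1 / 8) : ℝ)) ^ 8 :=
    pow_lt_pow_left₀ hcon (by norm_num) (by norm_num)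
  rw [h1] at h2
  norm_num at h2

theorem DD_sum2 (N : ℕ) (hN : 1 ≤ N) (Y : ℝ) (hY : 1 ≤ Y) :
    ∑ j ∈ (Finset.range N).filter (fun j : ℕ => Y ≤ DD N ((j : ℝ) / N)),
      (DD N ((j : ℝ) / N)) ^ (-(17 / 8) : ℝ) ≤ 150 * Y ^ (-(1 / 8) : ℝ) := by
  classical
  have hY0 : 0 < Y := by linarith
  have key : ∀ j ∈ (Finset.range N).filter (fun j : ℕ => Y ≤ DD N ((j : ℝ) / N)),
      (DD N ((j : ℝ) / N)) ^ (-(17 / 8) : ℝ) ≤
        ∑ a ∈ Finset.range (N + 1),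
          if DD N ((j : ℝ) / N) < 2 ^ (a + 1) * Y then ((2 : ℝ) ^ a * Y) ^ (-(17 / 8) : ℝ) else 0 := by
    intro j hj
    have hYj : Y ≤ DD N ((j : ℝ) / N) := (Finset.mem_filter.mp hj).2
    have hle : DD N ((j : ℝ) / N) ≤ N := DD_le N hN j
    have hpow : (N : ℝ) < 2 ^ (N + 1) := by
      have h1 : N < 2 ^ N := Nat.lt_two_pow_self
      have h2 : (2 : ℕ) ^ N ≤ 2 ^ (N + 1) := Nat.pow_le_pow_right (by norm_num) (Nat.le_succ N)
      exact_mod_cast h1.trans_le h2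
    have hN' : DD N ((j : ℝ) / N) < 2 ^ (N + 1) * Y := by
      have h3 : (0 : ℝ) < 2 ^ (N + 1) := by positivity
      nlinarith
    have hex : ∃ a : ℕ, DD N ((j : ℝ) / N) < 2 ^ (a + 1) * Y := ⟨N, hN'⟩
    have ha := Nat.find_spec hex
    have haN : Nat.find hex ≤ N := Nat.find_min' hex hN'
    have hlow : 2 ^ (Nat.find hex) * Y ≤ DD N ((j : ℝ) / N) := by
      rcases Nat.eq_zero_or_pos (Nat.find hex) with h0 | hpos
      · rw [h0]; simpa using hYj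
      · have hm : Nat.find hex - 1 < Nat.find hex := by omega
        have hnot := Nat.find_min hex hm
        have he : Nat.find hex - 1 + 1 = Nat.find hex := by omega
        rw [he] at hnot
        exact not_lt.mp hnot
    have hpos2 : (0 : ℝ) < 2 ^ (Nat.find hex) * Y := by positivity
    have hterm : (DD N ((j : ℝ) / N)) ^ (-(17 / 8) : ℝ) ≤ ((2 : ℝ) ^ (Nat.find hex) * Y) ^ (-(17 / 8) : ℝ) :=
      Real.rpow_le_rpow_of_nonpos hpos2 hlow (by norm_num)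
    refine hterm.trans ?_
    have hs := Finset.single_le_sum (s := Finset.range (N + 1))
      (f := fun a => if DD N ((j : ℝ) / N) < 2 ^ (a + 1) * Y then ((2 : ℝ) ^ a * Y) ^ (-(17 / 8) : ℝ) else 0)
      (fun a _ => by
        split_ifs
        · positivity
        · exact le_rfl) (Finset.mem_range.mpr (by omega : Nat.find hex < N + 1))
    simp only [if_pos ha] at hs
    exact hs
  refine (Finset.sum_le_sum key).trans ?_
  rw [Finset.sum_comm]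
  have hin : ∀ a ∈ Finset.range (N + 1),
      ∑ j ∈ (Finset.range N).filter (fun j : ℕ => Y ≤ DD N ((j : ℝ) / N)),
        (if DD N ((j : ℝ) / N) < 2 ^ (a + 1) * Y then ((2 : ℝ) ^ a * Y) ^ (-(17 / 8) : ℝ) else 0) ≤
        12 * Y ^ (-(1 / 8) : ℝ) * 0.918 ^ a := by
    intro a _
    rw [← Finset.sum_filter, Finset.sum_const, nsmul_eq_mul]
    have h2a : (1 : ℝ) ≤ 2 ^ (a + 1) := one_le_pow₀ (by norm_num)
    have hYa : (1 : ℝ) ≤ 2 ^ (a + 1) * Y := by nlinarith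
    have hc := DD_count N hN (2 ^ (a + 1) * Y) hYa
    have hsub : (((Finset.range N).filter (fun j : ℕ => Y ≤ DD N ((j : ℝ) / N))).filter
        (fun j : ℕ => DD N ((j : ℝ) / N) < 2 ^ (a + 1) * Y)).card ≤
        ((Finset.range N).filter (fun j : ℕ => DD N ((j : ℝ) / N) < 2 ^ (a + 1) * Y)).card := by
      refine Finset.card_le_card ?_
      intro j hj
      rw [Finset.mem_filter] at hj
      rw [Finset.mem_filter]
      exact ⟨(Finset.mem_filter.mp hj.1).1, hj.2⟩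
    have hsub' : ((((Finset.range N).filter (fun j : ℕ => Y ≤ DD N ((j : ℝ) / N))).filter
        (fun j : ℕ => DD N ((j : ℝ) / N) < 2 ^ (a + 1) * Y)).card : ℝ) ≤ 3 * (2 ^ (a + 1) * Y) ^ 2 :=
      (Nat.cast_le.mpr hsub).trans hc
    have h2pos : (0 : ℝ) < 2 ^ a := by positivity
    have hp : (0 : ℝ) < 2 ^ a * Y := by positivity
    have hp4 : (0 : ℝ) ≤ ((2 : ℝ) ^ a * Y) ^ (-(17 / 8) : ℝ) := by positivity
    refine (mul_le_mul_of_nonneg_right hsub' hp4).trans ?_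
    have e1 : 3 * ((2 : ℝ) ^ (a + 1) * Y) ^ 2 * ((2 : ℝ) ^ a * Y) ^ (-(17 / 8) : ℝ) =
        12 * ((2 : ℝ) ^ a * Y) ^ (-(1 / 8) : ℝ) := by
      have e2 : ((2 : ℝ) ^ (a + 1) * Y) ^ 2 = 4 * ((2 : ℝ) ^ a * Y) ^ (2 : ℝ) := by
        rw [pow_succ, Real.rpow_two]
        ring
      rw [e2]
      have e3 : ((2 : ℝ) ^ a * Y) ^ (-(1 / 8) : ℝ) =
          ((2 : ℝ) ^ a * Y) ^ (2 : ℝ) * ((2 : ℝ) ^ a * Y) ^ (-(17 / 8) : ℝ) := by
        rw [← Real.rpow_add hp]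
        norm_num
      rw [e3]
      ring
    rw [e1, Real.mul_rpow h2pos.le hY0.le]
    have e4 : ((2 : ℝ) ^ a) ^ (-(1 / 8) : ℝ) = ((2 : ℝ) ^ (-(1 / 8) : ℝ)) ^ a := by
      rw [← Real.rpow_natCast, ← Real.rpow_natCast, ← Real.rpow_mul (by norm_num),
        ← Real.rpow_mul (by norm_num), mul_comm]
    have e5 : ((2 : ℝ) ^ (-(1 / 8) : ℝ)) ^ a ≤ 0.918 ^ a :=
      pow_le_pow_left₀ (by positivity) c_le a
    rw [e4]
    have hYp : (0 : ℝ) ≤ Y ^ (-(1 / 8) : ℝ) := by positivity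
    have := mul_le_mul_of_nonneg_right e5 hYp
    linarith
  refine (Finset.sum_le_sum hin).trans ?_
  rw [← Finset.mul_sum]
  have hgeo : ∑ i ∈ Finset.range (N + 1), (0.918 : ℝ) ^ i ≤ 12.5 := by
    rw [geom_sum_eq (by norm_num)]
    have : (0 : ℝ) ≤ (0.918) ^ (N + 1) := by positivity
    have e : ((0.918 : ℝ) ^ (N + 1) - 1) / (0.918 - 1) = (1 - (0.918) ^ (N + 1)) / 0.082 := by
      norm_num
      ring
    rw [e, div_le_iff₀ (by norm_num)]
    linarith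
  have hYY : (0 : ℝ) ≤ 12 * Y ^ (-(1 / 8) : ℝ) := by positivity
  refine (mul_le_mul_of_nonneg_left hgeo hYY).trans (le_of_eq ?_)
  ring

end Pool.Agent.Helper5.RS
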