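import Pool.Agent.Helper5.RS.AbelS

/-!
# Block RS-U4b: from the grids to all `x` (deterministic)

`grids_to_all`: for `2^b ≤ N < 2^(b+1)` split `Icc 1 N` into `Icc 1 (2^a0)` (norm `≤ 2^a0`), the dyadic blocks `Ioc (2^a) (2^(a+1))`, `a0 ≤ a < b`, and `Ioc (2^b) N`. Each block sum over `Ioc (2^a) N'` at a grid point is a difference of two sums over `Icc 1`,
so `≤ 2 √(2^a) φ a`, and by `abel_step` `≤ 16 √(2^a) φ a` at every `x`. `φ` is monotone: the total is `≤ 2^a0 + 16 φ b ∑_{a ≤ b} 2^(a/2) ≤ 2^a0 + 16 * 3.5 φ b √(2^b) ≤ 2^a0 + 60 √N φ b`. (If `N < 2^a0` the sum is at most `N ≤ 2^a0`.)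
-/

set_option autoImplicit false

namespace Pool.Agent.Helper5.RS

open Finset Pool.Agent.Helper5.RM

private theorem sum_split75 (f : ℕ → ℂ) {M N : ℕ} (h : M ≤ N) :
    ∑ n ∈ Finset.Icc 1 N, f n = ∑ n ∈ Finset.Icc 1 M, f n + ∑ n ∈ Finset.Ioc M N, f n := by
  have hI : ∀ K : ℕ, Finset.Icc 1 K = Finset.Ioc 0 K := by
    intro K
    ext n
    simp only [Finset.mem_Icc, Finset.mem_Ioc]
    omega
  rw [hI, hI]
  exact (Finset.sum_Ioc_consecutive f (Nat.zero_le M) h).symm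

private theorem sum_sqrt75 (b : ℕ) :
    ∑ a ∈ Finset.range (b + 1), Real.sqrt (2 ^ a) ≤ 7 / 2 * Real.sqrt (2 ^ b) := by
  induction b with
  | zero => norm_num
  | succ b ih =>
    rw [Finset.sum_range_succ]
    have h1 : Real.sqrt (2 ^ (b + 1)) = Real.sqrt (2 ^ b) * Real.sqrt 2 := by
      rw [pow_succ, Real.sqrt_mul (by positivity)]
    have h2 : (7 : ℝ) / 5 ≤ Real.sqrt 2 := by
      apply Real.le_sqrt_of_sq_le
      norm_num
    have h3 : 0 ≤ Real.sqrt ((2 : ℝ) ^ b) := Real.sqrt_nonneg _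
    rw [h1]
    nlinarith

private theorem trivial75 (c : ℕ → ℂ) (hc : ∀ n, ‖c n‖ ≤ 1) (N : ℕ) (x : ℝ) :
    ‖∑ n ∈ Finset.Icc 1 N, c n * e (n * x)‖ ≤ N := by
  refine (norm_sum_le _ _).trans ?_
  have h1 : ∀ n ∈ Finset.Icc 1 N, ‖c n * e (n * x)‖ ≤ 1 := by
    intro n _
    rw [norm_mul, norm_e, mul_one]
    exact hc n
  refine (Finset.sum_le_card_nsmul _ _ _ h1).trans ?_
  simp

theorem grids_to_all (a0 : ℕ) (c : ℕ → ℂ) (hc : ∀ n, ‖c n‖ ≤ 1) (φ : ℕ → ℝ) (hφ : Monotone φ)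
    (hφ0 : ∀ a, 0 ≤ φ a)
    (h : ∀ a : ℕ, a0 ≤ a → ∀ jj : ℕ, jj < 2 ^ a → ∀ N : ℕ, 2 ^ a ≤ N → N ≤ 2 ^ (a + 1) →
      ‖∑ n ∈ Finset.Icc 1 N, c n * e (n * ((jj : ℝ) / (2 ^ a : ℕ)))‖ ≤ Real.sqrt (2 ^ a) * φ a)
    (b N : ℕ) (hN1 : 2 ^ b ≤ N) (hN2 : N < 2 ^ (b + 1)) (x : ℝ) :
    ‖∑ n ∈ Finset.Icc 1 N, c n * e (n * x)‖ ≤ 2 ^ a0 + 60 * Real.sqrt N * φ b := by
  have hblock : ∀ a : ℕ, a0 ≤ a → ∀ M : ℕ, 2 ^ a ≤ M → M ≤ 2 ^ (a + 1) →
      ‖∑ n ∈ Finset.Ioc (2 ^ a) M, c n * e (n * x)‖ ≤ 16 * (Real.sqrt (2 ^ a) * φ a) := by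
    intro a ha M hM1 hM2
    refine (abel_step a c (2 * (Real.sqrt (2 ^ a) * φ a)) ?_ M hM1 hM2 x).trans (le_of_eq (by ring))
    intro jj hjj K hK1 hK2
    have h1 := h a ha jj hjj K hK1 hK2
    have h2 := h a ha jj hjj (2 ^ a) le_rfl (Nat.pow_le_pow_right (by norm_num) (Nat.le_succ a))
    have h3 : ∑ n ∈ Finset.Ioc (2 ^ a) K, c n * e (n * ((jj : ℝ) / (2 ^ a : ℕ))) =
        ∑ n ∈ Finset.Icc 1 K, c n * e (n * ((jj : ℝ) / (2 ^ a : ℕ))) -
          ∑ n ∈ Finset.Icc 1 (2 ^ a), c n * e (n * ((jj : ℝ) / (2 ^ a : ℕ))) := by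
      rw [sum_split75 _ hK1]
      ring
    rw [h3]
    refine (norm_sub_le _ _).trans ?_
    linarith
  have hpow : ∀ d : ℕ, ‖∑ n ∈ Finset.Icc 1 (2 ^ (a0 + d)), c n * e (n * x)‖ ≤
      2 ^ a0 + ∑ a ∈ Finset.range d, 16 * (Real.sqrt (2 ^ (a0 + a)) * φ (a0 + a)) := by
    intro d
    induction d with
    | zero =>
      rw [Finset.sum_range_zero, add_zero, add_zero]
      have h1 := trivial75 c hc (2 ^ a0) x
      push_cast at h1
      exact h1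
    | succ d ih =>
      have hle : 2 ^ (a0 + d) ≤ 2 ^ (a0 + d + 1) := Nat.pow_le_pow_right (by norm_num) (Nat.le_succ _)
      rw [← add_assoc, sum_split75 _ hle, Finset.sum_range_succ]
      refine (norm_add_le _ _).trans ?_
      have h1 := hblock (a0 + d) (Nat.le_add_right _ _) (2 ^ (a0 + d + 1)) hle le_rfl
      linarith
  have hφb := hφ0 b
  have hN0 : 0 ≤ Real.sqrt (N : ℝ) := Real.sqrt_nonneg _
  by_cases hb : b < a0
  · have h1 := trivial75 c hc N x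
    have h2 : N ≤ 2 ^ a0 := hN2.le.trans (Nat.pow_le_pow_right (by norm_num) hb)
    have h3 : (N : ℝ) ≤ 2 ^ a0 := by exact_mod_cast h2
    have h4 : 0 ≤ 60 * Real.sqrt N * φ b := by positivity
    linarith
  · obtain ⟨d, rfl⟩ := Nat.exists_eq_add_of_le (not_lt.1 hb)
    rw [sum_split75 _ hN1]
    refine (norm_add_le _ _).trans ?_
    have h1 := hpow d
    have h2 := hblock (a0 + d) (Nat.le_add_right _ _) N hN1 hN2.le
    have h3 : ∑ a ∈ Finset.range (d + 1), 16 * (Real.sqrt (2 ^ (a0 + a)) * φ (a0 + a)) ≤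
        16 * φ (a0 + d) * ∑ a ∈ Finset.range (a0 + d + 1), Real.sqrt (2 ^ a) := by
      have h4 : ∀ a ∈ Finset.range (d + 1), 16 * (Real.sqrt (2 ^ (a0 + a)) * φ (a0 + a)) ≤
          16 * φ (a0 + d) * Real.sqrt (2 ^ (a0 + a)) := by
        intro a ha
        have h5 : φ (a0 + a) ≤ φ (a0 + d) := hφ (by
          have := Finset.mem_range.1 ha
          omega)
        have h6 : 0 ≤ Real.sqrt ((2 : ℝ) ^ (a0 + a)) := Real.sqrt_nonneg _
        nlinarith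
      refine (Finset.sum_le_sum h4).trans ?_
      rw [← Finset.mul_sum]
      refine mul_le_mul_of_nonneg_left ?_ (by positivity)
      have h7' := Finset.sum_range_add (fun a : ℕ => Real.sqrt ((2 : ℝ) ^ a)) a0 (d + 1)
      rw [show a0 + d + 1 = a0 + (d + 1) by ring, h7']
      have h7 : 0 ≤ ∑ a ∈ Finset.range a0, Real.sqrt ((2 : ℝ) ^ a) :=
        Finset.sum_nonneg fun _ _ => Real.sqrt_nonneg _
      linarith
    rw [Finset.sum_range_succ] at h3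
    have h8 := sum_sqrt75 (a0 + d)
    have h9 : Real.sqrt ((2 : ℝ) ^ (a0 + d)) ≤ Real.sqrt N := by
      apply Real.sqrt_le_sqrt
      exact_mod_cast hN1
    have h10 : 16 * φ (a0 + d) * ∑ a ∈ Finset.range (a0 + d + 1), Real.sqrt (2 ^ a) ≤
        16 * φ (a0 + d) * (7 / 2 * Real.sqrt N) := by
      refine mul_le_mul_of_nonneg_left (h8.trans ?_) (by positivity)
      linarith
    have h11 : 16 * φ (a0 + d) * (7 / 2 * Real.sqrt N) ≤ 60 * Real.sqrt N * φ (a0 + d) := by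
      have h12 : 0 ≤ Real.sqrt (N : ℝ) * φ (a0 + d) := mul_nonneg hN0 hφb
      nlinarith
    linarith

end Pool.Agent.Helper5.RS
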