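import Pool.Agent.Helper5.RS.Unif
import Pool.Agent.Helper5.RS.Grid

/-!
# Block RS-U5: the almost sure theorem

Follow `almost_sureP` in `RM/ASP.lean` (and `AS.lean`: lemmas `AS_rs_eq`, `AS_sum_eq`). `M_i = 2^(2·2^i)`. By `meas_leP` and `unif2` (`ε`): the event `E_i` that for `T = (PP M_i).filter (ext ε p ω = -1)` there are `a, jj, N` as in `unif2` has measure
`≤ ofReal (2^(-c i))`, summable (geometric): by Borel-Cantelli (`MeasureTheory.ae_eventually_notMem`) almost surely `E_i` fails for all `i ≥ i1(ω)`. Almost surely all `ε p ω` are `±1`. Fix such an `ω`. For `a ≥ a0 := 2^i1` let `i = Nat.log 2 a`, so `2^i ≤ a < 2·2^i`, `i ≥ i1`,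
and for `jj < 2^a`, `2^a ≤ N ≤ 2^(a+1) ≤ M_i`: `‖∑_{n ≤ N} rs .. n e (n jj/2^a)‖ = ‖SN N T (jj/2^a)‖ ≤ √(2^a) (2^i)^(1/2+ε) ≤ √(2^a) φ a` with `φ a = a^(1/2+ε)` (`AS_sum_eq`). `grids_to_all`: for `2^b ≤ N < 2^(b+1)`:
`‖..‖ ≤ 2^a0 + 60 √N b^(1/2+ε)`, `b ≤ log N / log 2 ≤ 2 log N`, and `2^a0 ≤ C √N (log N)^(1/2+ε)` for `N ≥ 2` with `C` depending on `ω` (`log 2 > 0`).
-/

set_option autoImplicit false

namespace Pool.Agent.Helper5.RS

open Finset MeasureTheory ProbabilityTheory Pool.Agent.Helper5.RM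

theorem almost_sure2 {Ω : Type*} [MeasurableSpace Ω] (μ : Measure Ω) [IsProbabilityMeasure μ]
    (ε : Nat.Primes → Ω → ℝ) (hm : ∀ p, Measurable (ε p)) (hi : iIndepFun ε μ)
    (h2 : ∀ p, μ {ω | ε p ω = -1} = 1 / 2) (h1 : ∀ p, μ {ω | ε p ω = 1} = 1 / 2) (δ : ℝ) (hδ : 0 < δ) :
    ∀ᵐ ω ∂μ, ∃ C : ℝ, ∀ N : ℕ, 2 ≤ N → ∀ x : ℝ,
      ‖∑ n ∈ Finset.Icc 1 N, (rs (ext ε) ω n : ℂ) * e (n * x)‖ ≤
        C * Real.sqrt N * Real.log N ^ (1 / 2 + δ) := by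
  classical
  obtain ⟨c, i0, hc, hu⟩ := unif2 δ hδ
  have hexp : (0 : ℝ) ≤ 1 / 2 + δ := by positivity
  -- all values are signs
  have hsign : ∀ᵐ ω ∂μ, ∀ p, ε p ω = -1 ∨ ε p ω = 1 := by
    rw [ae_all_iff]
    intro p
    have hm1 : MeasurableSet {ω | ε p ω = -1} := hm p (measurableSet_singleton _)
    have hm2 : MeasurableSet {ω | ε p ω = 1} := hm p (measurableSet_singleton _)
    have hd : Disjoint {ω | ε p ω = -1} {ω | ε p ω = 1} := by
      rw [Set.disjoint_left]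
      intro ω ha hb
      have ha' : ε p ω = -1 := ha
      have hb' : ε p ω = 1 := hb
      rw [ha'] at hb'
      norm_num at hb'
    have hu : μ ({ω | ε p ω = -1} ∪ {ω | ε p ω = 1}) = 1 := by
      rw [measure_union hd hm2, h2 p, h1 p]
      exact ENNReal.add_halves 1
    have hu' := (mem_ae_iff_prob_eq_one (hm1.union hm2)).2 hu
    exact hu'
  -- the bad events
  let Q : ℕ → Finset ℕ → Prop := fun i T =>
    ∃ a jj N : ℕ, 2 ^ i ≤ a ∧ a < 2 * 2 ^ i ∧ jj < 2 ^ a ∧ 2 ^ a ≤ N ∧ N ≤ 2 ^ (a + 1) ∧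
      Real.sqrt (2 ^ a) * ((2 : ℝ) ^ i) ^ (1 / 2 + δ) < ‖SN N T ((jj : ℝ) / (2 ^ a : ℕ))‖
  let s : ℕ → Set Ω := fun r =>
    {ω | Q (r + i0) ((PP (2 ^ (2 * 2 ^ (r + i0)))).filter (fun p => ext ε p ω = -1))}
  have hpow : ∀ n : ℕ, ((2 : ℝ) ^ n) ^ (-c) = ((2 : ℝ) ^ (-c)) ^ n := by
    intro n
    rw [← Real.rpow_natCast 2 n, ← Real.rpow_mul (by norm_num), mul_comm,
      Real.rpow_mul (by norm_num), Real.rpow_natCast]
  have hs : ∀ r, μ (s r) ≤ ENNReal.ofReal (((2 : ℝ) ^ (-c)) ^ (r + i0)) := by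
    intro r
    refine (meas_leP μ ε hm hi h2 (2 ^ (2 * 2 ^ (r + i0))) (Q (r + i0))).trans ?_
    apply ENNReal.ofReal_le_ofReal
    rw [← hpow]
    exact hu (r + i0) (by omega)
  have hsum : ∑' r, μ (s r) ≠ ⊤ := by
    have hc1 : (2 : ℝ) ^ (-c) < 1 := Real.rpow_lt_one_of_one_lt_of_neg (by norm_num) (by linarith)
    have hc0 : (0 : ℝ) ≤ (2 : ℝ) ^ (-c) := Real.rpow_nonneg (by norm_num) _
    have hsm : Summable (fun r : ℕ => ((2 : ℝ) ^ (-c)) ^ (r + i0)) :=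
      (summable_nat_add_iff i0).2 (summable_geometric_of_lt_one hc0 hc1)
    exact ne_top_of_le_ne_top hsm.tsum_ofReal_ne_top (ENNReal.tsum_le_tsum hs)
  have hbc := ae_eventually_notMem hsum
  filter_upwards [hsign, hbc] with ω hω' hev
  have hω : ∀ p, ext ε p ω = -1 ∨ ext ε p ω = 1 := by
    intro p
    unfold Pool.Agent.Helper5.RM.ext
    split_ifs with h
    · exact hω' _
    · right; rfl
  obtain ⟨r0, hr0⟩ := Filter.eventually_atTop.1 hev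
  set a0 : ℕ := 2 ^ (r0 + i0) with ha0
  refine ⟨(2 ^ a0 + 60) * 2 ^ (1 / 2 + δ), ?_⟩
  intro N hN x
  have hlog2 := Real.log_two_gt_d9
  have hlogN : Real.log 2 ≤ Real.log N := Real.log_le_log (by norm_num) (by exact_mod_cast hN)
  have hlog0 : 0 < Real.log N := by linarith
  have hs1 : 1 ≤ Real.sqrt N := by
    rw [Real.one_le_sqrt]
    exact_mod_cast (by omega : 1 ≤ N)
  let φ : ℕ → ℝ := fun a => (a : ℝ) ^ (1 / 2 + δ)
  have hφ : Monotone φ := by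
    intro a b hab
    exact Real.rpow_le_rpow (by positivity) (by exact_mod_cast hab) hexp
  have hφ0 : ∀ a, 0 ≤ φ a := fun a => Real.rpow_nonneg (by positivity) _
  have hcn : ∀ n, ‖(rs (ext ε) ω n : ℂ)‖ ≤ 1 := by
    intro n
    rw [Complex.norm_real, AS_rs_eq (ext ε) ω hω n n le_rfl]
    exact abs_rf_le _ _
  have hgrid : ∀ a : ℕ, a0 ≤ a → ∀ jj : ℕ, jj < 2 ^ a → ∀ N : ℕ, 2 ^ a ≤ N → N ≤ 2 ^ (a + 1) →
      ‖∑ n ∈ Finset.Icc 1 N, (rs (ext ε) ω n : ℂ) * e (n * ((jj : ℝ) / (2 ^ a : ℕ)))‖ ≤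
        Real.sqrt (2 ^ a) * φ a := by
    intro a ha jj hjj N hN1 hN2
    have ha1 : a ≠ 0 := by
      have : 0 < a0 := by rw [ha0]; positivity
      omega
    set i := Nat.log 2 a with hidef
    have hi1 : 2 ^ i ≤ a := Nat.pow_log_le_self 2 ha1
    have hi2 : a < 2 ^ (i + 1) := Nat.lt_pow_succ_log_self (by norm_num) a
    have hi3 : r0 + i0 ≤ i := (Nat.le_log_iff_pow_le (by norm_num) ha1).2 ha
    have hnot := hr0 (i - i0) (by omega)
    have hii : i - i0 + i0 = i := by omega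
    have hnot' : ¬ Q i ((PP (2 ^ (2 * 2 ^ i))).filter (fun p => ext ε p ω = -1)) := by
      rw [← hii]
      exact hnot
    have hi2' : a < 2 * 2 ^ i := by rw [pow_succ] at hi2; omega
    have hNM : N ≤ 2 ^ (2 * 2 ^ i) :=
      hN2.trans (Nat.pow_le_pow_right (by norm_num) (by omega))
    rw [AS_sum_eq (ext ε) ω hω (2 ^ (2 * 2 ^ i)) N hNM]
    have hb : ‖SN N ((PP (2 ^ (2 * 2 ^ i))).filter (fun p => ext ε p ω = -1))
        ((jj : ℝ) / (2 ^ a : ℕ))‖ ≤ Real.sqrt (2 ^ a) * ((2 : ℝ) ^ i) ^ (1 / 2 + δ) := by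
      by_contra hcon
      push Not at hcon
      exact hnot' ⟨a, jj, N, hi1, hi2', hjj, hN1, hN2, hcon⟩
    refine hb.trans ?_
    apply mul_le_mul_of_nonneg_left _ (Real.sqrt_nonneg _)
    apply Real.rpow_le_rpow (by positivity) _ hexp
    exact_mod_cast hi1
  set b := Nat.log 2 N with hb
  have hb1 : 2 ^ b ≤ N := Nat.pow_log_le_self 2 (by omega)
  have hb2 : N < 2 ^ (b + 1) := Nat.lt_pow_succ_log_self (by norm_num) N
  refine (grids_to_all a0 (fun n => (rs (ext ε) ω n : ℂ)) hcn φ hφ hφ0 hgrid b N hb1 hb2 x).trans ?_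
  have hblog : (b : ℝ) ≤ 2 * Real.log N := by
    have h3 : (b : ℝ) * Real.log 2 ≤ Real.log N := by
      rw [← Real.log_pow]
      apply Real.log_le_log (by positivity)
      exact_mod_cast hb1
    have h4 : (0 : ℝ) ≤ b := by positivity
    nlinarith
  have hφb : φ b ≤ 2 ^ (1 / 2 + δ) * Real.log N ^ (1 / 2 + δ) := by
    rw [← Real.mul_rpow (by norm_num) hlog0.le]
    exact Real.rpow_le_rpow (by positivity) hblog hexp
  have h1' : (1 : ℝ) ≤ 2 ^ (1 / 2 + δ) * Real.log N ^ (1 / 2 + δ) := by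
    rw [← Real.mul_rpow (by norm_num) hlog0.le]
    exact Real.one_le_rpow (by linarith) hexp
  set L := (2 : ℝ) ^ (1 / 2 + δ) * Real.log N ^ (1 / 2 + δ) with hL
  have hA : (0 : ℝ) ≤ 2 ^ a0 := by positivity
  calc (2 : ℝ) ^ a0 + 60 * Real.sqrt N * φ b
      ≤ 2 ^ a0 * (Real.sqrt N * L) + 60 * Real.sqrt N * L := by
        have h5 : (1 : ℝ) ≤ Real.sqrt N * L := one_le_mul_of_one_le_of_one_le hs1 h1'
        have h6 : (2 : ℝ) ^ a0 ≤ 2 ^ a0 * (Real.sqrt N * L) := le_mul_of_one_le_right hA h5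
        have h7 : 60 * Real.sqrt N * φ b ≤ 60 * Real.sqrt N * L :=
          mul_le_mul_of_nonneg_left hφb (by positivity)
        linarith
    _ = (2 ^ a0 + 60) * 2 ^ (1 / 2 + δ) * Real.sqrt N * Real.log N ^ (1 / 2 + δ) := by
        rw [hL]; ring

end Pool.Agent.Helper5.RS
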