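import Pool.Agent.Helper5.RS.Comp

/-!
# Block RS-U4a: partial summation near a grid point (deterministic)

`abel_step`: `x = jj/2^a + δ + (integer)`, `jj = ⌊fract x * 2^a⌋ < 2^a`, `0 ≤ δ < 2^(-a)`, so `e (n x) = e (n jj / 2^a) e (n δ)`. With `S_n = ∑_{m ∈ Ioc (2^a) n} c m e (m jj / 2^a)` (`‖S_n‖ ≤ B`) partial summation gives
`∑_{n ∈ Ioc (2^a) N} c n e (n x) = S_N e (N δ) - ∑_{n ∈ Ico (2^a) N} S_n (e ((n+1) δ) - e (n δ))`, and `‖e ((n+1) δ) - e (n δ)‖ ≤ 2π δ` (`e_sub_le`), at most `2^a` terms: `≤ B (1 + 2π) ≤ 8 B`.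
-/

set_option autoImplicit false

namespace Pool.Agent.Helper5.RS

open Finset Pool.Agent.Helper5.RM

private theorem e_step75 (n : ℕ) {δ : ℝ} (hδ : 0 ≤ δ) :
    ‖e (((n + 1 : ℕ) : ℝ) * δ) - e ((n : ℝ) * δ)‖ ≤ 2 * Real.pi * δ := by
  have h1 : e (((n + 1 : ℕ) : ℝ) * δ) = e ((n : ℝ) * δ) * e δ := by
    rw [← e_add]
    congr 1
    push_cast
    ring
  have h2 : e δ = Complex.exp (Complex.I * ((2 * Real.pi * δ : ℝ) : ℂ)) := by
    unfold e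
    congr 1
    push_cast
    ring
  have h3 : e ((n : ℝ) * δ) * e δ - e ((n : ℝ) * δ) = e ((n : ℝ) * δ) * (e δ - 1) := by ring
  rw [h1, h3, norm_mul, norm_e, one_mul, h2]
  refine (Real.norm_exp_I_mul_ofReal_sub_one_le).trans (le_of_eq ?_)
  rw [Real.norm_eq_abs, abs_of_nonneg (by have := Real.pi_pos; positivity)]

private theorem partial75 (g : ℕ → ℂ) (δ : ℝ) (M d : ℕ) :
    ∑ n ∈ Finset.Ioc M (M + d), g n * e ((n : ℝ) * δ) =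
      (∑ n ∈ Finset.Ioc M (M + d), g n) * e (((M + d : ℕ) : ℝ) * δ) -
        ∑ k ∈ Finset.range d, (∑ n ∈ Finset.Ioc M (M + k), g n) *
          (e (((M + k + 1 : ℕ) : ℝ) * δ) - e (((M + k : ℕ) : ℝ) * δ)) := by
  induction d with
  | zero => simp
  | succ d ih =>
    have hI : ∀ f : ℕ → ℂ, ∑ n ∈ Finset.Ioc M (M + (d + 1)), f n =
        ∑ n ∈ Finset.Ioc M (M + d), f n + f (M + d + 1) := by
      intro f
      rw [← add_assoc, Finset.sum_Ioc_succ_top (Nat.le_add_right M d)]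
    rw [hI, hI, Finset.sum_range_succ, ih, ← add_assoc]
    ring

theorem abel_step (a : ℕ) (c : ℕ → ℂ) (B : ℝ)
    (h : ∀ jj : ℕ, jj < 2 ^ a → ∀ N : ℕ, 2 ^ a ≤ N → N ≤ 2 ^ (a + 1) →
      ‖∑ n ∈ Finset.Ioc (2 ^ a) N, c n * e (n * ((jj : ℝ) / (2 ^ a : ℕ)))‖ ≤ B)
    (N : ℕ) (hN1 : 2 ^ a ≤ N) (hN2 : N ≤ 2 ^ (a + 1)) (x : ℝ) :
    ‖∑ n ∈ Finset.Ioc (2 ^ a) N, c n * e (n * x)‖ ≤ 8 * B := by
  have h2a : (0 : ℝ) < (2 ^ a : ℕ) := by positivity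
  have hB : 0 ≤ B := by
    have h1 := h 0 (by positivity) (2 ^ a) le_rfl (Nat.pow_le_pow_right (by norm_num) (Nat.le_succ a))
    exact (norm_nonneg _).trans h1
  set y : ℝ := Int.fract x with hy
  have hy0 : 0 ≤ y := Int.fract_nonneg x
  have hy1 : y < 1 := Int.fract_lt_one x
  set jj : ℕ := ⌊y * (2 ^ a : ℕ)⌋₊ with hjj
  have hjy : (jj : ℝ) ≤ y * (2 ^ a : ℕ) := Nat.floor_le (by positivity)
  have hjy' : y * (2 ^ a : ℕ) < jj + 1 := Nat.lt_floor_add_one _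
  have hj : jj < 2 ^ a := by
    have h1 : (jj : ℝ) < (2 ^ a : ℕ) := by
      refine lt_of_le_of_lt hjy ?_
      nlinarith
    exact_mod_cast h1
  set δ : ℝ := y - (jj : ℝ) / (2 ^ a : ℕ) with hδ
  have hδ0 : 0 ≤ δ := by
    rw [hδ, sub_nonneg, div_le_iff₀ h2a]
    exact hjy
  have hδ1 : δ * (2 ^ a : ℕ) ≤ 1 := by
    rw [hδ, sub_mul, div_mul_cancel₀ _ h2a.ne']
    linarith
  have hterm : ∀ n : ℕ, c n * e (n * x) = c n * e (n * ((jj : ℝ) / (2 ^ a : ℕ))) * e ((n : ℝ) * δ) := by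
    intro n
    have h1 : (n : ℝ) * x = (n : ℝ) * ((jj : ℝ) / (2 ^ a : ℕ)) + (n : ℝ) * δ + (((n : ℤ) * ⌊x⌋ : ℤ) : ℝ) := by
      have h2 : x = y + ⌊x⌋ := by
        rw [hy]
        exact (Int.fract_add_floor x).symm
      have h3 : (n : ℝ) * x = n * y + n * ⌊x⌋ := by
        rw [← mul_add, ← h2]
      rw [h3, hδ]
      push_cast
      ring
    rw [h1, e_add, e_int, mul_one, e_add]
    ring
  obtain ⟨d, rfl⟩ := Nat.exists_eq_add_of_le hN1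
  have hd : d ≤ 2 ^ a := by
    rw [pow_succ] at hN2
    omega
  have hS : ∀ k : ℕ, k ≤ 2 ^ a →
      ‖∑ n ∈ Finset.Ioc (2 ^ a) (2 ^ a + k), c n * e (n * ((jj : ℝ) / (2 ^ a : ℕ)))‖ ≤ B := by
    intro k hk
    refine h jj hj (2 ^ a + k) (Nat.le_add_right _ _) ?_
    rw [pow_succ]
    omega
  rw [Finset.sum_congr rfl fun n _ => hterm n,
    partial75 (fun n => c n * e (n * ((jj : ℝ) / (2 ^ a : ℕ)))) δ (2 ^ a) d]
  refine (norm_sub_le _ _).trans ?_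
  have h4 : ‖(∑ n ∈ Finset.Ioc (2 ^ a) (2 ^ a + d), c n * e (n * ((jj : ℝ) / (2 ^ a : ℕ)))) *
      e (((2 ^ a + d : ℕ) : ℝ) * δ)‖ ≤ B := by
    rw [norm_mul, norm_e, mul_one]
    exact hS d hd
  have h5 : ‖∑ k ∈ Finset.range d, (∑ n ∈ Finset.Ioc (2 ^ a) (2 ^ a + k), c n * e (n * ((jj : ℝ) / (2 ^ a : ℕ)))) *
      (e (((2 ^ a + k + 1 : ℕ) : ℝ) * δ) - e (((2 ^ a + k : ℕ) : ℝ) * δ))‖ ≤ d * (B * (2 * Real.pi * δ)) := by
    refine (norm_sum_le _ _).trans ?_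
    have h6 : ∀ k ∈ Finset.range d, ‖(∑ n ∈ Finset.Ioc (2 ^ a) (2 ^ a + k), c n * e (n * ((jj : ℝ) / (2 ^ a : ℕ)))) *
        (e (((2 ^ a + k + 1 : ℕ) : ℝ) * δ) - e (((2 ^ a + k : ℕ) : ℝ) * δ))‖ ≤ B * (2 * Real.pi * δ) := by
      intro k hk
      rw [norm_mul]
      refine mul_le_mul (hS k ((Finset.mem_range.1 hk).le.trans hd)) ?_ (norm_nonneg _) hB
      exact e_step75 (2 ^ a + k) hδ0
    refine (Finset.sum_le_card_nsmul _ _ _ h6).trans (le_of_eq ?_)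
    rw [Finset.card_range, nsmul_eq_mul]
  have h7 : (d : ℝ) * (B * (2 * Real.pi * δ)) ≤ 2 * Real.pi * B := by
    have h8 : (d : ℝ) ≤ (2 ^ a : ℕ) := by exact_mod_cast hd
    have h9 : (d : ℝ) * δ ≤ 1 := (mul_le_mul_of_nonneg_right h8 hδ0).trans (by linarith)
    have h10 : 0 ≤ 2 * Real.pi * B := by have := Real.pi_pos; positivity
    calc (d : ℝ) * (B * (2 * Real.pi * δ)) = 2 * Real.pi * B * (d * δ) := by ring
      _ ≤ 2 * Real.pi * B * 1 := mul_le_mul_of_nonneg_left h9 h10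
      _ = 2 * Real.pi * B := mul_one _
  have h11 : 2 * Real.pi * B ≤ 7 * B := by
    have := Real.pi_lt_d2
    exact mul_le_mul_of_nonneg_right (by linarith) hB
  linarith

end Pool.Agent.Helper5.RS
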