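import Pool.Agent.Helper66.AF.BT

/-!
# Block RS-S1: the Selberg sieve in a residue class

Adapt `Pool/Agent/Helper66/AF/BT.lean` (there `q = 1`), all sums restricted to `d` coprime to `q`. The lemmas `inner`, `VV`, `main_eq` go through word for word: divisors of `m ∈ Dq q z`
are in `Dq q z`, and `lcm (d, e)`, `gcd (d, e)` are coprime to `q`. The count: for `f` coprime to `q` the integers `n ∈ (u, u + h]` with `f ∣ n`, `n ≡ b mod q` are the elements of one residue
class mod `q f` (Chinese remainder theorem), so their number differs from `h / (q f)` by at most `1`. A prime `p > z` has no divisor in `Dq q z` but `1`, so it is counted with weight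
`lq 1 ^ 2 = 1`; primes `≤ z` are at most `z` many. The weights satisfy `|lq d| ≤ z`, there are at most `z^2` pairs, each with error at most `z^2`: `z^4`.

`Gq_lower`: every squarefree `m ≤ z` is `m = g m'` with `g = gcd (m, q)`, `m' ∈ Dq q z`, `φ(m) = φ(g) φ(m')` and `m ↦ (g, m')` is injective, so
`G z ≤ (∑_{g ∣ q, squarefree} 1/φ(g)) * Gq q z` and the first factor is `∏_{p ∣ q} (1 + 1/(p-1)) = ∏ p/(p-1) = q/φ(q)`. Now `BT.G_lower`.
(For the factor: `∑_{g ∣ q squarefree} ∏_{p ∣ g} 1/(p-1) = ∏_{p ∈ q.primeFactors} (1 + 1/(p-1))`: `Finset.prod_one_add` or `Nat.totient_mul_prod_primeFactors`.)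
-/

set_option autoImplicit false

namespace Pool.Agent.Helper5.RS

open Finset
open scoped ArithmeticFunction.Moebius

/-- squarefree `d ≤ z` coprime to `q` -/
noncomputable def Dq (q z : ℕ) : Finset ℕ := (Finset.Icc 1 z).filter (fun d => Squarefree d ∧ Nat.Coprime d q)

noncomputable def Gq (q z : ℕ) : ℝ := ∑ m ∈ Dq q z, 1 / (Nat.totient m : ℝ)

noncomputable def lq (q z d : ℕ) : ℝ :=
  (μ d : ℝ) * d * (∑ m ∈ (Dq q z).filter (fun m => d ∣ m), 1 / (Nat.totient m : ℝ)) / Gq q z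

private lemma mem_Dq {q z d : ℕ} : d ∈ Dq q z ↔ (1 ≤ d ∧ d ≤ z) ∧ Squarefree d ∧ Nat.Coprime d q := by
  unfold Dq
  rw [Finset.mem_filter, Finset.mem_Icc]

private lemma one_mem_Dq {q z : ℕ} (hz : 1 ≤ z) : 1 ∈ Dq q z :=
  mem_Dq.2 ⟨⟨le_rfl, hz⟩, squarefree_one, Nat.coprime_one_left q⟩

private lemma totq_pos {q z d : ℕ} (h : d ∈ Dq q z) : (0 : ℝ) < Nat.totient d := by
  have := Nat.totient_pos.2 (mem_Dq.1 h).1.1
  exact_mod_cast this

private lemma Gq_pos {q z : ℕ} (hz : 1 ≤ z) : 0 < Gq q z := by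
  unfold Gq
  exact Finset.sum_pos (fun m hm => one_div_pos.2 (totq_pos hm)) ⟨1, one_mem_Dq hz⟩

private lemma lq_one {q z : ℕ} (hz : 1 ≤ z) : lq q z 1 = 1 := by
  have h : (Dq q z).filter (fun m => 1 ∣ m) = Dq q z := by
    apply Finset.filter_true_of_mem
    intro m _
    exact one_dvd m
  unfold lq
  rw [h]
  have := Gq_pos (q := q) hz
  have h2 : (∑ m ∈ Dq q z, 1 / (Nat.totient m : ℝ)) = Gq q z := rfl
  rw [h2]
  simp [this.ne']

private lemma abs_lq_le {q z d : ℕ} (hd : d ∈ Dq q z) : |lq q z d| ≤ z := by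
  have hz : 1 ≤ z := (mem_Dq.1 hd).1.1.trans (mem_Dq.1 hd).1.2
  have hG := Gq_pos (q := q) hz
  unfold lq
  have h1 : ∑ m ∈ (Dq q z).filter (fun m => d ∣ m), 1 / (Nat.totient m : ℝ) ≤ Gq q z := by
    unfold Gq
    exact Finset.sum_le_sum_of_subset_of_nonneg (Finset.filter_subset _ _) fun m hm _ => (one_div_pos.2 (totq_pos hm)).le
  have h0 : 0 ≤ ∑ m ∈ (Dq q z).filter (fun m => d ∣ m), 1 / (Nat.totient m : ℝ) :=
    Finset.sum_nonneg fun m _ => by positivity
  have h2 : |(μ d : ℝ)| ≤ 1 := by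
    have := ArithmeticFunction.abs_moebius_le_one (n := d)
    exact_mod_cast this
  have h3 : (d : ℝ) ≤ z := by exact_mod_cast (mem_Dq.1 hd).1.2
  rw [abs_div, abs_mul, abs_mul, abs_of_pos hG, abs_of_nonneg h0, div_le_iff₀ hG, Nat.abs_cast]
  calc |(μ d : ℝ)| * d * (∑ m ∈ (Dq q z).filter (fun m => d ∣ m), 1 / (Nat.totient m : ℝ)) ≤ 1 * z * Gq q z := by gcongr
    _ = _ := by ring

private lemma VVq {q z k : ℕ} (hk : k ∈ Dq q z) :
    ∑ d ∈ (Dq q z).filter (fun d => k ∣ d), lq q z d / d = (μ k : ℝ) / (Gq q z * Nat.totient k) := by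
  have hz : 1 ≤ z := (mem_Dq.1 hk).1.1.trans (mem_Dq.1 hk).1.2
  have hG := Gq_pos (q := q) hz
  have e1 : ∀ d ∈ (Dq q z).filter (fun d => k ∣ d), lq q z d / d =
      ∑ m ∈ Dq q z, if d ∣ m then (μ d : ℝ) * (1 / (Nat.totient m : ℝ)) / Gq q z else 0 := by
    intro d hd
    rw [Finset.mem_filter] at hd
    have hd0 : (0 : ℝ) < d := by exact_mod_cast (mem_Dq.1 hd.1).1.1
    rw [← Finset.sum_filter]
    unfold lq
    rw [← Finset.sum_div, ← Finset.mul_sum]
    field_simp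
  rw [Finset.sum_congr rfl e1, Finset.sum_comm]
  have e2 : ∀ m ∈ Dq q z, ∑ d ∈ (Dq q z).filter (fun d => k ∣ d), (if d ∣ m then (μ d : ℝ) * (1 / (Nat.totient m : ℝ)) / Gq q z else 0) =
      if m = k then (μ k : ℝ) / (Gq q z * Nat.totient k) else 0 := by
    intro m hm
    rw [← Finset.sum_filter]
    have e3 : ((Dq q z).filter (fun d => k ∣ d)).filter (fun d => d ∣ m) = m.divisors.filter (fun d => k ∣ d) := by
      ext d
      simp only [Finset.mem_filter, Nat.mem_divisors, mem_Dq]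
      rw [mem_Dq] at hm
      constructor
      · rintro ⟨⟨h1, h2⟩, h3⟩
        exact ⟨⟨h3, by omega⟩, h2⟩
      · rintro ⟨⟨h1, h2⟩, h3⟩
        have h4 : d ≤ m := Nat.le_of_dvd (by omega) h1
        have h5 : 0 < d := Nat.pos_of_dvd_of_pos h1 (by omega)
        exact ⟨⟨⟨⟨h5, by omega⟩, hm.2.1.squarefree_of_dvd h1, hm.2.2.coprime_dvd_left h1⟩, h3⟩, h1⟩
    rw [e3, ← Finset.sum_div, ← Finset.sum_mul, Pool.Agent.Helper66.AF.BT.inner (mem_Dq.1 hm).2.1]
    split_ifs with h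
    · rw [h]
      have := totq_pos hk
      field_simp
    · simp
  rw [Finset.sum_congr rfl e2, Finset.sum_ite_eq' , if_pos hk]

private lemma main_eqq {q z : ℕ} (hz : 1 ≤ z) :
    ∑ d ∈ Dq q z, ∑ e ∈ Dq q z, lq q z d * lq q z e / (Nat.lcm d e : ℝ) = 1 / Gq q z := by
  have hG := Gq_pos (q := q) hz
  have e1 : ∀ d ∈ Dq q z, ∀ e ∈ Dq q z, lq q z d * lq q z e / (Nat.lcm d e : ℝ) =
      ∑ k ∈ Dq q z, (Nat.totient k : ℝ) * ((if k ∣ d then lq q z d / d else 0) * (if k ∣ e then lq q z e / e else 0)) := by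
    intro d hd e he
    have hd0 : 0 < d := (mem_Dq.1 hd).1.1
    have he0 : 0 < e := (mem_Dq.1 he).1.1
    have hg0 : 0 < Nat.gcd d e := Nat.gcd_pos_of_pos_left _ hd0
    have hl0 : 0 < Nat.lcm d e := Nat.lcm_pos hd0 he0
    have h1 : ((Nat.gcd d e : ℕ) : ℝ) = ∑ k ∈ (Nat.gcd d e).divisors, (Nat.totient k : ℝ) := by
      have := Nat.sum_totient (Nat.gcd d e)
      exact_mod_cast this.symm
    have h2 : (Nat.gcd d e).divisors = (Dq q z).filter (fun k => k ∣ d ∧ k ∣ e) := by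
      ext k
      simp only [Finset.mem_filter, Nat.mem_divisors, mem_Dq, Nat.dvd_gcd_iff]
      rw [mem_Dq] at hd
      constructor
      · rintro ⟨⟨h3, h4⟩, _⟩
        have h5 := Nat.le_of_dvd hd0 h3
        have h6 := Nat.pos_of_dvd_of_pos h3 hd0
        exact ⟨⟨⟨h6, by omega⟩, hd.2.1.squarefree_of_dvd h3, hd.2.2.coprime_dvd_left h3⟩, h3, h4⟩
      · rintro ⟨_, h3, h4⟩
        exact ⟨⟨h3, h4⟩, by omega⟩
    have h3 : ((Nat.gcd d e : ℕ) : ℝ) * (Nat.lcm d e : ℝ) = d * e := by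
      have := Nat.gcd_mul_lcm d e
      exact_mod_cast this
    have h4 : lq q z d * lq q z e / (Nat.lcm d e : ℝ) = ((Nat.gcd d e : ℕ) : ℝ) * (lq q z d / d * (lq q z e / e)) := by
      have hd1 : (0 : ℝ) < d := by exact_mod_cast hd0
      have he1 : (0 : ℝ) < e := by exact_mod_cast he0
      have hl1 : (0 : ℝ) < (Nat.lcm d e : ℝ) := by exact_mod_cast hl0
      rw [div_mul_div_comm, ← h3]
      have hg1 : (0 : ℝ) < (Nat.gcd d e : ℝ) := by exact_mod_cast hg0
      field_simp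
    rw [h4, h1, h2, Finset.sum_mul, Finset.sum_filter]
    refine Finset.sum_congr rfl fun k _ => ?_
    by_cases a : k ∣ d <;> by_cases b : k ∣ e <;> simp [a, b]
  rw [Finset.sum_congr rfl fun d hd => Finset.sum_congr rfl fun e he => e1 d hd e he]
  have e2 : ∑ d ∈ Dq q z, ∑ e ∈ Dq q z, ∑ k ∈ Dq q z, (Nat.totient k : ℝ) * ((if k ∣ d then lq q z d / d else 0) * (if k ∣ e then lq q z e / e else 0)) =
      ∑ k ∈ Dq q z, (Nat.totient k : ℝ) * (∑ d ∈ (Dq q z).filter (fun d => k ∣ d), lq q z d / d) ^ 2 := by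
    rw [Finset.sum_congr rfl fun d _ => Finset.sum_comm, Finset.sum_comm]
    refine Finset.sum_congr rfl fun k _ => ?_
    rw [Finset.sum_filter, sq, Finset.sum_mul_sum, Finset.mul_sum]
    refine Finset.sum_congr rfl fun d _ => ?_
    rw [Finset.mul_sum]
  rw [e2]
  have e3 : ∀ k ∈ Dq q z, (Nat.totient k : ℝ) * (∑ d ∈ (Dq q z).filter (fun d => k ∣ d), lq q z d / d) ^ 2 =
      (1 / (Nat.totient k : ℝ)) * (1 / (Gq q z) ^ 2) := by
    intro k hk
    rw [VVq hk]
    have h1 := totq_pos hk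
    have h2 : ((μ k : ℤ) : ℝ) ^ 2 = 1 := by
      have := ArithmeticFunction.moebius_sq_eq_one_of_squarefree (mem_Dq.1 hk).2.1
      exact_mod_cast this
    rw [div_pow, h2]
    field_simp
  rw [Finset.sum_congr rfl e3, ← Finset.sum_mul]
  have e4 : ∑ k ∈ Dq q z, 1 / (Nat.totient k : ℝ) = Gq q z := rfl
  rw [e4]
  field_simp

/-- the number of the integers of an interval in a residue class -/
private lemma count_modEq (u h r c : ℕ) (hr : 0 < r) :
    |(((Finset.Ioc u (u + h)).filter (fun n => n ≡ c [MOD r])).card : ℝ) - (h : ℝ) / r| ≤ 1 := by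
  have h1 := Nat.Ioc_filter_modEq_card u (u + h) hr c
  obtain ⟨A, hA⟩ : ∃ A, A = ((Finset.Ioc u (u + h)).filter (fun n => n ≡ c [MOD r])).card := ⟨_, rfl⟩
  rw [← hA] at h1 ⊢
  have hrq : (0 : ℚ) < r := by exact_mod_cast hr
  have h2 : ⌊(((u : ℕ) : ℚ) - c) / (r : ℚ)⌋ ≤ ⌊(((u + h : ℕ) : ℚ) - c) / (r : ℚ)⌋ := by
    refine Int.floor_le_floor ?_
    rw [div_le_div_iff_of_pos_right hrq]
    push_cast
    linarith [(Nat.cast_nonneg h : (0 : ℚ) ≤ h)]
  rw [max_eq_left (by linarith)] at h1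
  have a1 := Int.floor_le ((((u : ℕ) : ℚ) - c) / (r : ℚ))
  have a2 := Int.lt_floor_add_one ((((u : ℕ) : ℚ) - c) / (r : ℚ))
  have a3 := Int.floor_le ((((u + h : ℕ) : ℚ) - c) / (r : ℚ))
  have a4 := Int.lt_floor_add_one ((((u + h : ℕ) : ℚ) - c) / (r : ℚ))
  have a5 : (((u + h : ℕ) : ℚ) - c) / (r : ℚ) = (((u : ℕ) : ℚ) - c) / (r : ℚ) + h / r := by
    push_cast
    field_simp
    ring
  have h3 : ((A : ℤ) : ℚ) = (⌊(((u + h : ℕ) : ℚ) - c) / (r : ℚ)⌋ : ℚ) - (⌊(((u : ℕ) : ℚ) - c) / (r : ℚ)⌋ : ℚ) := by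
    rw [h1]
    push_cast
    ring
  rw [a5] at a3 a4 h3
  have h4 : |(A : ℚ) - (h : ℚ) / r| ≤ 1 := by
    have h5 : ((A : ℤ) : ℚ) = (A : ℚ) := by norm_num
    rw [h5] at h3
    rw [abs_le]
    constructor <;> linarith
  have h6 : ((|(A : ℚ) - (h : ℚ) / r| : ℚ) : ℝ) ≤ 1 := by exact_mod_cast h4
  push_cast at h6
  exact h6

private lemma count_dvd_modEq (u h q f b : ℕ) (hq : 0 < q) (hf : 0 < f) (hfq : Nat.Coprime f q) :
    |((((Finset.Ioc u (u + h)).filter (fun n => n ≡ b [MOD q])).filter (fun n => f ∣ n)).card : ℝ)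
      - (h : ℝ) / (q * f)| ≤ 1 := by
  obtain ⟨c, hc1, hc2⟩ := Nat.chineseRemainder hfq 0 b
  have e1 : ((Finset.Ioc u (u + h)).filter (fun n => n ≡ b [MOD q])).filter (fun n => f ∣ n) =
      (Finset.Ioc u (u + h)).filter (fun n => n ≡ c [MOD (f * q)]) := by
    ext n
    simp only [Finset.mem_filter]
    rw [← Nat.modEq_and_modEq_iff_modEq_mul hfq]
    constructor
    · rintro ⟨⟨h1, h2⟩, h3⟩
      exact ⟨h1, ((Nat.modEq_zero_iff_dvd.2 h3).trans hc1.symm), h2.trans hc2.symm⟩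
    · rintro ⟨h1, h2, h3⟩
      exact ⟨⟨h1, h3.trans hc2⟩, Nat.modEq_zero_iff_dvd.1 (h2.trans hc1)⟩
  rw [e1]
  have := count_modEq u h (f * q) c (Nat.mul_pos hf hq)
  push_cast at this
  rw [mul_comm (q : ℝ) (f : ℝ)]
  exact this

theorem sieve_q (q b u h z : ℕ) (hq : 1 ≤ q) (hb : Nat.Coprime b q) (hz : 1 ≤ z) :
    (((Finset.Ioc u (u + h)).filter (fun p => p.Prime ∧ p ≡ b [MOD q])).card : ℝ) ≤
      h / (q * Gq q z) + z + (z : ℝ) ^ 4 := by
  classical
  set I := (Finset.Ioc u (u + h)).filter (fun n => n ≡ b [MOD q]) with hI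
  have hfe : (Finset.Ioc u (u + h)).filter (fun p => p.Prime ∧ p ≡ b [MOD q]) = I.filter Nat.Prime := by
    rw [hI, Finset.filter_filter]
    refine Finset.filter_congr fun n _ => ?_
    exact and_comm
  rw [hfe]
  -- split at `z`
  have h1 : (I.filter Nat.Prime).card ≤ (Finset.Icc 1 z).card + ((I.filter Nat.Prime).filter (fun p => z < p)).card := by
    rw [← Finset.card_filter_add_card_filter_not (s := I.filter Nat.Prime) (fun p => z < p), add_comm]
    refine Nat.add_le_add_right (Finset.card_le_card ?_) _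
    intro p hp
    simp only [Finset.mem_filter, not_lt] at hp
    rw [Finset.mem_Icc]
    exact ⟨hp.1.2.one_lt.le, hp.2⟩
  rw [Nat.card_Icc, Nat.add_sub_cancel] at h1
  have h2 : (((I.filter Nat.Prime).filter (fun p => z < p)).card : ℝ) ≤ ∑ n ∈ I, (∑ d ∈ (Dq q z).filter (fun d => d ∣ n), lq q z d) ^ 2 := by
    rw [Finset.card_eq_sum_ones]
    push_cast
    refine le_trans (Finset.sum_le_sum (g := fun n => (∑ d ∈ (Dq q z).filter (fun d => d ∣ n), lq q z d) ^ 2) fun p hp => ?_)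
      (Finset.sum_le_sum_of_subset_of_nonneg ((Finset.filter_subset _ _).trans (Finset.filter_subset _ _)) fun _ _ _ => sq_nonneg _)
    simp only [Finset.mem_filter] at hp
    have e1 : (Dq q z).filter (fun d => d ∣ p) = {1} := by
      ext d
      simp only [Finset.mem_filter, mem_Dq, Finset.mem_singleton]
      constructor
      · rintro ⟨⟨⟨a, b⟩, _⟩, c⟩
        rcases (Nat.dvd_prime hp.1.2).1 c with h | h
        · exact h
        · omega
      · rintro rfl
        exact ⟨⟨⟨le_rfl, hz⟩, squarefree_one, Nat.coprime_one_left q⟩, one_dvd _⟩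
    rw [e1, Finset.sum_singleton, lq_one hz]
    norm_num
  have h3 : ∑ n ∈ I, (∑ d ∈ (Dq q z).filter (fun d => d ∣ n), lq q z d) ^ 2 =
      ∑ d ∈ Dq q z, ∑ e ∈ Dq q z, lq q z d * lq q z e * ((I.filter (fun n => Nat.lcm d e ∣ n)).card : ℝ) := by
    have e1 : ∀ n ∈ I, (∑ d ∈ (Dq q z).filter (fun d => d ∣ n), lq q z d) ^ 2 =
        ∑ d ∈ Dq q z, ∑ e ∈ Dq q z, if Nat.lcm d e ∣ n then lq q z d * lq q z e else 0 := by
      intro n _
      rw [Finset.sum_filter, sq, Finset.sum_mul_sum]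
      refine Finset.sum_congr rfl fun d _ => Finset.sum_congr rfl fun e _ => ?_
      simp only [Nat.lcm_dvd_iff]
      by_cases a1 : d ∣ n <;> by_cases a2 : e ∣ n <;> simp [a1, a2]
    rw [Finset.sum_congr rfl e1, Finset.sum_comm]
    refine Finset.sum_congr rfl fun d _ => ?_
    rw [Finset.sum_comm]
    refine Finset.sum_congr rfl fun e _ => ?_
    rw [← Finset.sum_filter, Finset.sum_const, nsmul_eq_mul]
    ring
  have h4 : ∑ d ∈ Dq q z, ∑ e ∈ Dq q z, lq q z d * lq q z e * ((I.filter (fun n => Nat.lcm d e ∣ n)).card : ℝ) ≤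
      ∑ d ∈ Dq q z, ∑ e ∈ Dq q z, ((h / q : ℝ) * (lq q z d * lq q z e / (Nat.lcm d e : ℝ)) + (z : ℝ) ^ 2) := by
    refine Finset.sum_le_sum fun d hd => Finset.sum_le_sum fun e he => ?_
    have hl : 0 < Nat.lcm d e := Nat.lcm_pos (mem_Dq.1 hd).1.1 (mem_Dq.1 he).1.1
    have hlq : Nat.Coprime (Nat.lcm d e) q :=
      Nat.Coprime.coprime_dvd_left (Nat.lcm_dvd_mul d e) ((mem_Dq.1 hd).2.2.mul_left (mem_Dq.1 he).2.2)
    have c1 := count_dvd_modEq u h q (Nat.lcm d e) b hq hl hlq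
    rw [← hI] at c1
    have hq0 : (0 : ℝ) < q := by exact_mod_cast hq
    have hl0 : (0 : ℝ) < (Nat.lcm d e : ℝ) := by exact_mod_cast hl
    have c2 : lq q z d * lq q z e * ((I.filter (fun n => Nat.lcm d e ∣ n)).card : ℝ) - (h / q : ℝ) * (lq q z d * lq q z e / (Nat.lcm d e : ℝ)) =
        lq q z d * lq q z e * (((I.filter (fun n => Nat.lcm d e ∣ n)).card : ℝ) - h / (q * (Nat.lcm d e : ℝ))) := by
      field_simp
    have c3 : |lq q z d * lq q z e * (((I.filter (fun n => Nat.lcm d e ∣ n)).card : ℝ) - h / (q * (Nat.lcm d e : ℝ)))| ≤ (z : ℝ) ^ 2 := by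
      rw [abs_mul, abs_mul]
      calc |lq q z d| * |lq q z e| * |((I.filter (fun n => Nat.lcm d e ∣ n)).card : ℝ) - h / (q * (Nat.lcm d e : ℝ))| ≤ z * z * 1 := by
            gcongr
            · exact abs_lq_le hd
            · exact abs_lq_le he
        _ = _ := by ring
    have c4 := le_abs_self (lq q z d * lq q z e * (((I.filter (fun n => Nat.lcm d e ∣ n)).card : ℝ) - h / (q * (Nat.lcm d e : ℝ))))
    linarith
  have h5 : ∑ d ∈ Dq q z, ∑ e ∈ Dq q z, ((h / q : ℝ) * (lq q z d * lq q z e / (Nat.lcm d e : ℝ)) + (z : ℝ) ^ 2) ≤ h / (q * Gq q z) + (z : ℝ) ^ 4 := by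
    simp only [Finset.sum_add_distrib, ← Finset.mul_sum, main_eqq hz, Finset.sum_const, nsmul_eq_mul]
    have hc : ((Dq q z).card : ℝ) ≤ z := by
      have : (Dq q z).card ≤ (Finset.Icc 1 z).card := Finset.card_filter_le _ _
      rw [Nat.card_Icc, Nat.add_sub_cancel] at this
      exact_mod_cast this
    have hc0 : (0 : ℝ) ≤ (Dq q z).card := by positivity
    have : ((Dq q z).card : ℝ) * (((Dq q z).card : ℝ) * (z : ℝ) ^ 2) ≤ (z : ℝ) ^ 4 := by
      calc ((Dq q z).card : ℝ) * (((Dq q z).card : ℝ) * (z : ℝ) ^ 2) ≤ z * (z * (z : ℝ) ^ 2) := by gcongr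
        _ = _ := by ring
    have h6 : (h / q : ℝ) * (1 / Gq q z) = h / (q * Gq q z) := by
      rw [div_mul_div_comm, mul_one]
    linarith
  have h1' : (((I.filter Nat.Prime).card : ℕ) : ℝ) ≤ z + (((I.filter Nat.Prime).filter (fun p => z < p)).card : ℝ) := by
    exact_mod_cast h1
  linarith

theorem Gq_lower (q z : ℕ) (hq : 1 ≤ q) (hz : 1 ≤ z) :
    Real.log z * ((Nat.totient q : ℝ) / q) ≤ Pool.Agent.Helper66.AF.BT.C2 * Gq q z := by
  have hC2 := Pool.Agent.Helper66.AF.BT.one_le_C2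
  have hφ : (0 : ℝ) < Nat.totient q := by exact_mod_cast Nat.totient_pos.2 hq
  have hq0 : (0 : ℝ) < q := by exact_mod_cast hq
  have hG0 : 0 < Gq q z := Gq_pos hz
  -- squarefree divisors of `q`
  have hT : ∑ g ∈ q.divisors.filter Squarefree, 1 / (Nat.totient g : ℝ) ≤ (q : ℝ) / Nat.totient q := by
    have e1 : ∀ g ∈ q.divisors.filter Squarefree, 1 / (Nat.totient g : ℝ) =
        ∏ p ∈ g.primeFactors, 1 / ((p : ℝ) - 1) := by
      intro g hg
      rw [Finset.mem_filter] at hg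
      have e2 := Nat.totient_mul_prod_primeFactors g
      rw [Nat.prod_primeFactors_of_squarefree hg.2, mul_comm] at e2
      have e3 : Nat.totient g = ∏ p ∈ g.primeFactors, (p - 1) :=
        Nat.eq_of_mul_eq_mul_left (Nat.pos_of_ne_zero hg.2.ne_zero) e2
      rw [e3, Finset.prod_div_distrib, Finset.prod_const_one]
      push_cast
      congr 1
      refine Finset.prod_congr rfl fun p hp => ?_
      rw [Nat.cast_sub (Nat.prime_of_mem_primeFactors hp).one_lt.le]
      simp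
    rw [Finset.sum_congr rfl e1]
    have e4 : ∑ g ∈ q.divisors.filter Squarefree, ∏ p ∈ g.primeFactors, 1 / ((p : ℝ) - 1) ≤
        ∑ t ∈ q.primeFactors.powerset, ∏ p ∈ t, 1 / ((p : ℝ) - 1) := by
      rw [← Finset.sum_image (s := q.divisors.filter Squarefree) (g := fun g : ℕ => g.primeFactors)
        (f := fun t : Finset ℕ => ∏ p ∈ t, 1 / ((p : ℝ) - 1))]
      · refine Finset.sum_le_sum_of_subset_of_nonneg ?_ fun t ht _ => ?_
        · intro t ht
          rw [Finset.mem_image] at ht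
          obtain ⟨g, hg, rfl⟩ := ht
          rw [Finset.mem_filter, Nat.mem_divisors] at hg
          exact Finset.mem_powerset.2 (Nat.primeFactors_mono hg.1.1 hg.1.2)
        · refine Finset.prod_nonneg fun p hp => ?_
          have h1 := (Nat.prime_of_mem_primeFactors (Finset.mem_powerset.1 ht hp)).one_lt
          have h2 : (1 : ℝ) < p := by exact_mod_cast h1
          exact (one_div_pos.2 (by linarith)).le
      · intro g hg g' hg' hgg'
        rw [Finset.mem_coe, Finset.mem_filter] at hg hg'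
        have hgg' : g.primeFactors = g'.primeFactors := hgg'
        rw [← Nat.prod_primeFactors_of_squarefree hg.2, ← Nat.prod_primeFactors_of_squarefree hg'.2, hgg']
    refine e4.trans ?_
    rw [← Finset.prod_one_add]
    have e5 : ∀ p ∈ q.primeFactors, 1 + 1 / ((p : ℝ) - 1) = (p : ℝ) / ((p - 1 : ℕ) : ℝ) := by
      intro p hp
      have h1 := (Nat.prime_of_mem_primeFactors hp).one_lt
      have h2 : (1 : ℝ) < p := by exact_mod_cast h1
      rw [Nat.cast_sub h1.le, Nat.cast_one]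
      have h3 : (p : ℝ) - 1 ≠ 0 := by linarith
      field_simp
      ring
    rw [Finset.prod_congr rfl e5, Finset.prod_div_distrib]
    have e6 := Nat.totient_mul_prod_primeFactors q
    have e7 : (Nat.totient q : ℝ) * ∏ p ∈ q.primeFactors, (p : ℝ) = q * ∏ p ∈ q.primeFactors, ((p - 1 : ℕ) : ℝ) := by
      have e9 := congrArg (Nat.cast : ℕ → ℝ) e6
      rwa [Nat.cast_mul, Nat.cast_mul, Nat.cast_prod, Nat.cast_prod] at e9
    have e8 : 0 < ∏ p ∈ q.primeFactors, ((p - 1 : ℕ) : ℝ) := by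
      refine Finset.prod_pos fun p hp => ?_
      have h1 := (Nat.prime_of_mem_primeFactors hp).one_lt
      have h2 : 0 < p - 1 := by omega
      exact_mod_cast h2
    rw [div_le_div_iff₀ e8 hφ]
    nlinarith
  -- the splitting
  have hsplit : Pool.Agent.Helper66.AF.BT.G z ≤
      (∑ g ∈ q.divisors.filter Squarefree, 1 / (Nat.totient g : ℝ)) * Gq q z := by
    unfold Pool.Agent.Helper66.AF.BT.G Gq
    rw [Finset.sum_mul_sum, ← Finset.sum_product']
    have e1 : ∀ m ∈ Pool.Agent.Helper66.AF.BT.D z, 1 / (Nat.totient m : ℝ) =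
        (fun t : ℕ × ℕ => 1 / (Nat.totient t.1 : ℝ) * (1 / (Nat.totient t.2 : ℝ))) (Nat.gcd m q, m / Nat.gcd m q) := by
      intro m hm
      rw [Pool.Agent.Helper66.AF.BT.mem_D] at hm
      have h1 : Nat.gcd m q * (m / Nat.gcd m q) = m := Nat.mul_div_cancel' (Nat.gcd_dvd_left m q)
      have h2 : Nat.Coprime (Nat.gcd m q) (m / Nat.gcd m q) := by
        apply Nat.coprime_of_squarefree_mul
        rw [h1]
        exact hm.2
      have h3 := Nat.totient_mul h2
      rw [h1] at h3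
      rw [h3]
      push_cast
      rw [one_div_mul_one_div]
    rw [Finset.sum_congr rfl e1, ← Finset.sum_image (s := Pool.Agent.Helper66.AF.BT.D z)
      (g := fun m => (Nat.gcd m q, m / Nat.gcd m q))
      (f := fun t : ℕ × ℕ => 1 / (Nat.totient t.1 : ℝ) * (1 / (Nat.totient t.2 : ℝ)))]
    · refine Finset.sum_le_sum_of_subset_of_nonneg ?_ fun t _ _ => by positivity
      intro t ht
      rw [Finset.mem_image] at ht
      obtain ⟨m, hm, rfl⟩ := ht
      rw [Pool.Agent.Helper66.AF.BT.mem_D] at hm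
      have h1 : Nat.gcd m q * (m / Nat.gcd m q) = m := Nat.mul_div_cancel' (Nat.gcd_dvd_left m q)
      have h0 : 0 < Nat.gcd m q := Nat.gcd_pos_of_pos_left q hm.1.1
      have h2 : m / Nat.gcd m q ∣ m := Dvd.intro_left _ h1
      rw [Finset.mem_product, Finset.mem_filter, Nat.mem_divisors, mem_Dq]
      refine ⟨⟨⟨Nat.gcd_dvd_right m q, by omega⟩, hm.2.squarefree_of_dvd (Nat.gcd_dvd_left m q)⟩,
        ⟨Nat.pos_of_dvd_of_pos h2 (by omega), (Nat.le_of_dvd (by omega) h2).trans hm.1.2⟩,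
        hm.2.squarefree_of_dvd h2, ?_⟩
      by_contra hcop
      obtain ⟨p, hp, hp1, hp2⟩ := Nat.Prime.not_coprime_iff_dvd.1 hcop
      have h3 : p ∣ Nat.gcd m q := Nat.dvd_gcd (hp1.trans h2) hp2
      have h4 : p * p ∣ m := by
        rw [← h1]
        exact Nat.mul_dvd_mul h3 hp1
      exact hp.one_lt.ne' (Nat.isUnit_iff.1 (hm.2 p h4))
    · intro m hm m' hm' hmm'
      have h1 : Nat.gcd m q * (m / Nat.gcd m q) = m := Nat.mul_div_cancel' (Nat.gcd_dvd_left m q)
      have h2 : Nat.gcd m' q * (m' / Nat.gcd m' q) = m' := Nat.mul_div_cancel' (Nat.gcd_dvd_left m' q)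
      have h3 := Prod.ext_iff.1 hmm'
      simp only at h3
      calc m = Nat.gcd m q * (m / Nat.gcd m q) := h1.symm
        _ = Nat.gcd m' q * (m' / Nat.gcd m' q) := by rw [h3.2, h3.1]
        _ = m' := h2
  have hlow := Pool.Agent.Helper66.AF.BT.G_lower hz
  have h1 : Pool.Agent.Helper66.AF.BT.G z ≤ (q : ℝ) / Nat.totient q * Gq q z :=
    hsplit.trans (mul_le_mul_of_nonneg_right hT hG0.le)
  have h2 : Real.log z ≤ Pool.Agent.Helper66.AF.BT.C2 * ((q : ℝ) / Nat.totient q * Gq q z) :=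
    hlow.trans (mul_le_mul_of_nonneg_left h1 (by linarith))
  calc Real.log z * ((Nat.totient q : ℝ) / q)
      ≤ Pool.Agent.Helper66.AF.BT.C2 * ((q : ℝ) / Nat.totient q * Gq q z) * ((Nat.totient q : ℝ) / q) :=
        mul_le_mul_of_nonneg_right h2 (by positivity)
    _ = Pool.Agent.Helper66.AF.BT.C2 * Gq q z := by
        field_simp

end Pool.Agent.Helper5.RS
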