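import Pool.Agent.Helper5.RS.Defs

/-!
# Block RS-C0: the blocks

Facts on the dyadic blocks. `c = (t, u)`, `κ ≤ t`, `2^κ ≤ u < 2^(κ+1)`, `lo = u 2^(t-κ)`, `g = 2^(t-κ)`, so `2^t ≤ lo`, `lo + g ≤ 2^(t+1)`, `2^κ g ≤ lo < 2^(κ+1) g`.
For a natural `n` with `2^κ ≤ n` the only block (any `t`) which contains `n` is `t = Nat.log 2 n`, `u = n / 2^(t-κ)`. So the blocks are disjoint and cover `Ro z N` (`l ∈ Ro z N` has a prime `> z ≥ 2^κ`).
`Ir_sum`: `r ∈ Ir c` iff `r N / R ∈ JB c`, so every `r` is in at most one `Ir c`.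
`Ir_card`: `r N / R ∈ [lo, lo+g)` iff `lo R ≤ r N < (lo+g) R`. The number of such integers `r` is at least `g R / N - 1 ≥ g R / (2 N)` (`2 N ≤ R`), and they satisfy `1 ≤ r ≤ 2 R`
(`lo + g ≤ 2^(t+1) ≤ 2 N`, as `t ≤ Nat.log 2 N`; `r ≥ 1` as `lo ≥ 1`).
`Ir_real`: `lo ≤ r N / R < lo + g` as reals.
-/

set_option autoImplicit false

namespace Pool.Agent.Helper5.RS

open Finset Pool.Agent.Helper5.RM

private theorem mem_Bk74 {κ N : ℕ} {c : ℕ × ℕ} :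
    c ∈ Bk κ N ↔ (κ ≤ c.1 ∧ c.1 ≤ Nat.log 2 N) ∧ 2 ^ κ ≤ c.2 ∧ c.2 < 2 ^ (κ + 1) := by
  unfold Bk
  rw [Finset.mem_product, Finset.mem_Icc, Finset.mem_Ico]

/-- the block of `n` -/
private theorem key74 {κ n : ℕ} {c : ℕ × ℕ} (h1 : κ ≤ c.1) (h2 : 2 ^ κ ≤ c.2) (h3 : c.2 < 2 ^ (κ + 1)) (h : n ∈ JB κ c) :
    c = (Nat.log 2 n, n / 2 ^ (Nat.log 2 n - κ)) := by
  obtain ⟨t, u⟩ := c
  simp only at h1 h2 h3
  unfold JB lo gp at h
  simp only [Finset.mem_Ico] at h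
  obtain ⟨h4, h5⟩ := h
  have hpos : 0 < 2 ^ (t - κ) := by positivity
  have hu : n / 2 ^ (t - κ) = u := by
    rw [Nat.div_eq_iff hpos]
    constructor
    · linarith
    · have : u * 2 ^ (t - κ) + 2 ^ (t - κ) - 1 = 2 ^ (t - κ) * u + (2 ^ (t - κ) - 1) := by
        have : 1 ≤ 2 ^ (t - κ) := hpos
        rw [mul_comm]
        omega
      omega
  have ht : Nat.log 2 n = t := by
    rw [Nat.log_eq_iff (Or.inr ⟨by norm_num, ?_⟩)]
    · constructor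
      · calc 2 ^ t = 2 ^ κ * 2 ^ (t - κ) := by rw [← pow_add]; congr 1; omega
          _ ≤ u * 2 ^ (t - κ) := Nat.mul_le_mul_right _ h2
          _ ≤ n := h4
      · calc n < u * 2 ^ (t - κ) + 2 ^ (t - κ) := h5
          _ = (u + 1) * 2 ^ (t - κ) := by ring
          _ ≤ 2 ^ (κ + 1) * 2 ^ (t - κ) := Nat.mul_le_mul_right _ h3
          _ = 2 ^ (t + 1) := by rw [← pow_add]; congr 1; omega
    · have : 1 ≤ u * 2 ^ (t - κ) := Nat.mul_pos (lt_of_lt_of_le (by positivity) h2) hpos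
      omega
  rw [ht, hu]

theorem Bk_bounds {κ N : ℕ} {c : ℕ × ℕ} (hc : c ∈ Bk κ N) (hN : 1 ≤ N) :
    1 ≤ gp κ c ∧ gp κ c * 2 ^ κ ≤ lo κ c ∧ lo κ c < gp κ c * 2 ^ (κ + 1) ∧ lo κ c + gp κ c ≤ 2 * N := by
  rw [mem_Bk74] at hc
  obtain ⟨⟨h1, h2⟩, h3, h4⟩ := hc
  have hpos : 0 < 2 ^ (c.1 - κ) := by positivity
  unfold gp lo
  refine ⟨hpos, ?_, ?_, ?_⟩
  · rw [mul_comm]
    exact Nat.mul_le_mul_right _ h3
  · rw [mul_comm (2 ^ (c.1 - κ))]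
    exact Nat.mul_lt_mul_of_pos_right h4 hpos
  · calc c.2 * 2 ^ (c.1 - κ) + 2 ^ (c.1 - κ) = (c.2 + 1) * 2 ^ (c.1 - κ) := by ring
      _ ≤ 2 ^ (κ + 1) * 2 ^ (c.1 - κ) := Nat.mul_le_mul_right _ h4
      _ = 2 * 2 ^ c.1 := by rw [← pow_add, ← pow_succ']; congr 1; omega
      _ ≤ 2 * 2 ^ Nat.log 2 N := Nat.mul_le_mul_left _ (Nat.pow_le_pow_right (by norm_num) h2)
      _ ≤ 2 * N := Nat.mul_le_mul_left _ (Nat.pow_log_le_self 2 (by omega))

/-- sums over `Ro z N` are sums over the blocks -/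
theorem Ro_blocks {κ z N : ℕ} (hκ : 2 ^ κ ≤ z) (F : ℕ → ℝ) :
    ∑ l ∈ Ro z N, F l = ∑ c ∈ Bk κ N, ∑ l ∈ (Ro z N).filter (fun l => l ∈ JB κ c), F l := by
  classical
  simp_rw [Finset.sum_filter]
  rw [Finset.sum_comm]
  refine Finset.sum_congr rfl fun l hl => ?_
  unfold Ro at hl
  rw [Finset.mem_filter, Finset.mem_Icc] at hl
  obtain ⟨⟨hl2, hlN⟩, -, hlp⟩ := hl
  have hl1 : 2 ^ κ ≤ l := by
    have h1 : l.minFac ∈ l.primeFactors := by
      rw [Nat.mem_primeFactors]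
      exact ⟨Nat.minFac_prime (by omega), Nat.minFac_dvd l, by omega⟩
    have h2 := hlp _ h1
    have h3 := Nat.minFac_le (n := l) (by omega)
    omega
  have hlog : κ ≤ Nat.log 2 l := by
    exact Nat.le_log_of_pow_le (by norm_num) hl1
  have hlogN : Nat.log 2 l ≤ Nat.log 2 N := Nat.log_mono_right hlN
  set t := Nat.log 2 l with ht
  have hpos : 0 < 2 ^ (t - κ) := by positivity
  have h2t : 2 ^ t ≤ l := Nat.pow_log_le_self 2 (by omega)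
  have h2t' : l < 2 ^ (t + 1) := Nat.lt_pow_succ_log_self (by norm_num) l
  set c0 : ℕ × ℕ := (t, l / 2 ^ (t - κ)) with hc0
  have hc0m : c0 ∈ Bk κ N := by
    rw [mem_Bk74]
    refine ⟨⟨hlog, hlogN⟩, ?_, ?_⟩
    · rw [hc0]
      simp only
      rw [Nat.le_div_iff_mul_le hpos, ← pow_add]
      refine le_trans (le_of_eq ?_) h2t
      congr 1
      omega
    · rw [hc0]
      simp only
      rw [Nat.div_lt_iff_lt_mul hpos, ← pow_add]
      refine lt_of_lt_of_eq h2t' ?_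
      congr 1
      omega
  have hc0J : l ∈ JB κ c0 := by
    unfold JB lo gp
    rw [Finset.mem_Ico, hc0]
    simp only
    have h1 := Nat.div_add_mod l (2 ^ (t - κ))
    have h2 := Nat.mod_lt l hpos
    rw [mul_comm] at h1
    omega
  rw [Finset.sum_eq_single c0]
  · rw [if_pos hc0J]
  · intro c hc hne
    rw [if_neg]
    intro hJ
    rw [mem_Bk74] at hc
    exact hne (key74 hc.1.1 hc.2.1 hc.2.2 hJ)
  · intro h
    exact absurd hc0m h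

/-- the `Ir` are disjoint -/
theorem Ir_sum {κ N R : ℕ} (F : ℕ → ℝ) (hF : ∀ r, 0 ≤ F r) :
    ∑ c ∈ Bk κ N, ∑ r ∈ Ir κ N R c, F r ≤ ∑ r ∈ Finset.Icc 1 (2 * R), F r := by
  classical
  unfold Ir
  simp_rw [Finset.sum_filter]
  rw [Finset.sum_comm]
  refine Finset.sum_le_sum fun r _ => ?_
  set c0 : ℕ × ℕ := (Nat.log 2 (r * N / R), (r * N / R) / 2 ^ (Nat.log 2 (r * N / R) - κ)) with hc0
  have h1 : ∀ c ∈ Bk κ N, c ≠ c0 → (if r * N / R ∈ JB κ c then F r else 0) = 0 := by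
    intro c hc hne
    rw [if_neg]
    intro hJ
    rw [mem_Bk74] at hc
    exact hne (key74 hc.1.1 hc.2.1 hc.2.2 hJ)
  by_cases hm : c0 ∈ Bk κ N
  · rw [Finset.sum_eq_single c0 h1 (fun h => absurd hm h)]
    split_ifs
    · exact le_rfl
    · exact hF r
  · rw [Finset.sum_eq_zero fun c hc => h1 c hc (fun h => hm (h ▸ hc))]
    exact hF r

theorem Ir_real {κ N R : ℕ} (hR : 1 ≤ R) {c : ℕ × ℕ} {r : ℕ} (hr : r ∈ Ir κ N R c) :
    (lo κ c : ℝ) * R ≤ r * N ∧ (r : ℝ) * N < (lo κ c + gp κ c : ℕ) * R := by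
  unfold Ir JB at hr
  rw [Finset.mem_filter, Finset.mem_Ico] at hr
  obtain ⟨-, h1, h2⟩ := hr
  rw [Nat.le_div_iff_mul_le (by omega)] at h1
  rw [Nat.div_lt_iff_lt_mul (by omega)] at h2
  constructor
  · exact_mod_cast h1
  · exact_mod_cast h2

theorem Ir_card {κ N R : ℕ} (hN : 1 ≤ N) (hR : 2 * N ≤ R) {c : ℕ × ℕ} (hc : c ∈ Bk κ N) :
    (gp κ c : ℝ) * R / (2 * N) ≤ (Ir κ N R c).card := by
  obtain ⟨hg1, hg2, hg3, hg4⟩ := Bk_bounds hc hN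
  have hN0 : (0 : ℝ) < N := by exact_mod_cast hN
  have hR0 : (0 : ℝ) < R := by exact_mod_cast (show 0 < R by omega)
  have hlo : 1 ≤ lo κ c := le_trans (Nat.mul_pos hg1 (by positivity)) hg2
  set A : ℝ := (lo κ c : ℝ) * R / N with hA
  set B : ℝ := ((lo κ c + gp κ c : ℕ) : ℝ) * R / N with hB
  have hA0 : 0 < A := by
    have : (0 : ℝ) < lo κ c := by exact_mod_cast hlo
    positivity
  have hsub : Finset.Ico ⌈A⌉₊ ⌈B⌉₊ ⊆ Ir κ N R c := by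
    intro r hr
    rw [Finset.mem_Ico, Nat.ceil_le, Nat.lt_ceil] at hr
    obtain ⟨h1, h2⟩ := hr
    rw [hA, div_le_iff₀ hN0] at h1
    rw [hB, lt_div_iff₀ hN0] at h2
    have h1' : lo κ c * R ≤ r * N := by exact_mod_cast h1
    have h2' : r * N < (lo κ c + gp κ c) * R := by exact_mod_cast h2
    unfold Ir JB
    rw [Finset.mem_filter, Finset.mem_Icc, Finset.mem_Ico]
    refine ⟨⟨?_, ?_⟩, ?_, ?_⟩
    · rcases Nat.eq_zero_or_pos r with h | h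
      · exfalso
        rw [h, zero_mul] at h1'
        have : 0 < lo κ c * R := Nat.mul_pos hlo (by omega)
        omega
      · exact h
    · by_contra hcon
      push Not at hcon
      have h3 : r * N < 2 * N * R := lt_of_lt_of_le h2' (Nat.mul_le_mul_right _ hg4)
      have h4 : 2 * R * N < r * N := Nat.mul_lt_mul_of_pos_right hcon hN
      have h5 : 2 * R * N = 2 * N * R := by ring
      omega
    · rw [Nat.le_div_iff_mul_le (by omega)]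
      exact h1'
    · rw [Nat.div_lt_iff_lt_mul (by omega)]
      exact h2'
  have hcard := Finset.card_le_card hsub
  rw [Nat.card_Ico] at hcard
  have h1 : B ≤ ⌈B⌉₊ := Nat.le_ceil B
  have h2 : (⌈A⌉₊ : ℝ) < A + 1 := Nat.ceil_lt_add_one hA0.le
  have h3 : (⌈B⌉₊ : ℝ) - ⌈A⌉₊ ≤ ((⌈B⌉₊ - ⌈A⌉₊ : ℕ) : ℝ) := by
    have : ⌈B⌉₊ ≤ (⌈B⌉₊ - ⌈A⌉₊) + ⌈A⌉₊ := by omega
    have : (⌈B⌉₊ : ℝ) ≤ ((⌈B⌉₊ - ⌈A⌉₊ : ℕ) : ℝ) + ⌈A⌉₊ := by exact_mod_cast this
    linarith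
  have h4 : ((⌈B⌉₊ - ⌈A⌉₊ : ℕ) : ℝ) ≤ (Ir κ N R c).card := by exact_mod_cast hcard
  have h5 : B - A = (gp κ c : ℝ) * R / N := by
    rw [hA, hB]
    push_cast
    ring
  have h6 : (1 : ℝ) ≤ (gp κ c : ℝ) * R / (2 * N) := by
    rw [le_div_iff₀ (by positivity)]
    have h7 : (1 : ℝ) ≤ gp κ c := by exact_mod_cast hg1
    have h8 : (2 : ℝ) * N ≤ R := by exact_mod_cast hR
    nlinarith
  have h9 : (gp κ c : ℝ) * R / N = 2 * ((gp κ c : ℝ) * R / (2 * N)) := by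
    field_simp
  linarith

/-- every real `y` is in at most two closed blocks: weighted form -/
theorem Bk_two {κ N : ℕ} (hN : 1 ≤ N) (m : ℕ) (hm : 1 ≤ m) :
    ∑ c ∈ (Bk κ N).filter (fun c => lo κ c * m ≤ N ∧ N ≤ (lo κ c + gp κ c) * m), (gp κ c : ℝ) ≤
      2 * ((N : ℝ) / m) / 2 ^ κ := by
  classical
  have hm0 : (0 : ℝ) < m := by exact_mod_cast hm
  set y : ℝ := ((N : ℝ) / m) / 2 ^ κ with hy
  have hy0 : 0 ≤ y := by positivity
  -- one block contributes at most `y`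
  have hone : ∀ c ∈ Bk κ N, lo κ c * m ≤ N → (gp κ c : ℝ) ≤ y := by
    intro c hc h
    obtain ⟨hg1, hg2, hg3, hg4⟩ := Bk_bounds hc hN
    rw [hy, le_div_iff₀ (by positivity), le_div_iff₀ hm0]
    have : gp κ c * 2 ^ κ * m ≤ N := le_trans (Nat.mul_le_mul_right _ hg2) h
    exact_mod_cast this
  have hsum : ∀ (n : ℕ) (s : Finset (ℕ × ℕ)), s ⊆ Bk κ N → (∀ c ∈ s, n ∈ JB κ c ∧ lo κ c * m ≤ N) → ∑ c ∈ s, (gp κ c : ℝ) ≤ y := by
    intro n s hs h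
    have hsub : s ⊆ {(Nat.log 2 n, n / 2 ^ (Nat.log 2 n - κ))} := by
      intro c hc
      have h1 := mem_Bk74.1 (hs hc)
      rw [Finset.mem_singleton]
      exact key74 h1.1.1 h1.2.1 h1.2.2 (h c hc).1
    rcases Finset.subset_singleton_iff.1 hsub with h1 | h1
    · rw [h1, Finset.sum_empty]
      exact hy0
    · rw [h1, Finset.sum_singleton]
      have h2 : (Nat.log 2 n, n / 2 ^ (Nat.log 2 n - κ)) ∈ s := by rw [h1]; exact Finset.mem_singleton_self _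
      exact hone _ (hs h2) (h _ h2).2
  set S := (Bk κ N).filter (fun c => lo κ c * m ≤ N ∧ N ≤ (lo κ c + gp κ c) * m) with hS
  have hSm : ∀ c ∈ S, c ∈ Bk κ N ∧ lo κ c * m ≤ N ∧ N ≤ (lo κ c + gp κ c) * m := fun c hc => by
    rw [hS, Finset.mem_filter] at hc
    exact hc
  rw [← Finset.sum_filter_add_sum_filter_not S (fun c => N < (lo κ c + gp κ c) * m)]
  have h1 : ∑ c ∈ S.filter (fun c => N < (lo κ c + gp κ c) * m), (gp κ c : ℝ) ≤ y := by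
    refine hsum (N / m) _ (fun c hc => (hSm c (Finset.mem_filter.1 hc).1).1) fun c hc => ?_
    rw [Finset.mem_filter] at hc
    obtain ⟨hcS, hlt⟩ := hc
    obtain ⟨-, h2, -⟩ := hSm c hcS
    refine ⟨?_, h2⟩
    unfold JB
    rw [Finset.mem_Ico]
    exact ⟨(Nat.le_div_iff_mul_le hm).2 h2, (Nat.div_lt_iff_lt_mul hm).2 hlt⟩
  have h2 : ∑ c ∈ S.filter (fun c => ¬ N < (lo κ c + gp κ c) * m), (gp κ c : ℝ) ≤ y := by
    refine hsum (N / m - 1) _ (fun c hc => (hSm c (Finset.mem_filter.1 hc).1).1) fun c hc => ?_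
    rw [Finset.mem_filter] at hc
    obtain ⟨hcS, hlt⟩ := hc
    obtain ⟨hB, h2, h3⟩ := hSm c hcS
    obtain ⟨hg1, hg2, hg3, hg4⟩ := Bk_bounds hB hN
    refine ⟨?_, h2⟩
    have h4 : N = (lo κ c + gp κ c) * m := le_antisymm h3 (not_lt.1 hlt)
    have h5 : N / m = lo κ c + gp κ c := by
      rw [h4]
      exact Nat.mul_div_cancel _ hm
    unfold JB
    rw [Finset.mem_Ico, h5]
    omega
  have h3 : 2 * ((N : ℝ) / m) / 2 ^ κ = y + y := by
    rw [hy]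
    ring
  rw [h3]
  exact add_le_add h1 h2

end Pool.Agent.Helper5.RS
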