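import Pool.Agent.Helper5.RS.Gsum

/-!
# Block RS-V7a: the first range of the quadruples (`case1`; `case2` is in `Cas2.lean`)

`g4 q τ r s u v = gcd (q, r s - u v)/q * min (1/(r s)) (1/(τ (r s - u v))) / √(r s u v)`. Dyadic decomposition of `s` (`S = 2^(Nat.log 2 s)`) and `u` (`U = 2^(Nat.log 2 u)`), for fixed coprime `r`, `v`:
by `cell` (and `√(r s u v) ≥ √(r S U v)`) the sum over `s ∈ [S, 2S)`, `u ∈ [U, 2U)` is at most `(1 + U/r) (r S U v)^(-1/2) Xi`. Number of `S`: at most `1 + Nat.log 2 Y ≤ 2 LL Y`.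
`case1` (`v ≤ r ≤ s`, `u ≤ s`, `r ≤ u`): then `r < 2U` and `1 + U/r ≤ 3U/r`; `U ≤ S` (powers of two, `U ≤ u ≤ s < 2S`). `∑_{v ≤ r} v^(-1/2) ≤ 2 r^(1/2)`, so the total is at most
`∑_S ∑_{U ≤ S} ∑_{r < 2U} 3 (U/r) (r S U)^(-1/2) 2 r^(1/2) Xi = 6 Xi ∑_S ∑_{U ≤ S} (U/S)^(1/2) ∑_{r < 2U} 1/r ≤ 6 Xi * (2 LL Y) * 4 * (1 + log (2Y))`.
`case2` (`v ≤ u ≤ r ≤ s`): `U ≤ r`, `1 + U/r ≤ 2`; `r < 2S`, `v < 2U`: `∑_{r < 2S} r^(-1/2) ≤ 2 (2S)^(1/2)`, `∑_{v < 2U} v^(-1/2) ≤ 2 (2U)^(1/2)`, so every pair `(S, U)` gives at most `16 Xi`, the total is at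
most `16 Xi (2 LL Y)^2`. `C = 100` should do (any constant is fine: the statements have `200`).
-/

set_option autoImplicit false

namespace Pool.Agent.Helper5.RS

open Finset Pool.Agent.Helper5.RM

/-- the arithmetic part of `g4` -/
private noncomputable def h93G (q : ℕ) (τ : ℝ) (r s u v : ℕ) : ℝ :=
  (Nat.gcd q (r * s - u * v) : ℝ) / q *
    min (1 / ((r * s : ℕ) : ℝ)) (1 / (τ * ((r * s - u * v : ℕ) : ℝ)))

private lemma h93G_nonneg (q : ℕ) (τ : ℝ) (hτ : 1 ≤ τ) (r s u v : ℕ) : 0 ≤ h93G q τ r s u v := by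
  unfold h93G
  refine mul_nonneg (by positivity) (le_min (by positivity) ?_)
  have : 0 ≤ τ := by linarith
  positivity

private lemma h93_Xi (q : ℕ) (τ : ℝ) (hτ : 1 ≤ τ) : 0 ≤ Xi q τ := by
  unfold Xi
  have h1 : 0 ≤ Real.log τ := Real.log_nonneg hτ
  have h2 : 0 ≤ τ := by linarith
  positivity

private lemma h93_dyad (Y : ℕ) (F : ℕ → ℝ) (hF : ∀ s, 0 ≤ F s) :
    ∑ s ∈ Finset.Icc 1 Y, F s ≤
      ∑ a ∈ Finset.range (Nat.log 2 Y + 1), ∑ s ∈ Finset.Ico (2 ^ a) (2 * 2 ^ a), F s := by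
  have h1 : ∀ n : ℕ, ∑ a ∈ Finset.range n, ∑ s ∈ Finset.Ico (2 ^ a) (2 * 2 ^ a), F s =
      ∑ s ∈ Finset.Ico 1 (2 ^ n), F s := by
    intro n
    induction n with
    | zero => simp
    | succ n ih =>
      rw [Finset.sum_range_succ, ih, show 2 * 2 ^ n = 2 ^ (n + 1) by ring]
      exact Finset.sum_Ico_consecutive F (Nat.one_le_two_pow) (Nat.pow_le_pow_right (by norm_num) (by omega))
  rw [h1]
  refine Finset.sum_le_sum_of_subset_of_nonneg ?_ fun s _ _ => hF s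
  intro s hs
  rw [Finset.mem_Icc] at hs
  rw [Finset.mem_Ico]
  exact ⟨hs.1, lt_of_le_of_lt hs.2 (Nat.lt_pow_succ_log_self (by norm_num) Y)⟩

private lemma h93_sqrt_sum (n : ℕ) : ∑ v ∈ Finset.Icc 1 n, 1 / Real.sqrt v ≤ 2 * Real.sqrt n := by
  induction n with
  | zero => simp
  | succ n ih =>
    rw [Finset.sum_Icc_succ_top (by omega)]
    have h1 : 0 < Real.sqrt ((n + 1 : ℕ) : ℝ) := Real.sqrt_pos.2 (by positivity)
    have h2 : 0 ≤ Real.sqrt (n : ℝ) := Real.sqrt_nonneg _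
    have h3 : Real.sqrt ((n + 1 : ℕ) : ℝ) ^ 2 = n + 1 := by
      rw [Real.sq_sqrt (by positivity)]; push_cast; ring
    have h4 : Real.sqrt (n : ℝ) ^ 2 = n := Real.sq_sqrt (by positivity)
    have h5 : 1 / Real.sqrt ((n + 1 : ℕ) : ℝ) ≤
        2 * Real.sqrt ((n + 1 : ℕ) : ℝ) - 2 * Real.sqrt (n : ℝ) := by
      rw [div_le_iff₀ h1]
      nlinarith [sq_nonneg (Real.sqrt ((n + 1 : ℕ) : ℝ) - Real.sqrt (n : ℝ))]
    linarith

private lemma h93_geo (a : ℕ) : ∑ b ∈ Finset.range (a + 1), Real.sqrt 2 ^ b ≤ 4 * Real.sqrt 2 ^ a := by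
  have h0 : (4 : ℝ) / 3 ≤ Real.sqrt 2 := by
    rw [show (4 : ℝ) / 3 = Real.sqrt ((4 / 3) ^ 2) by rw [Real.sqrt_sq (by norm_num)]]
    exact Real.sqrt_le_sqrt (by norm_num)
  induction a with
  | zero => norm_num
  | succ a ih =>
    rw [Finset.sum_range_succ]
    have h1 : 0 < Real.sqrt 2 ^ a := by positivity
    have h2 : Real.sqrt 2 ^ (a + 1) = Real.sqrt 2 ^ a * Real.sqrt 2 := pow_succ _ _
    nlinarith

private lemma h93_harm (B : ℕ) :
    ∑ l ∈ Icc 1 B, 1 / (l : ℝ) ≤ 1 + Real.log B := by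
  have h3 := harmonic_le_one_add_log B
  have h4 : ((harmonic B : ℚ) : ℝ) = ∑ k ∈ Icc 1 B, 1 / (k : ℝ) := by
    rw [harmonic_eq_sum_Icc]
    push_cast
    refine Finset.sum_congr rfl fun k _ => ?_
    rw [one_div]
  rwa [h4] at h3

/-- the bound for one cell -/
private lemma h93_cell (q r v a b : ℕ) (τ : ℝ) (hq : 1 ≤ q) (hr : 1 ≤ r) (hv : 1 ≤ v) (hτ : 1 ≤ τ) :
    ∑ s ∈ Finset.Ico (2 ^ a) (2 * 2 ^ a), ∑ u ∈ Finset.Ico (2 ^ b) (2 * 2 ^ b),
      (if Nat.Coprime r v ∧ v ≤ r ∧ r ≤ s ∧ u ≤ s ∧ r ≤ u ∧ u * v < r * s then g4 q τ r s u v else 0) ≤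
      (if v ≤ r ∧ r ≤ 2 * 2 ^ b ∧ b ≤ a then
        (3 * ((2 : ℝ) ^ b / r) * Xi q τ / Real.sqrt ((r : ℝ) * 2 ^ a * 2 ^ b)) * (1 / Real.sqrt v) else 0) := by
  have hX := h93_Xi q τ hτ
  by_cases h : v ≤ r ∧ Nat.Coprime r v ∧ r ≤ 2 * 2 ^ b ∧ b ≤ a
  · obtain ⟨h1, h2, h3, h4⟩ := h
    rw [if_pos ⟨h1, h3, h4⟩]
    have hr0 : (0 : ℝ) < r := by exact_mod_cast hr
    have hv0 : (0 : ℝ) < v := by exact_mod_cast hv
    set P : ℝ := (r : ℝ) * 2 ^ a * 2 ^ b with hP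
    have hP0 : 0 < P := by positivity
    have hterm : ∀ s ∈ Finset.Ico (2 ^ a) (2 * 2 ^ a), ∀ u ∈ Finset.Ico (2 ^ b) (2 * 2 ^ b),
        (if Nat.Coprime r v ∧ v ≤ r ∧ r ≤ s ∧ u ≤ s ∧ r ≤ u ∧ u * v < r * s then g4 q τ r s u v else 0) ≤
        (if u * v < r * s then h93G q τ r s u v else 0) * (1 / (Real.sqrt P * Real.sqrt v)) := by
      intro s hs u hu
      rw [Finset.mem_Ico] at hs hu
      have hG := h93G_nonneg q τ hτ r s u v
      by_cases hc : Nat.Coprime r v ∧ v ≤ r ∧ r ≤ s ∧ u ≤ s ∧ r ≤ u ∧ u * v < r * s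
      · rw [if_pos hc, if_pos hc.2.2.2.2.2]
        unfold g4
        rw [div_eq_mul_one_div]
        change h93G q τ r s u v * (1 / Real.sqrt ((r * s * u * v : ℕ) : ℝ)) ≤ _
        refine mul_le_mul_of_nonneg_left ?_ hG
        rw [← Real.sqrt_mul hP0.le]
        refine one_div_le_one_div_of_le (Real.sqrt_pos.2 (by positivity)) (Real.sqrt_le_sqrt ?_)
        rw [hP]
        have h5 : ((2 : ℝ) ^ a) ≤ s := by exact_mod_cast hs.1
        have h6 : ((2 : ℝ) ^ b) ≤ u := by exact_mod_cast hu.1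
        push_cast
        gcongr
      · rw [if_neg hc]
        refine mul_nonneg ?_ (by positivity)
        split_ifs
        · exact hG
        · exact le_rfl
    have hcell := cell q r v (2 ^ a) (2 ^ b) τ hq hr hv h2 Nat.one_le_two_pow Nat.one_le_two_pow hτ
    calc _ ≤ ∑ s ∈ Finset.Ico (2 ^ a) (2 * 2 ^ a), ∑ u ∈ Finset.Ico (2 ^ b) (2 * 2 ^ b),
          (if u * v < r * s then h93G q τ r s u v else 0) * (1 / (Real.sqrt P * Real.sqrt v)) :=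
          Finset.sum_le_sum fun s hs => Finset.sum_le_sum fun u hu => hterm s hs u hu
      _ = (∑ s ∈ Finset.Ico (2 ^ a) (2 * 2 ^ a),
            ∑ u ∈ (Finset.Ico (2 ^ b) (2 * 2 ^ b)).filter (fun u => u * v < r * s), h93G q τ r s u v) *
            (1 / (Real.sqrt P * Real.sqrt v)) := by
          rw [Finset.sum_mul]
          refine Finset.sum_congr rfl fun s _ => ?_
          rw [← Finset.sum_mul, Finset.sum_filter]
      _ ≤ ((1 + ((2 ^ b : ℕ) : ℝ) / r) * Xi q τ) * (1 / (Real.sqrt P * Real.sqrt v)) := by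
          refine mul_le_mul_of_nonneg_right ?_ (by positivity)
          exact hcell
      _ ≤ (3 * ((2 : ℝ) ^ b / r) * Xi q τ) * (1 / (Real.sqrt P * Real.sqrt v)) := by
          refine mul_le_mul_of_nonneg_right (mul_le_mul_of_nonneg_right ?_ hX) (by positivity)
          have h7 : 1 ≤ 2 * ((2 : ℝ) ^ b / r) := by
            rw [← mul_div_assoc, le_div_iff₀ hr0, one_mul]
            exact_mod_cast h3
          push_cast
          linarith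
      _ = _ := by
          rw [one_div, mul_inv, one_div, div_eq_mul_inv (3 * ((2 : ℝ) ^ b / r) * Xi q τ)]
          ring
  · have hz : ∑ s ∈ Finset.Ico (2 ^ a) (2 * 2 ^ a), ∑ u ∈ Finset.Ico (2 ^ b) (2 * 2 ^ b),
      (if Nat.Coprime r v ∧ v ≤ r ∧ r ≤ s ∧ u ≤ s ∧ r ≤ u ∧ u * v < r * s then g4 q τ r s u v else 0) = 0 := by
      refine Finset.sum_eq_zero fun s hs => Finset.sum_eq_zero fun u hu => ?_
      rw [Finset.mem_Ico] at hs hu
      rw [if_neg]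
      rintro ⟨h1, h2, h3, h4, h5, h6⟩
      refine h ⟨h2, h1, by omega, ?_⟩
      by_contra hab
      have hab' : a + 1 ≤ b := by omega
      have h7 : 2 ^ (a + 1) ≤ 2 ^ b := Nat.pow_le_pow_right (by norm_num) hab'
      have h8 : 2 ^ (a + 1) = 2 * 2 ^ a := by ring
      omega
    rw [hz]
    split_ifs
    · positivity
    · exact le_rfl

theorem case1 (q Y : ℕ) (τ : ℝ) (hq : 1 ≤ q) (hY : 1 ≤ Y) (hτ : 1 ≤ τ) :
    ∑ t ∈ ((Finset.Icc 1 Y) ×ˢ (Finset.Icc 1 Y) ×ˢ (Finset.Icc 1 Y) ×ˢ (Finset.Icc 1 Y)).filter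
      (fun t => Nat.Coprime t.1 t.2.2.2 ∧ t.2.2.2 ≤ t.1 ∧ t.1 ≤ t.2.1 ∧ t.2.2.1 ≤ t.2.1 ∧ t.1 ≤ t.2.2.1 ∧
        t.2.2.1 * t.2.2.2 < t.1 * t.2.1),
      g4 q τ t.1 t.2.1 t.2.2.1 t.2.2.2 ≤ 200 * LL Y ^ 2 * Xi q τ := by
  have hX := h93_Xi q τ hτ
  have hY0 : (0 : ℝ) < Y := by exact_mod_cast hY
  have hlY : 0 ≤ Real.log Y := Real.log_natCast_nonneg Y
  have hLL : LL Y = 1 + Real.log Y := rfl
  set A : ℕ := Nat.log 2 Y with hA
  have hAY : 2 ^ A ≤ Y := Nat.pow_log_le_self 2 (by omega)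
  have hlog2 : (1 : ℝ) / 2 ≤ Real.log 2 := by
    have := Real.log_two_gt_d9
    linarith
  have hlog2' : Real.log 2 ≤ 1 := by
    have := Real.log_two_lt_d9
    linarith
  have hAL : ((A + 1 : ℕ) : ℝ) ≤ 2 * LL Y := by
    have h1 : Real.log ((2 ^ A : ℕ) : ℝ) ≤ Real.log Y :=
      Real.log_le_log (by positivity) (by exact_mod_cast hAY)
    rw [Nat.cast_pow, Real.log_pow, Nat.cast_ofNat] at h1
    have h2 : (A : ℝ) * (1 / 2) ≤ (A : ℝ) * Real.log 2 := mul_le_mul_of_nonneg_left hlog2 (by positivity)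
    rw [hLL]
    push_cast
    linarith
  set K : ℕ → ℕ → ℕ → ℕ → ℝ := fun r v a b => (if v ≤ r ∧ r ≤ 2 * 2 ^ b ∧ b ≤ a then
        (3 * ((2 : ℝ) ^ b / r) * Xi q τ / Real.sqrt ((r : ℝ) * 2 ^ a * 2 ^ b)) * (1 / Real.sqrt v) else 0)
    with hK
  set f : ℕ → ℕ → ℕ → ℕ → ℝ := fun r s u v =>
    (if Nat.Coprime r v ∧ v ≤ r ∧ r ≤ s ∧ u ≤ s ∧ r ≤ u ∧ u * v < r * s then g4 q τ r s u v else 0) with hf
  have hf0 : ∀ r s u v, 0 ≤ f r s u v := by
    intro r s u v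
    rw [hf]
    simp only
    split_ifs
    · unfold g4
      exact div_nonneg (h93G_nonneg q τ hτ r s u v) (Real.sqrt_nonneg _)
    · exact le_rfl
  -- step 1
  have hs1 : ∑ t ∈ ((Finset.Icc 1 Y) ×ˢ (Finset.Icc 1 Y) ×ˢ (Finset.Icc 1 Y) ×ˢ (Finset.Icc 1 Y)).filter
      (fun t => Nat.Coprime t.1 t.2.2.2 ∧ t.2.2.2 ≤ t.1 ∧ t.1 ≤ t.2.1 ∧ t.2.2.1 ≤ t.2.1 ∧ t.1 ≤ t.2.2.1 ∧
        t.2.2.1 * t.2.2.2 < t.1 * t.2.1),
      g4 q τ t.1 t.2.1 t.2.2.1 t.2.2.2 =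
      ∑ r ∈ Finset.Icc 1 Y, ∑ v ∈ Finset.Icc 1 Y, ∑ s ∈ Finset.Icc 1 Y, ∑ u ∈ Finset.Icc 1 Y, f r s u v := by
    rw [Finset.sum_filter, Finset.sum_product]
    refine Finset.sum_congr rfl fun r _ => ?_
    rw [Finset.sum_product]
    have h1 : ∀ s ∈ Finset.Icc 1 Y, ∑ y ∈ Finset.Icc 1 Y ×ˢ Finset.Icc 1 Y,
        (if Nat.Coprime r y.2 ∧ y.2 ≤ r ∧ r ≤ s ∧ y.1 ≤ s ∧ r ≤ y.1 ∧ y.1 * y.2 < r * s then
          g4 q τ r s y.1 y.2 else 0) = ∑ v ∈ Finset.Icc 1 Y, ∑ u ∈ Finset.Icc 1 Y, f r s u v := by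
      intro s _
      rw [Finset.sum_product_right]
    calc _ = ∑ s ∈ Finset.Icc 1 Y, ∑ v ∈ Finset.Icc 1 Y, ∑ u ∈ Finset.Icc 1 Y, f r s u v :=
          Finset.sum_congr rfl fun s hs => h1 s hs
      _ = _ := Finset.sum_comm
  rw [hs1]
  -- step 2
  have hs2 : ∀ r ∈ Finset.Icc 1 Y, ∀ v ∈ Finset.Icc 1 Y,
      ∑ s ∈ Finset.Icc 1 Y, ∑ u ∈ Finset.Icc 1 Y, f r s u v ≤
      ∑ a ∈ Finset.range (A + 1), ∑ b ∈ Finset.range (A + 1), K r v a b := by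
    intro r hr v hv
    rw [Finset.mem_Icc] at hr hv
    calc ∑ s ∈ Finset.Icc 1 Y, ∑ u ∈ Finset.Icc 1 Y, f r s u v
        ≤ ∑ a ∈ Finset.range (A + 1), ∑ s ∈ Finset.Ico (2 ^ a) (2 * 2 ^ a), ∑ u ∈ Finset.Icc 1 Y, f r s u v :=
          h93_dyad Y _ fun s => Finset.sum_nonneg fun u _ => hf0 r s u v
      _ ≤ ∑ a ∈ Finset.range (A + 1), ∑ s ∈ Finset.Ico (2 ^ a) (2 * 2 ^ a),
            ∑ b ∈ Finset.range (A + 1), ∑ u ∈ Finset.Ico (2 ^ b) (2 * 2 ^ b), f r s u v :=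
          Finset.sum_le_sum fun a _ => Finset.sum_le_sum fun s _ => h93_dyad Y _ fun u => hf0 r s u v
      _ = ∑ a ∈ Finset.range (A + 1), ∑ b ∈ Finset.range (A + 1),
            ∑ s ∈ Finset.Ico (2 ^ a) (2 * 2 ^ a), ∑ u ∈ Finset.Ico (2 ^ b) (2 * 2 ^ b), f r s u v :=
          Finset.sum_congr rfl fun a _ => Finset.sum_comm
      _ ≤ _ := Finset.sum_le_sum fun a _ => Finset.sum_le_sum fun b _ => h93_cell q r v a b τ hq hr.1 hv.1 hτ
  have hs3 : ∑ r ∈ Finset.Icc 1 Y, ∑ v ∈ Finset.Icc 1 Y, ∑ s ∈ Finset.Icc 1 Y, ∑ u ∈ Finset.Icc 1 Y, f r s u v ≤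
      ∑ a ∈ Finset.range (A + 1), ∑ b ∈ Finset.range (A + 1),
        ∑ r ∈ Finset.Icc 1 Y, ∑ v ∈ Finset.Icc 1 Y, K r v a b := by
    refine (Finset.sum_le_sum fun r hr => Finset.sum_le_sum fun v hv => hs2 r hr v hv).trans (le_of_eq ?_)
    calc ∑ r ∈ Finset.Icc 1 Y, ∑ v ∈ Finset.Icc 1 Y,
          ∑ a ∈ Finset.range (A + 1), ∑ b ∈ Finset.range (A + 1), K r v a b
        = ∑ r ∈ Finset.Icc 1 Y, ∑ a ∈ Finset.range (A + 1), ∑ v ∈ Finset.Icc 1 Y,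
            ∑ b ∈ Finset.range (A + 1), K r v a b := Finset.sum_congr rfl fun r _ => Finset.sum_comm
      _ = ∑ a ∈ Finset.range (A + 1), ∑ r ∈ Finset.Icc 1 Y, ∑ v ∈ Finset.Icc 1 Y,
            ∑ b ∈ Finset.range (A + 1), K r v a b := Finset.sum_comm
      _ = ∑ a ∈ Finset.range (A + 1), ∑ r ∈ Finset.Icc 1 Y, ∑ b ∈ Finset.range (A + 1),
            ∑ v ∈ Finset.Icc 1 Y, K r v a b :=
          Finset.sum_congr rfl fun a _ => Finset.sum_congr rfl fun r _ => Finset.sum_comm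
      _ = _ := Finset.sum_congr rfl fun a _ => Finset.sum_comm
  refine hs3.trans ?_
  -- step 3: the sum over `r`, `v`
  have hs4 : ∀ a ∈ Finset.range (A + 1), ∀ b ∈ Finset.range (A + 1),
      ∑ r ∈ Finset.Icc 1 Y, ∑ v ∈ Finset.Icc 1 Y, K r v a b ≤
        if b ≤ a then 12 * LL Y * Xi q τ * (Real.sqrt 2 ^ b / Real.sqrt 2 ^ a) else 0 := by
    intro a _ b hb
    rw [Finset.mem_range] at hb
    by_cases hab : b ≤ a
    swap
    · rw [if_neg hab]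
      refine le_of_eq (Finset.sum_eq_zero fun r _ => Finset.sum_eq_zero fun v _ => ?_)
      rw [hK]
      simp only
      rw [if_neg]
      exact fun h => hab h.2.2
    rw [if_pos hab]
    have hv1 : ∀ r ∈ Finset.Icc 1 Y, ∑ v ∈ Finset.Icc 1 Y, K r v a b ≤
        if r ≤ 2 * 2 ^ b then 6 * Xi q τ * (Real.sqrt 2 ^ b / Real.sqrt 2 ^ a) * (1 / (r : ℝ)) else 0 := by
      intro r hr
      rw [Finset.mem_Icc] at hr
      have hr0 : (0 : ℝ) < r := by exact_mod_cast hr.1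
      by_cases hrb : r ≤ 2 * 2 ^ b
      swap
      · rw [if_neg hrb]
        refine le_of_eq (Finset.sum_eq_zero fun v _ => ?_)
        rw [hK]
        simp only
        rw [if_neg]
        exact fun h => hrb h.2.1
      rw [if_pos hrb]
      set c : ℝ := 3 * ((2 : ℝ) ^ b / r) * Xi q τ / Real.sqrt ((r : ℝ) * 2 ^ a * 2 ^ b) with hc
      have hc0 : 0 ≤ c := by positivity
      have h1 : ∑ v ∈ Finset.Icc 1 Y, K r v a b ≤ ∑ v ∈ Finset.Icc 1 r, c * (1 / Real.sqrt v) := by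
        calc ∑ v ∈ Finset.Icc 1 Y, K r v a b = ∑ v ∈ (Finset.Icc 1 Y).filter (fun v => v ≤ r), c * (1 / Real.sqrt v) := by
              rw [Finset.sum_filter]
              refine Finset.sum_congr rfl fun v _ => ?_
              rw [hK]
              simp only [hrb, hab, and_true, ← hc]
          _ ≤ _ := by
              refine Finset.sum_le_sum_of_subset_of_nonneg ?_ fun v _ _ => by positivity
              intro v hv
              rw [Finset.mem_filter, Finset.mem_Icc] at hv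
              rw [Finset.mem_Icc]
              exact ⟨hv.1.1, hv.2⟩
      refine h1.trans ?_
      rw [← Finset.mul_sum]
      refine (mul_le_mul_of_nonneg_left (h93_sqrt_sum r) hc0).trans (le_of_eq ?_)
      have e1 : Real.sqrt ((r : ℝ) * 2 ^ a * 2 ^ b) = Real.sqrt r * (Real.sqrt 2 ^ a * Real.sqrt 2 ^ b) := by
        have e0 : ∀ k : ℕ, Real.sqrt ((2 : ℝ) ^ k) = Real.sqrt 2 ^ k := by
          intro k
          induction k with
          | zero => simp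
          | succ k ih => rw [pow_succ, Real.sqrt_mul (by positivity), ih, pow_succ]
        rw [mul_assoc, Real.sqrt_mul hr0.le, Real.sqrt_mul (by positivity), e0, e0]
      have e2 : (2 : ℝ) ^ b = Real.sqrt 2 ^ b * Real.sqrt 2 ^ b := by
        rw [← mul_pow, Real.mul_self_sqrt (by norm_num)]
      have e3 : 0 < Real.sqrt (r : ℝ) := Real.sqrt_pos.2 hr0
      have e4 : 0 < Real.sqrt 2 ^ a := by positivity
      have e5 : 0 < Real.sqrt 2 ^ b := by positivity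
      rw [hc, e1, e2]
      field_simp
      ring
    have hv2 : ∑ r ∈ Finset.Icc 1 Y, ∑ v ∈ Finset.Icc 1 Y, K r v a b ≤
        6 * Xi q τ * (Real.sqrt 2 ^ b / Real.sqrt 2 ^ a) * ∑ r ∈ Finset.Icc (1 : ℕ) (2 * 2 ^ b), 1 / (r : ℝ) := by
      refine (Finset.sum_le_sum hv1).trans ?_
      rw [← Finset.sum_filter, Finset.mul_sum]
      refine Finset.sum_le_sum_of_subset_of_nonneg ?_ fun v _ _ => by positivity
      intro v hv
      rw [Finset.mem_filter, Finset.mem_Icc] at hv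
      rw [Finset.mem_Icc]
      exact ⟨hv.1.1, hv.2⟩
    refine hv2.trans ?_
    have h3 : ∑ r ∈ Finset.Icc (1 : ℕ) (2 * 2 ^ b), 1 / (r : ℝ) ≤ 2 * LL Y := by
      refine (h93_harm _).trans ?_
      have h4 : 2 ^ b ≤ Y := (Nat.pow_le_pow_right (by norm_num) (by omega)).trans hAY
      have h5 : ((2 * 2 ^ b : ℕ) : ℝ) ≤ 2 * Y := by exact_mod_cast Nat.mul_le_mul_left 2 h4
      have h6 : Real.log ((2 * 2 ^ b : ℕ) : ℝ) ≤ Real.log (2 * Y) := Real.log_le_log (by positivity) h5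
      rw [Real.log_mul (by norm_num) hY0.ne'] at h6
      rw [hLL]
      linarith
    calc 6 * Xi q τ * (Real.sqrt 2 ^ b / Real.sqrt 2 ^ a) * ∑ r ∈ Finset.Icc (1 : ℕ) (2 * 2 ^ b), 1 / (r : ℝ)
        ≤ 6 * Xi q τ * (Real.sqrt 2 ^ b / Real.sqrt 2 ^ a) * (2 * LL Y) :=
          mul_le_mul_of_nonneg_left h3 (by positivity)
      _ = _ := by ring
  -- step 4: the sum over `a`, `b`
  have hLL0 : 0 ≤ LL Y := by rw [hLL]; linarith
  have hs5 : ∀ a ∈ Finset.range (A + 1), ∑ b ∈ Finset.range (A + 1),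
      ∑ r ∈ Finset.Icc 1 Y, ∑ v ∈ Finset.Icc 1 Y, K r v a b ≤ 48 * LL Y * Xi q τ := by
    intro a ha
    refine (Finset.sum_le_sum fun b hb => hs4 a ha b hb).trans ?_
    rw [← Finset.sum_filter, ← Finset.mul_sum, ← Finset.sum_div]
    have h1 : ∑ b ∈ (Finset.range (A + 1)).filter (fun b => b ≤ a), Real.sqrt 2 ^ b ≤ 4 * Real.sqrt 2 ^ a := by
      refine le_trans ?_ (h93_geo a)
      refine Finset.sum_le_sum_of_subset_of_nonneg ?_ fun v _ _ => by positivity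
      intro b hb
      rw [Finset.mem_filter] at hb
      rw [Finset.mem_range]
      omega
    have h2 : (∑ b ∈ (Finset.range (A + 1)).filter (fun b => b ≤ a), Real.sqrt 2 ^ b) / Real.sqrt 2 ^ a ≤ 4 := by
      rw [div_le_iff₀ (by positivity)]
      exact h1
    calc 12 * LL Y * Xi q τ * ((∑ b ∈ (Finset.range (A + 1)).filter (fun b => b ≤ a), Real.sqrt 2 ^ b) / Real.sqrt 2 ^ a)
        ≤ 12 * LL Y * Xi q τ * 4 := mul_le_mul_of_nonneg_left h2 (by positivity)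
      _ = _ := by ring
  refine (Finset.sum_le_sum hs5).trans ?_
  rw [Finset.sum_const, Finset.card_range, nsmul_eq_mul]
  calc ((A + 1 : ℕ) : ℝ) * (48 * LL Y * Xi q τ) ≤ (2 * LL Y) * (48 * LL Y * Xi q τ) :=
        mul_le_mul_of_nonneg_right hAL (by positivity)
    _ = 96 * (LL Y ^ 2 * Xi q τ) := by ring
    _ ≤ 200 * (LL Y ^ 2 * Xi q τ) := mul_le_mul_of_nonneg_right (by norm_num) (by positivity)
    _ = _ := by ring

end Pool.Agent.Helper5.RS
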