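import Pool.Agent.Helper5.RS.Gsum

/-!
# Block RS-V7b: the second range of the quadruples (`case2`; `case1` is in `Cas1.lean`)

`g4 q τ r s u v = gcd (q, r s - u v)/q * min (1/(r s)) (1/(τ (r s - u v))) / √(r s u v)`. Dyadic decomposition of `s` (`S = 2^(Nat.log 2 s)`) and `u` (`U = 2^(Nat.log 2 u)`), for fixed coprime `r`, `v`:
by `cell` (and `√(r s u v) ≥ √(r S U v)`) the sum over `s ∈ [S, 2S)`, `u ∈ [U, 2U)` is at most `(1 + U/r) (r S U v)^(-1/2) Xi`. Number of `S`: at most `1 + Nat.log 2 Y ≤ 2 LL Y`.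
`case1` (`v ≤ r ≤ s`, `u ≤ s`, `r ≤ u`): then `r < 2U` and `1 + U/r ≤ 3U/r`; `U ≤ S` (powers of two, `U ≤ u ≤ s < 2S`). `∑_{v ≤ r} v^(-1/2) ≤ 2 r^(1/2)`, so the total is at most
`∑_S ∑_{U ≤ S} ∑_{r < 2U} 3 (U/r) (r S U)^(-1/2) 2 r^(1/2) Xi = 6 Xi ∑_S ∑_{U ≤ S} (U/S)^(1/2) ∑_{r < 2U} 1/r ≤ 6 Xi * (2 LL Y) * 4 * (1 + log (2Y))`.
`case2` (`v ≤ u ≤ r ≤ s`): `U ≤ r`, `1 + U/r ≤ 2`; `r < 2S`, `v < 2U`: `∑_{r < 2S} r^(-1/2) ≤ 2 (2S)^(1/2)`, `∑_{v < 2U} v^(-1/2) ≤ 2 (2U)^(1/2)`, so every pair `(S, U)` gives at most `16 Xi`, the total is at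
most `16 Xi (2 LL Y)^2`. `C = 100` should do (any constant is fine: the statements have `200`).
-/

set_option autoImplicit false

namespace Pool.Agent.Helper5.RS

open Finset Pool.Agent.Helper5.RM

private theorem inv_sqrt_sum38 (n : ℕ) : ∑ r ∈ Finset.Icc 1 n, 1 / √(r : ℝ) ≤ 2 * √(n : ℝ) := by
  induction n with
  | zero => simp
  | succ n ih =>
    rw [Finset.sum_Icc_succ_top (by omega)]
    have ha : 0 ≤ √(n : ℝ) := Real.sqrt_nonneg _
    have ha2 : √(n : ℝ) ^ 2 = n := Real.sq_sqrt (by positivity)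
    have hb : 0 < √((n + 1 : ℕ) : ℝ) := Real.sqrt_pos.mpr (by positivity)
    have hb2 : √((n + 1 : ℕ) : ℝ) ^ 2 = n + 1 := by
      rw [Real.sq_sqrt (by positivity)]
      push_cast
      ring
    have key : 1 / √((n + 1 : ℕ) : ℝ) ≤ 2 * √((n + 1 : ℕ) : ℝ) - 2 * √(n : ℝ) := by
      rw [div_le_iff₀ hb]
      nlinarith [sq_nonneg (√((n + 1 : ℕ) : ℝ) - √(n : ℝ))]
    linarith

private theorem nlog38 (Y : ℕ) (hY : 1 ≤ Y) : ((Nat.log 2 Y + 1 : ℕ) : ℝ) ≤ 2 * LL Y := by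
  have h1 : (2 : ℝ) ^ (Nat.log 2 Y) ≤ Y := by
    exact_mod_cast Nat.pow_log_le_self 2 (by omega)
  have hYp : (0 : ℝ) < Y := by exact_mod_cast hY
  have h2 : (Nat.log 2 Y : ℝ) * Real.log 2 ≤ Real.log Y := by
    have := Real.log_le_log (by positivity) h1
    rwa [Real.log_pow] at this
  have h3 : (1 : ℝ) / 2 ≤ Real.log 2 := by
    have := Real.log_two_gt_d9
    linarith
  have h4 : (0 : ℝ) ≤ (Nat.log 2 Y : ℝ) := by positivity
  unfold LL
  push_cast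
  nlinarith

private theorem Xi_nonneg38 (q : ℕ) (τ : ℝ) (hτ : 1 ≤ τ) : 0 ≤ Xi q τ := by
  unfold Xi
  have := Real.log_nonneg hτ
  positivity

private theorem term_nonneg38 (q r s u v : ℕ) (τ : ℝ) (hτ : 1 ≤ τ) :
    0 ≤ (Nat.gcd q (r * s - u * v) : ℝ) / q *
      min (1 / ((r * s : ℕ) : ℝ)) (1 / (τ * ((r * s - u * v : ℕ) : ℝ))) := by
  have h0 : 0 ≤ τ := by linarith
  refine mul_nonneg (by positivity) (le_min (by positivity) (by positivity))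

private theorem g4_nonneg38 (q r s u v : ℕ) (τ : ℝ) (hτ : 1 ≤ τ) : 0 ≤ g4 q τ r s u v := by
  unfold g4
  exact div_nonneg (term_nonneg38 q r s u v τ hτ) (Real.sqrt_nonneg _)

private theorem one38 (q r v S U : ℕ) (τ : ℝ) (hq : 1 ≤ q) (hr : 1 ≤ r) (hv : 1 ≤ v)
    (hc : Nat.Coprime r v) (hS : 1 ≤ S) (hU : 1 ≤ U) (hτ : 1 ≤ τ) (hUr : U ≤ r) :
    ∑ s ∈ Finset.Ico S (2 * S), ∑ u ∈ Finset.Ico U (2 * U),
      (if u * v < r * s then g4 q τ r s u v else 0) ≤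
      2 * Xi q τ * (1 / (√(S : ℝ) * √(U : ℝ))) * ((1 / √(r : ℝ)) * (1 / √(v : ℝ))) := by
  have hXi := Xi_nonneg38 q τ hτ
  have hrp : (0 : ℝ) < r := by exact_mod_cast hr
  have hvp : (0 : ℝ) < v := by exact_mod_cast hv
  have hSp : (0 : ℝ) < S := by exact_mod_cast hS
  have hUp : (0 : ℝ) < U := by exact_mod_cast hU
  have hW : 0 < √((r : ℝ) * S * U * v) := Real.sqrt_pos.mpr (by positivity)
  have h1 : ∀ s ∈ Finset.Ico S (2 * S), ∀ u ∈ Finset.Ico U (2 * U),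
      (if u * v < r * s then g4 q τ r s u v else 0) ≤
      (if u * v < r * s then (Nat.gcd q (r * s - u * v) : ℝ) / q *
        min (1 / ((r * s : ℕ) : ℝ)) (1 / (τ * ((r * s - u * v : ℕ) : ℝ))) else 0) *
        (1 / √((r : ℝ) * S * U * v)) := by
    intro s hs u hu
    rw [Finset.mem_Ico] at hs hu
    split_ifs with h
    · unfold g4
      rw [div_eq_mul_one_div]
      refine mul_le_mul_of_nonneg_left ?_ (term_nonneg38 q r s u v τ hτ)
      refine one_div_le_one_div_of_le hW (Real.sqrt_le_sqrt ?_)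
      push_cast
      have hs1 : (S : ℝ) ≤ s := by exact_mod_cast hs.1
      have hu1 : (U : ℝ) ≤ u := by exact_mod_cast hu.1
      gcongr
    · rw [zero_mul]
  have h2 : ∑ s ∈ Finset.Ico S (2 * S), ∑ u ∈ Finset.Ico U (2 * U),
      (if u * v < r * s then (Nat.gcd q (r * s - u * v) : ℝ) / q *
        min (1 / ((r * s : ℕ) : ℝ)) (1 / (τ * ((r * s - u * v : ℕ) : ℝ))) else 0) ≤
      (1 + (U : ℝ) / r) * Xi q τ := by
    refine le_trans (le_of_eq ?_) (cell q r v S U τ hq hr hv hc hS hU hτ)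
    refine Finset.sum_congr rfl fun s _ => ?_
    rw [Finset.sum_filter]
  have h3 : (U : ℝ) / r ≤ 1 := by
    rw [div_le_one hrp]
    exact_mod_cast hUr
  have h4 : √((r : ℝ) * S * U * v) = √(r : ℝ) * √(S : ℝ) * √(U : ℝ) * √(v : ℝ) := by
    rw [Real.sqrt_mul (by positivity), Real.sqrt_mul (by positivity), Real.sqrt_mul (by positivity)]
  calc ∑ s ∈ Finset.Ico S (2 * S), ∑ u ∈ Finset.Ico U (2 * U),
      (if u * v < r * s then g4 q τ r s u v else 0)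
      ≤ ∑ s ∈ Finset.Ico S (2 * S), ∑ u ∈ Finset.Ico U (2 * U),
        (if u * v < r * s then (Nat.gcd q (r * s - u * v) : ℝ) / q *
          min (1 / ((r * s : ℕ) : ℝ)) (1 / (τ * ((r * s - u * v : ℕ) : ℝ))) else 0) *
          (1 / √((r : ℝ) * S * U * v)) :=
        Finset.sum_le_sum fun s hs => Finset.sum_le_sum fun u hu => h1 s hs u hu
    _ = (∑ s ∈ Finset.Ico S (2 * S), ∑ u ∈ Finset.Ico U (2 * U),
        (if u * v < r * s then (Nat.gcd q (r * s - u * v) : ℝ) / q *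
          min (1 / ((r * s : ℕ) : ℝ)) (1 / (τ * ((r * s - u * v : ℕ) : ℝ))) else 0)) *
          (1 / √((r : ℝ) * S * U * v)) := by
        rw [Finset.sum_mul]
        refine Finset.sum_congr rfl fun s _ => ?_
        rw [Finset.sum_mul]
    _ ≤ ((1 + (U : ℝ) / r) * Xi q τ) * (1 / √((r : ℝ) * S * U * v)) :=
        mul_le_mul_of_nonneg_right h2 (by positivity)
    _ ≤ (2 * Xi q τ) * (1 / √((r : ℝ) * S * U * v)) := by
        refine mul_le_mul_of_nonneg_right ?_ (by positivity)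
        exact mul_le_mul_of_nonneg_right (by linarith) hXi
    _ = _ := by
        rw [h4]
        have a1 : √(r : ℝ) ≠ 0 := (Real.sqrt_pos.mpr hrp).ne'
        have a2 : √(v : ℝ) ≠ 0 := (Real.sqrt_pos.mpr hvp).ne'
        have a3 : √(S : ℝ) ≠ 0 := (Real.sqrt_pos.mpr hSp).ne'
        have a4 : √(U : ℝ) ≠ 0 := (Real.sqrt_pos.mpr hUp).ne'
        field_simp

/-- One dyadic cell. -/
private theorem cell38 (q S U : ℕ) (τ : ℝ) (hq : 1 ≤ q) (hS : 1 ≤ S) (hU : 1 ≤ U) (hτ : 1 ≤ τ) :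
    ∑ r ∈ Finset.Icc 1 (2 * S), ∑ v ∈ Finset.Icc 1 (2 * U),
      ∑ s ∈ Finset.Ico S (2 * S), ∑ u ∈ Finset.Ico U (2 * U),
        (if Nat.Coprime r v ∧ U ≤ r ∧ u * v < r * s then g4 q τ r s u v else 0) ≤
      16 * Xi q τ := by
  have hXi := Xi_nonneg38 q τ hτ
  have hSp : (0 : ℝ) < S := by exact_mod_cast hS
  have hUp : (0 : ℝ) < U := by exact_mod_cast hU
  have h1 : ∀ r ∈ Finset.Icc 1 (2 * S), ∀ v ∈ Finset.Icc 1 (2 * U),
      ∑ s ∈ Finset.Ico S (2 * S), ∑ u ∈ Finset.Ico U (2 * U),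
        (if Nat.Coprime r v ∧ U ≤ r ∧ u * v < r * s then g4 q τ r s u v else 0) ≤
      2 * Xi q τ * (1 / (√(S : ℝ) * √(U : ℝ))) * ((1 / √(r : ℝ)) * (1 / √(v : ℝ))) := by
    intro r hr v hv
    rw [Finset.mem_Icc] at hr hv
    by_cases hc : Nat.Coprime r v
    · by_cases hUr : U ≤ r
      · refine le_trans (le_of_eq ?_) (one38 q r v S U τ hq hr.1 hv.1 hc hS hU hτ hUr)
        refine Finset.sum_congr rfl fun s _ => Finset.sum_congr rfl fun u _ => ?_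
        by_cases h : u * v < r * s
        · rw [if_pos ⟨hc, hUr, h⟩, if_pos h]
        · rw [if_neg (fun h' => h h'.2.2), if_neg h]
      · refine le_trans (le_of_eq (Finset.sum_eq_zero fun s _ => Finset.sum_eq_zero fun u _ =>
          if_neg (fun h' => hUr h'.2.1))) ?_
        positivity
    · refine le_trans (le_of_eq (Finset.sum_eq_zero fun s _ => Finset.sum_eq_zero fun u _ =>
        if_neg (fun h' => hc h'.1))) ?_
      positivity
  calc _ ≤ ∑ r ∈ Finset.Icc 1 (2 * S), ∑ v ∈ Finset.Icc 1 (2 * U),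
        2 * Xi q τ * (1 / (√(S : ℝ) * √(U : ℝ))) * ((1 / √(r : ℝ)) * (1 / √(v : ℝ))) :=
        Finset.sum_le_sum fun r hr => Finset.sum_le_sum fun v hv => h1 r hr v hv
    _ = 2 * Xi q τ * (1 / (√(S : ℝ) * √(U : ℝ))) *
        ((∑ r ∈ Finset.Icc 1 (2 * S), 1 / √(r : ℝ)) * ∑ v ∈ Finset.Icc 1 (2 * U), 1 / √(v : ℝ)) := by
        rw [Finset.sum_mul_sum, Finset.mul_sum]
        refine Finset.sum_congr rfl fun r _ => ?_
        rw [Finset.mul_sum]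
    _ ≤ 2 * Xi q τ * (1 / (√(S : ℝ) * √(U : ℝ))) *
        ((2 * √((2 * S : ℕ) : ℝ)) * (2 * √((2 * U : ℕ) : ℝ))) := by
        refine mul_le_mul_of_nonneg_left ?_ (by positivity)
        refine mul_le_mul (inv_sqrt_sum38 _) (inv_sqrt_sum38 _) ?_ (by positivity)
        exact Finset.sum_nonneg fun _ _ => by positivity
    _ = 16 * Xi q τ := by
        have a3 : √(S : ℝ) ≠ 0 := (Real.sqrt_pos.mpr hSp).ne'
        have a4 : √(U : ℝ) ≠ 0 := (Real.sqrt_pos.mpr hUp).ne'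
        have b1 : √((2 * S : ℕ) : ℝ) = √2 * √(S : ℝ) := by
          push_cast
          rw [Real.sqrt_mul (by norm_num)]
        have b2 : √((2 * U : ℕ) : ℝ) = √2 * √(U : ℝ) := by
          push_cast
          rw [Real.sqrt_mul (by norm_num)]
        rw [b1, b2]
        have h2 : √(2 : ℝ) * √2 = 2 := Real.mul_self_sqrt (by norm_num)
        calc 2 * Xi q τ * (1 / (√(S : ℝ) * √(U : ℝ))) *
            (2 * (√2 * √(S : ℝ)) * (2 * (√2 * √(U : ℝ))))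
            = 8 * (√(2 : ℝ) * √2) * Xi q τ * ((√(S : ℝ) * √(U : ℝ)) / (√(S : ℝ) * √(U : ℝ))) := by ring
          _ = 16 * Xi q τ := by
            rw [h2, div_self (mul_ne_zero a3 a4)]
            ring

theorem case2 (q Y : ℕ) (τ : ℝ) (hq : 1 ≤ q) (hY : 1 ≤ Y) (hτ : 1 ≤ τ) :
    ∑ t ∈ ((Finset.Icc 1 Y) ×ˢ (Finset.Icc 1 Y) ×ˢ (Finset.Icc 1 Y) ×ˢ (Finset.Icc 1 Y)).filter
      (fun t => Nat.Coprime t.1 t.2.2.2 ∧ t.2.2.2 ≤ t.2.2.1 ∧ t.2.2.1 ≤ t.1 ∧ t.1 ≤ t.2.1 ∧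
        t.2.2.1 * t.2.2.2 < t.1 * t.2.1),
      g4 q τ t.1 t.2.1 t.2.2.1 t.2.2.2 ≤ 200 * LL Y ^ 2 * Xi q τ := by
  classical
  have hXi := Xi_nonneg38 q τ hτ
  set T := ((Finset.Icc 1 Y) ×ˢ (Finset.Icc 1 Y) ×ˢ (Finset.Icc 1 Y) ×ˢ (Finset.Icc 1 Y)).filter
      (fun t => Nat.Coprime t.1 t.2.2.2 ∧ t.2.2.2 ≤ t.2.2.1 ∧ t.2.2.1 ≤ t.1 ∧ t.1 ≤ t.2.1 ∧
        t.2.2.1 * t.2.2.2 < t.1 * t.2.1) with hT
  set B := (Finset.range (Nat.log 2 Y + 1)) ×ˢ (Finset.range (Nat.log 2 Y + 1)) with hB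
  have hmaps : ∀ t ∈ T, (Nat.log 2 t.2.1, Nat.log 2 t.2.2.1) ∈ B := by
    intro t ht
    simp only [hT, Finset.mem_filter, Finset.mem_product, Finset.mem_Icc] at ht
    simp only [hB, Finset.mem_product, Finset.mem_range]
    exact ⟨Nat.lt_succ_of_le (Nat.log_mono_right ht.1.2.1.2),
      Nat.lt_succ_of_le (Nat.log_mono_right ht.1.2.2.1.2)⟩
  rw [← Finset.sum_fiberwise_of_maps_to hmaps]
  have hcell : ∀ b ∈ B, ∑ t ∈ T.filter (fun t => (Nat.log 2 t.2.1, Nat.log 2 t.2.2.1) = b),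
      g4 q τ t.1 t.2.1 t.2.2.1 t.2.2.2 ≤ 16 * Xi q τ := by
    rintro ⟨i, j⟩ _
    set S := 2 ^ i with hS
    set U := 2 ^ j with hU
    have hS1 : 1 ≤ S := Nat.one_le_two_pow
    have hU1 : 1 ≤ U := Nat.one_le_two_pow
    set P := ((Finset.Icc 1 (2 * S)) ×ˢ (Finset.Icc 1 (2 * U)) ×ˢ (Finset.Ico S (2 * S)) ×ˢ
      (Finset.Ico U (2 * U))) with hP
    have h1 : ∑ t ∈ T.filter (fun t => (Nat.log 2 t.2.1, Nat.log 2 t.2.2.1) = (i, j)),
        g4 q τ t.1 t.2.1 t.2.2.1 t.2.2.2 ≤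
        ∑ t ∈ P, (if Nat.Coprime t.1 t.2.1 ∧ U ≤ t.1 ∧ t.2.2.2 * t.2.1 < t.1 * t.2.2.1 then
          g4 q τ t.1 t.2.2.1 t.2.2.2 t.2.1 else 0) := by
      rw [← Finset.sum_filter]
      set Q := P.filter (fun t => Nat.Coprime t.1 t.2.1 ∧ U ≤ t.1 ∧
        t.2.2.2 * t.2.1 < t.1 * t.2.2.1) with hQ
      have hinj : Set.InjOn (fun t : ℕ × ℕ × ℕ × ℕ => (t.1, t.2.2.2, t.2.1, t.2.2.1))
          (T.filter (fun t => (Nat.log 2 t.2.1, Nat.log 2 t.2.2.1) = (i, j)) : Set (ℕ × ℕ × ℕ × ℕ)) := by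
        rintro ⟨a, b, c, d⟩ _ ⟨a', b', c', d'⟩ _ h
        simp only [Prod.mk.injEq] at h ⊢
        exact ⟨h.1, h.2.2.1, h.2.2.2, h.2.1⟩
      have himg : (T.filter (fun t => (Nat.log 2 t.2.1, Nat.log 2 t.2.2.1) = (i, j))).image
          (fun t : ℕ × ℕ × ℕ × ℕ => (t.1, t.2.2.2, t.2.1, t.2.2.1)) ⊆ Q := by
        intro t ht
        rw [Finset.mem_image] at ht
        obtain ⟨⟨r, s, u, v⟩, ht, rfl⟩ := ht
        simp only [hT, Finset.mem_filter, Finset.mem_product, Finset.mem_Icc, Prod.mk.injEq] at ht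
        obtain ⟨⟨⟨⟨hr1, hr2⟩, ⟨hs1, hs2⟩, ⟨hu1, hu2⟩, ⟨hv1, hv2⟩⟩, hco, hvu, hur, hrs, hlt⟩, hi, hj⟩ := ht
        have e1 : S ≤ s := by
          rw [hS, ← hi]
          exact Nat.pow_log_le_self 2 (by omega)
        have e2 : s < 2 * S := by
          have := Nat.lt_pow_succ_log_self (b := 2) (by norm_num) s
          rw [hi, pow_succ] at this
          omega
        have e3 : U ≤ u := by
          rw [hU, ← hj]
          exact Nat.pow_log_le_self 2 (by omega)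
        have e4 : u < 2 * U := by
          have := Nat.lt_pow_succ_log_self (b := 2) (by norm_num) u
          rw [hj, pow_succ] at this
          omega
        simp only [hQ, hP, Finset.mem_filter, Finset.mem_product, Finset.mem_Icc, Finset.mem_Ico]
        exact ⟨⟨⟨hr1, by omega⟩, ⟨hv1, by omega⟩, ⟨e1, e2⟩, ⟨e3, e4⟩⟩, hco, by omega, hlt⟩
      calc ∑ t ∈ T.filter (fun t => (Nat.log 2 t.2.1, Nat.log 2 t.2.2.1) = (i, j)),
          g4 q τ t.1 t.2.1 t.2.2.1 t.2.2.2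
          = ∑ t ∈ (T.filter (fun t => (Nat.log 2 t.2.1, Nat.log 2 t.2.2.1) = (i, j))).image
            (fun t : ℕ × ℕ × ℕ × ℕ => (t.1, t.2.2.2, t.2.1, t.2.2.1)),
            g4 q τ t.1 t.2.2.1 t.2.2.2 t.2.1 := by
            rw [Finset.sum_image hinj]
        _ ≤ ∑ t ∈ Q, g4 q τ t.1 t.2.2.1 t.2.2.2 t.2.1 :=
            Finset.sum_le_sum_of_subset_of_nonneg himg fun t _ _ => g4_nonneg38 _ _ _ _ _ _ hτ
    refine h1.trans ?_
    refine le_trans (le_of_eq ?_) (cell38 q S U τ hq hS1 hU1 hτ)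
    rw [hP, Finset.sum_product]
    refine Finset.sum_congr rfl fun r _ => ?_
    rw [Finset.sum_product]
    refine Finset.sum_congr rfl fun v _ => ?_
    rw [Finset.sum_product]
  calc _ ≤ ∑ b ∈ B, 16 * Xi q τ := Finset.sum_le_sum hcell
    _ = (((Nat.log 2 Y + 1 : ℕ) : ℝ) * ((Nat.log 2 Y + 1 : ℕ) : ℝ)) * (16 * Xi q τ) := by
        rw [Finset.sum_const, hB, Finset.card_product, Finset.card_range, nsmul_eq_mul]
        push_cast
        ring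
    _ ≤ ((2 * LL Y) * (2 * LL Y)) * (16 * Xi q τ) := by
        refine mul_le_mul_of_nonneg_right ?_ (by positivity)
        exact mul_self_le_mul_self (by positivity) (nlog38 Y hY)
    _ = 64 * (LL Y ^ 2 * Xi q τ) := by ring
    _ ≤ 200 * (LL Y ^ 2 * Xi q τ) := by
        refine mul_le_mul_of_nonneg_right (by norm_num) (by positivity)
    _ = 200 * LL Y ^ 2 * Xi q τ := by ring

end Pool.Agent.Helper5.RS
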