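import Pool.Agent.Helper5.RS.Blk

/-!
# Block RS-C1: the weighted sum of the `‖Al‖^2` is controlled by `VS`

Notation `w l = W ^ om l`, `b l = l * a % q`, `A l = Al z N x l T`, `C b r = Cr z Y R Rs q b j θ r T`, `D l r = Dl ..`, so `A l = C (b l) r + D l r` for all `r`,
`‖A l‖^2 ≤ 2 ‖C (b l) r‖^2 + 2 ‖D l r‖^2`; average over `r ∈ Ir c` (nonempty by `Ir_card`) for `l` in the block `c`:
`‖A l‖^2 ≤ (2 / |Ir c|) ∑_{r ∈ Ir c} ‖C (b l) r‖^2 + (2 / |Ir c|) ∑_{r ∈ Ir c} ‖D l r‖^2`. Multiply by `w l` and sum over `l ∈ Ro z N ∩ JB c`, then over `c` (`Ro_blocks`).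
The second parts give `2 Er`. First parts: for `l ∈ Ro z N` the residue `b l` is coprime to `q` (the primes of `q` are `≤ q ≤ z`, `a` coprime to `q`), and for `b` coprime to `q` the `l` with `b l = b`
form one residue class `l ≡ b'` with `b'` coprime to `q`; by `hS` the first parts are at most
`∑_c ∑_b (S0 g_c / φ(q)) (2 / |Ir c|) ∑_{r ∈ Ir c} ‖C b r‖^2 ≤ (4 N S0 / (φ(q) R)) ∑_b ∑_c ∑_{r ∈ Ir c} ‖C b r‖^2 ≤ (4 N S0 / (φ(q) R)) ∑_b ∑_{r=1}^{2R} ‖C b r‖^2` (`Ir_card`, `Ir_sum`).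
For `r > R` all `AQ .. ρ r` with `ρ ≤ R` are `0` (`m ≥ 1`, `m r ≤ ρ` impossible; `s * (R / Rs) ≤ R`), so `C b r = 0`. For `r ≤ R`: `‖C b r‖^2 ≤ 2 ‖AQ R‖^2 + 2 ‖∑_s c_s AQ_s‖^2`,
`c_s = e (θ (s+1)/Rs) - e (θ s/Rs)`, `‖c_s‖ ≤ 2π θ / Rs ≤ 2π / Rs`, and by Cauchy-Schwarz `‖∑ c_s AQ_s‖^2 ≤ (∑ ‖c_s‖) ∑ ‖c_s‖ ‖AQ_s‖^2 ≤ 2π (2π / Rs) ∑_s ‖AQ_s‖^2`.
Hence `∑_b ∑_r ‖C b r‖^2 / (φ(q) R) ≤ VS`, which is the claim.
-/

set_option autoImplicit false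

namespace Pool.Agent.Helper5.RS

open Finset Pool.Agent.Helper5.RM

/-- `e` is Lipschitz -/
theorem e_sub_le (x y : ℝ) : ‖e x - e y‖ ≤ 2 * Real.pi * |x - y| := by
  have h1 : e x - e y = e y * (e (x - y) - 1) := by
    have : e x = e y * e (x - y) := by rw [← e_add]; congr 1; ring
    rw [this]; ring
  have h2 : e (x - y) = Complex.exp (Complex.I * ((2 * Real.pi * (x - y) : ℝ) : ℂ)) := by
    unfold e; congr 1; push_cast; ring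
  rw [h1, norm_mul, norm_e, one_mul, h2]
  refine Real.norm_exp_I_mul_ofReal_sub_one_le.trans ?_
  rw [Real.norm_eq_abs, abs_mul, abs_of_nonneg (by positivity)]

private theorem AQ_zero88 (z Y R q b : ℕ) (j : ℤ) (ρ r : ℕ) (T : Finset ℕ) (h : ρ < r) :
    AQ z Y R q b j ρ r T = 0 := by
  unfold AQ
  rw [Finset.filter_false_of_mem, Finset.sum_empty]
  intro m hm hmr
  have h1 : 1 ≤ m := (Finset.mem_Icc.1 (Finset.mem_filter.1 hm).1).1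
  have h2 : r ≤ m * r := Nat.le_mul_of_pos_left r h1
  omega

private theorem Cr_zero88 (z Y R Rs q b : ℕ) (j : ℤ) (θ : ℝ) (r : ℕ) (T : Finset ℕ) (h : R < r) :
    Cr z Y R Rs q b j θ r T = 0 := by
  unfold Cr
  rw [AQ_zero88 _ _ _ _ _ _ _ _ _ h, mul_zero, zero_sub, neg_eq_zero]
  refine Finset.sum_eq_zero fun s hs => ?_
  rw [AQ_zero88, mul_zero]
  have h1 : s ≤ Rs := (Finset.mem_Ico.1 hs).2.le
  have h2 : s * (R / Rs) ≤ Rs * (R / Rs) := Nat.mul_le_mul_right _ h1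
  have h3 : Rs * (R / Rs) ≤ R := Nat.mul_div_le R Rs
  omega

private theorem Cr_sq_le88 (z Y R Rs q b : ℕ) (j : ℤ) (θ : ℝ) (r : ℕ) (T : Finset ℕ)
    (hRs : 1 ≤ Rs) (hθ0 : 0 ≤ θ) (hθ1 : θ ≤ 1) :
    ‖Cr z Y R Rs q b j θ r T‖ ^ 2 ≤ 2 * ‖AQ z Y R q b j R r T‖ ^ 2 +
      8 * Real.pi ^ 2 / Rs * ∑ s ∈ Finset.Ico 1 Rs, ‖AQ z Y R q b j (s * (R / Rs)) r T‖ ^ 2 := by
  have hR0 : (0 : ℝ) < Rs := by exact_mod_cast hRs
  have hpi := Real.pi_pos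
  set B : ℂ := ∑ s ∈ Finset.Ico 1 Rs,
    (e (θ * ((s : ℝ) + 1) / Rs) - e (θ * s / Rs)) * AQ z Y R q b j (s * (R / Rs)) r T with hB
  have hc : ∀ s : ℕ, ‖e (θ * ((s : ℝ) + 1) / Rs) - e (θ * s / Rs)‖ ≤ 2 * Real.pi / Rs := by
    intro s
    refine (e_sub_le _ _).trans ?_
    have h1 : θ * ((s : ℝ) + 1) / Rs - θ * s / Rs = θ / Rs := by ring
    rw [h1, abs_of_nonneg (by positivity)]
    have h2 : θ / Rs ≤ 1 / Rs := by gcongr
    calc 2 * Real.pi * (θ / Rs) ≤ 2 * Real.pi * (1 / Rs) := by gcongr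
      _ = 2 * Real.pi / Rs := by ring
  have hBn : ‖B‖ ≤ 2 * Real.pi / Rs * ∑ s ∈ Finset.Ico 1 Rs, ‖AQ z Y R q b j (s * (R / Rs)) r T‖ := by
    rw [hB, Finset.mul_sum]
    refine (norm_sum_le _ _).trans (Finset.sum_le_sum fun s _ => ?_)
    rw [norm_mul]
    exact mul_le_mul_of_nonneg_right (hc s) (norm_nonneg _)
  have hB2 : ‖B‖ ^ 2 ≤ 4 * Real.pi ^ 2 / Rs *
      ∑ s ∈ Finset.Ico 1 Rs, ‖AQ z Y R q b j (s * (R / Rs)) r T‖ ^ 2 := by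
    have h1 := sq_sum_le_card_mul_sum_sq (s := Finset.Ico 1 Rs)
      (f := fun s => ‖AQ z Y R q b j (s * (R / Rs)) r T‖)
    rw [Nat.card_Ico] at h1
    have h2 : (((Rs - 1 : ℕ)) : ℝ) ≤ Rs := by exact_mod_cast Nat.sub_le Rs 1
    have h3 : 0 ≤ ∑ s ∈ Finset.Ico 1 Rs, ‖AQ z Y R q b j (s * (R / Rs)) r T‖ ^ 2 :=
      Finset.sum_nonneg fun _ _ => by positivity
    calc ‖B‖ ^ 2 ≤ (2 * Real.pi / Rs * ∑ s ∈ Finset.Ico 1 Rs, ‖AQ z Y R q b j (s * (R / Rs)) r T‖) ^ 2 :=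
          pow_le_pow_left₀ (norm_nonneg _) hBn 2
      _ = (2 * Real.pi / Rs) ^ 2 * (∑ s ∈ Finset.Ico 1 Rs, ‖AQ z Y R q b j (s * (R / Rs)) r T‖) ^ 2 := by
          rw [mul_pow]
      _ ≤ (2 * Real.pi / Rs) ^ 2 *
          (Rs * ∑ s ∈ Finset.Ico 1 Rs, ‖AQ z Y R q b j (s * (R / Rs)) r T‖ ^ 2) := by
          refine mul_le_mul_of_nonneg_left (h1.trans ?_) (by positivity)
          exact mul_le_mul_of_nonneg_right h2 h3
      _ = _ := by field_simp; ring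
  have hC : ‖Cr z Y R Rs q b j θ r T‖ ≤ ‖AQ z Y R q b j R r T‖ + ‖B‖ := by
    unfold Cr
    rw [← hB]
    refine (norm_sub_le _ _).trans ?_
    rw [norm_mul, norm_e, one_mul]
  calc ‖Cr z Y R Rs q b j θ r T‖ ^ 2 ≤ (‖AQ z Y R q b j R r T‖ + ‖B‖) ^ 2 :=
        pow_le_pow_left₀ (norm_nonneg _) hC 2
    _ ≤ 2 * ‖AQ z Y R q b j R r T‖ ^ 2 + 2 * ‖B‖ ^ 2 := by
        nlinarith [sq_nonneg (‖AQ z Y R q b j R r T‖ - ‖B‖)]
    _ ≤ 2 * ‖AQ z Y R q b j R r T‖ ^ 2 + 2 * (4 * Real.pi ^ 2 / Rs *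
      ∑ s ∈ Finset.Ico 1 Rs, ‖AQ z Y R q b j (s * (R / Rs)) r T‖ ^ 2) := by gcongr
    _ = _ := by ring

private theorem avg88 (z Y R Rs N q a : ℕ) (x : ℝ) (j : ℤ) (θ : ℝ) (T : Finset ℕ) (l : ℕ)
    (I : Finset ℕ) (hI : (0 : ℝ) < I.card) :
    ‖Al z N x l T‖ ^ 2 ≤ 2 * ((∑ r ∈ I, ‖Cr z Y R Rs q (l * a % q) j θ r T‖ ^ 2) / I.card) +
      2 * ((∑ r ∈ I, ‖Dl z Y R Rs N q a x j θ l r T‖ ^ 2) / I.card) := by
  have h1 : ∀ r ∈ I, ‖Al z N x l T‖ ^ 2 ≤ 2 * ‖Cr z Y R Rs q (l * a % q) j θ r T‖ ^ 2 +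
      2 * ‖Dl z Y R Rs N q a x j θ l r T‖ ^ 2 := by
    intro r _
    have h2 : Al z N x l T = Cr z Y R Rs q (l * a % q) j θ r T + Dl z Y R Rs N q a x j θ l r T := by
      unfold Dl; ring
    have h3 := norm_add_le (Cr z Y R Rs q (l * a % q) j θ r T) (Dl z Y R Rs N q a x j θ l r T)
    rw [← h2] at h3
    calc ‖Al z N x l T‖ ^ 2
        ≤ (‖Cr z Y R Rs q (l * a % q) j θ r T‖ + ‖Dl z Y R Rs N q a x j θ l r T‖) ^ 2 :=
          pow_le_pow_left₀ (norm_nonneg _) h3 2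
      _ ≤ _ := by
          nlinarith [sq_nonneg (‖Cr z Y R Rs q (l * a % q) j θ r T‖ - ‖Dl z Y R Rs N q a x j θ l r T‖)]
  have h4 := Finset.sum_le_sum h1
  rw [Finset.sum_const, nsmul_eq_mul, Finset.sum_add_distrib, ← Finset.mul_sum, ← Finset.mul_sum] at h4
  have h5 : 2 * ((∑ r ∈ I, ‖Cr z Y R Rs q (l * a % q) j θ r T‖ ^ 2) / I.card) +
      2 * ((∑ r ∈ I, ‖Dl z Y R Rs N q a x j θ l r T‖ ^ 2) / I.card) =
      (2 * ∑ r ∈ I, ‖Cr z Y R Rs q (l * a % q) j θ r T‖ ^ 2 +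
        2 * ∑ r ∈ I, ‖Dl z Y R Rs N q a x j θ l r T‖ ^ 2) / I.card := by ring
  rw [h5, le_div_iff₀ hI]
  linarith

private theorem cop88 {z N q l : ℕ} (hq : 1 ≤ q) (hqz : q ≤ z) (hl : l ∈ Ro z N) :
    Nat.Coprime l q := by
  by_contra h
  obtain ⟨p, hp, hpl, hpq⟩ := Nat.Prime.not_coprime_iff_dvd.1 h
  unfold Ro at hl
  rw [Finset.mem_filter, Finset.mem_Icc] at hl
  have h1 : p ∈ l.primeFactors := Nat.mem_primeFactors.2 ⟨hp, hpl, by omega⟩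
  have h2 := hl.2.2 p h1
  have h3 := Nat.le_of_dvd hq hpq
  omega

private theorem fib88 (κ W z N q a : ℕ) (S0 : ℝ) (hq : 1 ≤ q) (hqz : q ≤ z) (ha : Nat.Coprime a q)
    (hS0 : 0 ≤ S0) (c : ℕ × ℕ)
    (hS : ∀ b : ℕ, Nat.Coprime b q →
      ∑ l ∈ (Ro z N).filter (fun l => l ∈ JB κ c ∧ l ≡ b [MOD q]), (W : ℝ) ^ om l ≤
        S0 * gp κ c / Nat.totient q) (F : ℕ → ℝ) (hF : ∀ b, 0 ≤ F b) :
    ∑ l ∈ (Ro z N).filter (fun l => l ∈ JB κ c), (W : ℝ) ^ om l * F (l * a % q) ≤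
      ∑ b ∈ (Finset.range q).filter (fun b => Nat.Coprime b q),
        S0 * gp κ c / Nat.totient q * F b := by
  classical
  have hmap : ∀ l ∈ (Ro z N).filter (fun l => l ∈ JB κ c),
      l * a % q ∈ (Finset.range q).filter (fun b => Nat.Coprime b q) := by
    intro l hl
    have h1 := cop88 hq hqz (Finset.mem_filter.1 hl).1
    rw [Finset.mem_filter, Finset.mem_range]
    refine ⟨Nat.mod_lt _ hq, ?_⟩
    have h2 : Nat.Coprime q (l * a) := (Nat.Coprime.mul_left h1 ha).symm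
    rw [Nat.Coprime, ← Nat.gcd_rec]
    exact h2
  have hφ : (0 : ℝ) ≤ S0 * gp κ c / Nat.totient q := by positivity
  rw [← Finset.sum_fiberwise_of_maps_to hmap]
  refine Finset.sum_le_sum fun b _ => ?_
  rcases (((Ro z N).filter (fun l => l ∈ JB κ c)).filter (fun l => l * a % q = b)).eq_empty_or_nonempty
    with h0 | ⟨l0, hl0⟩
  · rw [h0, Finset.sum_empty]
    exact mul_nonneg hφ (hF b)
  · rw [Finset.mem_filter] at hl0
    have hc0 := cop88 hq hqz (Finset.mem_filter.1 hl0.1).1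
    have e1 : ∑ l ∈ ((Ro z N).filter (fun l => l ∈ JB κ c)).filter (fun l => l * a % q = b),
        (W : ℝ) ^ om l * F (l * a % q) =
        (∑ l ∈ ((Ro z N).filter (fun l => l ∈ JB κ c)).filter (fun l => l * a % q = b),
          (W : ℝ) ^ om l) * F b := by
      rw [Finset.sum_mul]
      refine Finset.sum_congr rfl fun l hl => ?_
      rw [(Finset.mem_filter.1 hl).2]
    rw [e1]
    refine mul_le_mul_of_nonneg_right (le_trans ?_ (hS l0 hc0)) (hF b)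
    refine Finset.sum_le_sum_of_subset_of_nonneg ?_ fun _ _ _ => by positivity
    intro l hl
    rw [Finset.mem_filter, Finset.mem_filter] at hl
    rw [Finset.mem_filter]
    refine ⟨hl.1.1, hl.1.2, ?_⟩
    have h3 : l * a ≡ l0 * a [MOD q] := by
      unfold Nat.ModEq
      rw [hl.2, hl0.2]
    exact Nat.ModEq.cancel_right_of_coprime (Nat.Coprime.symm ha) h3

theorem comp (κ W z Y R Rs N q a : ℕ) (x : ℝ) (j : ℤ) (θ S0 : ℝ) (T : Finset ℕ) (hκ : 2 ^ κ ≤ z)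
    (hN : 1 ≤ N) (hR : 2 * N ≤ R) (hRs : 1 ≤ Rs) (hq : 1 ≤ q) (hqz : q ≤ z) (ha : Nat.Coprime a q)
    (hθ0 : 0 ≤ θ) (hθ1 : θ ≤ 1) (hS0 : 0 ≤ S0)
    (hS : ∀ c ∈ Bk κ N, ∀ b : ℕ, Nat.Coprime b q →
      ∑ l ∈ (Ro z N).filter (fun l => l ∈ JB κ c ∧ l ≡ b [MOD q]), (W : ℝ) ^ om l ≤
        S0 * gp κ c / Nat.totient q) :
    ∑ l ∈ Ro z N, (W : ℝ) ^ om l * ‖Al z N x l T‖ ^ 2 ≤
      4 * N * S0 * VS z Y R Rs q j T + 2 * Er κ W z Y R Rs N q a x j θ T := by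
  have hN0 : (0 : ℝ) < N := by exact_mod_cast hN
  have hR1 : 1 ≤ R := by omega
  have hR0 : (0 : ℝ) < R := by exact_mod_cast hR1
  have hφ0 : (0 : ℝ) < Nat.totient q := by exact_mod_cast Nat.totient_pos.2 hq
  set P : Finset ℕ := (Finset.range q).filter (fun b => Nat.Coprime b q) with hP
  have hk : ∀ c ∈ Bk κ N, (0 : ℝ) < (Ir κ N R c).card := by
    intro c hc
    have h1 := Ir_card hN hR hc
    have h2 : (0 : ℝ) < gp κ c := by exact_mod_cast (Bk_bounds hc hN).1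
    have h3 : 0 < (gp κ c : ℝ) * R / (2 * N) := by positivity
    linarith
  -- first parts of one block
  have hA : ∀ c ∈ Bk κ N, ∑ l ∈ (Ro z N).filter (fun l => l ∈ JB κ c), (W : ℝ) ^ om l *
      (2 * ((∑ r ∈ Ir κ N R c, ‖Cr z Y R Rs q (l * a % q) j θ r T‖ ^ 2) / (Ir κ N R c).card)) ≤
      ∑ b ∈ P, 4 * N * S0 / (Nat.totient q * R) *
        ∑ r ∈ Ir κ N R c, ‖Cr z Y R Rs q b j θ r T‖ ^ 2 := by
    intro c hc
    have h1 := fib88 κ W z N q a S0 hq hqz ha hS0 c (hS c hc)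
      (fun b => 2 * ((∑ r ∈ Ir κ N R c, ‖Cr z Y R Rs q b j θ r T‖ ^ 2) / (Ir κ N R c).card))
      (fun b => by positivity)
    refine h1.trans (Finset.sum_le_sum fun b _ => ?_)
    have h2 := Ir_card hN hR hc
    have h3 := hk c hc
    rw [div_le_iff₀ (by positivity)] at h2
    have h4 : 0 ≤ ∑ r ∈ Ir κ N R c, ‖Cr z Y R Rs q b j θ r T‖ ^ 2 :=
      Finset.sum_nonneg fun _ _ => by positivity
    generalize (∑ r ∈ Ir κ N R c, ‖Cr z Y R Rs q b j θ r T‖ ^ 2) = V at h4 ⊢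
    generalize ((Ir κ N R c).card : ℝ) = k at h2 h3 ⊢
    have h5 : (gp κ c : ℝ) / k ≤ 2 * N / R := by
      rw [div_le_div_iff₀ h3 hR0]
      linarith
    calc S0 * gp κ c / Nat.totient q * (2 * (V / k))
        = 2 * S0 * V / Nat.totient q * ((gp κ c : ℝ) / k) := by ring
      _ ≤ 2 * S0 * V / Nat.totient q * (2 * N / R) :=
          mul_le_mul_of_nonneg_left h5 (by positivity)
      _ = 4 * N * S0 / (Nat.totient q * R) * V := by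
          field_simp
          ring
  -- sum over the blocks
  have hB : ∑ c ∈ Bk κ N, ∑ b ∈ P, 4 * N * S0 / (Nat.totient q * R) *
        ∑ r ∈ Ir κ N R c, ‖Cr z Y R Rs q b j θ r T‖ ^ 2 ≤
      4 * N * S0 / (Nat.totient q * R) *
        ∑ b ∈ P, ∑ r ∈ Finset.Icc 1 R, ‖Cr z Y R Rs q b j θ r T‖ ^ 2 := by
    rw [Finset.sum_comm, Finset.mul_sum]
    refine Finset.sum_le_sum fun b _ => ?_
    rw [← Finset.mul_sum]
    refine mul_le_mul_of_nonneg_left ?_ (by positivity)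
    refine (Ir_sum (fun r => ‖Cr z Y R Rs q b j θ r T‖ ^ 2) fun _ => by positivity).trans (le_of_eq ?_)
    symm
    refine Finset.sum_subset (Finset.Icc_subset_Icc le_rfl (by omega)) fun r hr hr' => ?_
    rw [Finset.mem_Icc] at hr hr'
    rw [Cr_zero88 _ _ _ _ _ _ _ _ _ _ (by omega), norm_zero]
    norm_num
  have hD : ∑ b ∈ P, ∑ r ∈ Finset.Icc 1 R, ‖Cr z Y R Rs q b j θ r T‖ ^ 2 ≤
      (Nat.totient q * R) * VS z Y R Rs q j T := by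
    have h1 : ∑ b ∈ P, ∑ r ∈ Finset.Icc 1 R, ‖Cr z Y R Rs q b j θ r T‖ ^ 2 ≤
        ∑ b ∈ P, ∑ r ∈ Finset.Icc 1 R, (2 * ‖AQ z Y R q b j R r T‖ ^ 2 +
          8 * Real.pi ^ 2 / Rs * ∑ s ∈ Finset.Ico 1 Rs, ‖AQ z Y R q b j (s * (R / Rs)) r T‖ ^ 2) :=
      Finset.sum_le_sum fun b _ => Finset.sum_le_sum fun r _ =>
        Cr_sq_le88 z Y R Rs q b j θ r T hRs hθ0 hθ1
    refine h1.trans (le_of_eq ?_)
    have h2 : ∑ b ∈ P, ∑ r ∈ Finset.Icc 1 R, (2 * ‖AQ z Y R q b j R r T‖ ^ 2 +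
          8 * Real.pi ^ 2 / Rs * ∑ s ∈ Finset.Ico 1 Rs, ‖AQ z Y R q b j (s * (R / Rs)) r T‖ ^ 2) =
        2 * (∑ b ∈ P, ∑ r ∈ Finset.Icc 1 R, ‖AQ z Y R q b j R r T‖ ^ 2) +
        8 * Real.pi ^ 2 / Rs * ∑ s ∈ Finset.Ico 1 Rs,
          ∑ b ∈ P, ∑ r ∈ Finset.Icc 1 R, ‖AQ z Y R q b j (s * (R / Rs)) r T‖ ^ 2 := by
      simp only [Finset.sum_add_distrib, ← Finset.mul_sum]
      congr 2
      rw [Finset.sum_comm (s := Finset.Ico 1 Rs)]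
      refine Finset.sum_congr rfl fun b _ => ?_
      rw [Finset.sum_comm]
    rw [h2]
    unfold VS VQ
    rw [← hP, ← Finset.sum_div]
    field_simp
  have hE : ∑ l ∈ Ro z N, (W : ℝ) ^ om l * ‖Al z N x l T‖ ^ 2 ≤
      (∑ c ∈ Bk κ N, ∑ l ∈ (Ro z N).filter (fun l => l ∈ JB κ c), (W : ℝ) ^ om l *
        (2 * ((∑ r ∈ Ir κ N R c, ‖Cr z Y R Rs q (l * a % q) j θ r T‖ ^ 2) / (Ir κ N R c).card))) +
      2 * Er κ W z Y R Rs N q a x j θ T := by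
    rw [Ro_blocks hκ (fun l => (W : ℝ) ^ om l * ‖Al z N x l T‖ ^ 2)]
    unfold Er
    rw [Finset.mul_sum, ← Finset.sum_add_distrib]
    refine Finset.sum_le_sum fun c hc => ?_
    rw [Finset.mul_sum, ← Finset.sum_add_distrib]
    refine Finset.sum_le_sum fun l _ => ?_
    have h1 := avg88 z Y R Rs N q a x j θ T l (Ir κ N R c) (hk c hc)
    have h2 : (0 : ℝ) ≤ (W : ℝ) ^ om l := by positivity
    have h3 := mul_le_mul_of_nonneg_left h1 h2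
    linarith
  have hF : 4 * N * S0 / (Nat.totient q * R) *
        ∑ b ∈ P, ∑ r ∈ Finset.Icc 1 R, ‖Cr z Y R Rs q b j θ r T‖ ^ 2 ≤
      4 * N * S0 * VS z Y R Rs q j T := by
    calc _ ≤ 4 * N * S0 / (Nat.totient q * R) * ((Nat.totient q * R) * VS z Y R Rs q j T) :=
          mul_le_mul_of_nonneg_left hD (by positivity)
      _ = _ := by field_simp
  have hG := Finset.sum_le_sum hA
  linarith

end Pool.Agent.Helper5.RS
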