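import Pool.Agent.Helper5.RS.Fub

/-!
# Block RS-F2: high moments, conditionally on the small primes

Write `S = S1 ∪ S2` (disjoint). By `av_union`, `pr S (G and c ≤ |F|^2) = av S1 (T1 ↦ pr S2 (T2 ↦ G (T1 ∪ T2) and c ≤ |F (T1 ∪ T2)|^2))`.
For `T1 ⊆ S1`, `T2 ⊆ S2`: `(T1 ∪ T2) ∩ S1 = T1`, so `G (T1 ∪ T2) ↔ G T1` and `A l (T1 ∪ T2) = A l T1`; and `rf (T1 ∪ T2) l = rf T2 l` for `l ∈ Ls`
(the primes of `l` are in `S2`, so not in `S1`). If `G T1` fails the inner probability is `0`. If it holds, then by Markov (`markov_pow` with the power `k`)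
and `hyper_sqf` (RM/HC4, coefficients `c l = A l T1`) it is at most `(∑ (2k-1)^(om l) ‖A l T1‖^2)^k / c^k ≤ (w0 / c)^k`. Average of a quantity `≤ (w0/c)^k`: `av_mono`, `av_const`.
-/

set_option autoImplicit false

namespace Pool.Agent.Helper5.RS

open Finset Pool.Agent.Helper5.RM

theorem cond_moment (k : ℕ) (hk : 1 ≤ k) {S1 S2 : Finset ℕ} (hd : Disjoint S1 S2) (Ls : Finset ℕ)
    (hL : ∀ l ∈ Ls, Squarefree l ∧ l.primeFactors ⊆ S2) (A : ℕ → Finset ℕ → ℂ)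
    (hA : ∀ l ∈ Ls, ∀ T, A l T = A l (T ∩ S1)) (G : Finset ℕ → Prop) (hG : ∀ T, (G T ↔ G (T ∩ S1)))
    (w0 c : ℝ) (hw : 0 ≤ w0) (hc : 0 < c)
    (hGw : ∀ T ⊆ S1 ∪ S2, G T → ∑ l ∈ Ls, (2 * (k : ℝ) - 1) ^ om l * ‖A l T‖ ^ 2 ≤ w0) :
    pr (S1 ∪ S2) (fun T => G T ∧ c ≤ ‖∑ l ∈ Ls, (rf T l : ℂ) * A l T‖ ^ 2) ≤ (w0 / c) ^ k := by
  classical
  have hinter : ∀ T1 ⊆ S1, ∀ T2 ⊆ S2, (T1 ∪ T2) ∩ S1 = T1 := by
    intro T1 h1 T2 h2
    ext x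
    simp only [Finset.mem_inter, Finset.mem_union]
    constructor
    · rintro ⟨hx | hx, hx1⟩
      · exact hx
      · exact absurd (h2 hx) (Finset.disjoint_left.1 hd hx1)
    · intro hx
      exact ⟨Or.inl hx, h1 hx⟩
  have hrf : ∀ T1 ⊆ S1, ∀ T2 : Finset ℕ, ∀ l ∈ Ls, rf (T1 ∪ T2) l = rf T2 l := by
    intro T1 h1 T2 l hl
    unfold rf
    rw [if_pos (hL l hl).1, if_pos (hL l hl).1]
    unfold wal
    refine Finset.prod_congr rfl fun q hq => ?_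
    have hq2 : q ∉ T1 := fun h => Finset.disjoint_left.1 hd (h1 h) ((hL l hl).2 hq)
    unfold sg
    simp [hq2]
  have hstart : pr (S1 ∪ S2) (fun T => G T ∧ c ≤ ‖∑ l ∈ Ls, (rf T l : ℂ) * A l T‖ ^ 2) =
      av S1 (fun T1 => pr S2 (fun T2 => G (T1 ∪ T2) ∧
        c ≤ ‖∑ l ∈ Ls, (rf (T1 ∪ T2) l : ℂ) * A l (T1 ∪ T2)‖ ^ 2)) := by
    unfold pr
    exact av_union hd _
  rw [hstart, ← av_const S1 ((w0 / c) ^ k)]
  refine av_mono fun T1 hT1 => ?_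
  by_cases hG1 : G T1
  · have hsub : T1 ⊆ S1 ∪ S2 := hT1.trans Finset.subset_union_left
    have hE : av S2 (fun T2 => (‖∑ l ∈ Ls, (rf T2 l : ℂ) * A l T1‖ ^ 2) ^ k) ≤ w0 ^ k := by
      have h1 := hyper_sqf k hk S2 Ls hL (fun l => A l T1)
      have h2 : av S2 (fun T2 => (‖∑ l ∈ Ls, (rf T2 l : ℂ) * A l T1‖ ^ 2) ^ k) =
          av S2 (fun T2 => ‖∑ l ∈ Ls, (rf T2 l : ℂ) * A l T1‖ ^ (2 * k)) :=
        av_congr fun T _ => by rw [← pow_mul]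
      rw [h2]
      refine h1.trans (pow_le_pow_left₀ ?_ (hGw T1 hsub hG1) k)
      refine Finset.sum_nonneg fun l _ => ?_
      have hk1 : (1 : ℝ) ≤ k := by exact_mod_cast hk
      have : (0 : ℝ) ≤ 2 * (k : ℝ) - 1 := by linarith
      positivity
    have hmk := markov_pow (S := S2) (F := fun T2 => ‖∑ l ∈ Ls, (rf T2 l : ℂ) * A l T1‖ ^ 2)
      (c := c) k (fun T _ => by positivity) hc hE
    rw [← div_pow] at hmk
    refine le_trans (pr_mono ?_) hmk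
    intro T2 hT2 h
    have h3 := h.2
    have h4 : ∑ l ∈ Ls, (rf (T1 ∪ T2) l : ℂ) * A l (T1 ∪ T2) =
        ∑ l ∈ Ls, (rf T2 l : ℂ) * A l T1 := by
      refine Finset.sum_congr rfl fun l hl => ?_
      rw [hrf T1 hT1 T2 l hl, hA l hl (T1 ∪ T2), hinter T1 hT1 T2 hT2]
    rw [h4] at h3
    exact h3
  · have h0 : pr S2 (fun T2 => G (T1 ∪ T2) ∧
        c ≤ ‖∑ l ∈ Ls, (rf (T1 ∪ T2) l : ℂ) * A l (T1 ∪ T2)‖ ^ 2) = 0 := by
      refine pr_false S2 fun T2 hT2 h => ?_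
      have h5 := (hG (T1 ∪ T2)).1 h.1
      rw [hinter T1 hT1 T2 hT2] at h5
      exact hG1 h5
    rw [h0]
    positivity

end Pool.Agent.Helper5.RS
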