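import Pool.Agent.Helper5.RS.Fub

/-!
# Block RS-F3: decomposition into rough and smooth parts

Every squarefree `n ≥ 1` is uniquely `n = l * m` with `l` the product of its primes `> z` and `m` the product of its primes `≤ z`; `l`, `m` coprime and squarefree.
`l = 1` gives the first sum (`n = m ∈ Sm z N`), `l ≥ 2` gives `l ∈ Ro z N`, `m ∈ Sm z (N / l)` (`l * m ≤ N ↔ m ≤ N / l`), and `rf T (l m) = rf T l * rf T m`
(`rf_mul`), `rf T n = 0` for `n` not squarefree. (Compare `RM/DEC.lean`.)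
The last two statements: the primes of `m ∈ Sm z _` are `≤ z`, so in `PP M` if `z ≤ M`; use `rf_inter`.
-/

set_option autoImplicit false

namespace Pool.Agent.Helper5.RS

open Finset Pool.Agent.Helper5.RM

private theorem Sm_pf67 {z Y m : ℕ} (hm : m ∈ Sm z Y) : m.primeFactors ⊆ PP z := by
  unfold Sm at hm
  rw [Finset.mem_filter] at hm
  intro p hp
  rw [mem_PP]
  exact ⟨Nat.prime_of_mem_primeFactors hp, hm.2.2 p hp⟩

private theorem cop67 {z N l m Y : ℕ} (hl : l ∈ Ro z N) (hm : m ∈ Sm z Y) : Nat.Coprime l m := by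
  unfold Ro at hl
  unfold Sm at hm
  rw [Finset.mem_filter, Finset.mem_Icc] at hl hm
  rw [← Nat.disjoint_primeFactors (by omega) (by omega), Finset.disjoint_left]
  intro p hp hp'
  have h1 := hl.2.2 p hp
  have h2 := hm.2.2 p hp'
  omega

private theorem pfl67 {z N l m Y : ℕ} (hl : l ∈ Ro z N) (hm : m ∈ Sm z Y) :
    (l * m).primeFactors.filter (fun p => z < p) = l.primeFactors := by
  have hc := cop67 hl hm
  unfold Ro at hl
  unfold Sm at hm
  rw [Finset.mem_filter, Finset.mem_Icc] at hl hm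
  rw [hc.primeFactors_mul, Finset.filter_union]
  have h1 : l.primeFactors.filter (fun p => z < p) = l.primeFactors :=
    Finset.filter_true_of_mem fun p hp => hl.2.2 p hp
  have h2 : m.primeFactors.filter (fun p => z < p) = ∅ :=
    Finset.filter_false_of_mem fun p hp => by
      have := hm.2.2 p hp
      omega
  rw [h1, h2, Finset.union_empty]

private theorem inj67 {z N l m l' m' Y Y' : ℕ} (hl : l ∈ Ro z N) (hm : m ∈ Sm z Y)
    (hl' : l' ∈ Ro z N) (hm' : m' ∈ Sm z Y') (h : l * m = l' * m') : l = l' ∧ m = m' := by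
  have h1 := pfl67 hl hm
  rw [h, pfl67 hl' hm'] at h1
  unfold Ro at hl hl'
  rw [Finset.mem_filter, Finset.mem_Icc] at hl hl'
  have h2 : l = l' := by
    rw [← Nat.prod_primeFactors_of_squarefree hl.2.1, ← Nat.prod_primeFactors_of_squarefree hl'.2.1,
      h1]
  subst h2
  exact ⟨rfl, Nat.eq_of_mul_eq_mul_left (by omega) h⟩

private theorem sum67 (z N : ℕ) (g : ℕ → ℂ) :
    ∑ n ∈ (Finset.Icc 1 N).filter (fun n => Squarefree n ∧ ¬ ∀ p ∈ n.primeFactors, p ≤ z), g n =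
      ∑ l ∈ Ro z N, ∑ m ∈ Sm z (N / l), g (l * m) := by
  rw [Finset.sum_sigma']
  symm
  refine Finset.sum_bij (fun x _ => x.1 * x.2) ?_ ?_ ?_ ?_
  · rintro ⟨l, m⟩ hx
    rw [Finset.mem_sigma] at hx
    have hcop := cop67 hx.1 hx.2
    have hx1 := hx.1
    have hx2 := hx.2
    unfold Ro at hx1
    unfold Sm at hx2
    simp only [Finset.mem_filter, Finset.mem_Icc] at hx1 hx2 ⊢
    have hm0 : 0 < m := by omega
    have hl0 : 0 < l := by omega
    refine ⟨⟨Nat.mul_pos hl0 hm0, (Nat.mul_le_mul_left l hx2.1.2).trans (Nat.mul_div_le N l)⟩,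
      (Nat.squarefree_mul hcop).2 ⟨hx1.2.1, hx2.2.1⟩, ?_⟩
    intro h
    obtain ⟨p, hp, hpd⟩ := Nat.exists_prime_and_dvd (show l ≠ 1 by omega)
    have h1 : p ∈ l.primeFactors := Nat.mem_primeFactors.2 ⟨hp, hpd, by omega⟩
    have h2 := hx1.2.2 p h1
    have h3 := h p (Nat.mem_primeFactors.2 ⟨hp, hpd.mul_right m, (Nat.mul_pos hl0 hm0).ne'⟩)
    omega
  · rintro ⟨l, m⟩ hx ⟨l', m'⟩ hx' h
    rw [Finset.mem_sigma] at hx hx'
    obtain ⟨h1, h2⟩ := inj67 hx.1 hx.2 hx'.1 hx'.2 h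
    simp only at h1 h2
    subst h1; subst h2; rfl
  · intro n hn
    rw [Finset.mem_filter, Finset.mem_Icc] at hn
    obtain ⟨⟨hn1, hnN⟩, hsq, hne⟩ := hn
    push Not at hne
    obtain ⟨q, hq, hzq⟩ := hne
    set l := ∏ p ∈ n.primeFactors.filter (fun p => z < p), p with hl
    set m := ∏ p ∈ n.primeFactors.filter (fun p => ¬ z < p), p with hm
    have hlm : l * m = n := by
      rw [hl, hm, Finset.prod_filter_mul_prod_filter_not, Nat.prod_primeFactors_of_squarefree hsq]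
    have hln : l ∣ n := Dvd.intro _ hlm
    have hmn : m ∣ n := Dvd.intro_left _ hlm
    have hl0 : 0 < l := Nat.pos_of_dvd_of_pos hln (by omega)
    have hm0 : 0 < m := Nat.pos_of_dvd_of_pos hmn (by omega)
    have hlsq := hsq.squarefree_of_dvd hln
    have hmsq := hsq.squarefree_of_dvd hmn
    have hlp : ∀ p ∈ l.primeFactors, z < p := by
      intro p hp
      rw [hl, Nat.primeFactors_prod (fun r hr => Nat.prime_of_mem_primeFactors (Finset.mem_filter.1 hr).1)] at hp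
      exact (Finset.mem_filter.1 hp).2
    have hmp : ∀ p ∈ m.primeFactors, p ≤ z := by
      intro p hp
      rw [hm, Nat.primeFactors_prod (fun r hr => Nat.prime_of_mem_primeFactors (Finset.mem_filter.1 hr).1)] at hp
      have := (Finset.mem_filter.1 hp).2
      omega
    have hql : q ∣ l := Finset.dvd_prod_of_mem _ (Finset.mem_filter.2 ⟨hq, hzq⟩)
    have hq2 := (Nat.prime_of_mem_primeFactors hq).two_le
    have hl2 : 2 ≤ l := hq2.trans (Nat.le_of_dvd hl0 hql)
    refine ⟨⟨l, m⟩, ?_, hlm⟩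
    rw [Finset.mem_sigma]
    unfold Ro Sm
    simp only [Finset.mem_filter, Finset.mem_Icc]
    refine ⟨⟨⟨hl2, (Nat.le_of_dvd (by omega) hln).trans hnN⟩, hlsq, hlp⟩, ⟨hm0, ?_⟩, hmsq, hmp⟩
    rw [Nat.le_div_iff_mul_le hl0, mul_comm, hlm]
    exact hnN
  · intro x _; rfl

theorem SN_dcp (z N : ℕ) (T : Finset ℕ) (x : ℝ) :
    SN N T x = ∑ m ∈ Sm z N, (rf T m : ℂ) * e (m * x) + ∑ l ∈ Ro z N, (rf T l : ℂ) * Al z N x l T := by
  unfold SN
  have h1 : ∑ n ∈ Finset.Icc 1 N, (rf T n : ℂ) * e (n * x) =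
      ∑ n ∈ (Finset.Icc 1 N).filter Squarefree, (rf T n : ℂ) * e (n * x) := by
    rw [Finset.sum_filter]
    refine Finset.sum_congr rfl fun n _ => ?_
    split_ifs with h
    · rfl
    · rw [rf_not h]
      simp
  rw [h1, ← Finset.sum_filter_add_sum_filter_not ((Finset.Icc 1 N).filter Squarefree)
    (fun n => ∀ p ∈ n.primeFactors, p ≤ z), Finset.filter_filter, Finset.filter_filter, sum67]
  congr 1
  refine Finset.sum_congr rfl fun l hl => ?_
  unfold Al
  rw [Finset.mul_sum]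
  refine Finset.sum_congr rfl fun m hm => ?_
  rw [rf_mul (cop67 hl hm)]
  push_cast
  ring

theorem Al_inter (z N : ℕ) (x : ℝ) (l : ℕ) (T : Finset ℕ) : Al z N x l (T ∩ PP z) = Al z N x l T := by
  unfold Al
  refine Finset.sum_congr rfl fun m hm => ?_
  rw [rf_inter T (Sm_pf67 hm)]

theorem AQ_inter (z Y R q b : ℕ) (j : ℤ) (ρ r : ℕ) (T : Finset ℕ) :
    AQ z Y R q b j ρ r (T ∩ PP z) = AQ z Y R q b j ρ r T := by
  unfold AQ
  refine Finset.sum_congr rfl fun m hm => ?_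
  rw [rf_inter T (Sm_pf67 (Finset.mem_filter.1 hm).1)]

theorem Good_inter (z Y R Rs Q J : ℕ) (v : ℝ) (T : Finset ℕ) :
    Good z Y R Rs Q J v (T ∩ PP z) ↔ Good z Y R Rs Q J v T := by
  simp only [Good, VS, VQ, AQ_inter]

theorem Er_inter (κ W z Y R Rs N q a : ℕ) (x : ℝ) (j : ℤ) (θ : ℝ) (T : Finset ℕ) :
    Er κ W z Y R Rs N q a x j θ (T ∩ PP z) = Er κ W z Y R Rs N q a x j θ T := by
  simp only [Er, Dl, Cr, AQ_inter, Al_inter]

theorem second_Sm (z N M : ℕ) (hz : z ≤ M) (x : ℝ) :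
    av (PP M) (fun T => ‖∑ m ∈ Sm z N, (rf T m : ℂ) * e (m * x)‖ ^ 2) ≤ (Sm z N).card := by
  have h1 := hyper_sqf 1 le_rfl (PP M) (Sm z N) (fun n hn => by
    refine ⟨?_, (Sm_pf67 hn).trans ?_⟩
    · unfold Sm at hn
      exact (Finset.mem_filter.1 hn).2.1
    · intro p hp
      rw [mem_PP] at hp ⊢
      exact ⟨hp.1, hp.2.trans hz⟩) (fun n => e (n * x))
  simp only [mul_one, pow_one] at h1
  refine h1.trans ?_
  have h2 : ∀ n ∈ Sm z N, (2 * ((1 : ℕ) : ℝ) - 1) ^ om n * ‖e (n * x)‖ ^ 2 = 1 := by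
    intro n _
    rw [norm_e]
    norm_num
  rw [Finset.sum_congr rfl h2, Finset.sum_const, nsmul_eq_mul, mul_one]

end Pool.Agent.Helper5.RS
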