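import Pool.Agent.Helper5.RM.ASP
import Pool.Agent.Helper5.RM.POINT
import Pool.Agent.Helper5.RM.PARA
import Pool.Agent.Helper5.RM.PARB
import Pool.Agent.Helper5.RM.NET2
import Pool.Agent.Helper5.RM.NET3
import Pool.Agent.Helper66.AF.BT

/-!
# Project RS (MP_b6b996_nt): the sharp exponent in the random model, definitions

`f(n) = mu(n)^2 * (product of independent signs over p | n)`. Goal: almost surely
`|sum_{n <= N} f(n) e(n x)| <= C sqrt N (log N)^(1/2 + eps)` for all `N` and `x`.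

Sign patterns `T`, `rf T n`, `SN N T x`, `av`, `pr`, `PP`, `LL`, `om`, `Far`, `DD`, `Par` are those of project RM
(`Pool/Agent/Helper5/RM/Base.lean`, `Defs.lean`).
-/

set_option autoImplicit false

namespace Pool.Agent.Helper5.RS

open Finset Pool.Agent.Helper5.RM

/-! ### Small complexity: smooth and rough parts -/

/-- squarefree `m ≤ Y` all of whose primes are `≤ z` -/
noncomputable def Sm (z Y : ℕ) : Finset ℕ :=
  (Finset.Icc 1 Y).filter (fun m => Squarefree m ∧ ∀ p ∈ m.primeFactors, p ≤ z)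

/-- squarefree `l`, `2 ≤ l ≤ N`, all of whose primes are `> z` -/
noncomputable def Ro (z N : ℕ) : Finset ℕ :=
  (Finset.Icc 2 N).filter (fun l => Squarefree l ∧ ∀ p ∈ l.primeFactors, z < p)

/-- the coefficient of `f(l)`: the sum over the smooth cofactors of `l` -/
noncomputable def Al (z N : ℕ) (x : ℝ) (l : ℕ) (T : Finset ℕ) : ℂ :=
  ∑ m ∈ Sm z (N / l), (rf T m : ℂ) * e (l * m * x)

/-- the model of `Al`: `l` is replaced by its residue `b` mod `q` and by the grid point `r / R` of `l / N`;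
the cut-off is `m r ≤ ρ` (`ρ ≤ R`) -/
noncomputable def AQ (z Y R q b : ℕ) (j : ℤ) (ρ r : ℕ) (T : Finset ℕ) : ℂ :=
  ∑ m ∈ (Sm z Y).filter (fun m => m * r ≤ ρ),
    (rf T m : ℂ) * (e ((b : ℝ) * m / q) * e ((j : ℝ) * m * r / R))

/-- the mean square of `AQ` over the reduced residues `b` mod `q` and the grid points `r / R` -/
noncomputable def VQ (z Y R q : ℕ) (j : ℤ) (ρ : ℕ) (T : Finset ℕ) : ℝ :=
  (∑ b ∈ (Finset.range q).filter (fun b => Nat.Coprime b q), ∑ r ∈ Finset.Icc 1 R,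
    ‖AQ z Y R q b j ρ r T‖ ^ 2) / ((Nat.totient q : ℝ) * R)

/-- the mean of `VQ` -/
noncomputable def mQ (z Y R ρ : ℕ) : ℝ := (∑ m ∈ Sm z Y, ((ρ / m : ℕ) : ℝ)) / R

/-- the functional which controls all real frequencies in `[j, j + 1]` -/
noncomputable def VS (z Y R Rs q : ℕ) (j : ℤ) (T : Finset ℕ) : ℝ :=
  2 * VQ z Y R q j R T + 8 * Real.pi ^ 2 / Rs * ∑ s ∈ Finset.Ico 1 Rs, VQ z Y R q j (s * (R / Rs)) T

/-- the good event: all `VS` are small -/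
def Good (z Y R Rs Q J : ℕ) (v : ℝ) (T : Finset ℕ) : Prop :=
  ∀ q : ℕ, 1 ≤ q → q ≤ Q → ∀ j : ℤ, |j| ≤ (J : ℤ) → VS z Y R Rs q j T ≤ v

/-! ### The comparison of `Al` and `AQ` -/

/-- the blocks `(t, u)`: the interval `u 2^(t-κ) ≤ l < (u+1) 2^(t-κ)`, `2^κ ≤ u < 2^(κ+1)` -/
noncomputable def Bk (κ N : ℕ) : Finset (ℕ × ℕ) :=
  (Finset.Icc κ (Nat.log 2 N)) ×ˢ (Finset.Ico (2 ^ κ) (2 ^ (κ + 1)))

/-- left end point of a block -/
def lo (κ : ℕ) (c : ℕ × ℕ) : ℕ := c.2 * 2 ^ (c.1 - κ)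

/-- length of a block -/
def gp (κ : ℕ) (c : ℕ × ℕ) : ℕ := 2 ^ (c.1 - κ)

/-- the integers of a block -/
def JB (κ : ℕ) (c : ℕ × ℕ) : Finset ℕ := Finset.Ico (lo κ c) (lo κ c + gp κ c)

/-- the grid points `r` with `r N / R` in the block -/
noncomputable def Ir (κ N R : ℕ) (c : ℕ × ℕ) : Finset ℕ :=
  (Finset.Icc 1 (2 * R)).filter (fun r => r * N / R ∈ JB κ c)

/-- the model of `Al` at the frequency `j + θ`, built from the `AQ` with integer frequency `j` -/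
noncomputable def Cr (z Y R Rs q b : ℕ) (j : ℤ) (θ : ℝ) (r : ℕ) (T : Finset ℕ) : ℂ :=
  e θ * AQ z Y R q b j R r T - ∑ s ∈ Finset.Ico 1 Rs,
    (e (θ * ((s : ℝ) + 1) / Rs) - e (θ * s / Rs)) * AQ z Y R q b j (s * (R / Rs)) r T

/-- the error of the model -/
noncomputable def Dl (z Y R Rs N q a : ℕ) (x : ℝ) (j : ℤ) (θ : ℝ) (l r : ℕ) (T : Finset ℕ) : ℂ :=
  Al z N x l T - Cr z Y R Rs q (l * a % q) j θ r T

/-- the total error -/
noncomputable def Er (κ W z Y R Rs N q a : ℕ) (x : ℝ) (j : ℤ) (θ : ℝ) (T : Finset ℕ) : ℝ :=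
  ∑ c ∈ Bk κ N, ∑ l ∈ (Ro z N).filter (fun l => l ∈ JB κ c), (W : ℝ) ^ om l *
    ((∑ r ∈ Ir κ N R c, ‖Dl z Y R Rs N q a x j θ l r T‖ ^ 2) / (Ir κ N R c).card)

/-! ### The variance of `VQ` -/

/-- the distance of two naturals -/
def dst (a b : ℕ) : ℕ := (a - b) + (b - a)

/-- the weight of a pair, `τ ≥ 1` -/
noncomputable def wq (q : ℕ) (τ : ℝ) (a b : ℕ) : ℝ :=
  (Nat.gcd q (dst a b) : ℝ) / q * min (1 / ((max a b : ℕ) : ℝ)) (1 / (τ * dst a b))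

/-- the bound of the sum over one residue class -/
noncomputable def Xi (q : ℕ) (τ : ℝ) : ℝ := (q.divisors.card : ℝ) * (4 + Real.log τ) / (q * τ)

/-- `max 1 |j|` -/
noncomputable def tj (j : ℤ) : ℝ := max 1 |(j : ℝ)|

/-- the quadruples `(r, s, u, v)`, pairwise coprime, with `r s ≠ u v`, `r u ≠ s v` -/
noncomputable def Qd (Y : ℕ) : Finset (ℕ × ℕ × ℕ × ℕ) :=
  ((Finset.Icc 1 Y) ×ˢ (Finset.Icc 1 Y) ×ˢ (Finset.Icc 1 Y) ×ˢ (Finset.Icc 1 Y)).filter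
    (fun t => Nat.Coprime t.1 t.2.1 ∧ Nat.Coprime t.1 t.2.2.1 ∧ Nat.Coprime t.1 t.2.2.2 ∧
      Nat.Coprime t.2.1 t.2.2.1 ∧ Nat.Coprime t.2.1 t.2.2.2 ∧ Nat.Coprime t.2.2.1 t.2.2.2 ∧
      t.1 * t.2.1 ≠ t.2.2.1 * t.2.2.2 ∧ t.1 * t.2.2.1 ≠ t.2.1 * t.2.2.2)

/-- the simplified summand -/
noncomputable def g4 (q : ℕ) (τ : ℝ) (r s u v : ℕ) : ℝ :=
  (Nat.gcd q (r * s - u * v) : ℝ) / q *
    min (1 / ((r * s : ℕ) : ℝ)) (1 / (τ * ((r * s - u * v : ℕ) : ℝ))) / Real.sqrt ((r * s * u * v : ℕ) : ℝ)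

/-! ### Large complexity: the Selberg majorant -/

/-- the Selberg majorant of the primes `> z` -/
noncomputable def aj (z l : ℕ) : ℝ :=
  (∑ d ∈ (Pool.Agent.Helper66.AF.BT.D z).filter (fun d => d ∣ l), Pool.Agent.Helper66.AF.BT.lam z d) ^ 2

/-- the cofactors of `l` all of whose primes are `< l` -/
noncomputable def MP (N l : ℕ) : Finset ℕ :=
  (Finset.Icc 1 (N / l)).filter (fun m => Squarefree m ∧ ∀ p ∈ m.primeFactors, p < l)

/-- the sum over `MP N l` -/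
noncomputable def XP (N : ℕ) (x : ℝ) (l : ℕ) (T : Finset ℕ) : ℂ :=
  ∑ m ∈ MP N l, (rf T m : ℂ) * e (l * m * x)

/-- the part of a block with `f ∣ l` -/
noncomputable def VF (N : ℕ) (x : ℝ) (H f : ℕ) (T : Finset ℕ) : ℝ :=
  ∑ l ∈ (Finset.Ico H (2 * H)).filter (fun l => f ∣ l), ‖XP N x l T‖ ^ 2

/-- the mean of `VF` -/
noncomputable def mF (N H f : ℕ) : ℝ :=
  ∑ l ∈ (Finset.Ico H (2 * H)).filter (fun l => f ∣ l), ((MP N l).card : ℝ)

end Pool.Agent.Helper5.RS
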