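import Pool.Agent.Helper5.RS.Defs

/-!
# Block RS-G1: sums of powers of the divisor function

`div_pow_sum`: induction on `k`. `k = 0`: `∑_{q ≤ Q} 1/q ≤ 1 + log Q = LL Q`. Step: `τ(q)^(k+1) / q = ∑_{d e = q} τ(d e)^k / (d e) ≤ ∑_{d e = q} (τ(d)^k / d) (τ(e)^k / e)` (`τ(d e) ≤ τ(d) τ(e)`), so the sum over
`q ≤ Q` is at most the square of the sum for `k`.
`int_sum`: the integers `j` with `|j| ≤ J`; `tj j = max 1 |j|`; `∑ (4 + log (tj j)) / tj j ≤ (4 + log J') (1 + 2 LL J')`, `J' = max 1 J`; stated with `J ≥ 1`.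
-/

set_option autoImplicit false

namespace Pool.Agent.Helper5.RS

open Finset Pool.Agent.Helper5.RM

private theorem harm80 (Q : ℕ) : ∑ q ∈ Finset.Icc 1 Q, (1 : ℝ) / q ≤ LL Q := by
  have h := harmonic_le_one_add_log Q
  rw [harmonic_eq_sum_Icc] at h
  push_cast at h
  unfold LL
  refine le_trans (le_of_eq ?_) h
  exact Finset.sum_congr rfl fun q _ => one_div _

private theorem tau80 (d e : ℕ) : (d * e).divisors.card ≤ d.divisors.card * e.divisors.card := by
  rw [Nat.divisors_mul]
  exact Finset.card_mul_le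

private theorem anti80 (q : ℕ) : q.divisorsAntidiagonal.card = q.divisors.card := by
  rw [← Nat.map_div_right_divisors, Finset.card_map]

theorem div_pow_sum (k Q : ℕ) (hQ : 1 ≤ Q) :
    ∑ q ∈ Finset.Icc 1 Q, (q.divisors.card : ℝ) ^ k / q ≤ LL Q ^ (2 ^ k) := by
  induction k with
  | zero =>
    simp only [pow_zero, pow_one]
    exact harm80 Q
  | succ k ih =>
    have h0 : 0 ≤ ∑ q ∈ Finset.Icc 1 Q, (q.divisors.card : ℝ) ^ k / q :=
      Finset.sum_nonneg fun q _ => by positivity
    have h1 : (∑ q ∈ Finset.Icc 1 Q, (q.divisors.card : ℝ) ^ k / q) ^ 2 ≤ LL Q ^ (2 ^ (k + 1)) := by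
      have := pow_le_pow_left₀ h0 ih 2
      rw [← pow_mul, ← pow_succ] at this
      exact this
    refine le_trans ?_ h1
    have h2 : ∀ q ∈ Finset.Icc 1 Q, (q.divisors.card : ℝ) ^ (k + 1) / q ≤
        ∑ p ∈ q.divisorsAntidiagonal, ((p.1.divisors.card : ℝ) ^ k / p.1) *
          ((p.2.divisors.card : ℝ) ^ k / p.2) := by
      intro q hq
      have e1 : (q.divisors.card : ℝ) ^ (k + 1) / q =
          ∑ p ∈ q.divisorsAntidiagonal, (q.divisors.card : ℝ) ^ k / q := by
        rw [Finset.sum_const, anti80, nsmul_eq_mul]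
        ring
      rw [e1]
      refine Finset.sum_le_sum fun p hp => ?_
      have h3 := Nat.mem_divisorsAntidiagonal.1 hp
      have h4 : (q.divisors.card : ℝ) ≤ (p.1.divisors.card : ℝ) * p.2.divisors.card := by
        rw [← h3.1]
        exact_mod_cast tau80 p.1 p.2
      have h5 : (q : ℝ) = (p.1 : ℝ) * p.2 := by
        rw [← h3.1]
        push_cast
        ring
      have h6 : (q.divisors.card : ℝ) ^ k ≤
          ((p.1.divisors.card : ℝ) * p.2.divisors.card) ^ k :=
        pow_le_pow_left₀ (by positivity) h4 k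
      calc (q.divisors.card : ℝ) ^ k / q
          ≤ ((p.1.divisors.card : ℝ) * p.2.divisors.card) ^ k / q :=
            div_le_div_of_nonneg_right h6 (by positivity)
        _ = _ := by
            rw [h5, mul_pow, div_mul_div_comm]
    refine (Finset.sum_le_sum h2).trans ?_
    rw [sq, Finset.sum_mul_sum, ← Finset.sum_product', ← Finset.sum_biUnion]
    · refine Finset.sum_le_sum_of_subset_of_nonneg ?_ fun p _ _ => by positivity
      intro p hp
      rw [Finset.mem_biUnion] at hp
      obtain ⟨q, hq, hp⟩ := hp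
      rw [Finset.mem_Icc] at hq
      obtain ⟨h3, h4⟩ := Nat.mem_divisorsAntidiagonal.1 hp
      have hp1 : 0 < p.1 := Nat.pos_of_ne_zero fun h => h4 (by rw [← h3, h, zero_mul])
      have hp2 : 0 < p.2 := Nat.pos_of_ne_zero fun h => h4 (by rw [← h3, h, mul_zero])
      rw [Finset.mem_product, Finset.mem_Icc, Finset.mem_Icc]
      refine ⟨⟨hp1, ?_⟩, hp2, ?_⟩
      · exact (Nat.le_mul_of_pos_right _ hp2).trans (h3.le.trans hq.2)
      · exact (Nat.le_mul_of_pos_left _ hp1).trans (h3.le.trans hq.2)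
    · intro q _ q' _ hne
      rw [Function.onFun, Finset.disjoint_left]
      intro p hp hp'
      have h3 := (Nat.mem_divisorsAntidiagonal.1 hp).1
      have h4 := (Nat.mem_divisorsAntidiagonal.1 hp').1
      exact hne (h3.symm.trans h4)

private theorem sum80 (J : ℕ) : ∑ j ∈ Finset.Icc (-(J : ℤ)) J, 1 / tj j =
    1 + 2 * ∑ q ∈ Finset.Icc 1 J, (1 : ℝ) / q := by
  induction J with
  | zero =>
    simp [tj]
  | succ J ih =>
    have e1 : Finset.Icc (-((J + 1 : ℕ) : ℤ)) ((J + 1 : ℕ) : ℤ) =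
        insert ((J : ℤ) + 1) (insert (-((J : ℤ) + 1)) (Finset.Icc (-(J : ℤ)) J)) := by
      ext j
      simp only [Finset.mem_Icc, Finset.mem_insert]
      push_cast
      omega
    have n1 : -((J : ℤ) + 1) ∉ Finset.Icc (-(J : ℤ)) J := by
      rw [Finset.mem_Icc]
      omega
    have n2 : (J : ℤ) + 1 ∉ insert (-((J : ℤ) + 1)) (Finset.Icc (-(J : ℤ)) J) := by
      rw [Finset.mem_insert, Finset.mem_Icc]
      omega
    have t1 : tj ((J : ℤ) + 1) = (J : ℝ) + 1 := by
      unfold tj
      push_cast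
      rw [abs_of_nonneg (by positivity), max_eq_right]
      have : (0 : ℝ) ≤ J := Nat.cast_nonneg J
      linarith
    have t2 : tj (-((J : ℤ) + 1)) = (J : ℝ) + 1 := by
      rw [← t1]
      unfold tj
      push_cast
      rw [abs_neg]
    rw [e1, Finset.sum_insert n2, Finset.sum_insert n1, ih, t1, t2,
      Finset.sum_Icc_succ_top (by omega)]
    push_cast
    ring

theorem int_sum (J : ℕ) (hJ : 1 ≤ J) :
    ∑ j ∈ Finset.Icc (-(J : ℤ)) J, (4 + Real.log (tj j)) / tj j ≤ (4 + Real.log J) * (1 + 2 * LL J) := by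
  have hJ1 : (1 : ℝ) ≤ J := by exact_mod_cast hJ
  have hl : 0 ≤ Real.log J := Real.log_nonneg hJ1
  have h1 : ∀ j ∈ Finset.Icc (-(J : ℤ)) J,
      (4 + Real.log (tj j)) / tj j ≤ (4 + Real.log J) * (1 / tj j) := by
    intro j hj
    rw [Finset.mem_Icc] at hj
    have h2 : 1 ≤ tj j := le_max_left _ _
    have h3 : tj j ≤ J := by
      unfold tj
      refine max_le hJ1 ?_
      rw [abs_le]
      constructor
      · exact_mod_cast hj.1
      · exact_mod_cast hj.2
    have h4 := Real.log_le_log (by linarith) h3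
    rw [mul_one_div]
    exact div_le_div_of_nonneg_right (by linarith) (by linarith)
  refine (Finset.sum_le_sum h1).trans ?_
  rw [← Finset.mul_sum, sum80]
  have h5 := harm80 J
  exact mul_le_mul_of_nonneg_left (by linarith) (by linarith)

end Pool.Agent.Helper5.RS
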