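import Pool.Agent.Helper5.RS.Comp

/-!
# Block RS-C2: the mean square of one error term

`x = a/q + β`, `N β = j + θ`. Write `Dl .. l r T = ∑_{m ∈ Sm z Y} rf T m * c_m` with
`c_m = 1[m l ≤ N] e (l m x) - e (b m / q) e (j m r / R) G(m)`, `b = l a % q`,
`G(m) = 1[m r ≤ R] e θ - ∑_{s=1}^{Rs-1} 1[m r ≤ s (R/Rs)] (e (θ (s+1)/Rs) - e (θ s/Rs))` (`Sm z (N/l)` is the set of the `m ∈ Sm z Y` with `m l ≤ N`, as `N ≤ Y`).
By `hyper_sqf` (RM/HC4) with `k = 1` (`(2·1-1)^(om) = 1`), the average is at most `∑_m ‖c_m‖^2` (the primes of `m ∈ Sm z Y` are `≤ z`, so in `S`).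
`G(m) = 0` if `m r > R`; if `m r ≤ R` and `s*` is the least `s ≥ 1` with `m r ≤ s (R/Rs)` (`s* ≤ Rs` as `Rs ∣ R`), the sum telescopes and `G(m) = e (θ s*/Rs)`, `‖G(m)‖ = 1`,
`|m r / R - s*/Rs| ≤ 1/Rs`.
(1) Both `m l ≤ N` and `m r ≤ R`: `e (l m x) = e (b m / q) e (l m β)` (`l a ≡ b mod q`, `e_nat`/`e_int`), so
`‖c_m‖ ≤ ‖e (l m β) - e (N β m r / R)‖ + ‖e (θ m r / R) - e (θ s*/Rs)‖ ≤ 2π |β| m |l - N r / R| + 2π / Rs` (`N β = j + θ`, `e_sub_le`), and `l`, `N r / R` are both in `[lo, lo + g)` (`Ir_real`),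
so `m |β| |l - N r / R| ≤ (N / l) |β| g ≤ |N β| g / lo ≤ |N β| / 2^κ`. There are at most `N / l ≤ N / lo` such `m`.
(2) Exactly one holds: `‖c_m‖ = 1`, and `lo m ≤ N ≤ (lo + g) m`: if `m l ≤ N`, `m r > R`: `lo m ≤ l m ≤ N` and `(lo+g) m > m r N / R > N`; if `m l > N`, `m r ≤ R`: `(lo+g) m > l m > N`, `lo m ≤ m r N / R ≤ N`.
(3) None holds: `c_m = 0`.
-/

set_option autoImplicit false

namespace Pool.Agent.Helper5.RS

open Finset Pool.Agent.Helper5.RM

private theorem tele56 (f : ℕ → ℂ) (n h Rs : ℕ) (hh : 1 ≤ h) (hn : 1 ≤ n) (hle : n ≤ Rs * h) :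
    ∃ t : ℕ, n ≤ t * h ∧ t * h ≤ n + h ∧
      f Rs - ∑ s ∈ Finset.Ico 1 Rs, (if n ≤ s * h then (f (s + 1) - f s) else 0) = f t := by
  refine ⟨(n - 1) / h + 1, ?_, ?_, ?_⟩
  · have h1 : (n - 1) / h < (n - 1) / h + 1 := Nat.lt_succ_self _
    have h2 := (Nat.div_lt_iff_lt_mul (by omega : 0 < h)).1 h1
    omega
  · have h1 := Nat.div_mul_le_self (n - 1) h
    rw [add_mul, one_mul]
    omega
  · have hiff : ∀ s : ℕ, n ≤ s * h ↔ (n - 1) / h + 1 ≤ s := by
      intro s
      rw [Nat.succ_le_iff, Nat.div_lt_iff_lt_mul (by omega : 0 < h)]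
      omega
    have htR : (n - 1) / h + 1 ≤ Rs := (hiff Rs).1 hle
    have hset : (Finset.Ico 1 Rs).filter (fun s => n ≤ s * h) = Finset.Ico ((n - 1) / h + 1) Rs := by
      ext s
      rw [Finset.mem_filter, Finset.mem_Ico, Finset.mem_Ico, hiff]
      constructor
      · rintro ⟨⟨_, h2⟩, h3⟩
        exact ⟨h3, h2⟩
      · rintro ⟨h1, h2⟩
        exact ⟨⟨le_trans (Nat.succ_le_succ (Nat.zero_le _)) h1, h2⟩, h1⟩
    rw [← Finset.sum_filter, hset]
    have htel : ∀ M : ℕ, (n - 1) / h + 1 ≤ M →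
        ∑ s ∈ Finset.Ico ((n - 1) / h + 1) M, (f (s + 1) - f s) = f M - f ((n - 1) / h + 1) := by
      intro M hM
      induction M, hM using Nat.le_induction with
      | base => simp
      | succ k hk ih =>
        rw [Finset.sum_Ico_succ_top hk, ih]
        ring
    rw [htel Rs htR]
    ring

private theorem nat_res56 (l m a q : ℕ) (hq : 1 ≤ q) (x β : ℝ) (hx : x = (a : ℝ) / q + β) :
    e ((l : ℝ) * m * x) = e (((l * a % q : ℕ) : ℝ) * m / q) * e ((l : ℝ) * m * β) := by
  have hq0 : (q : ℝ) ≠ 0 := by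
    have : (1 : ℝ) ≤ q := by exact_mod_cast hq
    linarith
  have h1 : ((l * a : ℕ) : ℝ) = ((q * (l * a / q) + l * a % q : ℕ) : ℝ) := by
    rw [Nat.div_add_mod]
  have h2 : (l : ℝ) * m * x = ((m * (l * a / q) : ℕ) : ℝ) +
      (((l * a % q : ℕ) : ℝ) * m / q + (l : ℝ) * m * β) := by
    rw [hx]
    push_cast at h1 ⊢
    have h3 : (l : ℝ) * m * ((a : ℝ) / q) = ((l : ℝ) * a) * m / q := by ring
    rw [mul_add, h3, h1]
    field_simp
    ring
  rw [h2, e_add, e_nat, one_mul, e_add]

private noncomputable def cm56 (R Rs N q a : ℕ) (x : ℝ) (j : ℤ) (θ : ℝ) (l r m : ℕ) : ℂ :=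
  (if m * l ≤ N then e ((l : ℝ) * m * x) else 0) -
    e (((l * a % q : ℕ) : ℝ) * m / q) * e ((j : ℝ) * m * r / R) *
      ((if m * r ≤ R then e θ else 0) - ∑ s ∈ Finset.Ico 1 Rs,
        (if m * r ≤ s * (R / Rs) then (e (θ * ((s : ℝ) + 1) / Rs) - e (θ * s / Rs)) else 0))

private theorem Dl56 (z Y R Rs N q a : ℕ) (x : ℝ) (j : ℤ) (θ : ℝ) (l r : ℕ) (T : Finset ℕ)
    (hl : 1 ≤ l) (hNY : N ≤ Y) :
    Dl z Y R Rs N q a x j θ l r T =
      ∑ m ∈ Sm z Y, (rf T m : ℂ) * cm56 R Rs N q a x j θ l r m := by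
  have hset : Sm z (N / l) = (Sm z Y).filter (fun m => m * l ≤ N) := by
    ext m
    simp only [Sm, Finset.mem_filter, Finset.mem_Icc]
    rw [Nat.le_div_iff_mul_le (by omega : 0 < l)]
    constructor
    · rintro ⟨⟨h1, h2⟩, h3⟩
      refine ⟨⟨⟨h1, ?_⟩, h3⟩, h2⟩
      have : m * 1 ≤ m * l := Nat.mul_le_mul_left m hl
      omega
    · rintro ⟨⟨⟨h1, _⟩, h3⟩, h2⟩
      exact ⟨⟨h1, h2⟩, h3⟩
  have hAl : Al z N x l T = ∑ m ∈ Sm z Y, (rf T m : ℂ) *
      (if m * l ≤ N then e ((l : ℝ) * m * x) else 0) := by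
    unfold Al
    rw [hset, Finset.sum_filter]
    apply Finset.sum_congr rfl
    intro m _
    split_ifs
    · rfl
    · rw [mul_zero]
  have hAQ : ∀ (b ρ : ℕ), AQ z Y R q b j ρ r T = ∑ m ∈ Sm z Y, (rf T m : ℂ) *
      (e ((b : ℝ) * m / q) * e ((j : ℝ) * m * r / R) * (if m * r ≤ ρ then 1 else 0)) := by
    intro b ρ
    unfold AQ
    rw [Finset.sum_filter]
    apply Finset.sum_congr rfl
    intro m _
    split_ifs
    · rw [mul_one]
    · rw [mul_zero, mul_zero]
  unfold Dl Cr
  rw [hAl, hAQ]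
  simp only [hAQ]
  simp only [Finset.mul_sum]
  rw [Finset.sum_comm (s := Finset.Ico 1 Rs), ← Finset.sum_sub_distrib, ← Finset.sum_sub_distrib]
  apply Finset.sum_congr rfl
  intro m _
  unfold cm56
  have hs : ∑ s ∈ Finset.Ico 1 Rs, (e (θ * ((s : ℝ) + 1) / Rs) - e (θ * s / Rs)) *
      ((rf T m : ℂ) * (e (((l * a % q : ℕ) : ℝ) * m / q) * e ((j : ℝ) * m * r / R) *
        (if m * r ≤ s * (R / Rs) then 1 else 0))) =
      (rf T m : ℂ) * (e (((l * a % q : ℕ) : ℝ) * m / q) * e ((j : ℝ) * m * r / R)) *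
        ∑ s ∈ Finset.Ico 1 Rs,
          (if m * r ≤ s * (R / Rs) then (e (θ * ((s : ℝ) + 1) / Rs) - e (θ * s / Rs)) else 0) := by
    rw [Finset.mul_sum]
    apply Finset.sum_congr rfl
    intro s _
    split_ifs
    · ring
    · ring
  rw [hs]
  split_ifs <;> ring

theorem err_one (κ z Y R Rs N q a : ℕ) (x β : ℝ) (j : ℤ) (θ : ℝ) (S : Finset ℕ) (hS : PP z ⊆ S)
    (hN : 1 ≤ N) (hNY : N ≤ Y) (hR : 1 ≤ R) (hRs : 1 ≤ Rs) (hRR : Rs ∣ R) (hq : 1 ≤ q)
    (hx : x = (a : ℝ) / q + β) (hβ : N * β = j + θ) (hθ0 : 0 ≤ θ) (hθ1 : θ ≤ 1)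
    (c : ℕ × ℕ) (hc : c ∈ Bk κ N) (l r : ℕ) (hl : l ∈ JB κ c) (hr : r ∈ Ir κ N R c) :
    av S (fun T => ‖Dl z Y R Rs N q a x j θ l r T‖ ^ 2) ≤
      (((Sm z Y).filter (fun m => lo κ c * m ≤ N ∧ N ≤ (lo κ c + gp κ c) * m)).card : ℝ) +
        (N : ℝ) / lo κ c * (2 * Real.pi * |N * β| / 2 ^ κ + 2 * Real.pi / Rs) ^ 2 := by
  classical
  obtain ⟨hg1, hglo, hlog, hlo2⟩ := Bk_bounds hc hN
  obtain ⟨hr1, hr2⟩ := Ir_real hR hr
  have hr0 : 1 ≤ r := by
    have := (Finset.mem_filter.1 hr).1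
    exact (Finset.mem_Icc.1 this).1
  obtain ⟨hll, hlu⟩ := Finset.mem_Ico.1 hl
  have hk1 : 1 ≤ 2 ^ κ := Nat.one_le_two_pow
  have hlo1 : 1 ≤ lo κ c := le_trans (Nat.mul_le_mul hg1 hk1) hglo
  have hl1 : 1 ≤ l := hlo1.trans hll
  have hloR : (0 : ℝ) < lo κ c := by exact_mod_cast hlo1
  have hlR : (0 : ℝ) < l := by exact_mod_cast hl1
  have hRR0 : (0 : ℝ) < R := by exact_mod_cast hR
  have hRs0 : (0 : ℝ) < Rs := by exact_mod_cast hRs
  have hN0 : (0 : ℝ) < N := by exact_mod_cast hN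
  have hpi := Real.pi_pos
  have hh : R / Rs * Rs = R := Nat.div_mul_cancel hRR
  have hh1 : 1 ≤ R / Rs := by
    rcases Nat.eq_zero_or_pos (R / Rs) with h | h
    · rw [h, zero_mul] at hh
      omega
    · exact h
  set E : ℝ := 2 * Real.pi * |N * β| / 2 ^ κ + 2 * Real.pi / Rs with hE
  have hE0 : 0 ≤ E := by positivity
  -- the key point wise bound
  have key : ∀ m ∈ Sm z Y, ‖cm56 R Rs N q a x j θ l r m‖ ^ 2 ≤
      (if lo κ c * m ≤ N ∧ N ≤ (lo κ c + gp κ c) * m then (1 : ℝ) else 0) +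
        (if m * l ≤ N then E ^ 2 else 0) := by
    intro m hm
    have hm1 : 1 ≤ m := by
      unfold Sm at hm
      exact (Finset.mem_Icc.1 (Finset.mem_filter.1 hm).1).1
    have hmr1 : 1 ≤ m * r := Nat.mul_le_mul hm1 hr0
    have hmR : (0 : ℝ) < m := by exact_mod_cast hm1
    by_cases hA : m * r ≤ R
    · -- the sum telescopes
      obtain ⟨t, ht1, ht2, ht3⟩ := tele56 (fun s : ℕ => e (θ * (s : ℝ) / Rs)) (m * r) (R / Rs) Rs hh1
        hmr1 (by rw [mul_comm Rs, hh]; exact hA)
      have hG : (if m * r ≤ R then e θ else 0) - ∑ s ∈ Finset.Ico 1 Rs,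
          (if m * r ≤ s * (R / Rs) then (e (θ * ((s : ℝ) + 1) / Rs) - e (θ * s / Rs)) else 0) =
          e (θ * (t : ℝ) / Rs) := by
        rw [if_pos hA, ← ht3]
        have h1 : θ * (Rs : ℝ) / Rs = θ := by
          field_simp
        simp only [h1]
        congr 1
        apply Finset.sum_congr rfl
        intro s _
        push_cast
        rfl
      unfold cm56
      rw [hG]
      by_cases hB : m * l ≤ N
      · -- both conditions
        rw [if_pos hB, if_pos hB, nat_res56 l m a q hq x β hx]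
        have h1 : e (((l * a % q : ℕ) : ℝ) * m / q) * e ((l : ℝ) * m * β) -
            e (((l * a % q : ℕ) : ℝ) * m / q) * e ((j : ℝ) * m * r / R) * e (θ * (t : ℝ) / Rs) =
            e (((l * a % q : ℕ) : ℝ) * m / q) * (e ((l : ℝ) * m * β) -
              e ((j : ℝ) * m * r / R + θ * (t : ℝ) / Rs)) := by
          rw [e_add]
          ring
        rw [h1, norm_mul, norm_e, one_mul]
        have h2 := e_sub_le ((l : ℝ) * m * β) ((j : ℝ) * m * r / R + θ * (t : ℝ) / Rs)
        have h3 : |(l : ℝ) * m * β - ((j : ℝ) * m * r / R + θ * (t : ℝ) / Rs)| ≤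
            |N * β| / 2 ^ κ + 1 / Rs := by
          have h4 : (l : ℝ) * m * β - ((j : ℝ) * m * r / R + θ * (t : ℝ) / Rs) =
              β * m * (l - r * N / R) + θ * (m * r / R - t / Rs) := by
            have hj : (j : ℝ) = N * β - θ := by linarith
            rw [hj]
            field_simp
            ring
          have h5 : |β * m * (l - r * N / R)| ≤ |N * β| / 2 ^ κ := by
            have h6 : |(l : ℝ) - r * N / R| ≤ gp κ c := by
              have h7 : (lo κ c : ℝ) ≤ r * N / R := by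
                rw [le_div_iff₀ hRR0]
                exact hr1
              have h8 : (r : ℝ) * N / R ≤ (lo κ c + gp κ c : ℕ) := by
                rw [div_le_iff₀ hRR0]
                exact hr2.le
              have h9 : (lo κ c : ℝ) ≤ l := by exact_mod_cast hll
              have h10 : (l : ℝ) ≤ (lo κ c + gp κ c : ℕ) := by exact_mod_cast hlu.le
              push_cast at h8 h10
              rw [abs_le]
              constructor <;> linarith
            have h11 : (m : ℝ) * gp κ c ≤ N / 2 ^ κ := by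
              rw [le_div_iff₀ (by positivity)]
              have h12 : (gp κ c : ℝ) * 2 ^ κ ≤ lo κ c := by exact_mod_cast hglo
              have h13 : (lo κ c : ℝ) ≤ l := by exact_mod_cast hll
              have h14 : (m : ℝ) * l ≤ N := by exact_mod_cast hB
              calc (m : ℝ) * gp κ c * 2 ^ κ = m * (gp κ c * 2 ^ κ) := by ring
                _ ≤ m * l := mul_le_mul_of_nonneg_left (h12.trans h13) hmR.le
                _ ≤ N := h14
            calc |β * m * (l - r * N / R)| = |β| * (m * |(l : ℝ) - r * N / R|) := by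
                  rw [abs_mul, abs_mul, abs_of_pos hmR]
                  ring
              _ ≤ |β| * (m * gp κ c) :=
                  mul_le_mul_of_nonneg_left (mul_le_mul_of_nonneg_left h6 hmR.le) (abs_nonneg _)
              _ ≤ |β| * (N / 2 ^ κ) := mul_le_mul_of_nonneg_left h11 (abs_nonneg _)
              _ = |N * β| / 2 ^ κ := by
                  rw [abs_mul, abs_of_pos hN0]
                  ring
          have h15 : |θ * (m * r / R - t / Rs)| ≤ 1 / Rs := by
            have hhR : ((R / Rs : ℕ) : ℝ) * Rs = R := by exact_mod_cast hh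
            have hhp : (0 : ℝ) < ((R / Rs : ℕ) : ℝ) := by exact_mod_cast hh1
            have ht1' : (m : ℝ) * r ≤ t * ((R / Rs : ℕ) : ℝ) := by exact_mod_cast ht1
            have ht2' : (t : ℝ) * ((R / Rs : ℕ) : ℝ) ≤ m * r + ((R / Rs : ℕ) : ℝ) := by
              exact_mod_cast ht2
            have h16 : |(m : ℝ) * r / R - t / Rs| ≤ 1 / Rs := by
              have h17 : (m : ℝ) * r / R - t / Rs =
                  (m * r - t * ((R / Rs : ℕ) : ℝ)) / R := by
                rw [← hhR]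
                field_simp
              have h18 : (1 : ℝ) / Rs = ((R / Rs : ℕ) : ℝ) / R := by
                rw [← hhR]
                field_simp
              rw [h17, h18, abs_div, abs_of_pos hRR0]
              apply div_le_div_of_nonneg_right _ hRR0.le
              rw [abs_le]
              constructor <;> linarith
            rw [abs_mul, abs_of_nonneg hθ0]
            calc θ * |(m : ℝ) * r / R - t / Rs| ≤ 1 * |(m : ℝ) * r / R - t / Rs| :=
                  mul_le_mul_of_nonneg_right hθ1 (abs_nonneg _)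
              _ ≤ 1 / Rs := by rw [one_mul]; exact h16
          rw [h4]
          exact (abs_add_le _ _).trans (add_le_add h5 h15)
        have h19 : ‖e ((l : ℝ) * m * β) - e ((j : ℝ) * m * r / R + θ * (t : ℝ) / Rs)‖ ≤ E := by
          refine h2.trans ?_
          have h20 := mul_le_mul_of_nonneg_left h3 (by positivity : (0 : ℝ) ≤ 2 * Real.pi)
          refine h20.trans (le_of_eq ?_)
          rw [hE]
          ring
        have h21 := pow_le_pow_left₀ (norm_nonneg _) h19 2
        have h22 : (0 : ℝ) ≤ (if lo κ c * m ≤ N ∧ N ≤ (lo κ c + gp κ c) * m then (1 : ℝ) else 0) := by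
          split_ifs <;> norm_num
        linarith
      · rw [if_neg hB, if_neg hB]
        have hP : lo κ c * m ≤ N ∧ N ≤ (lo κ c + gp κ c) * m := by
          constructor
          · have h1 : (lo κ c : ℝ) * m * R ≤ N * R := by
              have h2 : (m : ℝ) * r ≤ R := by exact_mod_cast hA
              calc (lo κ c : ℝ) * m * R = m * (lo κ c * R) := by ring
                _ ≤ m * (r * N) := mul_le_mul_of_nonneg_left hr1 hmR.le
                _ = (m * r) * N := by ring
                _ ≤ R * N := mul_le_mul_of_nonneg_right h2 hN0.le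
                _ = N * R := by ring
            have h3 := le_of_mul_le_mul_right h1 hRR0
            exact_mod_cast h3
          · have h4 : m * l ≤ m * (lo κ c + gp κ c) := Nat.mul_le_mul_left m hlu.le
            rw [mul_comm (lo κ c + gp κ c) m]
            omega
        rw [if_pos hP, zero_sub, norm_neg, norm_mul, norm_mul, norm_e, norm_e, norm_e]
        norm_num
    · have hG : (if m * r ≤ R then e θ else 0) - ∑ s ∈ Finset.Ico 1 Rs,
          (if m * r ≤ s * (R / Rs) then (e (θ * ((s : ℝ) + 1) / Rs) - e (θ * s / Rs)) else 0) = 0 := by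
        rw [if_neg hA, Finset.sum_eq_zero, sub_zero]
        intro s hs
        apply if_neg
        intro h1
        apply hA
        have h2 : s * (R / Rs) ≤ Rs * (R / Rs) :=
          Nat.mul_le_mul_right _ (Finset.mem_Ico.1 hs).2.le
        rw [mul_comm Rs, hh] at h2
        exact h1.trans h2
      unfold cm56
      rw [hG, mul_zero, sub_zero]
      by_cases hB : m * l ≤ N
      · rw [if_pos hB, if_pos hB, norm_e]
        have hP : lo κ c * m ≤ N ∧ N ≤ (lo κ c + gp κ c) * m := by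
          constructor
          · have h4 : lo κ c * m ≤ l * m := Nat.mul_le_mul_right m hll
            rw [mul_comm l m] at h4
            omega
          · have h1 : (N : ℝ) * R ≤ ((lo κ c + gp κ c : ℕ) : ℝ) * m * R := by
              have h2 : (R : ℝ) ≤ m * r := by
                have : R ≤ m * r := by omega
                exact_mod_cast this
              calc (N : ℝ) * R ≤ N * (m * r) := mul_le_mul_of_nonneg_left h2 hN0.le
                _ = m * (r * N) := by ring
                _ ≤ m * (((lo κ c + gp κ c : ℕ) : ℝ) * R) :=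
                    mul_le_mul_of_nonneg_left hr2.le hmR.le
                _ = ((lo κ c + gp κ c : ℕ) : ℝ) * m * R := by ring
            have h3 := le_of_mul_le_mul_right h1 hRR0
            exact_mod_cast h3
        rw [if_pos hP]
        have := sq_nonneg E
        linarith
      · rw [if_neg hB, if_neg hB, norm_zero]
        have h22 : (0 : ℝ) ≤ (if lo κ c * m ≤ N ∧ N ≤ (lo κ c + gp κ c) * m then (1 : ℝ) else 0) := by
          split_ifs <;> norm_num
        simpa using h22
  -- the average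
  have hsq : ∀ m ∈ Sm z Y, Squarefree m ∧ m.primeFactors ⊆ S := by
    intro m hm
    unfold Sm at hm
    obtain ⟨_, h2, h3⟩ := Finset.mem_filter.1 hm
    refine ⟨h2, fun p hp => hS ?_⟩
    rw [mem_PP]
    exact ⟨Nat.prime_of_mem_primeFactors hp, h3 p hp⟩
  have hav := hyper_sqf 1 le_rfl S (Sm z Y) hsq (fun m => cm56 R Rs N q a x j θ l r m)
  have hav2 : av S (fun T => ‖Dl z Y R Rs N q a x j θ l r T‖ ^ 2) ≤
      ∑ m ∈ Sm z Y, ‖cm56 R Rs N q a x j θ l r m‖ ^ 2 := by
    have e1 : av S (fun T => ‖Dl z Y R Rs N q a x j θ l r T‖ ^ 2) =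
        av S (fun T => ‖∑ m ∈ Sm z Y, (rf T m : ℂ) * cm56 R Rs N q a x j θ l r m‖ ^ (2 * 1)) := by
      apply av_congr
      intro T _
      rw [Dl56 z Y R Rs N q a x j θ l r T hl1 hNY]
    rw [e1]
    refine hav.trans (le_of_eq ?_)
    rw [pow_one]
    apply Finset.sum_congr rfl
    intro m _
    have : (2 * ((1 : ℕ) : ℝ) - 1) = 1 := by norm_num
    rw [this, one_pow, one_mul]
  refine hav2.trans ((Finset.sum_le_sum key).trans ?_)
  rw [Finset.sum_add_distrib]
  apply add_le_add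
  · rw [Finset.sum_boole]
  · rw [← Finset.sum_filter, Finset.sum_const, nsmul_eq_mul]
    apply mul_le_mul_of_nonneg_right _ (sq_nonneg E)
    have hsub : (Sm z Y).filter (fun m => m * l ≤ N) ⊆ Finset.Icc 1 (N / l) := by
      intro m hm
      obtain ⟨h1, h2⟩ := Finset.mem_filter.1 hm
      unfold Sm at h1
      rw [Finset.mem_Icc]
      refine ⟨(Finset.mem_Icc.1 (Finset.mem_filter.1 h1).1).1, ?_⟩
      rw [Nat.le_div_iff_mul_le (by omega : 0 < l)]
      exact h2
    have h1 := Finset.card_le_card hsub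
    rw [Nat.card_Icc, Nat.add_sub_cancel] at h1
    have h2 : (((Sm z Y).filter (fun m => m * l ≤ N)).card : ℝ) ≤ ((N / l : ℕ) : ℝ) := by
      exact_mod_cast h1
    refine h2.trans (Nat.cast_div_le.trans ?_)
    apply div_le_div_of_nonneg_left hN0.le hloR
    exact_mod_cast hll

end Pool.Agent.Helper5.RS
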