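import Pool.Agent.Helper5.RS.Err

/-!
# Block RS-C3: the mean of the total error

Linearity (`av_sum`, `av_mul_left`) and `err_one`: `av Er ≤ ∑_c (∑_{l ∈ Ro ∩ JB c} W ^ om l) (n_c + (N / lo_c) η^2)` with `n_c` the number of `m ∈ Sm z Y` with
`lo_c m ≤ N ≤ (lo_c + g_c) m` and `η = 2π |N β| / 2^κ + 2π / Rs` (if `Ir c` is empty the term is `0`: division by zero; the right side is `≥ 0`). By `hW1` this is at most
`W1 (∑_c g_c n_c + ∑_c g_c (N / lo_c) η^2)`. First sum: exchange `c` and `m`; only `m ≤ N` occur (`lo_c ≥ 1`), by `Bk_two` it is at most `∑_{m ≤ N} 2 (N/m) / 2^κ ≤ 2 N LL N / 2^κ`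
(`∑_{m ≤ N} 1/m ≤ 1 + log N = LL N`, e.g. private lemma in RM/LG5). Second sum: `g_c / lo_c ≤ 2^(-κ)`, the number of blocks is at most `2^κ (Nat.log 2 N + 1)`, and
`Nat.log 2 N + 1 ≤ 2 LL N`, so it is at most `2 N LL N η^2`.
-/

set_option autoImplicit false

namespace Pool.Agent.Helper5.RS

open Finset Pool.Agent.Helper5.RM

private lemma errT_harm (N : ℕ) : ∑ m ∈ Finset.Icc 1 N, (1 : ℝ) / m ≤ LL N := by
  have h := harmonic_le_one_add_log N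
  rw [harmonic_eq_sum_Icc] at h
  unfold LL
  refine le_trans (le_of_eq ?_) h
  push_cast
  exact Finset.sum_congr rfl fun i _ => by rw [one_div]

private lemma errT_log (N : ℕ) (hN : 1 ≤ N) : (Nat.log 2 N : ℝ) + 1 ≤ 2 * LL N := by
  have h1 : (Nat.log 2 N : ℝ) * Real.log 2 ≤ Real.log N := by
    have h2 : 2 ^ Nat.log 2 N ≤ N := Nat.pow_log_le_self 2 (by omega)
    have h3 : ((2 : ℝ) ^ Nat.log 2 N) ≤ N := by exact_mod_cast h2
    have h4 := Real.log_le_log (by positivity) h3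
    rwa [Real.log_pow] at h4
  have h5 : (1 : ℝ) / 2 ≤ Real.log 2 := by
    have := Real.log_two_gt_d9
    linarith
  have h6 : (0 : ℝ) ≤ Nat.log 2 N := Nat.cast_nonneg _
  have h7 : (Nat.log 2 N : ℝ) * (1 / 2) ≤ (Nat.log 2 N : ℝ) * Real.log 2 := by gcongr
  unfold LL
  linarith

private lemma errT_card (κ N : ℕ) (hN : 1 ≤ N) : ((Bk κ N).card : ℝ) ≤ 2 ^ κ * (2 * LL N) := by
  unfold Bk
  rw [Finset.card_product, Nat.card_Icc, Nat.card_Ico]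
  have h1 : 2 ^ (κ + 1) - 2 ^ κ = 2 ^ κ := by rw [pow_succ]; omega
  rw [h1]
  push_cast
  have h2 : ((Nat.log 2 N + 1 - κ : ℕ) : ℝ) ≤ 2 * LL N := by
    refine le_trans ?_ (errT_log N hN)
    have : Nat.log 2 N + 1 - κ ≤ Nat.log 2 N + 1 := Nat.sub_le _ _
    exact_mod_cast this
  rw [mul_comm]
  gcongr

/-- the first sum -/
private lemma errT_first (κ z Y N : ℕ) (hN : 1 ≤ N) :
    ∑ c ∈ Bk κ N, (gp κ c : ℝ) *
      (((Sm z Y).filter (fun m => lo κ c * m ≤ N ∧ N ≤ (lo κ c + gp κ c) * m)).card : ℝ) ≤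
      2 * N * LL N / 2 ^ κ := by
  have h1 : ∀ c ∈ Bk κ N, (gp κ c : ℝ) *
      (((Sm z Y).filter (fun m => lo κ c * m ≤ N ∧ N ≤ (lo κ c + gp κ c) * m)).card : ℝ) ≤
      ∑ m ∈ Finset.Icc 1 N, if (lo κ c * m ≤ N ∧ N ≤ (lo κ c + gp κ c) * m) then (gp κ c : ℝ) else 0 := by
    intro c hc
    obtain ⟨hb1, hb2, -, -⟩ := Bk_bounds hc hN
    have hlo : 1 ≤ lo κ c := by
      have h3 : 1 ≤ gp κ c * 2 ^ κ := Nat.mul_pos hb1 (by positivity)
      omega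
    have h2 : (Sm z Y).filter (fun m => lo κ c * m ≤ N ∧ N ≤ (lo κ c + gp κ c) * m) ⊆
        (Finset.Icc 1 N).filter (fun m => lo κ c * m ≤ N ∧ N ≤ (lo κ c + gp κ c) * m) := by
      intro m hm
      rw [Finset.mem_filter] at hm ⊢
      obtain ⟨hm1, hm2, hm3⟩ := hm
      refine ⟨?_, hm2, hm3⟩
      unfold Sm at hm1
      rw [Finset.mem_filter, Finset.mem_Icc] at hm1
      rw [Finset.mem_Icc]
      refine ⟨hm1.1.1, ?_⟩
      calc m = 1 * m := (one_mul m).symm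
        _ ≤ lo κ c * m := Nat.mul_le_mul_right m hlo
        _ ≤ N := hm2
    rw [← Finset.sum_filter, Finset.sum_const, nsmul_eq_mul, mul_comm]
    gcongr
  refine (Finset.sum_le_sum h1).trans ?_
  rw [Finset.sum_comm]
  have h2 : ∀ m ∈ Finset.Icc 1 N, ∑ c ∈ Bk κ N,
      (if (lo κ c * m ≤ N ∧ N ≤ (lo κ c + gp κ c) * m) then (gp κ c : ℝ) else 0) ≤
      2 * (N : ℝ) / 2 ^ κ * (1 / m) := by
    intro m hm
    rw [Finset.mem_Icc] at hm
    rw [← Finset.sum_filter]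
    refine (Bk_two hN m hm.1).trans (le_of_eq ?_)
    have : (m : ℝ) ≠ 0 := by
      have : (1 : ℝ) ≤ m := by exact_mod_cast hm.1
      positivity
    field_simp
  refine (Finset.sum_le_sum h2).trans ?_
  rw [← Finset.mul_sum]
  calc 2 * (N : ℝ) / 2 ^ κ * ∑ m ∈ Finset.Icc 1 N, (1 : ℝ) / m ≤ 2 * (N : ℝ) / 2 ^ κ * LL N := by
        gcongr; exact errT_harm N
    _ = 2 * N * LL N / 2 ^ κ := by ring

/-- the second sum -/
private lemma errT_second (κ N : ℕ) (hN : 1 ≤ N) (t : ℝ) (ht : 0 ≤ t) :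
    ∑ c ∈ Bk κ N, (gp κ c : ℝ) * ((N : ℝ) / lo κ c * t) ≤ 2 * N * LL N * t := by
  have h1 : ∀ c ∈ Bk κ N, (gp κ c : ℝ) * ((N : ℝ) / lo κ c * t) ≤ N * t / 2 ^ κ := by
    intro c hc
    obtain ⟨hb1, hb2, -, -⟩ := Bk_bounds hc hN
    have hg : (1 : ℝ) ≤ gp κ c := by exact_mod_cast hb1
    have hb : (gp κ c : ℝ) * 2 ^ κ ≤ lo κ c := by exact_mod_cast hb2
    have hk : (0 : ℝ) < 2 ^ κ := by positivity
    have hlo : (0 : ℝ) < lo κ c := lt_of_lt_of_le (by positivity) hb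
    have h2 : (gp κ c : ℝ) / lo κ c ≤ 1 / 2 ^ κ := by
      rw [div_le_div_iff₀ hlo hk]
      linarith
    calc (gp κ c : ℝ) * ((N : ℝ) / lo κ c * t) = (gp κ c : ℝ) / lo κ c * (N * t) := by ring
      _ ≤ 1 / 2 ^ κ * (N * t) := by gcongr
      _ = N * t / 2 ^ κ := by ring
  refine (Finset.sum_le_sum h1).trans ?_
  rw [Finset.sum_const, nsmul_eq_mul]
  calc ((Bk κ N).card : ℝ) * (N * t / 2 ^ κ) ≤ (2 ^ κ * (2 * LL N)) * (N * t / 2 ^ κ) := by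
        gcongr; exact errT_card κ N hN
    _ = 2 * N * LL N * t := by field_simp

theorem err_total (κ W z Y R Rs N q a : ℕ) (x β : ℝ) (j : ℤ) (θ W1 : ℝ) (S : Finset ℕ) (hS : PP z ⊆ S)
    (hN : 1 ≤ N) (hNY : N ≤ Y) (hR : 1 ≤ R) (hRs : 1 ≤ Rs) (hRR : Rs ∣ R) (hq : 1 ≤ q)
    (hx : x = (a : ℝ) / q + β) (hβ : N * β = j + θ) (hθ0 : 0 ≤ θ) (hθ1 : θ ≤ 1) (hW0 : 0 ≤ W1)
    (hW1 : ∀ c ∈ Bk κ N, ∑ l ∈ (Ro z N).filter (fun l => l ∈ JB κ c), (W : ℝ) ^ om l ≤ W1 * gp κ c) :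
    av S (fun T => Er κ W z Y R Rs N q a x j θ T) ≤
      W1 * N * LL N * (2 / 2 ^ κ + 2 * (2 * Real.pi * |N * β| / 2 ^ κ + 2 * Real.pi / Rs) ^ 2) := by
  set η : ℝ := 2 * Real.pi * |N * β| / 2 ^ κ + 2 * Real.pi / Rs with hη
  have hη2 : 0 ≤ η ^ 2 := sq_nonneg _
  -- the inner average
  have h1 : ∀ c ∈ Bk κ N, ∀ l ∈ (Ro z N).filter (fun l => l ∈ JB κ c),
      av S (fun T => (W : ℝ) ^ om l *
        ((∑ r ∈ Ir κ N R c, ‖Dl z Y R Rs N q a x j θ l r T‖ ^ 2) / (Ir κ N R c).card)) ≤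
      (W : ℝ) ^ om l *
        ((((Sm z Y).filter (fun m => lo κ c * m ≤ N ∧ N ≤ (lo κ c + gp κ c) * m)).card : ℝ) +
        (N : ℝ) / lo κ c * η ^ 2) := by
    intro c hc l hl
    rw [Finset.mem_filter] at hl
    rw [av_mul_left]
    refine mul_le_mul_of_nonneg_left ?_ (by positivity)
    have h2 : (fun T => (∑ r ∈ Ir κ N R c, ‖Dl z Y R Rs N q a x j θ l r T‖ ^ 2) / ((Ir κ N R c).card : ℝ)) =
        fun T => (1 / ((Ir κ N R c).card : ℝ)) *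
          ∑ r ∈ Ir κ N R c, ‖Dl z Y R Rs N q a x j θ l r T‖ ^ 2 := by
      funext T; ring
    rw [h2, av_mul_left, av_sum]
    have h3 : ∑ r ∈ Ir κ N R c, av S (fun T => ‖Dl z Y R Rs N q a x j θ l r T‖ ^ 2) ≤
        ((Ir κ N R c).card : ℝ) *
          ((((Sm z Y).filter (fun m => lo κ c * m ≤ N ∧ N ≤ (lo κ c + gp κ c) * m)).card : ℝ) +
          (N : ℝ) / lo κ c * η ^ 2) := by
      rw [← nsmul_eq_mul, ← Finset.sum_const]
      exact Finset.sum_le_sum fun r hr =>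
        err_one κ z Y R Rs N q a x β j θ S hS hN hNY hR hRs hRR hq hx hβ hθ0 hθ1 c hc l r hl.2 hr
    have h5 : 0 ≤ (((Sm z Y).filter (fun m => lo κ c * m ≤ N ∧ N ≤ (lo κ c + gp κ c) * m)).card : ℝ) +
        (N : ℝ) / lo κ c * η ^ 2 := by positivity
    rcases Nat.eq_zero_or_pos (Ir κ N R c).card with h0 | h0
    · rw [h0]; simpa using h5
    · have h6 : (0 : ℝ) < (Ir κ N R c).card := by exact_mod_cast h0
      rw [one_div, inv_mul_le_iff₀ h6]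
      exact h3
  unfold Er
  rw [av_sum]
  have h4 : ∀ c ∈ Bk κ N, av S (fun T => ∑ l ∈ (Ro z N).filter (fun l => l ∈ JB κ c), (W : ℝ) ^ om l *
        ((∑ r ∈ Ir κ N R c, ‖Dl z Y R Rs N q a x j θ l r T‖ ^ 2) / (Ir κ N R c).card)) ≤
      W1 * ((gp κ c : ℝ) *
        (((Sm z Y).filter (fun m => lo κ c * m ≤ N ∧ N ≤ (lo κ c + gp κ c) * m)).card : ℝ) +
        (gp κ c : ℝ) * ((N : ℝ) / lo κ c * η ^ 2)) := by
    intro c hc
    rw [av_sum]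
    refine (Finset.sum_le_sum (h1 c hc)).trans ?_
    rw [← Finset.sum_mul]
    calc (∑ l ∈ (Ro z N).filter (fun l => l ∈ JB κ c), (W : ℝ) ^ om l) *
        ((((Sm z Y).filter (fun m => lo κ c * m ≤ N ∧ N ≤ (lo κ c + gp κ c) * m)).card : ℝ) +
        (N : ℝ) / lo κ c * η ^ 2) ≤ (W1 * gp κ c) *
        ((((Sm z Y).filter (fun m => lo κ c * m ≤ N ∧ N ≤ (lo κ c + gp κ c) * m)).card : ℝ) +
        (N : ℝ) / lo κ c * η ^ 2) := by
          refine mul_le_mul_of_nonneg_right (hW1 c hc) (by positivity)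
      _ = _ := by ring
  refine (Finset.sum_le_sum h4).trans ?_
  rw [← Finset.mul_sum, Finset.sum_add_distrib]
  calc W1 * (∑ c ∈ Bk κ N, (gp κ c : ℝ) *
        (((Sm z Y).filter (fun m => lo κ c * m ≤ N ∧ N ≤ (lo κ c + gp κ c) * m)).card : ℝ) +
        ∑ c ∈ Bk κ N, (gp κ c : ℝ) * ((N : ℝ) / lo κ c * η ^ 2)) ≤
      W1 * (2 * N * LL N / 2 ^ κ + 2 * N * LL N * η ^ 2) := by
        have e1 := errT_first κ z Y N hN
        have e2 := errT_second κ N hN (η ^ 2) hη2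
        gcongr
    _ = W1 * N * LL N * (2 / 2 ^ κ + 2 * η ^ 2) := by ring

end Pool.Agent.Helper5.RS
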