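import Pool.Agent.Helper5.RS.PT
import Pool.Agent.Helper5.RS.Chain

/-!
# Block RS-L8: the maximum over `N` at one point of large complexity

`X = 2^a`, `Λ = 2^i ≤ a < 2Λ`, `M = 2^(2Λ) ≥ 2X`. `C0` of `point_far`, `W' = 39^20`, `C1 = C0 + 8 W' + 40`. Choose `s0 ≤ a` with `D^(1/8) ≤ 2^(a - s0) ≤ 2 D^(1/8)` (`1 ≤ D ≤ X`). If some `N ∈ [X, 2X]` has `‖SN N‖ > √X Λ^(1/2+ε)` then, with
`N0 = 2^s0 ⌊N/2^s0⌋ ∈ [X, 2X]`: either `‖SN N - SN N0‖ > 6 √X` (`chain` with `k = 20`, `W = W'`: probability `≤ 2 LL(2X)^W' D^(-19/8) ≤ D^(-17/8)`, since `D^(1/4) ≥ Λ^(2 W' + 10) ≥ 2 LL (2X)^W'`), or `‖SN N0‖ > √N0 LL N0^(1/2+ε/2)`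
(`√(2X) (LL (2X))^(1/2+ε/2) + 6 √X ≤ √X Λ^(1/2+ε)` for large `i`, `LL (2X) ≤ 3Λ`). For `N0 ≥ X`: `Far N0 x D` (from `Far X x D`: `X nd ≤ N0 nd`), `LL N0^C0 ≤ (3Λ)^C0 ≤ Λ^C1 ≤ D ≤ X ≤ N0`; `point_far` with `ε/2` and `pr_SN` (from `PP N0` to `PP M`): probability
`≤ D^(-9/4)`, for at most `2^(a-s0) + 1 ≤ 3 D^(1/8)` values `N0`. Total `≤ D^(-17/8) + 3 D^(1/8 - 9/4) = 4 D^(-17/8)`.
Keep `W' = 39^20` opaque (`obtain ⟨W', hW'⟩ : ∃ W' : ℕ, W' = 39 ^ 20 := ⟨_, rfl⟩`), never let `norm_num` or `decide` see it in an exponent.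
-/

set_option autoImplicit false

namespace Pool.Agent.Helper5.RS

open Finset Pool.Agent.Helper5.RM

private lemma LL_mono61 {m n : ℕ} (hm : 1 ≤ m) (h : m ≤ n) : LL m ≤ LL n := by
  unfold LL
  have h1 : (0 : ℝ) < m := by exact_mod_cast hm
  have h2 : (m : ℝ) ≤ n := by exact_mod_cast h
  have := Real.log_le_log h1 h2
  linarith

private lemma LL_one61 {m : ℕ} (hm : 1 ≤ m) : 1 ≤ LL m := by
  unfold LL
  have : 0 ≤ Real.log m := Real.log_nonneg (by exact_mod_cast hm)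
  linarith

private lemma LL_pow61 {a : ℕ} {Λ : ℝ} (hΛ : 1 ≤ Λ) (ha : (a : ℝ) + 1 ≤ 2 * Λ) : LL (2 ^ (a + 1)) ≤ 3 * Λ := by
  unfold LL
  push_cast
  rw [Real.log_pow]
  have h1 := Real.log_two_lt_d9
  have h2 := Real.log_two_gt_d9
  push_cast
  nlinarith

private lemma find_u61 {D : ℝ} {a : ℕ} (hD1 : 1 ≤ D) (hDa : D ≤ 2 ^ a) :
    ∃ u : ℕ, u ≤ a ∧ D ^ (1 / 8 : ℝ) ≤ 2 ^ u ∧ (2 : ℝ) ^ u ≤ 2 * D ^ (1 / 8 : ℝ) := by
  have h1 : 1 ≤ D ^ (1 / 8 : ℝ) := Real.one_le_rpow hD1 (by norm_num)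
  have h2 : D ^ (1 / 8 : ℝ) ≤ D := by
    calc D ^ (1 / 8 : ℝ) ≤ D ^ (1 : ℝ) := Real.rpow_le_rpow_of_exponent_le hD1 (by norm_num)
      _ = D := Real.rpow_one D
  have hex : ∃ u : ℕ, D ^ (1 / 8 : ℝ) ≤ 2 ^ u := ⟨a, h2.trans hDa⟩
  classical
  refine ⟨Nat.find hex, Nat.find_min' hex (h2.trans hDa), Nat.find_spec hex, ?_⟩
  rcases Nat.eq_zero_or_pos (Nat.find hex) with h | h
  · rw [h, pow_zero]
    linarith
  · have h3 := Nat.find_min hex (m := Nat.find hex - 1) (by omega)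
    push Not at h3
    have h4 : (2 : ℝ) ^ Nat.find hex = 2 * 2 ^ (Nat.find hex - 1) := by
      conv_lhs => rw [show Nat.find hex = (Nat.find hex - 1) + 1 by omega]
      rw [pow_succ]; ring
    rw [h4]
    linarith

/-- the threshold for the size of `Λ` -/
private lemma large61 {ε : ℝ} (hε : 0 < ε) (C0 N1 : ℕ) : ∃ i0 : ℕ, ∀ i : ℕ, i0 ≤ i →
    (2 ≤ i ∧ N1 ≤ 2 ^ (2 ^ i) ∧ (3 : ℝ) ^ C0 ≤ 2 ^ i ∧
      Real.sqrt 2 * (3 : ℝ) ^ (1 / 2 + ε / 2) + 6 ≤ ((2 : ℝ) ^ i) ^ (ε / 2)) := by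
  have h1 : Filter.Tendsto (fun i : ℕ => ((2 : ℝ) ^ i) ^ (ε / 2)) Filter.atTop Filter.atTop :=
    (tendsto_rpow_atTop (by positivity)).comp (tendsto_pow_atTop_atTop_of_one_lt (by norm_num))
  obtain ⟨i1, hi1⟩ := Filter.eventually_atTop.1
    (h1.eventually_ge_atTop (Real.sqrt 2 * (3 : ℝ) ^ (1 / 2 + ε / 2) + 6))
  refine ⟨max (max i1 2) (max N1 (2 * C0)), fun i hi => ?_⟩
  have g1 : i1 ≤ i := (le_max_left _ _).trans ((le_max_left _ _).trans hi)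
  have g2 : 2 ≤ i := (le_max_right _ _).trans ((le_max_left _ _).trans hi)
  have g3 : N1 ≤ i := (le_max_left _ _).trans ((le_max_right _ _).trans hi)
  have g4 : 2 * C0 ≤ i := (le_max_right _ _).trans ((le_max_right _ _).trans hi)
  refine ⟨g2, ?_, ?_, hi1 i g1⟩
  · have h2 : i < 2 ^ i := Nat.lt_two_pow_self
    have h3 : 2 ^ i < 2 ^ (2 ^ i) := Nat.lt_two_pow_self
    omega
  · calc (3 : ℝ) ^ C0 ≤ 4 ^ C0 := pow_le_pow_left₀ (by norm_num) (by norm_num) _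
      _ = 2 ^ (2 * C0) := by rw [pow_mul]; norm_num
      _ ≤ 2 ^ i := pow_le_pow_right₀ (by norm_num) g4

theorem far_max : ∃ C1 : ℕ, 16 ≤ C1 ∧ ∀ ε : ℝ, 0 < ε → ∃ i0 : ℕ, ∀ i : ℕ, i0 ≤ i → ∀ a : ℕ, 2 ^ i ≤ a →
    a < 2 * 2 ^ i → ∀ x D : ℝ, Far (2 ^ a) x D → ((2 : ℝ) ^ i) ^ C1 ≤ D → D ≤ 2 ^ a →
    pr (PP (2 ^ (2 * 2 ^ i))) (fun T => ∃ N : ℕ, 2 ^ a ≤ N ∧ N ≤ 2 ^ (a + 1) ∧
      Real.sqrt (2 ^ a) * ((2 : ℝ) ^ i) ^ (1 / 2 + ε) < ‖SN N T x‖) ≤ 4 * D ^ (-(17 / 8) : ℝ) := by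
  obtain ⟨C0, hPF⟩ := point_far
  obtain ⟨W', hW'⟩ : ∃ W' : ℕ, (2 * 20 - 1) ^ 20 ≤ W' := ⟨_, le_rfl⟩
  refine ⟨C0 + 8 * W' + 40, by omega, fun ε hε => ?_⟩
  obtain ⟨N1, hN1⟩ := hPF (ε / 2) (by positivity)
  obtain ⟨i0, hi0⟩ := large61 hε C0 N1
  refine ⟨i0, fun i hi a hai ha2 x D hFar hCD hDa => ?_⟩
  obtain ⟨hi2, hN1i, h3C, hK⟩ := hi0 i hi
  set Λ : ℝ := (2 : ℝ) ^ i with hΛdef
  have hΛ4 : 4 ≤ Λ := by
    calc (4 : ℝ) = 2 ^ 2 := by norm_num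
      _ ≤ 2 ^ i := pow_le_pow_right₀ (by norm_num) hi2
  have hΛ1 : 1 ≤ Λ := by linarith
  have hΛ0 : 0 < Λ := by linarith
  have haR : (a : ℝ) + 1 ≤ 2 * Λ := by
    have : a + 1 ≤ 2 * 2 ^ i := ha2
    rw [hΛdef]
    exact_mod_cast this
  have hL3 : LL (2 ^ (a + 1)) ≤ 3 * Λ := LL_pow61 hΛ1 haR
  have hL1 : 1 ≤ LL (2 ^ (a + 1)) := LL_one61 Nat.one_le_two_pow
  have hD1 : 1 ≤ D := (one_le_pow₀ hΛ1).trans hCD
  have hD0 : 0 < D := by linarith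
  obtain ⟨u, hua, hu1, hu2⟩ := find_u61 hD1 hDa
  set s0 : ℕ := a - u with hs0
  have hsu : s0 + u = a := by omega
  have hM : 2 ^ (a + 1) ≤ 2 ^ (2 * 2 ^ i) := Nat.pow_le_pow_right (by norm_num) ha2
  have hchain := chain 20 W' a s0 (2 ^ (2 * 2 ^ i)) x (by norm_num) hW' (by omega) hM
  have hpa : (2 : ℝ) ^ a = 2 ^ s0 * 2 ^ u := by rw [← pow_add, hsu]
  -- the first probability
  have hD8 : (D ^ (1 / 8 : ℝ)) ^ 19 = D ^ (19 / 8 : ℝ) := by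
    rw [← Real.rpow_natCast, ← Real.rpow_mul hD0.le]
    norm_num
  have hp1 : 2 * LL (2 ^ (a + 1)) ^ W' * ((2 : ℝ) ^ s0 / 2 ^ a) ^ (20 - 1) ≤ D ^ (-(17 / 8) : ℝ) := by
    have e1 : ((2 : ℝ) ^ s0 / 2 ^ a) = ((2 : ℝ) ^ u)⁻¹ := by
      rw [hpa]
      field_simp
    have e2 : (((2 : ℝ) ^ u)⁻¹) ^ 19 ≤ (D ^ (19 / 8 : ℝ))⁻¹ := by
      rw [inv_pow, ← hD8]
      apply inv_anti₀
      · positivity
      · exact pow_le_pow_left₀ (by positivity) hu1 19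
    have e3 : 2 * LL (2 ^ (a + 1)) ^ W' ≤ D ^ (1 / 4 : ℝ) := by
      have e4 : (Λ ^ (C0 + 8 * W' + 40)) ^ (1 / 4 : ℝ) ≤ D ^ (1 / 4 : ℝ) :=
        Real.rpow_le_rpow (by positivity) hCD (by norm_num)
      have e5 : Λ ^ (2 * W' + 10) ≤ (Λ ^ (C0 + 8 * W' + 40)) ^ (1 / 4 : ℝ) := by
        rw [← Real.rpow_natCast, ← Real.rpow_natCast, ← Real.rpow_mul hΛ0.le]
        apply Real.rpow_le_rpow_of_exponent_le hΛ1
        push_cast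
        have : (0 : ℝ) ≤ C0 := Nat.cast_nonneg _
        linarith
      have e6 : 2 * LL (2 ^ (a + 1)) ^ W' ≤ Λ ^ (2 * W' + 10) := by
        have e7 : LL (2 ^ (a + 1)) ^ W' ≤ (Λ * Λ) ^ W' := by
          apply pow_le_pow_left₀ (by linarith)
          nlinarith
        have e8 : (2 : ℝ) ≤ Λ ^ 10 := by
          have := pow_le_pow_left₀ (by norm_num) hΛ4 10
          norm_num at this
          linarith
        have e9 : Λ ^ (2 * W' + 10) = Λ ^ 10 * (Λ * Λ) ^ W' := by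
          rw [pow_add, pow_mul, sq]; ring
        rw [e9]
        have e10 : 0 ≤ LL (2 ^ (a + 1)) ^ W' := pow_nonneg (by linarith) _
        exact mul_le_mul e8 e7 e10 (by positivity)
      exact e6.trans (e5.trans e4)
    have e11 : (20 - 1 : ℕ) = 19 := rfl
    rw [e1, e11]
    calc 2 * LL (2 ^ (a + 1)) ^ W' * (((2 : ℝ) ^ u)⁻¹) ^ 19
        ≤ D ^ (1 / 4 : ℝ) * (D ^ (19 / 8 : ℝ))⁻¹ := by
          apply mul_le_mul e3 e2 (by positivity) (by positivity)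
      _ = D ^ (-(17 / 8) : ℝ) := by
          rw [← Real.rpow_neg hD0.le, ← Real.rpow_add hD0]
          norm_num
  -- the second probability
  have hp2 : ∀ w ∈ Finset.Icc (2 ^ u) (2 ^ (u + 1)),
      pr (PP (2 ^ (2 * 2 ^ i))) (fun T => Real.sqrt ((2 ^ s0 * w : ℕ) : ℝ) * LL (2 ^ s0 * w) ^ (1 / 2 + ε / 2) <
        ‖SN (2 ^ s0 * w) T x‖) ≤ D ^ (-(9 / 4) : ℝ) := by
    intro w hw
    rw [Finset.mem_Icc] at hw
    have g1 : 2 ^ a ≤ 2 ^ s0 * w := by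
      rw [← hsu, pow_add]
      exact Nat.mul_le_mul_left _ hw.1
    have g2 : 2 ^ s0 * w ≤ 2 ^ (a + 1) := by
      have : a + 1 = s0 + (u + 1) := by omega
      rw [this, pow_add]
      exact Nat.mul_le_mul_left _ hw.2
    rw [pr_SN (g2.trans hM)]
    have g3 : (2 : ℝ) ^ a ≤ ((2 ^ s0 * w : ℕ) : ℝ) := by exact_mod_cast g1
    apply hN1
    · calc N1 ≤ 2 ^ (2 ^ i) := hN1i
        _ ≤ 2 ^ a := Nat.pow_le_pow_right (by norm_num) hai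
        _ ≤ _ := g1
    · intro m hm
      refine (hFar m hm).trans ?_
      have g4 := nd_nonneg (m * x)
      have g5 : (((2 ^ a : ℕ) : ℝ)) ≤ ((2 ^ s0 * w : ℕ) : ℝ) := by exact_mod_cast g1
      have := mul_le_mul_of_nonneg_right g5 g4
      linarith
    · have g4 : LL (2 ^ s0 * w) ≤ 3 * Λ := (LL_mono61 (le_trans Nat.one_le_two_pow g1) g2).trans hL3
      have g5 : 1 ≤ LL (2 ^ s0 * w) := LL_one61 (le_trans Nat.one_le_two_pow g1)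
      calc LL (2 ^ s0 * w) ^ C0 ≤ (3 * Λ) ^ C0 := pow_le_pow_left₀ (by linarith) g4 _
        _ = 3 ^ C0 * Λ ^ C0 := mul_pow _ _ _
        _ ≤ Λ ^ (8 * W' + 40) * Λ ^ C0 := by
            apply mul_le_mul_of_nonneg_right _ (by positivity)
            refine h3C.trans ?_
            exact le_self_pow₀ hΛ1 (by omega)
        _ = Λ ^ (C0 + 8 * W' + 40) := by rw [← pow_add]; congr 1; omega
        _ ≤ D := hCD
    · exact hDa.trans g3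
  -- the union
  have hmain : pr (PP (2 ^ (2 * 2 ^ i))) (fun T => ∃ N : ℕ, 2 ^ a ≤ N ∧ N ≤ 2 ^ (a + 1) ∧
      Real.sqrt (2 ^ a) * Λ ^ (1 / 2 + ε) < ‖SN N T x‖) ≤
      pr (PP (2 ^ (2 * 2 ^ i))) (fun T => ∃ N : ℕ, 2 ^ a ≤ N ∧ N ≤ 2 ^ (a + 1) ∧
        6 * Real.sqrt (2 ^ a) < ‖SN N T x - SN (2 ^ s0 * (N / 2 ^ s0)) T x‖) +
      pr (PP (2 ^ (2 * 2 ^ i))) (fun T => ∃ w ∈ Finset.Icc (2 ^ u) (2 ^ (u + 1)),
        Real.sqrt ((2 ^ s0 * w : ℕ) : ℝ) * LL (2 ^ s0 * w) ^ (1 / 2 + ε / 2) < ‖SN (2 ^ s0 * w) T x‖) := by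
    apply pr_le_add
    rintro T - ⟨N, hNa, hNb, hN⟩
    by_cases hc : 6 * Real.sqrt (2 ^ a) < ‖SN N T x - SN (2 ^ s0 * (N / 2 ^ s0)) T x‖
    · exact Or.inl ⟨N, hNa, hNb, hc⟩
    · right
      push Not at hc
      refine ⟨N / 2 ^ s0, ?_, ?_⟩
      · rw [Finset.mem_Icc]
        constructor
        · rw [Nat.le_div_iff_mul_le (by positivity), ← pow_add]
          rw [show u + s0 = a by omega]
          exact hNa
        · have : N / 2 ^ s0 ≤ 2 ^ (a + 1) / 2 ^ s0 := Nat.div_le_div_right hNb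
          rwa [Nat.pow_div (by omega) (by norm_num), show a + 1 - s0 = u + 1 by omega] at this
      · have g2 : 2 ^ s0 * (N / 2 ^ s0) ≤ 2 ^ (a + 1) := (Nat.mul_div_le _ _).trans hNb
        have g1 : 2 ^ a ≤ 2 ^ s0 * (N / 2 ^ s0) := by
          rw [← hsu, pow_add]
          apply Nat.mul_le_mul_left
          rw [Nat.le_div_iff_mul_le (by positivity), ← pow_add, show u + s0 = a by omega]
          exact hNa
        have g3 : LL (2 ^ s0 * (N / 2 ^ s0)) ≤ 3 * Λ := (LL_mono61 (le_trans Nat.one_le_two_pow g1) g2).trans hL3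
        have g4 : 1 ≤ LL (2 ^ s0 * (N / 2 ^ s0)) := LL_one61 (le_trans Nat.one_le_two_pow g1)
        have g5 : Real.sqrt ((2 ^ s0 * (N / 2 ^ s0) : ℕ) : ℝ) ≤ Real.sqrt 2 * Real.sqrt (2 ^ a) := by
          rw [← Real.sqrt_mul (by norm_num)]
          apply Real.sqrt_le_sqrt
          have : ((2 ^ s0 * (N / 2 ^ s0) : ℕ) : ℝ) ≤ ((2 ^ (a + 1) : ℕ) : ℝ) := by exact_mod_cast g2
          refine this.trans ?_
          push_cast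
          rw [pow_succ]
          linarith
        have g6 : LL (2 ^ s0 * (N / 2 ^ s0)) ^ (1 / 2 + ε / 2) ≤
            (3 : ℝ) ^ (1 / 2 + ε / 2) * Λ ^ (1 / 2 + ε / 2) := by
          rw [← Real.mul_rpow (by norm_num) hΛ0.le]
          exact Real.rpow_le_rpow (by linarith) g3 (by positivity)
        have g7 : Λ ^ (1 / 2 + ε) = Λ ^ (ε / 2) * Λ ^ (1 / 2 + ε / 2) := by
          rw [← Real.rpow_add hΛ0]
          congr 1
          ring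
        have g8 : 1 ≤ Λ ^ (1 / 2 + ε / 2) := Real.one_le_rpow hΛ1 (by positivity)
        have g9 : 0 < Real.sqrt ((2 : ℝ) ^ a) := Real.sqrt_pos.2 (by positivity)
        have g10 : ‖SN N T x‖ ≤ ‖SN N T x - SN (2 ^ s0 * (N / 2 ^ s0)) T x‖ +
            ‖SN (2 ^ s0 * (N / 2 ^ s0)) T x‖ := by
          have := norm_add_le (SN N T x - SN (2 ^ s0 * (N / 2 ^ s0)) T x) (SN (2 ^ s0 * (N / 2 ^ s0)) T x)
          rwa [sub_add_cancel] at this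
        have g11 : Real.sqrt ((2 ^ s0 * (N / 2 ^ s0) : ℕ) : ℝ) *
            LL (2 ^ s0 * (N / 2 ^ s0)) ^ (1 / 2 + ε / 2) ≤
            (Real.sqrt 2 * Real.sqrt (2 ^ a)) * ((3 : ℝ) ^ (1 / 2 + ε / 2) * Λ ^ (1 / 2 + ε / 2)) :=
          mul_le_mul g5 g6 (by positivity) (by positivity)
        have g12 : (Real.sqrt 2 * Real.sqrt (2 ^ a)) * ((3 : ℝ) ^ (1 / 2 + ε / 2) * Λ ^ (1 / 2 + ε / 2)) +
            6 * Real.sqrt (2 ^ a) ≤ Real.sqrt (2 ^ a) * Λ ^ (1 / 2 + ε) := by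
          rw [g7]
          have g13 : (Real.sqrt 2 * (3 : ℝ) ^ (1 / 2 + ε / 2)) * Λ ^ (1 / 2 + ε / 2) + 6 ≤
              Λ ^ (ε / 2) * Λ ^ (1 / 2 + ε / 2) := by
            have := mul_le_mul_of_nonneg_right hK (show (0 : ℝ) ≤ Λ ^ (1 / 2 + ε / 2) by positivity)
            nlinarith
          nlinarith
        linarith
  have hp3 : pr (PP (2 ^ (2 * 2 ^ i))) (fun T => ∃ w ∈ Finset.Icc (2 ^ u) (2 ^ (u + 1)),
        Real.sqrt ((2 ^ s0 * w : ℕ) : ℝ) * LL (2 ^ s0 * w) ^ (1 / 2 + ε / 2) < ‖SN (2 ^ s0 * w) T x‖) ≤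
      3 * D ^ (-(17 / 8) : ℝ) := by
    refine (pr_exists _ _ _).trans ((Finset.sum_le_sum hp2).trans ?_)
    rw [Finset.sum_const, Nat.card_Icc, nsmul_eq_mul]
    have c1 : ((2 ^ (u + 1) + 1 - 2 ^ u : ℕ) : ℝ) ≤ 3 * D ^ (1 / 8 : ℝ) := by
      have c2 : 2 ^ (u + 1) + 1 - 2 ^ u = 2 ^ u + 1 := by
        rw [pow_succ]; omega
      rw [c2]
      push_cast
      have c3 : 1 ≤ D ^ (1 / 8 : ℝ) := Real.one_le_rpow hD1 (by norm_num)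
      linarith
    calc ((2 ^ (u + 1) + 1 - 2 ^ u : ℕ) : ℝ) * D ^ (-(9 / 4) : ℝ)
        ≤ (3 * D ^ (1 / 8 : ℝ)) * D ^ (-(9 / 4) : ℝ) := mul_le_mul_of_nonneg_right c1 (by positivity)
      _ = 3 * D ^ (-(17 / 8) : ℝ) := by
          rw [mul_assoc, ← Real.rpow_add hD0]
          norm_num
  have := hchain.trans hp1
  linarith

end Pool.Agent.Helper5.RS
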