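import Pool.Agent.Helper5.RS.FarM
import Pool.Agent.Helper5.RS.DDs

/-!
# Block RS-L9: all points of large complexity

Union over `a ∈ [Λ, 2Λ)` (`Λ` values) and the `jj < 2^a` with `DD ≥ Λ^C1`: `far_max` with `D = DD` (`DD_far`, `DD_le`), `DD_sum2` with `Y = Λ^C1`: total `≤ Λ * 4 * 150 Λ^(-C1/8) ≤ 600 Λ^(-1)` (`C1 ≥ 16`).
-/

set_option autoImplicit false

namespace Pool.Agent.Helper5.RS

open Finset Pool.Agent.Helper5.RM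

theorem far_unif : ∃ C1 : ℕ, ∀ ε : ℝ, 0 < ε → ∃ i0 : ℕ, ∀ i : ℕ, i0 ≤ i →
    pr (PP (2 ^ (2 * 2 ^ i))) (fun T => ∃ a jj N : ℕ, 2 ^ i ≤ a ∧ a < 2 * 2 ^ i ∧ jj < 2 ^ a ∧
      ((2 : ℝ) ^ i) ^ C1 ≤ DD (2 ^ a) ((jj : ℝ) / (2 ^ a : ℕ)) ∧ 2 ^ a ≤ N ∧ N ≤ 2 ^ (a + 1) ∧
      Real.sqrt (2 ^ a) * ((2 : ℝ) ^ i) ^ (1 / 2 + ε) < ‖SN N T ((jj : ℝ) / (2 ^ a : ℕ))‖) ≤
      600 / (2 : ℝ) ^ i := by
  classical
  obtain ⟨C1, hC1, hmax⟩ := far_max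
  refine ⟨C1, fun ε hε => ?_⟩
  obtain ⟨i0, hi0⟩ := hmax ε hε
  refine ⟨i0, fun i hi => ?_⟩
  set S : Finset ℕ := PP (2 ^ (2 * 2 ^ i)) with hS
  set Y : ℝ := ((2 : ℝ) ^ i) ^ C1 with hYdef
  have h2i : (1 : ℝ) ≤ (2 : ℝ) ^ i := one_le_pow₀ (by norm_num)
  have h2i0 : (0 : ℝ) < (2 : ℝ) ^ i := by positivity
  have hY1 : 1 ≤ Y := one_le_pow₀ h2i
  have hY0 : 0 < Y := by linarith
  -- the event at one point
  set Q : ℕ → ℕ → Finset ℕ → Prop := fun a jj T => ∃ N : ℕ, 2 ^ a ≤ N ∧ N ≤ 2 ^ (a + 1) ∧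
      Real.sqrt (2 ^ a) * ((2 : ℝ) ^ i) ^ (1 / 2 + ε) < ‖SN N T ((jj : ℝ) / (2 ^ a : ℕ))‖ with hQ
  have hYpow : Y ^ (-(1 / 8) : ℝ) ≤ 1 / ((2 : ℝ) ^ i) ^ 2 := by
    have h1 : ((2 : ℝ) ^ i) ^ 16 ≤ Y := pow_le_pow_right₀ h2i hC1
    have h2 : Y ^ (-(1 / 8) : ℝ) ≤ (((2 : ℝ) ^ i) ^ 16) ^ (-(1 / 8) : ℝ) :=
      Real.rpow_le_rpow_of_nonpos (by positivity) h1 (by norm_num)
    refine h2.trans (le_of_eq ?_)
    rw [← Real.rpow_natCast, ← Real.rpow_mul h2i0.le]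
    rw [show (((16 : ℕ) : ℝ) * (-(1 / 8) : ℝ)) = -((2 : ℕ) : ℝ) by norm_num, Real.rpow_neg h2i0.le,
      Real.rpow_natCast, one_div]
  calc pr S (fun T => ∃ a jj N : ℕ, 2 ^ i ≤ a ∧ a < 2 * 2 ^ i ∧ jj < 2 ^ a ∧
        Y ≤ DD (2 ^ a) ((jj : ℝ) / (2 ^ a : ℕ)) ∧ 2 ^ a ≤ N ∧ N ≤ 2 ^ (a + 1) ∧
        Real.sqrt (2 ^ a) * ((2 : ℝ) ^ i) ^ (1 / 2 + ε) < ‖SN N T ((jj : ℝ) / (2 ^ a : ℕ))‖)
      ≤ pr S (fun T => ∃ a ∈ Finset.Ico (2 ^ i) (2 * 2 ^ i), ∃ jj ∈ (Finset.range (2 ^ a)).filter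
          (fun j : ℕ => Y ≤ DD (2 ^ a) ((j : ℝ) / (2 ^ a : ℕ))), Q a jj T) := by
        refine pr_mono fun T _ => ?_
        rintro ⟨a, jj, N, h1, h2, h3, h4, h5, h6, h7⟩
        exact ⟨a, Finset.mem_Ico.2 ⟨h1, h2⟩, jj,
          Finset.mem_filter.2 ⟨Finset.mem_range.2 h3, h4⟩, N, h5, h6, h7⟩
    _ ≤ ∑ a ∈ Finset.Ico (2 ^ i) (2 * 2 ^ i), pr S (fun T => ∃ jj ∈ (Finset.range (2 ^ a)).filter
          (fun j : ℕ => Y ≤ DD (2 ^ a) ((j : ℝ) / (2 ^ a : ℕ))), Q a jj T) := pr_exists _ _ _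
    _ ≤ ∑ a ∈ Finset.Ico (2 ^ i) (2 * 2 ^ i), 600 / ((2 : ℝ) ^ i) ^ 2 := by
        refine Finset.sum_le_sum fun a ha => ?_
        obtain ⟨ha1, ha2⟩ := Finset.mem_Ico.1 ha
        have hN1 : 1 ≤ 2 ^ a := Nat.one_le_two_pow
        refine (pr_exists _ _ _).trans ?_
        have hterm : ∀ jj ∈ (Finset.range (2 ^ a)).filter
            (fun j : ℕ => Y ≤ DD (2 ^ a) ((j : ℝ) / (2 ^ a : ℕ))),
            pr S (Q a jj) ≤ 4 * (DD (2 ^ a) ((jj : ℝ) / (2 ^ a : ℕ))) ^ (-(17 / 8) : ℝ) := by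
          intro jj hjj
          have hYj := (Finset.mem_filter.1 hjj).2
          have hle : DD (2 ^ a) ((jj : ℝ) / (2 ^ a : ℕ)) ≤ (2 : ℝ) ^ a := by
            have := DD_le (2 ^ a) hN1 jj
            refine this.trans (le_of_eq ?_)
            push_cast
            rfl
          exact hi0 i hi a ha1 ha2 _ _ (DD_far (2 ^ a) hN1 jj) hYj hle
        refine (Finset.sum_le_sum hterm).trans ?_
        rw [← Finset.mul_sum]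
        have hsum := DD_sum2 (2 ^ a) hN1 Y hY1
        calc 4 * ∑ jj ∈ (Finset.range (2 ^ a)).filter
              (fun j : ℕ => Y ≤ DD (2 ^ a) ((j : ℝ) / (2 ^ a : ℕ))),
              (DD (2 ^ a) ((jj : ℝ) / (2 ^ a : ℕ))) ^ (-(17 / 8) : ℝ)
            ≤ 4 * (150 * Y ^ (-(1 / 8) : ℝ)) := by
              refine mul_le_mul_of_nonneg_left hsum (by norm_num)
          _ ≤ 4 * (150 * (1 / ((2 : ℝ) ^ i) ^ 2)) := by gcongr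
          _ = 600 / ((2 : ℝ) ^ i) ^ 2 := by ring
    _ = 600 / (2 : ℝ) ^ i := by
        rw [Finset.sum_const, Nat.card_Ico, nsmul_eq_mul]
        have : 2 * 2 ^ i - 2 ^ i = 2 ^ i := by omega
        rw [this]
        push_cast
        field_simp

end Pool.Agent.Helper5.RS
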