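import Pool.Agent.Helper5.RS.Defs

/-!
# Block RS-F1: averages over products, restriction to the primes that matter

`av_union`: induction on `S2` with `av_insert` (the average over `insert q S` is the mean of the averages of `F T` and `F (insert q T)`), or directly:
`T ↦ (T ∩ S1, T ∩ S2)` is a bijection from the subsets of `S1 ∪ S2` to the pairs of subsets, `2 ^ (S1 ∪ S2).card = 2 ^ S1.card * 2 ^ S2.card`.
`av_restrict`: `S' = S ∪ (S' \ S)`, `av_union`, the inner average is constant (`av_congr`, `av_const`): for `T1 ⊆ S`, `T2 ⊆ S' \ S`: `(T1 ∪ T2) ∩ S = T1`.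
`pr_restrict`: `pr S P = av S (fun T => if P T then 1 else 0)` (by definition, with `Classical` decidability) and `av_restrict`.
`rf_inter`: `rf T n` depends only on `sg T p`, `p ∈ n.primeFactors`. `SN_inter`: all primes of `n ≤ N` are in `PP N` (`primeFactors_subset_PP`).
-/

set_option autoImplicit false

namespace Pool.Agent.Helper5.RS

open Finset Pool.Agent.Helper5.RM

theorem av_union {S1 S2 : Finset ℕ} (h : Disjoint S1 S2) (F : Finset ℕ → ℝ) :
    av (S1 ∪ S2) F = av S1 (fun T1 => av S2 (fun T2 => F (T1 ∪ T2))) := by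
  classical
  induction S2 using Finset.induction_on generalizing F with
  | empty =>
    rw [Finset.union_empty]
    refine av_congr fun T _ => ?_
    rw [av_empty, Finset.union_empty]
  | insert q S hq ih =>
    have hd : Disjoint S1 S := Finset.disjoint_of_subset_right (Finset.subset_insert q S) h
    have hq1 : q ∉ S1 := fun hh => (Finset.disjoint_left.1 h hh) (Finset.mem_insert_self q S)
    have hq2 : q ∉ S1 ∪ S := by
      rw [Finset.mem_union]; tauto
    rw [Finset.union_insert, av_insert hq2, ih hd F, ih hd (fun T => F (insert q T))]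
    have h1 : ∀ T1 : Finset ℕ, av (insert q S) (fun T2 => F (T1 ∪ T2))
        = (1 / 2) * (av S (fun T2 => F (T1 ∪ T2)) + av S (fun T2 => F (insert q (T1 ∪ T2)))) := by
      intro T1
      rw [av_insert hq]
      have h2 : av S (fun T => F (T1 ∪ insert q T)) = av S (fun T2 => F (insert q (T1 ∪ T2))) := by
        refine av_congr fun T _ => ?_
        rw [Finset.union_insert]
      rw [h2]; ring
    simp_rw [h1]
    rw [av_mul_left, av_add]
    ring

theorem av_restrict {S S' : Finset ℕ} (h : S ⊆ S') (F : Finset ℕ → ℝ)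
    (hF : ∀ T ⊆ S', F T = F (T ∩ S)) : av S' F = av S F := by
  classical
  have h1 : S' = S ∪ (S' \ S) := (Finset.union_sdiff_of_subset h).symm
  have h2 : av S' F = av (S ∪ (S' \ S)) F := by rw [← h1]
  rw [h2, av_union Finset.disjoint_sdiff]
  refine av_congr fun T hT => ?_
  refine Eq.trans ?_ (av_const (S' \ S) (F T))
  refine av_congr fun T2 hT2 => ?_
  have h3 : T ∪ T2 ⊆ S' :=
    Finset.union_subset (hT.trans h) (hT2.trans Finset.sdiff_subset)
  rw [hF _ h3]
  congr 1
  ext x
  simp only [Finset.mem_inter, Finset.mem_union]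
  constructor
  · rintro ⟨hx | hx, hxS⟩
    · exact hx
    · exact absurd hxS (Finset.mem_sdiff.1 (hT2 hx)).2
  · intro hx
    exact ⟨Or.inl hx, hT hx⟩

theorem pr_restrict {S S' : Finset ℕ} (h : S ⊆ S') (P : Finset ℕ → Prop)
    (hP : ∀ T ⊆ S', (P T ↔ P (T ∩ S))) : pr S' P = pr S P := by
  classical
  unfold pr
  refine av_restrict h _ fun T hT => ?_
  by_cases h1 : P T
  · rw [if_pos h1, if_pos ((hP T hT).1 h1)]
  · rw [if_neg h1, if_neg (fun h2 => h1 ((hP T hT).2 h2))]

theorem rf_inter {S : Finset ℕ} (T : Finset ℕ) {n : ℕ} (h : n.primeFactors ⊆ S) :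
    rf (T ∩ S) n = rf T n := by
  unfold rf
  split_ifs with h1
  · unfold wal
    refine Finset.prod_congr rfl fun p hp => ?_
    unfold sg
    have hpS : p ∈ S := h hp
    by_cases h2 : p ∈ T
    · rw [if_pos (Finset.mem_inter.2 ⟨h2, hpS⟩), if_pos h2]
    · rw [if_neg (fun h3 => h2 (Finset.mem_inter.1 h3).1), if_neg h2]
  · rfl

theorem SN_inter (N : ℕ) (T : Finset ℕ) (x : ℝ) : SN N (T ∩ PP N) x = SN N T x := by
  unfold SN
  refine Finset.sum_congr rfl fun n hn => ?_
  rw [Finset.mem_Icc] at hn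
  have h1 : n.primeFactors ⊆ PP N := by
    intro p hp
    have hp1 : p.Prime := Nat.prime_of_mem_primeFactors hp
    have hp2 : p ≤ n := Nat.le_of_mem_primeFactors hp
    unfold PP
    rw [Finset.mem_filter, Finset.mem_Icc]
    exact ⟨⟨hp1.one_lt.le, hp2.trans hn.2⟩, hp1⟩
  rw [rf_inter T h1]

theorem pr_SN {N M : ℕ} (h : N ≤ M) (x c : ℝ) :
    pr (PP M) (fun T => c < ‖SN N T x‖) = pr (PP N) (fun T => c < ‖SN N T x‖) := by
  have h1 : PP N ⊆ PP M := by
    intro p hp
    unfold PP at hp ⊢
    rw [Finset.mem_filter, Finset.mem_Icc] at hp ⊢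
    exact ⟨⟨hp.1.1, hp.1.2.trans h⟩, hp.2⟩
  refine pr_restrict h1 _ fun T _ => ?_
  rw [SN_inter]

end Pool.Agent.Helper5.RS
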