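import Pool.Agent.Helper5.RS.Var
import Pool.Agent.Helper5.RS.Dvs

/-!
# Block RS-G2: Chebyshev for `VS`, union over `q` and `j`

`VS - E` with `E = 2 mQ R + 8π²/Rs ∑_s mQ (s (R/Rs))` is a weighted sum of the `VQ - mQ` with total weight `≤ w = 2 + 8π² ≤ 82`; by Cauchy-Schwarz `(VS - E)^2 ≤ w (2 (VQ - mQ)_R^2 + 8π²/Rs ∑_s (VQ - mQ)_s^2)`,
so `av (VS - E)^2 ≤ w^2 * max of the averages ≤ 82^2 * 4800 τ(q)^6 LL Y^4 Xi q (tj j)` (`var_VQ`; `s (R/Rs) ≤ R`). `E ≤ 82 LL Y ≤ v/2` (`mQ_le`). If `VS > v` then `(VS - E)^2 > v^2/4`; Markov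
(`markov`): probability `≤ 4 * 82^2 * 4800 τ(q)^6 LL Y^4 Xi q (tj j) / v^2`. Sum over `q ≤ Q`, `|j| ≤ J` (`pr_exists`): `Xi q (tj j) = τ(q) (4 + log tj) / (q tj)`; `div_pow_sum` with `k = 7` (`2^7 = 128`), `int_sum`.
`4 * 82^2 * 4800 ≤ 130000000`.
-/

set_option autoImplicit false

namespace Pool.Agent.Helper5.RS

open Finset Pool.Agent.Helper5.RM

private lemma cs11 (K a x : ℝ) (hK : 0 < K) : (2 * a + x) ^ 2 ≤ (2 + K) * (2 * a ^ 2 + x ^ 2 / K) := by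
  have h : 0 ≤ 2 * (x - K * a) ^ 2 / K := by positivity
  have e1 : (2 + K) * (2 * a ^ 2 + x ^ 2 / K) - (2 * a + x) ^ 2 = 2 * (x - K * a) ^ 2 / K := by
    field_simp
    ring
  linarith

private lemma pi11 : 8 * Real.pi ^ 2 ≤ 80 := by
  have h1 := Real.pi_lt_d2
  nlinarith [Real.pi_pos]

private lemma single11 (S : Finset ℕ) (z Y R Rs q J : ℕ) (v : ℝ) (hS : PP Y ⊆ S) (hY : 1 ≤ Y)
    (hR : 1 ≤ R) (hRs : 1 ≤ Rs) (hq : 1 ≤ q) (hJR : 2 * J * Y ≤ R) (hv : 164 * LL Y ≤ v) (j : ℤ)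
    (hj : |j| ≤ (J : ℤ)) :
    pr S (fun T => v < VS z Y R Rs q j T) ≤
      130000000 * LL Y ^ 4 / v ^ 2 *
        (((q.divisors.card : ℝ) ^ 7 / q) * ((4 + Real.log (tj j)) / tj j)) := by
  have hLY : 1 ≤ LL Y := by
    unfold LL
    have : 0 ≤ Real.log Y := Real.log_natCast_nonneg Y
    linarith
  have hv0 : 0 < v := by linarith
  have htj : 1 ≤ tj j := le_max_left _ _
  have hlt : 0 ≤ Real.log (tj j) := Real.log_nonneg htj
  have hXi : 0 ≤ Xi q (tj j) := by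
    unfold Xi
    positivity
  obtain ⟨V, hV⟩ : ∃ V : ℝ, V = 4800 * (q.divisors.card : ℝ) ^ 6 * LL Y ^ 4 * Xi q (tj j) := ⟨_, rfl⟩
  have hV0 : 0 ≤ V := by rw [hV]; positivity
  have hjR : 2 * |(j : ℝ)| * Y ≤ R := by
    have h1 : |(j : ℝ)| ≤ J := by exact_mod_cast hj
    have h2 : ((2 * J * Y : ℕ) : ℝ) ≤ R := by exact_mod_cast hJR
    push_cast at h2
    have h3 : (0 : ℝ) ≤ Y := Nat.cast_nonneg Y
    have h4 := mul_le_mul_of_nonneg_right h1 h3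
    linarith
  have hρ : ∀ s ∈ Finset.Ico 1 Rs, s * (R / Rs) ≤ R := by
    intro s hs
    have := (Finset.mem_Ico.mp hs).2
    calc s * (R / Rs) ≤ Rs * (R / Rs) := Nat.mul_le_mul_right _ this.le
      _ ≤ R := Nat.mul_div_le R Rs
  have hRs0 : (0 : ℝ) < Rs := by exact_mod_cast hRs
  obtain ⟨c, hc⟩ : ∃ c : ℝ, c = 8 * Real.pi ^ 2 / Rs := ⟨_, rfl⟩
  have hc0 : 0 ≤ c := by rw [hc]; positivity
  have hcn : c * ((Finset.Ico 1 Rs).card : ℝ) ≤ 80 := by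
    have h1 : ((Finset.Ico 1 Rs).card : ℝ) ≤ Rs := by
      rw [Nat.card_Ico]
      exact_mod_cast Nat.sub_le Rs 1
    calc c * ((Finset.Ico 1 Rs).card : ℝ) ≤ c * Rs := mul_le_mul_of_nonneg_left h1 hc0
      _ = 8 * Real.pi ^ 2 := by rw [hc]; field_simp
      _ ≤ 80 := pi11
  obtain ⟨E, hE⟩ : ∃ E : ℝ, E = 2 * mQ z Y R R +
      c * ∑ s ∈ Finset.Ico 1 Rs, mQ z Y R (s * (R / Rs)) := ⟨_, rfl⟩
  have hEle : E ≤ 82 * LL Y := by
    have h1 := (mQ_le z Y R R hY hR le_rfl).2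
    have h2 : ∑ s ∈ Finset.Ico 1 Rs, mQ z Y R (s * (R / Rs)) ≤
        ((Finset.Ico 1 Rs).card : ℝ) * LL Y := by
      rw [← nsmul_eq_mul]
      exact Finset.sum_le_card_nsmul _ _ _ fun s hs => (mQ_le z Y R _ hY hR (hρ s hs)).2
    have h3 := mul_le_mul_of_nonneg_left h2 hc0
    have h4 := mul_le_mul_of_nonneg_right hcn (by linarith : (0 : ℝ) ≤ LL Y)
    rw [hE]
    nlinarith
  have hpt : ∀ T : Finset ℕ, (VS z Y R Rs q j T - E) ^ 2 ≤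
      82 * (2 * (VQ z Y R q j R T - mQ z Y R R) ^ 2 +
        c * ∑ s ∈ Finset.Ico 1 Rs,
          (VQ z Y R q j (s * (R / Rs)) T - mQ z Y R (s * (R / Rs))) ^ 2) := by
    intro T
    obtain ⟨a, ha⟩ : ∃ a : ℝ, a = VQ z Y R q j R T - mQ z Y R R := ⟨_, rfl⟩
    obtain ⟨D, hD⟩ : ∃ D : ℕ → ℝ, D = fun s =>
      VQ z Y R q j (s * (R / Rs)) T - mQ z Y R (s * (R / Rs)) := ⟨_, rfl⟩
    have e1 : VS z Y R Rs q j T - E = 2 * a + c * ∑ s ∈ Finset.Ico 1 Rs, D s := by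
      rw [ha, hD, Finset.sum_sub_distrib, hE, VS, ← hc]
      ring
    have e2 : ∑ s ∈ Finset.Ico 1 Rs,
        (VQ z Y R q j (s * (R / Rs)) T - mQ z Y R (s * (R / Rs))) ^ 2 =
        ∑ s ∈ Finset.Ico 1 Rs, D s ^ 2 := by rw [hD]
    rw [e1, e2, ← ha]
    have h1 := cs11 80 a (c * ∑ s ∈ Finset.Ico 1 Rs, D s) (by norm_num)
    have h2 : (∑ s ∈ Finset.Ico 1 Rs, D s) ^ 2 ≤
        ((Finset.Ico 1 Rs).card : ℝ) * ∑ s ∈ Finset.Ico 1 Rs, D s ^ 2 := sq_sum_le_card_mul_sum_sq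
    have h3 : (0 : ℝ) ≤ ∑ s ∈ Finset.Ico 1 Rs, D s ^ 2 := Finset.sum_nonneg fun s _ => sq_nonneg _
    have h4 : (c * ∑ s ∈ Finset.Ico 1 Rs, D s) ^ 2 / 80 ≤
        c * ∑ s ∈ Finset.Ico 1 Rs, D s ^ 2 := by
      rw [div_le_iff₀ (by norm_num)]
      calc (c * ∑ s ∈ Finset.Ico 1 Rs, D s) ^ 2
          = c ^ 2 * (∑ s ∈ Finset.Ico 1 Rs, D s) ^ 2 := by ring
        _ ≤ c ^ 2 * (((Finset.Ico 1 Rs).card : ℝ) * ∑ s ∈ Finset.Ico 1 Rs, D s ^ 2) :=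
            mul_le_mul_of_nonneg_left h2 (sq_nonneg c)
        _ = (c * ((Finset.Ico 1 Rs).card : ℝ)) * (c * ∑ s ∈ Finset.Ico 1 Rs, D s ^ 2) := by ring
        _ ≤ 80 * (c * ∑ s ∈ Finset.Ico 1 Rs, D s ^ 2) :=
            mul_le_mul_of_nonneg_right hcn (mul_nonneg hc0 h3)
        _ = c * (∑ s ∈ Finset.Ico 1 Rs, D s ^ 2) * 80 := by ring
    linarith
  have hav : av S (fun T => (VS z Y R Rs q j T - E) ^ 2) ≤ 82 ^ 2 * V := by
    refine (av_mono fun T _ => hpt T).trans ?_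
    rw [av_mul_left, av_add, av_mul_left, av_mul_left, av_sum]
    have h1 := var_VQ S z Y R q j R hS hq hY hR le_rfl hjR
    rw [← hV] at h1
    have h2 : ∑ s ∈ Finset.Ico 1 Rs, av S (fun T =>
        (VQ z Y R q j (s * (R / Rs)) T - mQ z Y R (s * (R / Rs))) ^ 2) ≤
        ((Finset.Ico 1 Rs).card : ℝ) * V := by
      rw [← nsmul_eq_mul]
      refine Finset.sum_le_card_nsmul _ _ _ fun s hs => ?_
      have h3 := var_VQ S z Y R q j (s * (R / Rs)) hS hq hY hR (hρ s hs) hjR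
      rw [← hV] at h3
      exact h3
    have h3 := mul_le_mul_of_nonneg_left h2 hc0
    have h4 := mul_le_mul_of_nonneg_right hcn hV0
    nlinarith
  have hmk := markov (S := S) (F := fun T => (VS z Y R Rs q j T - E) ^ 2) (c := v ^ 2 / 4)
    (fun T _ => sq_nonneg _) (by positivity) hav
  refine (pr_mono ?_).trans (hmk.trans ?_)
  · intro T _ hT
    have h1 : v / 2 ≤ VS z Y R Rs q j T - E := by linarith
    have h2 : (v / 2) ^ 2 ≤ (VS z Y R Rs q j T - E) ^ 2 := pow_le_pow_left₀ (by linarith) h1 2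
    calc v ^ 2 / 4 = (v / 2) ^ 2 := by ring
      _ ≤ _ := h2
  · have hq0 : (0 : ℝ) < q := by exact_mod_cast hq
    have htj0 : (0 : ℝ) < tj j := by linarith
    have h5 : 82 ^ 2 * V / (v ^ 2 / 4) = 129100800 * LL Y ^ 4 / v ^ 2 *
        (((q.divisors.card : ℝ) ^ 7 / q) * ((4 + Real.log (tj j)) / tj j)) := by
      rw [hV, Xi]
      field_simp
      ring
    rw [h5]
    have h6 : (0 : ℝ) ≤ ((q.divisors.card : ℝ) ^ 7 / q) * ((4 + Real.log (tj j)) / tj j) := by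
      positivity
    refine mul_le_mul_of_nonneg_right ?_ h6
    have h7 : (0 : ℝ) ≤ LL Y ^ 4 := by positivity
    gcongr
    norm_num

theorem good_abs (S : Finset ℕ) (z Y R Rs Q J : ℕ) (v : ℝ) (hS : PP Y ⊆ S) (hY : 1 ≤ Y) (hR : 1 ≤ R)
    (hRs : 1 ≤ Rs) (hQ : 1 ≤ Q) (hJ : 1 ≤ J) (hJR : 2 * J * Y ≤ R) (hv : 164 * LL Y ≤ v) :
    pr S (fun T => ¬ Good z Y R Rs Q J v T) ≤
      130000000 * LL Y ^ 4 / v ^ 2 * LL Q ^ 128 * ((4 + Real.log J) * (1 + 2 * LL J)) := by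
  have hLY : 1 ≤ LL Y := by
    unfold LL
    have : 0 ≤ Real.log Y := Real.log_natCast_nonneg Y
    linarith
  have hv0 : 0 < v := by linarith
  have h1 : pr S (fun T => ¬ Good z Y R Rs Q J v T) ≤
      pr S (fun T => ∃ p ∈ Finset.Icc 1 Q ×ˢ Finset.Icc (-(J : ℤ)) J,
        v < VS z Y R Rs p.1 p.2 T) := by
    refine pr_mono fun T _ hT => ?_
    unfold Good at hT
    push Not at hT
    obtain ⟨q, hq1, hqQ, j, hj, hlt⟩ := hT
    refine ⟨(q, j), Finset.mem_product.mpr ⟨Finset.mem_Icc.mpr ⟨hq1, hqQ⟩, ?_⟩, hlt⟩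
    exact Finset.mem_Icc.mpr (abs_le.mp hj)
  refine h1.trans ((pr_exists S _ _).trans ?_)
  have h2 : ∀ p ∈ Finset.Icc 1 Q ×ˢ Finset.Icc (-(J : ℤ)) J,
      pr S (fun T => v < VS z Y R Rs p.1 p.2 T) ≤
      130000000 * LL Y ^ 4 / v ^ 2 *
        (((p.1.divisors.card : ℝ) ^ 7 / p.1) * ((4 + Real.log (tj p.2)) / tj p.2)) := by
    intro p hp
    obtain ⟨hp1, hp2⟩ := Finset.mem_product.mp hp
    exact single11 S z Y R Rs p.1 J v hS hY hR hRs (Finset.mem_Icc.mp hp1).1 hJR hv p.2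
      (abs_le.mpr (Finset.mem_Icc.mp hp2))
  refine (Finset.sum_le_sum h2).trans ?_
  rw [← Finset.mul_sum, Finset.sum_product]
  have h3 : ∑ q ∈ Finset.Icc 1 Q, ∑ j ∈ Finset.Icc (-(J : ℤ)) J,
      (((q.divisors.card : ℝ) ^ 7 / q) * ((4 + Real.log (tj j)) / tj j)) =
      (∑ q ∈ Finset.Icc 1 Q, (q.divisors.card : ℝ) ^ 7 / q) *
        ∑ j ∈ Finset.Icc (-(J : ℤ)) J, (4 + Real.log (tj j)) / tj j := by
    rw [Finset.sum_mul]
    exact Finset.sum_congr rfl fun q _ => (Finset.mul_sum _ _ _).symm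
  have h4 := div_pow_sum 7 Q hQ
  have h5 := int_sum J hJ
  have h6 : LL Q ^ (2 ^ 7) = LL Q ^ 128 := by norm_num
  rw [h6] at h4
  have h7 : 0 ≤ ∑ j ∈ Finset.Icc (-(J : ℤ)) J, (4 + Real.log (tj j)) / tj j := by
    refine Finset.sum_nonneg fun j _ => ?_
    have h8 : 1 ≤ tj j := le_max_left _ _
    have h9 := Real.log_nonneg h8
    positivity
  have h8 : (0 : ℝ) ≤ LL Q ^ 128 := by
    have : 0 ≤ LL Q := by
      unfold LL
      have : 0 ≤ Real.log Q := Real.log_natCast_nonneg Q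
      linarith
    positivity
  have h9 := mul_le_mul h4 h5 h7 h8
  have h10 : (0 : ℝ) ≤ 130000000 * LL Y ^ 4 / v ^ 2 := by positivity
  calc 130000000 * LL Y ^ 4 / v ^ 2 * _
      ≤ 130000000 * LL Y ^ 4 / v ^ 2 * (LL Q ^ 128 * ((4 + Real.log J) * (1 + 2 * LL J))) := by
        refine mul_le_mul_of_nonneg_left ?_ h10
        exact h3.le.trans h9
    _ = _ := by ring

end Pool.Agent.Helper5.RS
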