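import Pool.Agent.Helper5.RS.Defs

/-!
# Block RS-V6: the sum over one variable, and one cell

`gsum`: `gcd (q, h)` is one of the `d` with `d ∣ q`, `d ∣ h`; so the sum is at most `∑_{d ∣ q} (d/q) ∑_{k ≤ 2H/d} min (1/H) (1/(τ d k))`, and the inner sum is at most `(1/(τ d)) (4 + log τ)`:
if `A = H/(τ d) ≥ 1`, the terms `k ≤ A` give at most `A / H = 1/(τ d)`, the terms `A < k ≤ 2H/d` at most `(1/(τ d)) log ((2H/d)/⌊A⌋) ≤ (1/(τ d)) log (4 τ)` (`⌊A⌋ ≥ A/2`, `(2H/d)/A = 2τ`);
if `A < 1`: `∑_{k ≤ 2H/d} 1/(τ d k) ≤ (1/(τ d)) (1 + log (2H/d)) ≤ (1/(τ d)) (1 + log (2τ))` (the sum is empty if `2H/d < 1`).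

`cell`: group the pairs `(s, u)` by `h = r s - u v`, `1 ≤ h < r s < 2 r S`. For given `h`: `u v ≡ -h mod r` and `v` is invertible mod `r`, so `u` is in one residue class mod `r`: at most
`1 + U/r` values in `[U, 2U)`, and `s` is determined by `u`. The term is at most `gcd (q, h)/q * min (1/(r S)) (1/(τ h))` (`s ≥ S`). Now `gsum` with `H = r S`.
-/

set_option autoImplicit false

namespace Pool.Agent.Helper5.RS

open Finset Pool.Agent.Helper5.RM

private theorem inner52 {H a τ : ℝ} (n : ℕ) (hH : 0 < H) (ha : 0 < a) (hτ : 1 ≤ τ)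
    (hn : (n : ℝ) * a ≤ 2 * H * τ) :
    ∑ k ∈ Finset.Icc 1 n, min (1 / H) (1 / (a * k)) ≤ (4 + Real.log τ) / a := by
  have hlτ : 0 ≤ Real.log τ := Real.log_nonneg hτ
  have h0 : ∀ m : ℕ, ∑ k ∈ Finset.Icc 1 m, min (1 / H) (1 / (a * k)) ≤ m / H := by
    intro m
    calc ∑ k ∈ Finset.Icc 1 m, min (1 / H) (1 / (a * k)) ≤ ∑ _k ∈ Finset.Icc 1 m, 1 / H :=
          Finset.sum_le_sum fun k _ => min_le_left _ _
      _ = m / H := by
          rw [Finset.sum_const, Nat.card_Icc, nsmul_eq_mul]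
          simp [div_eq_mul_inv]
  have h1 : ∀ m : ℕ, H ≤ a * m →
      a * ∑ k ∈ Finset.Icc 1 m, min (1 / H) (1 / (a * k)) ≤ 2 + Real.log (a * m / H) := by
    intro m
    induction m with
    | zero =>
      intro h
      simp at h
      linarith
    | succ m ih =>
      intro h
      rw [Finset.sum_Icc_succ_top (by omega), mul_add]
      have hm0 : (0 : ℝ) < ((m + 1 : ℕ) : ℝ) := by positivity
      have h2 : a * min (1 / H) (1 / (a * ((m + 1 : ℕ) : ℝ))) ≤ 1 / ((m + 1 : ℕ) : ℝ) := by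
        calc a * min (1 / H) (1 / (a * ((m + 1 : ℕ) : ℝ)))
            ≤ a * (1 / (a * ((m + 1 : ℕ) : ℝ))) :=
              mul_le_mul_of_nonneg_left (min_le_right _ _) ha.le
          _ = 1 / ((m + 1 : ℕ) : ℝ) := by field_simp
      by_cases hm : H ≤ a * m
      · have h3 := ih hm
        have hm1 : (0 : ℝ) < m := by
          by_contra hc
          have : a * m ≤ 0 := mul_nonpos_of_nonneg_of_nonpos ha.le (not_lt.1 hc)
          linarith
        have h4 : Real.log (a * ((m + 1 : ℕ) : ℝ) / H) =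
            Real.log (a * m / H) + Real.log (((m + 1 : ℕ) : ℝ) / m) := by
          rw [← Real.log_mul (by positivity) (by positivity)]
          congr 1
          field_simp
        have h5 : 1 / ((m + 1 : ℕ) : ℝ) ≤ Real.log (((m + 1 : ℕ) : ℝ) / m) := by
          have h6 := Real.one_sub_inv_le_log_of_pos (x := ((m + 1 : ℕ) : ℝ) / m) (by positivity)
          have h7 : 1 - (((m + 1 : ℕ) : ℝ) / m)⁻¹ = 1 / ((m + 1 : ℕ) : ℝ) := by
            rw [inv_div]
            push_cast
            field_simp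
            ring
          rw [h7] at h6
          exact h6
        linarith
      · rw [not_le] at hm
        have h3 : a * ∑ k ∈ Finset.Icc 1 m, min (1 / H) (1 / (a * k)) ≤ 1 := by
          calc a * ∑ k ∈ Finset.Icc 1 m, min (1 / H) (1 / (a * k)) ≤ a * (m / H) :=
                mul_le_mul_of_nonneg_left (h0 m) ha.le
            _ = a * m / H := by ring
            _ ≤ 1 := by
              rw [div_le_one hH]
              exact hm.le
        have h4 : 1 / ((m + 1 : ℕ) : ℝ) ≤ 1 := by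
          rw [div_le_one hm0]
          push_cast
          have : (0 : ℝ) ≤ m := Nat.cast_nonneg m
          linarith
        have h5 : 0 ≤ Real.log (a * ((m + 1 : ℕ) : ℝ) / H) := by
          apply Real.log_nonneg
          rw [le_div_iff₀ hH, one_mul]
          exact h
        linarith
  rw [le_div_iff₀ ha, mul_comm]
  by_cases hm : H ≤ a * n
  · have h2 := h1 n hm
    have h3 : Real.log (a * n / H) ≤ Real.log (2 * τ) := by
      apply Real.log_le_log
      · apply div_pos _ hH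
        linarith
      · rw [div_le_iff₀ hH]
        nlinarith
    have h4 : Real.log (2 * τ) = Real.log 2 + Real.log τ :=
      Real.log_mul (by norm_num) (by linarith)
    have h5 := Real.log_two_lt_d9
    linarith
  · rw [not_le] at hm
    have h3 : a * ∑ k ∈ Finset.Icc 1 n, min (1 / H) (1 / (a * k)) ≤ 1 := by
      calc a * ∑ k ∈ Finset.Icc 1 n, min (1 / H) (1 / (a * k)) ≤ a * (n / H) :=
            mul_le_mul_of_nonneg_left (h0 n) ha.le
        _ = a * n / H := by ring
        _ ≤ 1 := by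
          rw [div_le_one hH]
          exact hm.le
    linarith

theorem gsum (q H : ℕ) (τ : ℝ) (hq : 1 ≤ q) (hH : 1 ≤ H) (hτ : 1 ≤ τ) :
    ∑ h ∈ Finset.Icc 1 (2 * H), (Nat.gcd q h : ℝ) / q * min (1 / (H : ℝ)) (1 / (τ * h)) ≤ Xi q τ := by
  have hq0 : (0 : ℝ) < q := by exact_mod_cast hq
  have hH0 : (0 : ℝ) < H := by exact_mod_cast hH
  have hτ0 : (0 : ℝ) < τ := by linarith
  have hf0 : ∀ h : ℕ, 0 ≤ min (1 / (H : ℝ)) (1 / (τ * h)) := fun h => by positivity
  -- the gcd is one of the divisors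
  have h1 : ∀ h ∈ Finset.Icc 1 (2 * H), (Nat.gcd q h : ℝ) / q * min (1 / (H : ℝ)) (1 / (τ * h)) ≤
      ∑ d ∈ q.divisors, if d ∣ h then (d : ℝ) / q * min (1 / (H : ℝ)) (1 / (τ * h)) else 0 := by
    intro h hh
    have hd : Nat.gcd q h ∈ q.divisors := Nat.mem_divisors.2 ⟨Nat.gcd_dvd_left q h, by omega⟩
    have h2 := Finset.single_le_sum (s := q.divisors)
      (f := fun d : ℕ => if d ∣ h then (d : ℝ) / q * min (1 / (H : ℝ)) (1 / (τ * h)) else 0)
      (fun d _ => by
        split_ifs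
        · exact mul_nonneg (by positivity) (hf0 h)
        · exact le_rfl) hd
    simp only [Nat.gcd_dvd_right, if_true] at h2
    exact h2
  refine (Finset.sum_le_sum h1).trans ?_
  rw [Finset.sum_comm]
  -- one divisor
  have h3 : ∀ d ∈ q.divisors,
      (∑ h ∈ Finset.Icc 1 (2 * H),
        if d ∣ h then (d : ℝ) / q * min (1 / (H : ℝ)) (1 / (τ * h)) else 0) ≤
      (4 + Real.log τ) / (q * τ) := by
    intro d hd
    have hd1 : 1 ≤ d := Nat.pos_of_mem_divisors hd
    have hd0 : (0 : ℝ) < d := by exact_mod_cast hd1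
    have h4 : (∑ h ∈ Finset.Icc 1 (2 * H),
        if d ∣ h then (d : ℝ) / q * min (1 / (H : ℝ)) (1 / (τ * h)) else 0) =
        ∑ k ∈ Finset.Icc 1 (2 * H / d), (d : ℝ) / q * min (1 / (H : ℝ)) (1 / (τ * d * k)) := by
      rw [← Finset.sum_filter]
      refine Finset.sum_bij' (fun h _ => h / d) (fun k _ => d * k) ?_ ?_ ?_ ?_ ?_
      · intro h hh
        rw [Finset.mem_filter, Finset.mem_Icc] at hh
        obtain ⟨⟨ha, hb⟩, k, rfl⟩ := hh
        rw [Nat.mul_div_cancel_left _ hd1, Finset.mem_Icc]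
        refine ⟨Nat.pos_of_ne_zero fun hk => ?_, ?_⟩
        · rw [hk, mul_zero] at ha
          omega
        · rw [Nat.le_div_iff_mul_le hd1, mul_comm]
          exact hb
      · intro k hk
        rw [Finset.mem_Icc] at hk
        rw [Finset.mem_filter, Finset.mem_Icc]
        refine ⟨⟨Nat.mul_pos hd1 hk.1, ?_⟩, dvd_mul_right d k⟩
        have h5 := (Nat.le_div_iff_mul_le hd1).1 hk.2
        rw [mul_comm]
        exact h5
      · intro h hh
        rw [Finset.mem_filter] at hh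
        exact Nat.mul_div_cancel' hh.2
      · intro k hk
        exact Nat.mul_div_cancel_left _ hd1
      · intro h hh
        rw [Finset.mem_filter] at hh
        obtain ⟨_, k, rfl⟩ := hh
        rw [Nat.mul_div_cancel_left _ hd1]
        push_cast
        rw [mul_assoc τ]
    rw [h4, ← Finset.mul_sum]
    have h5 : ((2 * H / d : ℕ) : ℝ) * (τ * d) ≤ 2 * H * τ := by
      have h6 : ((2 * H / d : ℕ) : ℝ) ≤ ((2 * H : ℕ) : ℝ) / d := Nat.cast_div_le
      have h7 : ((2 * H / d : ℕ) : ℝ) * d ≤ 2 * H := by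
        rw [le_div_iff₀ hd0] at h6
        push_cast at h6
        exact h6
      calc ((2 * H / d : ℕ) : ℝ) * (τ * d) = ((2 * H / d : ℕ) : ℝ) * d * τ := by ring
        _ ≤ 2 * H * τ := mul_le_mul_of_nonneg_right h7 hτ0.le
    have h8 := inner52 (H := (H : ℝ)) (a := τ * d) (τ := τ) (2 * H / d) hH0 (by positivity) hτ h5
    calc (d : ℝ) / q * ∑ k ∈ Finset.Icc 1 (2 * H / d), min (1 / (H : ℝ)) (1 / (τ * d * k))
        ≤ (d : ℝ) / q * ((4 + Real.log τ) / (τ * d)) :=
          mul_le_mul_of_nonneg_left h8 (by positivity)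
      _ = (4 + Real.log τ) / (q * τ) := by
          field_simp
  refine (Finset.sum_le_sum h3).trans ?_
  rw [Finset.sum_const, nsmul_eq_mul]
  unfold Xi
  rw [mul_div_assoc]

theorem cell (q r v S U : ℕ) (τ : ℝ) (hq : 1 ≤ q) (hr : 1 ≤ r) (hv : 1 ≤ v) (hc : Nat.Coprime r v)
    (hS : 1 ≤ S) (hU : 1 ≤ U) (hτ : 1 ≤ τ) :
    ∑ s ∈ Finset.Ico S (2 * S), ∑ u ∈ (Finset.Ico U (2 * U)).filter (fun u => u * v < r * s),
      (Nat.gcd q (r * s - u * v) : ℝ) / q *
        min (1 / ((r * s : ℕ) : ℝ)) (1 / (τ * ((r * s - u * v : ℕ) : ℝ))) ≤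
      (1 + (U : ℝ) / r) * Xi q τ := by
  classical
  have hr0 : (0 : ℝ) < r := by exact_mod_cast hr
  have hS0 : (0 : ℝ) < S := by exact_mod_cast hS
  have hτ0 : (0 : ℝ) < τ := by linarith
  -- pairs
  set Pr : Finset (ℕ × ℕ) := ((Finset.Ico S (2 * S)) ×ˢ (Finset.Ico U (2 * U))).filter
    (fun p => p.2 * v < r * p.1) with hPr
  set G : ℕ → ℝ := fun h => (Nat.gcd q h : ℝ) / q * min (1 / ((r * S : ℕ) : ℝ)) (1 / (τ * h)) with hG
  have hG0 : ∀ h, 0 ≤ G h := by
    intro h
    simp only [hG]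
    positivity
  have h1 : ∑ s ∈ Finset.Ico S (2 * S), ∑ u ∈ (Finset.Ico U (2 * U)).filter (fun u => u * v < r * s),
      (Nat.gcd q (r * s - u * v) : ℝ) / q *
        min (1 / ((r * s : ℕ) : ℝ)) (1 / (τ * ((r * s - u * v : ℕ) : ℝ))) =
      ∑ p ∈ Pr, (Nat.gcd q (r * p.1 - p.2 * v) : ℝ) / q *
        min (1 / ((r * p.1 : ℕ) : ℝ)) (1 / (τ * ((r * p.1 - p.2 * v : ℕ) : ℝ))) := by
    rw [hPr, Finset.sum_filter, Finset.sum_product]
    refine Finset.sum_congr rfl fun s _ => ?_
    rw [Finset.sum_filter]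
  have h2 : ∀ p ∈ Pr, (Nat.gcd q (r * p.1 - p.2 * v) : ℝ) / q *
        min (1 / ((r * p.1 : ℕ) : ℝ)) (1 / (τ * ((r * p.1 - p.2 * v : ℕ) : ℝ))) ≤
      G (r * p.1 - p.2 * v) := by
    intro p hp
    rw [hPr, Finset.mem_filter, Finset.mem_product, Finset.mem_Ico] at hp
    refine mul_le_mul_of_nonneg_left ?_ (by positivity)
    refine min_le_min ?_ le_rfl
    apply one_div_le_one_div_of_le
    · exact_mod_cast Nat.mul_pos hr hS
    · exact_mod_cast Nat.mul_le_mul_left r hp.1.1.1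
  have hmaps : ∀ p ∈ Pr, r * p.1 - p.2 * v ∈ Finset.Icc 1 (2 * (r * S)) := by
    intro p hp
    rw [hPr, Finset.mem_filter, Finset.mem_product, Finset.mem_Ico] at hp
    rw [Finset.mem_Icc]
    have h3 : r * p.1 ≤ r * (2 * S) := Nat.mul_le_mul_left r hp.1.1.2.le
    have h4 : r * (2 * S) = 2 * (r * S) := by ring
    have h5 := hp.2
    omega
  have hfib : ∀ h ∈ Finset.Icc 1 (2 * (r * S)),
      (((Pr.filter fun p => r * p.1 - p.2 * v = h).card : ℕ) : ℝ) ≤ 1 + (U : ℝ) / r := by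
    intro h hh
    rcases (Pr.filter fun p => r * p.1 - p.2 * v = h).eq_empty_or_nonempty with he | ⟨p0, hp0⟩
    · rw [he, Finset.card_empty]
      have : (0 : ℝ) ≤ (U : ℝ) / r := by positivity
      push_cast
      linarith
    · have hmem : ∀ p ∈ Pr.filter (fun p => r * p.1 - p.2 * v = h),
          U ≤ p.2 ∧ p.2 < 2 * U ∧ r * p.1 = h + p.2 * v := by
        intro p hp
        rw [Finset.mem_filter, hPr, Finset.mem_filter, Finset.mem_product, Finset.mem_Ico,
          Finset.mem_Ico] at hp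
        have h5 := hp.1.2
        have h6 := hp.2
        refine ⟨hp.1.1.2.1, hp.1.1.2.2, by omega⟩
      have hcard : (Pr.filter fun p => r * p.1 - p.2 * v = h).card ≤
          ((Finset.Ico U (2 * U)).filter (fun u => u ≡ p0.2 [MOD r])).card := by
        refine Finset.card_le_card_of_injOn (fun p => p.2) ?_ ?_
        · intro p hp
          rw [Finset.mem_coe] at hp
          have hp1 := hmem p hp
          have hp2 := hmem p0 hp0
          rw [Finset.mem_coe, Finset.mem_filter, Finset.mem_Ico]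
          refine ⟨⟨hp1.1, hp1.2.1⟩, ?_⟩
          have h7 : (r : ℤ) * p.1 = h + p.2 * v := by exact_mod_cast hp1.2.2
          have h8 : (r : ℤ) * p0.1 = h + p0.2 * v := by exact_mod_cast hp2.2.2
          have h9 : (r : ℤ) ∣ ((p0.2 : ℤ) - p.2) * v := by
            refine ⟨(p0.1 : ℤ) - p.1, ?_⟩
            linear_combination h7 - h8
          have h10 : IsCoprime (r : ℤ) (v : ℤ) := Nat.isCoprime_iff_coprime.2 hc
          have h11 : (r : ℤ) ∣ ((p0.2 : ℤ) - p.2) := h10.dvd_of_dvd_mul_right h9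
          exact (Nat.modEq_iff_dvd).2 h11
        · intro p hp p' hp' hpp
          rw [Finset.mem_coe] at hp hp'
          have hp1 := hmem p hp
          have hp2 := hmem p' hp'
          simp only at hpp
          have h7 : r * p.1 = r * p'.1 := by
            rw [hp1.2.2, hp2.2.2, hpp]
          exact Prod.ext (Nat.eq_of_mul_eq_mul_left hr h7) hpp
      have h12 := Nat.Ico_filter_modEq_card U (2 * U) hr p0.2
      have h13 : (((Finset.Ico U (2 * U)).filter (fun u => u ≡ p0.2 [MOD r])).card : ℚ) ≤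
          1 + (U : ℚ) / r := by
        have hrq : (0 : ℚ) < r := by exact_mod_cast hr
        have h14 : (((Finset.Ico U (2 * U)).filter (fun u => u ≡ p0.2 [MOD r])).card : ℚ) =
            ((max (⌈(((2 * U : ℕ) : ℚ) - p0.2) / (r : ℚ)⌉ - ⌈((U : ℚ) - p0.2) / (r : ℚ)⌉) 0 : ℤ) : ℚ) := by
          rw [← h12]
          push_cast
          rfl
        rw [h14]
        push_cast
        refine max_le ?_ (by positivity)
        have h15 := Int.ceil_lt_add_one ((2 * (U : ℚ) - p0.2) / (r : ℚ))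
        have h16 := Int.le_ceil (((U : ℚ) - p0.2) / (r : ℚ))
        have h17 : (2 * (U : ℚ) - p0.2) / (r : ℚ) - ((U : ℚ) - p0.2) / (r : ℚ) = (U : ℚ) / r := by
          ring
        linarith
      have h18 : (((Finset.Ico U (2 * U)).filter (fun u => u ≡ p0.2 [MOD r])).card : ℝ) ≤
          1 + (U : ℝ) / r := by
        have h19 := (Rat.cast_le (K := ℝ)).2 h13
        push_cast at h19
        exact h19
      exact le_trans (by exact_mod_cast hcard) h18
  rw [h1]
  calc ∑ p ∈ Pr, (Nat.gcd q (r * p.1 - p.2 * v) : ℝ) / q *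
        min (1 / ((r * p.1 : ℕ) : ℝ)) (1 / (τ * ((r * p.1 - p.2 * v : ℕ) : ℝ)))
      ≤ ∑ p ∈ Pr, G (r * p.1 - p.2 * v) := Finset.sum_le_sum h2
    _ = ∑ h ∈ Finset.Icc 1 (2 * (r * S)), ∑ p ∈ Pr with r * p.1 - p.2 * v = h, G h :=
        (Finset.sum_fiberwise_of_maps_to' hmaps G).symm
    _ = ∑ h ∈ Finset.Icc 1 (2 * (r * S)),
          ((Pr.filter fun p => r * p.1 - p.2 * v = h).card : ℝ) * G h := by
        refine Finset.sum_congr rfl fun h _ => ?_
        rw [Finset.sum_const, nsmul_eq_mul]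
    _ ≤ ∑ h ∈ Finset.Icc 1 (2 * (r * S)), (1 + (U : ℝ) / r) * G h :=
        Finset.sum_le_sum fun h hh => mul_le_mul_of_nonneg_right (hfib h hh) (hG0 h)
    _ = (1 + (U : ℝ) / r) * ∑ h ∈ Finset.Icc 1 (2 * (r * S)), G h := by
        rw [Finset.mul_sum]
    _ ≤ (1 + (U : ℝ) / r) * Xi q τ := by
        refine mul_le_mul_of_nonneg_left ?_ (by positivity)
        exact gsum q (r * S) τ hq (Nat.mul_pos hr hS) hτ

end Pool.Agent.Helper5.RS
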