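import Pool.Agent.Helper5.RS.Ram

/-!
# Block RS-V2: expansion of `VQ`

`kap` is the coefficient of `rf T m * rf T n` in `VQ`: expand `‖AQ‖^2 = AQ * conj AQ` (`rf T m` is real) and sum over `b` and `r`:
`kap m n = (∑_b e (b (m-n) / q)) (∑_{r ≤ R, m r ≤ ρ, n r ≤ ρ} e (j (m-n) r / R)) / (φ(q) R)`.
`VQ_expand`: diagonal `m = n`: `rf T m * rf T m = 1` (squarefree), `∑_b 1 = φ(q)`, the number of `1 ≤ r ≤ R` with `m r ≤ ρ` is `ρ / m` (`ρ ≤ R`); this is `mQ`.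
`kap_le`: first factor: `ramanujan_le` with `h = m - n`. Second factor: `r` runs from `1` to `ρ / max m n ≤ R / max m n`, so it is at most `R / max m n`; if `j ≠ 0`, it is at most
`1 / (2 nd (j (m-n) / R))` (`geo`, `mn_le_of_nd`), and `nd (j (m-n)/R) = |j| |m-n| / R` since this is `≤ 1/2`, so at most `R / (2 |j| |m-n|) ≤ R / (tj j * dst m n)`; if `j = 0`, `tj j = 1` and
`1 / dst m n ≥ 1 / max m n`, so the minimum in `wq` is `1 / max m n`.
-/

set_option autoImplicit false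

namespace Pool.Agent.Helper5.RS

open Finset Pool.Agent.Helper5.RM

/-- the coefficients of `VQ` -/
noncomputable def kap (R q : ℕ) (j : ℤ) (ρ m n : ℕ) : ℂ :=
  (∑ b ∈ (Finset.range q).filter (fun b => Nat.Coprime b q), e ((b : ℝ) * ((m : ℝ) - n) / q)) *
    (∑ r ∈ (Finset.Icc 1 R).filter (fun r => m * r ≤ ρ ∧ n * r ≤ ρ), e ((j : ℝ) * ((m : ℝ) - n) * r / R)) /
    ((Nat.totient q : ℂ) * R)

private lemma kap_conj (x y : ℝ) : e x * (starRingEnd ℂ) (e y) = e (x - y) := by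
  rw [← e_neg, ← e_add, sub_eq_add_neg]

private lemma kap_sq (z Y R q : ℕ) (j : ℤ) (ρ : ℕ) (T : Finset ℕ) (b r : ℕ) :
    ((‖AQ z Y R q b j ρ r T‖ ^ 2 : ℝ) : ℂ) = ∑ m ∈ Sm z Y, ∑ n ∈ Sm z Y, (rf T m : ℂ) * (rf T n : ℂ) *
      (e ((b : ℝ) * ((m : ℝ) - n) / q) * if m * r ≤ ρ ∧ n * r ≤ ρ then e ((j : ℝ) * ((m : ℝ) - n) * r / R) else 0) := by
  have h1 : ((‖AQ z Y R q b j ρ r T‖ ^ 2 : ℝ) : ℂ) = AQ z Y R q b j ρ r T * (starRingEnd ℂ) (AQ z Y R q b j ρ r T) := by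
    rw [Complex.mul_conj, Complex.normSq_eq_norm_sq]
  have h2 : AQ z Y R q b j ρ r T = ∑ m ∈ Sm z Y, if m * r ≤ ρ then
      (rf T m : ℂ) * (e ((b : ℝ) * m / q) * e ((j : ℝ) * m * r / R)) else 0 := by
    unfold AQ
    rw [Finset.sum_filter]
  rw [h1, h2, map_sum, Finset.sum_mul]
  refine Finset.sum_congr rfl fun m _ => ?_
  rw [Finset.mul_sum]
  refine Finset.sum_congr rfl fun n _ => ?_
  by_cases hm : m * r ≤ ρ
  · by_cases hn : n * r ≤ ρ
    · rw [if_pos hm, if_pos hn, if_pos ⟨hm, hn⟩, map_mul, map_mul, Complex.conj_ofReal]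
      have a1 : e ((b : ℝ) * ((m : ℝ) - n) / q) = e ((b : ℝ) * m / q) * (starRingEnd ℂ) (e ((b : ℝ) * n / q)) := by
        rw [kap_conj]
        congr 1
        ring
      have a2 : e ((j : ℝ) * ((m : ℝ) - n) * r / R) = e ((j : ℝ) * m * r / R) * (starRingEnd ℂ) (e ((j : ℝ) * n * r / R)) := by
        rw [kap_conj]
        congr 1
        ring
      rw [a1, a2]
      ring
    · have h3 : ¬ (m * r ≤ ρ ∧ n * r ≤ ρ) := fun h => hn h.2
      rw [if_neg hn, if_neg h3, map_zero, mul_zero, mul_zero, mul_zero]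
  · have h3 : ¬ (m * r ≤ ρ ∧ n * r ≤ ρ) := fun h => hm h.1
    rw [if_neg hm, if_neg h3, zero_mul, mul_zero, mul_zero]

private lemma kap_full (z Y R q : ℕ) (j : ℤ) (ρ : ℕ) (T : Finset ℕ) :
    ((VQ z Y R q j ρ T : ℝ) : ℂ) = ∑ m ∈ Sm z Y, ∑ n ∈ Sm z Y, (rf T m : ℂ) * (rf T n : ℂ) * kap R q j ρ m n := by
  unfold VQ
  rw [Complex.ofReal_div, Complex.ofReal_sum]
  have h1 : ∀ b, ((∑ r ∈ Finset.Icc 1 R, ‖AQ z Y R q b j ρ r T‖ ^ 2 : ℝ) : ℂ) =
      ∑ m ∈ Sm z Y, ∑ n ∈ Sm z Y, (rf T m : ℂ) * (rf T n : ℂ) * (e ((b : ℝ) * ((m : ℝ) - n) / q) *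
        ∑ r ∈ (Finset.Icc 1 R).filter (fun r => m * r ≤ ρ ∧ n * r ≤ ρ), e ((j : ℝ) * ((m : ℝ) - n) * r / R)) := by
    intro b
    rw [Complex.ofReal_sum]
    simp only [kap_sq]
    rw [Finset.sum_comm]
    refine Finset.sum_congr rfl fun m _ => ?_
    rw [Finset.sum_comm]
    refine Finset.sum_congr rfl fun n _ => ?_
    rw [← Finset.mul_sum, ← Finset.mul_sum, Finset.sum_filter]
  simp only [h1]
  rw [Finset.sum_comm, Finset.sum_div]
  refine Finset.sum_congr rfl fun m _ => ?_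
  rw [Finset.sum_comm, Finset.sum_div]
  refine Finset.sum_congr rfl fun n _ => ?_
  rw [← Finset.mul_sum, ← Finset.sum_mul]
  unfold kap
  push_cast
  ring

private lemma kap_filter (R ρ m n : ℕ) (hρ : ρ ≤ R) (hm : 1 ≤ m) :
    (Finset.Icc 1 R).filter (fun r => m * r ≤ ρ ∧ n * r ≤ ρ) = Finset.Icc 1 (ρ / max m n) := by
  have hM : 0 < max m n := lt_of_lt_of_le hm (le_max_left _ _)
  ext r
  rw [Finset.mem_filter, Finset.mem_Icc, Finset.mem_Icc, Nat.le_div_iff_mul_le hM]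
  constructor
  · rintro ⟨⟨h1, _⟩, h3, h4⟩
    refine ⟨h1, ?_⟩
    rcases le_total m n with h | h
    · rw [max_eq_right h, mul_comm]; exact h4
    · rw [max_eq_left h, mul_comm]; exact h3
  · rintro ⟨h1, h2⟩
    have h3 : m * r ≤ ρ := le_trans (by rw [mul_comm]; exact Nat.mul_le_mul_left r (le_max_left m n)) h2
    have h4 : n * r ≤ ρ := le_trans (by rw [mul_comm]; exact Nat.mul_le_mul_left r (le_max_right m n)) h2
    have h5 : r ≤ m * r := Nat.le_mul_of_pos_left r hm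
    exact ⟨⟨h1, by omega⟩, h3, h4⟩

private lemma kap_diag (R q : ℕ) (j : ℤ) (ρ m : ℕ) (hq : 1 ≤ q) (hρ : ρ ≤ R) (hm : 1 ≤ m) :
    kap R q j ρ m m = ((ρ / m : ℕ) : ℂ) / R := by
  unfold kap
  rw [kap_filter R ρ m m hρ hm, max_self]
  have h1 : ∀ b : ℕ, e ((b : ℝ) * ((m : ℝ) - m) / q) = 1 := fun b => by
    rw [sub_self, mul_zero, zero_div, e_zero]
  have h2 : ∀ r : ℕ, e ((j : ℝ) * ((m : ℝ) - m) * r / R) = 1 := fun r => by
    rw [sub_self, mul_zero, zero_mul, zero_div, e_zero]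
  simp only [h1, h2, Finset.sum_const, nsmul_eq_mul, mul_one, Nat.card_Icc, Nat.add_sub_cancel]
  have h3 : ((Finset.range q).filter (fun b => Nat.Coprime b q)).card = Nat.totient q := by
    rw [Nat.totient_eq_card_coprime]
    congr 1
    ext b
    rw [Finset.mem_filter, Finset.mem_filter, Nat.coprime_comm]
  have hφ : (Nat.totient q : ℂ) ≠ 0 := by exact_mod_cast (Nat.totient_pos.2 hq).ne'
  rw [h3, mul_div_mul_left _ _ hφ]

theorem VQ_expand (z Y R q : ℕ) (j : ℤ) (ρ : ℕ) (T : Finset ℕ) (hq : 1 ≤ q) (hR : 1 ≤ R) (hρ : ρ ≤ R) :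
    ((VQ z Y R q j ρ T - mQ z Y R ρ : ℝ) : ℂ) =
      ∑ p ∈ (Sm z Y ×ˢ Sm z Y).filter (fun p => p.1 ≠ p.2),
        (rf T p.1 : ℂ) * (rf T p.2 : ℂ) * kap R q j ρ p.1 p.2 := by
  rw [Complex.ofReal_sub, kap_full]
  have h1 : ∀ p : ℕ × ℕ, p ∈ Sm z Y ×ˢ Sm z Y → True := fun _ _ => trivial
  have h2 : ∑ m ∈ Sm z Y, ∑ n ∈ Sm z Y, (rf T m : ℂ) * (rf T n : ℂ) * kap R q j ρ m n =
      ∑ p ∈ Sm z Y ×ˢ Sm z Y, (rf T p.1 : ℂ) * (rf T p.2 : ℂ) * kap R q j ρ p.1 p.2 :=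
    (Finset.sum_product (Sm z Y) (Sm z Y) fun p : ℕ × ℕ => (rf T p.1 : ℂ) * (rf T p.2 : ℂ) * kap R q j ρ p.1 p.2).symm
  rw [h2, ← Finset.sum_filter_add_sum_filter_not (Sm z Y ×ˢ Sm z Y) (fun p => p.1 ≠ p.2), add_sub_assoc]
  have h3 : ∑ p ∈ (Sm z Y ×ˢ Sm z Y).filter (fun p => ¬ p.1 ≠ p.2), (rf T p.1 : ℂ) * (rf T p.2 : ℂ) * kap R q j ρ p.1 p.2 =
      ((mQ z Y R ρ : ℝ) : ℂ) := by
    have h4 : (Sm z Y ×ˢ Sm z Y).filter (fun p => ¬ p.1 ≠ p.2) = (Sm z Y).image fun m => (m, m) := by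
      ext p
      rw [Finset.mem_filter, Finset.mem_product, Finset.mem_image]
      constructor
      · rintro ⟨⟨a1, _⟩, a3⟩
        rw [not_not] at a3
        exact ⟨p.1, a1, Prod.ext rfl a3⟩
      · rintro ⟨m, hm, rfl⟩
        exact ⟨⟨hm, hm⟩, not_not.2 rfl⟩
    rw [h4, Finset.sum_image fun a _ b _ hab => (Prod.ext_iff.1 hab).1]
    unfold mQ
    rw [Complex.ofReal_div, Complex.ofReal_sum, Finset.sum_div]
    refine Finset.sum_congr rfl fun m hm => ?_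
    unfold Sm at hm
    rw [Finset.mem_filter, Finset.mem_Icc] at hm
    rw [kap_diag R q j ρ m hq hρ hm.1.1]
    have h5 : (rf T m : ℂ) * (rf T m : ℂ) = 1 := by
      rw [← Complex.ofReal_mul, rf_mul_self hm.2.1, Complex.ofReal_one]
    dsimp only
    rw [h5, one_mul]
    push_cast
    rfl
  rw [h3, sub_self, add_zero]

private lemma kap_nd {x : ℝ} (hx : |x| ≤ 1 / 2) : |x| ≤ nd x := by
  unfold nd
  by_cases h : round x = 0
  · rw [h, Int.cast_zero, sub_zero]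
  · have h1 : (1 : ℝ) ≤ |((round x : ℤ) : ℝ)| := by exact_mod_cast Int.one_le_abs h
    have h2 : |((round x : ℤ) : ℝ)| ≤ |x - round x| + |x| := by
      have h3 : ((round x : ℤ) : ℝ) = -(x - round x) + x := by ring
      calc |((round x : ℤ) : ℝ)| = |-(x - round x) + x| := by rw [← h3]
        _ ≤ |-(x - round x)| + |x| := abs_add_le _ _
        _ = _ := by rw [abs_neg]
    linarith

theorem kap_le (Y R q : ℕ) (j : ℤ) (ρ m n : ℕ) (hq : 1 ≤ q) (hR : 1 ≤ R) (hρ : ρ ≤ R)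
    (hjR : 2 * |(j : ℝ)| * Y ≤ R) (hm : 1 ≤ m) (hmY : m ≤ Y) (hn : 1 ≤ n) (hnY : n ≤ Y) (hmn : m ≠ n) :
    ‖kap R q j ρ m n‖ ≤ (q.divisors.card : ℝ) ^ 2 * wq q (tj j) m n := by
  have hR0 : (0 : ℝ) < R := by exact_mod_cast hR
  have hφ0 : (0 : ℝ) < Nat.totient q := by exact_mod_cast Nat.totient_pos.2 hq
  set S1 : ℂ := ∑ b ∈ (Finset.range q).filter (fun b => Nat.Coprime b q), e ((b : ℝ) * ((m : ℝ) - n) / q) with hS1
  set S2 : ℂ := ∑ r ∈ (Finset.Icc 1 R).filter (fun r => m * r ≤ ρ ∧ n * r ≤ ρ), e ((j : ℝ) * ((m : ℝ) - n) * r / R) with hS2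
  have hk : ‖kap R q j ρ m n‖ = ‖S1‖ / Nat.totient q * (‖S2‖ / R) := by
    unfold kap
    rw [norm_div, norm_mul, norm_mul, Complex.norm_natCast, Complex.norm_natCast, ← hS1, ← hS2, mul_div_mul_comm]
  -- the first factor
  have hd : ((m : ℤ) - n).natAbs = dst m n := by
    unfold dst
    omega
  have hd1 : 1 ≤ dst m n := by
    unfold dst
    omega
  have hdR : |(m : ℝ) - n| = dst m n := by
    rw [← hd, Nat.cast_natAbs]
    push_cast
    rfl
  have h1 : ‖S1‖ / Nat.totient q ≤ (q.divisors.card : ℝ) ^ 2 * ((Nat.gcd q (dst m n) : ℝ) / q) := by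
    have a1 := ramanujan_le q hq ((m : ℤ) - n) (sub_ne_zero.2 (by exact_mod_cast hmn))
    rw [hd] at a1
    push_cast at a1
    exact a1
  -- the second factor
  have hM1 : 1 ≤ max m n := hm.trans (le_max_left _ _)
  have hM0 : (0 : ℝ) < ((max m n : ℕ) : ℝ) := by exact_mod_cast hM1
  have hd0 : (0 : ℝ) < (dst m n : ℝ) := by exact_mod_cast hd1
  have htj : 1 ≤ tj j := le_max_left _ _
  have h2 : ‖S2‖ / R ≤ min (1 / ((max m n : ℕ) : ℝ)) (1 / (tj j * dst m n)) := by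
    rw [hS2, kap_filter R ρ m n hρ hm]
    set K : ℕ := ρ / max m n with hK
    have hKR : (K : ℝ) ≤ R / ((max m n : ℕ) : ℝ) := by
      rw [le_div_iff₀ hM0]
      have a1 : K * max m n ≤ ρ := Nat.div_mul_le_self _ _
      exact_mod_cast a1.trans hρ
    set x : ℝ := (j : ℝ) * ((m : ℝ) - n) / R with hx
    have e1 : ∑ r ∈ Finset.Icc 1 K, e ((j : ℝ) * ((m : ℝ) - n) * r / R) = ∑ r ∈ Finset.Icc 1 K, e (r * x) := by
      refine Finset.sum_congr rfl fun r _ => ?_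
      congr 1
      rw [hx]
      ring
    rw [e1]
    have g1 := geo 1 K K x (Nat.cast_nonneg K) (by push_cast; linarith)
    have b1 : ‖∑ r ∈ Finset.Icc 1 K, e (r * x)‖ / R ≤ 1 / ((max m n : ℕ) : ℝ) := by
      rw [div_le_iff₀ hR0]
      refine (g1.trans (mn_le x)).trans (hKR.trans (le_of_eq ?_))
      ring
    refine le_min b1 ?_
    by_cases hj : j = 0
    · have t1 : tj j = 1 := by
        unfold tj
        rw [hj]
        simp
      rw [t1, one_mul]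
      refine b1.trans (one_div_le_one_div_of_le hd0 ?_)
      have : dst m n ≤ max m n := by
        unfold dst
        omega
      exact_mod_cast this
    · have hj1 : (1 : ℝ) ≤ |(j : ℝ)| := by exact_mod_cast Int.one_le_abs hj
      have t1 : tj j = |(j : ℝ)| := max_eq_right hj1
      have hxa : |x| = |(j : ℝ)| * dst m n / R := by
        rw [hx, abs_div, abs_mul, hdR, abs_of_pos hR0]
      have hdY : (dst m n : ℝ) ≤ Y := by
        have : dst m n ≤ Y := by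
          unfold dst
          omega
        exact_mod_cast this
      have hx2 : |x| ≤ 1 / 2 := by
        rw [hxa, div_le_iff₀ hR0]
        nlinarith [mul_le_mul_of_nonneg_left hdY (abs_nonneg (j : ℝ))]
      have hx0 : 0 < |x| := by rw [hxa]; positivity
      have g2 := mn_le_of_nd (M := (K : ℝ)) hx0 (kap_nd hx2)
      rw [div_le_iff₀ hR0, t1]
      refine (g1.trans g2).trans ?_
      rw [hxa, div_mul_eq_mul_div, one_mul]
      rw [div_le_div_iff₀ (by positivity) (by positivity)]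
      have a1 : R * (2 * (|(j : ℝ)| * (dst m n : ℝ) / R)) = 2 * (|(j : ℝ)| * dst m n) := by field_simp
      rw [a1]
      have a2 : 0 ≤ |(j : ℝ)| * (dst m n : ℝ) := by positivity
      linarith
  rw [hk]
  unfold wq
  calc ‖S1‖ / Nat.totient q * (‖S2‖ / R) ≤ ((q.divisors.card : ℝ) ^ 2 * ((Nat.gcd q (dst m n) : ℝ) / q)) *
        min (1 / ((max m n : ℕ) : ℝ)) (1 / (tj j * dst m n)) :=
      mul_le_mul h1 h2 (by positivity) (by positivity)
    _ = _ := by ring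

end Pool.Agent.Helper5.RS
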