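import Pool.Agent.Helper5.RS.ASS

/-!
# The sharp random model (assembly; to be moved to `Pool/Agent/Results/MP_b6b996_nt/RandomModel.lean`)

Let `ε p` (`p` prime) be independent random signs, `1` or `-1` with probability `1/2`, and
`f(n) = μ(n)^2 ∏_{p ∣ n} ε p`. For every `δ > 0`, almost surely
`|∑_{n ≤ N} f(n) e(n x)| ≤ C √N (log N)^(1/2 + δ)` for all `N ≥ 2` and all real `x`.
-/

set_option autoImplicit false

namespace Pool.Agent.Helper5.RS

open Finset MeasureTheory ProbabilityTheory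

/-- The function `μ(n)^2 ∏_{p ∣ n} s(p)` attached to the signs `s(p)` of the primes. -/
noncomputable def signed (s : Nat.Primes → ℝ) (n : ℕ) : ℝ :=
  if Squarefree n then ∏ p ∈ n.primeFactors.attach, s ⟨p, Nat.prime_of_mem_primeFactors p.2⟩ else 0

/-- The exponential sum `∑ f(n) e^{2 π i n x}` over `1 ≤ n ≤ N`. -/
noncomputable def F (f : ℕ → ℝ) (N : ℕ) (x : ℝ) : ℂ :=
  ∑ n ∈ Icc 1 N, (f n : ℂ) * Complex.exp (2 * Real.pi * Complex.I * n * x)

theorem result {Ω : Type*} [MeasurableSpace Ω] (P : Measure Ω) [IsProbabilityMeasure P]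
    (ε : Nat.Primes → Ω → ℝ) (hm : ∀ p, Measurable (ε p)) (hi : iIndepFun ε P)
    (h1 : ∀ p, P {ω | ε p ω = 1} = 1 / 2) (h2 : ∀ p, P {ω | ε p ω = -1} = 1 / 2) :
    ∀ δ : ℝ, 0 < δ → ∀ᵐ ω ∂P, ∃ C : ℝ, ∀ N : ℕ, 2 ≤ N → ∀ x : ℝ,
      ‖F (signed fun p => ε p ω) N x‖ ≤ C * Real.sqrt N * Real.log N ^ (1 / 2 + δ) := by
  intro δ hδ
  filter_upwards [almost_sure2 P ε hm hi h2 h1 δ hδ] with ω hω
  obtain ⟨C, hC⟩ := hω
  refine ⟨C, fun N hN x => ?_⟩
  have h := hC N hN x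
  have e2 : ∀ n : ℕ, signed (fun p => ε p ω) n =
      Pool.Agent.Helper5.RM.rs (Pool.Agent.Helper5.RM.ext ε) ω n := by
    intro n
    unfold signed Pool.Agent.Helper5.RM.rs
    split_ifs with hn
    · rw [← Finset.prod_attach n.primeFactors (fun p => Pool.Agent.Helper5.RM.ext ε p ω)]
      refine Finset.prod_congr rfl fun p _ => ?_
      unfold Pool.Agent.Helper5.RM.ext
      rw [dif_pos (Nat.prime_of_mem_primeFactors p.2)]
    · rfl
  have e1 : F (signed fun p => ε p ω) N x =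
      ∑ n ∈ Icc 1 N, (Pool.Agent.Helper5.RM.rs (Pool.Agent.Helper5.RM.ext ε) ω n : ℂ) *
        Pool.Agent.Helper5.RM.e (n * x) := by
    unfold F Pool.Agent.Helper5.RM.e
    refine Finset.sum_congr rfl fun n _ => ?_
    rw [e2]
    congr 2
    push_cast
    ring
  rw [e1]
  exact h

end Pool.Agent.Helper5.RS
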