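import Pool.Agent.Helper5.RS.Cond
import Pool.Agent.Helper5.RS.Dcp
import Pool.Agent.Helper5.RS.ErrT

/-!
# Block RS-N1: one point of small complexity, with all parameters

`S = PP M = S1 ∪ S2`, `S1 = PP z`, `S2 = (PP M).filter (z < ·)` (`z ≤ M`). `x = a/q + β`, `N β = j + θ`, `W = 2k - 1`. `SN_dcp`: `SN = Ss + Sr`, `Ss` the smooth part, `Sr = ∑_{l ∈ Ro z N} rf T l * Al z N x l T`.
If `c < ‖SN‖` then `c/2 ≤ ‖Ss‖` or `c/2 ≤ ‖Sr‖`. First event: `second_Sm` and Markov, probability `≤ 4 |Sm z N| / c^2`. The event `N < Er`: probability `≤ av Er / N` (`markov`, `Er ≥ 0`) and `err_total`.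
Remaining event: `G T := Good .. T ∧ Er .. T ≤ N` and `(c/2)^2 ≤ ‖Sr‖^2`. `G` depends only on `T ∩ PP z` (`Good_inter`, `Er_inter`), so does `Al` (`Al_inter`). If `G T`: by `comp`
`∑ W^(om l) ‖Al‖^2 ≤ 4 N S0 VS + 2 Er ≤ 4 N S0 v + 2 N =: w0` (`q ≤ Q`, `|j| ≤ J`). `cond_moment`: probability `≤ (4 w0 / c^2)^k`; `((W : ℕ) : ℝ) = 2 k - 1`.
The primes of `l ∈ Ro z N` are in `S2` (`l ≤ N ≤ M`).
-/

set_option autoImplicit false

namespace Pool.Agent.Helper5.RS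

open Finset Pool.Agent.Helper5.RM

/-- The error is nonnegative. -/
private theorem Er_nonneg45 (κ W z Y R Rs N q a : ℕ) (x : ℝ) (j : ℤ) (θ : ℝ) (T : Finset ℕ) :
    0 ≤ Er κ W z Y R Rs N q a x j θ T := by
  unfold Er
  refine Finset.sum_nonneg fun c _ => Finset.sum_nonneg fun l _ => ?_
  refine mul_nonneg (pow_nonneg (Nat.cast_nonneg _) _) (div_nonneg ?_ (Nat.cast_nonneg _))
  exact Finset.sum_nonneg fun r _ => sq_nonneg _

/-- The primes up to `M` split into those up to `z` and the others. -/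
private theorem PP_union45 {z M : ℕ} (hzM : z ≤ M) :
    PP z ∪ (PP M).filter (fun p => z < p) = PP M := by
  ext p
  rw [Finset.mem_union, Finset.mem_filter, mem_PP, mem_PP]
  constructor
  · rintro (h | h)
    · exact ⟨h.1, h.2.trans hzM⟩
    · exact h.1
  · intro h
    by_cases hp : p ≤ z
    · exact Or.inl ⟨h.1, hp⟩
    · exact Or.inr ⟨h, not_le.1 hp⟩

private theorem PP_disj45 (z M : ℕ) : Disjoint (PP z) ((PP M).filter (fun p => z < p)) := by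
  rw [Finset.disjoint_left]
  intro p hp hp'
  exact absurd (Finset.mem_filter.1 hp').2 (not_lt.2 (mem_PP.1 hp).2)

theorem near_abs (κ k z Y R Rs N M q a Q J : ℕ) (x β : ℝ) (j : ℤ) (θ S0 W1 v c : ℝ) (hk : 1 ≤ k)
    (hκ : 2 ^ κ ≤ z) (hzM : z ≤ M) (hN : 1 ≤ N) (hNM : N ≤ M) (hNY : N ≤ Y) (hR : 2 * N ≤ R) (hRs : 1 ≤ Rs) (hRR : Rs ∣ R)
    (hq : 1 ≤ q) (hqz : q ≤ z) (hqQ : q ≤ Q) (ha : Nat.Coprime a q) (hx : x = (a : ℝ) / q + β)
    (hβ : N * β = j + θ) (hθ0 : 0 ≤ θ) (hθ1 : θ ≤ 1) (hj : |j| ≤ (J : ℤ)) (hS0 : 0 ≤ S0) (hW0 : 0 ≤ W1)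
    (hv : 0 ≤ v) (hc : 0 < c)
    (hS : ∀ c ∈ Bk κ N, ∀ b : ℕ, Nat.Coprime b q →
      ∑ l ∈ (Ro z N).filter (fun l => l ∈ JB κ c ∧ l ≡ b [MOD q]), (((2 * k - 1 : ℕ) : ℕ) : ℝ) ^ om l ≤
        S0 * gp κ c / Nat.totient q)
    (hW1 : ∀ c ∈ Bk κ N, ∑ l ∈ (Ro z N).filter (fun l => l ∈ JB κ c), (((2 * k - 1 : ℕ) : ℕ) : ℝ) ^ om l ≤
      W1 * gp κ c) :
    pr (PP M) (fun T => Good z Y R Rs Q J v T ∧ c < ‖SN N T x‖) ≤
      4 * (Sm z N).card / c ^ 2 +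
      W1 * LL N * (2 / 2 ^ κ + 2 * (2 * Real.pi * |N * β| / 2 ^ κ + 2 * Real.pi / Rs) ^ 2) +
      (4 * (4 * N * S0 * v + 2 * N) / c ^ 2) ^ k := by
  classical
  have hW : (((2 * k - 1 : ℕ) : ℕ) : ℝ) = 2 * (k : ℝ) - 1 := by
    rw [Nat.cast_sub (by omega)]
    push_cast
    ring
  have hN0 : (0 : ℝ) < N := by exact_mod_cast hN
  have hc2 : 0 < c ^ 2 / 4 := by positivity
  have hPz : PP z ⊆ PP M := fun p hp => mem_PP.2 ⟨(mem_PP.1 hp).1, (mem_PP.1 hp).2.trans hzM⟩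
  -- the three events
  have h0 : pr (PP M) (fun T => Good z Y R Rs Q J v T ∧ c < ‖SN N T x‖) ≤
      pr (PP M) (fun T => c ^ 2 / 4 ≤ ‖∑ m ∈ Sm z N, (rf T m : ℂ) * e (m * x)‖ ^ 2) +
        pr (PP M) (fun T => (N : ℝ) ≤ Er κ (2 * k - 1) z Y R Rs N q a x j θ T ∨
          ((Good z Y R Rs Q J v T ∧ Er κ (2 * k - 1) z Y R Rs N q a x j θ T ≤ N) ∧
            c ^ 2 / 4 ≤ ‖∑ l ∈ Ro z N, (rf T l : ℂ) * Al z N x l T‖ ^ 2)) := by
    refine pr_le_add fun T _ hT => ?_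
    obtain ⟨hG, hs⟩ := hT
    rw [SN_dcp z N T x] at hs
    have h1 := norm_add_le (∑ m ∈ Sm z N, (rf T m : ℂ) * e (m * x))
      (∑ l ∈ Ro z N, (rf T l : ℂ) * Al z N x l T)
    have hsq : ∀ u : ℝ, c / 2 ≤ u → c ^ 2 / 4 ≤ u ^ 2 := by
      intro u hu
      nlinarith
    by_cases h2 : c / 2 ≤ ‖∑ m ∈ Sm z N, (rf T m : ℂ) * e (m * x)‖
    · exact Or.inl (hsq _ h2)
    · have h3 : c / 2 ≤ ‖∑ l ∈ Ro z N, (rf T l : ℂ) * Al z N x l T‖ := by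
        have h4 := not_le.1 h2
        linarith
      rcases le_total (N : ℝ) (Er κ (2 * k - 1) z Y R Rs N q a x j θ T) with h5 | h5
      · exact Or.inr (Or.inl h5)
      · exact Or.inr (Or.inr ⟨⟨hG, h5⟩, hsq _ h3⟩)
  have h1 : pr (PP M) (fun T => c ^ 2 / 4 ≤ ‖∑ m ∈ Sm z N, (rf T m : ℂ) * e (m * x)‖ ^ 2) ≤
      4 * (Sm z N).card / c ^ 2 := by
    refine (markov (fun T _ => sq_nonneg _) hc2 (second_Sm z N M hzM x)).trans (le_of_eq ?_)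
    field_simp
  have h2 : pr (PP M) (fun T => (N : ℝ) ≤ Er κ (2 * k - 1) z Y R Rs N q a x j θ T) ≤
      W1 * LL N * (2 / 2 ^ κ + 2 * (2 * Real.pi * |N * β| / 2 ^ κ + 2 * Real.pi / Rs) ^ 2) := by
    refine (markov (fun T _ => Er_nonneg45 _ _ _ _ _ _ _ _ _ _ _ _ T) hN0
      (err_total κ (2 * k - 1) z Y R Rs N q a x β j θ W1 (PP M) hPz hN hNY (by omega) hRs hRR hq
        hx hβ hθ0 hθ1 hW0 hW1)).trans (le_of_eq ?_)
    rw [div_eq_iff hN0.ne']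
    ring
  have h3 : pr (PP M) (fun T => (Good z Y R Rs Q J v T ∧
        Er κ (2 * k - 1) z Y R Rs N q a x j θ T ≤ N) ∧
        c ^ 2 / 4 ≤ ‖∑ l ∈ Ro z N, (rf T l : ℂ) * Al z N x l T‖ ^ 2) ≤
      (4 * (4 * N * S0 * v + 2 * N) / c ^ 2) ^ k := by
    have h4 := cond_moment k hk (PP_disj45 z M) (Ro z N) (fun l hl => by
        unfold Ro at hl
        rw [Finset.mem_filter, Finset.mem_Icc] at hl
        refine ⟨hl.2.1, fun p hp => ?_⟩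
        rw [Finset.mem_filter]
        exact ⟨primeFactors_subset_PP (hl.1.2.trans hNM) hp, hl.2.2 p hp⟩)
      (fun l T => Al z N x l T) (fun l _ T => (Al_inter z N x l T).symm)
      (fun T => Good z Y R Rs Q J v T ∧ Er κ (2 * k - 1) z Y R Rs N q a x j θ T ≤ N)
      (fun T => by
        rw [Good_inter, Er_inter])
      (4 * N * S0 * v + 2 * N) (c ^ 2 / 4) (by positivity) hc2 (fun T _ hT => by
        have h5 := comp κ (2 * k - 1) z Y R Rs N q a x j θ S0 T hκ hN hR hRs hq hqz ha hθ0 hθ1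
          hS0 hS
        rw [hW] at h5
        refine h5.trans ?_
        have h6 := hT.1 q hq hqQ j hj
        have h7 : 4 * (N : ℝ) * S0 * VS z Y R Rs q j T ≤ 4 * N * S0 * v :=
          mul_le_mul_of_nonneg_left h6 (by positivity)
        have h8 := hT.2
        linarith)
    rw [PP_union45 hzM] at h4
    refine h4.trans (le_of_eq ?_)
    congr 1
    field_simp
  have h4 := pr_or (PP M) (fun T => (N : ℝ) ≤ Er κ (2 * k - 1) z Y R Rs N q a x j θ T)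
    (fun T => (Good z Y R Rs Q J v T ∧ Er κ (2 * k - 1) z Y R Rs N q a x j θ T ≤ N) ∧
      c ^ 2 / 4 ≤ ‖∑ l ∈ Ro z N, (rf T l : ℂ) * Al z N x l T‖ ^ 2)
  linarith

end Pool.Agent.Helper5.RS
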