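import Pool.Agent.Helper5.RS.NearM
import Pool.Agent.Helper5.RS.GoodB

/-!
# Block RS-N4: all points of small complexity

`near_max` with `K = 2 C1 + 3` gives `κ0`, `ε1`, and for every `i` a `z`. The event is contained in `¬ Good` (probability `≤ Λ^(-ε1)` by `good_prob C1 ε1`, for this `z` and `Rs = 2^(κ0 i)`) and the union over `a ∈ [Λ, 2Λ)` and
the `jj < 2^a` with `DD < Λ^C1` (at most `3 Λ^(2 C1)` by `DD_count`) of the events of `near_max`: at most `Λ * 3 Λ^(2 C1) * Λ^(-K) = 3 Λ^(-2)`. `c = min (ε1/2) 1`: `Λ^(-ε1) + 3 Λ^(-2) ≤ Λ^(-c)` for large `i`.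
-/

set_option autoImplicit false

namespace Pool.Agent.Helper5.RS

open Finset Pool.Agent.Helper5.RM

private theorem two_le26 {ε1 : ℝ} (h : 0 < ε1) {i : ℕ} (hi : ⌈2 / ε1⌉₊ ≤ i) :
    2 ≤ ((2 : ℝ) ^ i) ^ (ε1 / 2) := by
  have h1 : 2 / ε1 ≤ (i : ℝ) := Nat.ceil_le.1 hi
  have h2 : 1 ≤ (i : ℝ) * (ε1 / 2) := by
    rw [div_le_iff₀ h] at h1
    linarith
  rw [← Real.rpow_natCast, ← Real.rpow_mul (by norm_num)]
  calc (2 : ℝ) = 2 ^ (1 : ℝ) := (Real.rpow_one 2).symm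
    _ ≤ 2 ^ ((i : ℝ) * (ε1 / 2)) := Real.rpow_le_rpow_of_exponent_le (by norm_num) h2

private theorem final26 {ε1 : ℝ} (h : 0 < ε1) {i : ℕ} (hi : ⌈2 / ε1⌉₊ ≤ i) (hi3 : 3 ≤ i) :
    ((2 : ℝ) ^ i) ^ (-ε1) + 3 / ((2 : ℝ) ^ i) ^ 2 ≤ ((2 : ℝ) ^ i) ^ (-(min (ε1 / 2) 1)) := by
  set L : ℝ := (2 : ℝ) ^ i with hL
  have hL8 : 8 ≤ L := by
    rw [hL]
    calc (8 : ℝ) = 2 ^ 3 := by norm_num
      _ ≤ 2 ^ i := pow_le_pow_right₀ (by norm_num) hi3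
  have hL0 : 0 < L := by linarith
  have hL1 : 1 ≤ L := by linarith
  set c : ℝ := min (ε1 / 2) 1 with hc
  have hc1 : c ≤ ε1 / 2 := min_le_left _ _
  have hc2 : c ≤ 1 := min_le_right _ _
  have h1 : 2 * L ^ (-ε1) ≤ L ^ (-c) := by
    have h2 : L ^ (-c) = L ^ (-ε1) * L ^ (ε1 - c) := by
      rw [← Real.rpow_add hL0]; congr 1; ring
    have h3 : L ^ (ε1 / 2) ≤ L ^ (ε1 - c) :=
      Real.rpow_le_rpow_of_exponent_le hL1 (by linarith)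
    have h4 : 2 ≤ L ^ (ε1 / 2) := two_le26 h hi
    have h5 : 0 ≤ L ^ (-ε1) := Real.rpow_nonneg hL0.le _
    rw [h2]
    nlinarith
  have h2 : 2 * (3 / L ^ 2) ≤ L ^ (-c) := by
    have h3 : L ^ (-1 : ℝ) ≤ L ^ (-c) :=
      Real.rpow_le_rpow_of_exponent_le hL1 (by linarith)
    rw [Real.rpow_neg_one] at h3
    refine le_trans ?_ h3
    rw [inv_eq_one_div, mul_div_assoc', div_le_div_iff₀ (by positivity) hL0]
    nlinarith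
  linarith

theorem near_unif (C1 : ℕ) (ε : ℝ) (hε : 0 < ε) : ∃ (c : ℝ) (i0 : ℕ), 0 < c ∧ ∀ i : ℕ, i0 ≤ i →
    pr (PP (2 ^ (2 * 2 ^ i))) (fun T => ∃ a jj N : ℕ, 2 ^ i ≤ a ∧ a < 2 * 2 ^ i ∧ jj < 2 ^ a ∧
      DD (2 ^ a) ((jj : ℝ) / (2 ^ a : ℕ)) < ((2 : ℝ) ^ i) ^ C1 ∧ 2 ^ a ≤ N ∧ N ≤ 2 ^ (a + 1) ∧
      Real.sqrt (2 ^ a) * ((2 : ℝ) ^ i) ^ (1 / 2 + ε) < ‖SN N T ((jj : ℝ) / (2 ^ a : ℕ))‖) ≤
      ((2 : ℝ) ^ i) ^ (-c) := by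
  classical
  obtain ⟨κ0, ε1, i1, hε1, hmax⟩ := near_max C1 (2 * C1 + 3) ε hε
  obtain ⟨i2, hgood⟩ := good_prob C1 ε1 hε1
  refine ⟨min (ε1 / 2) 1, max (max i1 i2) (max ⌈2 / ε1⌉₊ 3), lt_min (by linarith) one_pos, ?_⟩
  intro i hi
  have hi1 : i1 ≤ i := (le_max_left _ _).trans ((le_max_left _ _).trans hi)
  have hi2 : i2 ≤ i := (le_max_right _ _).trans ((le_max_left _ _).trans hi)
  have hi3 : ⌈2 / ε1⌉₊ ≤ i := (le_max_left _ _).trans ((le_max_right _ _).trans hi)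
  have hi4 : 3 ≤ i := (le_max_right _ _).trans ((le_max_right _ _).trans hi)
  obtain ⟨z, hz⟩ := hmax i hi1
  have hg := hgood i hi2 z (2 ^ (κ0 * i)) Nat.one_le_two_pow
  set L : ℝ := (2 : ℝ) ^ i with hL
  have hL0 : 0 < L := by rw [hL]; positivity
  have hL1 : 1 ≤ L := by rw [hL]; exact one_le_pow₀ (by norm_num)
  let Gd : Finset ℕ → Prop := fun T =>
    Good z (2 ^ (2 * 2 ^ i)) (2 ^ (4 * 2 ^ i)) (2 ^ (κ0 * i)) ((2 ^ i) ^ C1) (3 * (2 ^ i) ^ C1)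
          (L ^ (2 + ε1)) T
  let s : Finset (Σ _ : ℕ, ℕ) := (Finset.Ico (2 ^ i) (2 * 2 ^ i)).sigma (fun a =>
    (Finset.range (2 ^ a)).filter (fun jj : ℕ => DD (2 ^ a) ((jj : ℝ) / (2 ^ a : ℕ)) < L ^ C1))
  let R : (Σ _ : ℕ, ℕ) → Finset ℕ → Prop := fun p T => Gd T ∧
        ∃ N : ℕ, 2 ^ p.1 ≤ N ∧ N ≤ 2 ^ (p.1 + 1) ∧
          Real.sqrt (2 ^ p.1) * L ^ (1 / 2 + ε) < ‖SN N T ((p.2 : ℝ) / (2 ^ p.1 : ℕ))‖
  have h1 := pr_le_add (S := PP (2 ^ (2 * 2 ^ i)))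
    (P := fun T => ∃ a jj N : ℕ, 2 ^ i ≤ a ∧ a < 2 * 2 ^ i ∧ jj < 2 ^ a ∧
      DD (2 ^ a) ((jj : ℝ) / (2 ^ a : ℕ)) < L ^ C1 ∧ 2 ^ a ≤ N ∧ N ≤ 2 ^ (a + 1) ∧
      Real.sqrt (2 ^ a) * L ^ (1 / 2 + ε) < ‖SN N T ((jj : ℝ) / (2 ^ a : ℕ))‖)
    (Q := fun T => ¬ Gd T) (R := fun T => ∃ p ∈ s, R p T) (by
      rintro T - ⟨a, jj, N, ha1, ha2, hjj, hDD, hN1, hN2, hN3⟩
      by_cases hG : Gd T
      · right
        refine ⟨⟨a, jj⟩, ?_, hG, N, hN1, hN2, hN3⟩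
        simp only [s, Finset.mem_sigma, Finset.mem_filter, Finset.mem_Ico, Finset.mem_range]
        exact ⟨⟨ha1, ha2⟩, hjj, hDD⟩
      · left; exact hG)
  refine h1.trans ?_
  have h2 : pr (PP (2 ^ (2 * 2 ^ i))) (fun T => ∃ p ∈ s, R p T) ≤ 3 / L ^ 2 := by
    refine (pr_exists _ s R).trans ?_
    have h3 : ∀ p ∈ s, pr (PP (2 ^ (2 * 2 ^ i))) (R p) ≤ 1 / L ^ (2 * C1 + 3) := by
      rintro ⟨a, jj⟩ hp
      simp only [s, Finset.mem_sigma, Finset.mem_filter, Finset.mem_Ico, Finset.mem_range] at hp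
      exact hz a hp.1.1 hp.1.2 jj hp.2.1 hp.2.2
    refine (Finset.sum_le_sum h3).trans ?_
    rw [Finset.sum_const, nsmul_eq_mul]
    have h4 : (s.card : ℝ) ≤ L * (3 * (L ^ C1) ^ 2) := by
      have h5 : s.card = ∑ a ∈ Finset.Ico (2 ^ i) (2 * 2 ^ i), ((Finset.range (2 ^ a)).filter
          (fun jj : ℕ => DD (2 ^ a) ((jj : ℝ) / (2 ^ a : ℕ)) < L ^ C1)).card :=
        Finset.card_sigma _ _
      rw [h5]
      push_cast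
      have h6 : ∀ a ∈ Finset.Ico (2 ^ i) (2 * 2 ^ i), (((Finset.range (2 ^ a)).filter
          (fun jj : ℕ => DD (2 ^ a) ((jj : ℝ) / (2 ^ a : ℕ)) < L ^ C1)).card : ℝ)
          ≤ 3 * (L ^ C1) ^ 2 := by
        intro a _
        have h7 := DD_count (2 ^ a) Nat.one_le_two_pow (L ^ C1) (one_le_pow₀ hL1)
        convert h7 using 3
      refine (Finset.sum_le_sum (by simpa using h6)).trans ?_
      rw [Finset.sum_const, nsmul_eq_mul, Nat.card_Ico]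
      have h8 : 2 * 2 ^ i - 2 ^ i = 2 ^ i := by omega
      rw [h8]
      push_cast
      exact le_rfl
    have h9 : (s.card : ℝ) * (1 / L ^ (2 * C1 + 3)) ≤ L * (3 * (L ^ C1) ^ 2) * (1 / L ^ (2 * C1 + 3)) :=
      mul_le_mul_of_nonneg_right h4 (by positivity)
    refine h9.trans (le_of_eq ?_)
    have h10 : L ^ (2 * C1 + 3) = (L ^ C1) ^ 2 * L ^ 3 := by ring
    rw [h10]
    field_simp
  exact (add_le_add hg h2).trans (final26 hε1 hi3 hi4)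

end Pool.Agent.Helper5.RS
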