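import Pool.Agent.Helper5.RS.Fub

/-!
# Block RS-V4: the second moment of a sum over pairs

For `q ∈ cp Y`: `rf T q.1 * rf T q.2 = rf T (q.1 q.2)` (coprime, `rf_mul`), and `q.1 q.2` is squarefree with prime factors in `PP Y ⊆ S`. Orthogonality: for squarefree `m`, `n` with prime
factors in `S`, `av S (rf T m * rf T n) = 1` if `m = n` and `0` otherwise: `rf T m * rf T n = wal T (symmDiff m.primeFactors n.primeFactors)` (`wal_symmDiff`), `av_wal`;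
a squarefree number is the product of its prime factors. Expand the square (`rf` is real) and take norms.
-/

set_option autoImplicit false

namespace Pool.Agent.Helper5.RS

open Finset Pool.Agent.Helper5.RM

theorem pair_second (S : Finset ℕ) (Y : ℕ) (hS : PP Y ⊆ S) (Φ : ℕ × ℕ → ℂ) :
    av S (fun T => ‖∑ p ∈ cp Y, (rf T p.1 : ℂ) * (rf T p.2 : ℂ) * Φ p‖ ^ 2) ≤
      ∑ p ∈ cp Y, ∑ p' ∈ (cp Y).filter (fun p' => p'.1 * p'.2 = p.1 * p.2), ‖Φ p‖ * ‖Φ p'‖ := by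
  classical
  set s := (cp Y).image (fun q : ℕ × ℕ => q.1 * q.2) with hs
  set c : ℕ → ℂ := fun u => ∑ q ∈ (cp Y).filter (fun q => q.1 * q.2 = u), Φ q with hc
  have hcp : ∀ q ∈ cp Y, Nat.Coprime q.1 q.2 ∧ Squarefree q.1 ∧ Squarefree q.2 ∧ q.1 ≤ Y ∧ q.2 ≤ Y := by
    intro q hq
    unfold cp at hq
    rw [Finset.mem_filter, Finset.mem_product, Finset.mem_Icc, Finset.mem_Icc] at hq
    exact ⟨hq.2.2.1, hq.2.2.2.1, hq.2.2.2.2, hq.1.1.2, hq.1.2.2⟩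
  have hmaps : ∀ q ∈ cp Y, q.1 * q.2 ∈ s := fun q hq => Finset.mem_image_of_mem _ hq
  have hsum : ∀ T, ∑ q ∈ cp Y, (rf T q.1 : ℂ) * (rf T q.2 : ℂ) * Φ q = ∑ u ∈ s, (rf T u : ℂ) * c u := by
    intro T
    rw [← Finset.sum_fiberwise_of_maps_to hmaps]
    refine Finset.sum_congr rfl fun u _ => ?_
    rw [hc, Finset.mul_sum]
    refine Finset.sum_congr rfl fun q hq => ?_
    obtain ⟨hq1, hq2⟩ := Finset.mem_filter.1 hq
    rw [← hq2, rf_mul (hcp q hq1).1]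
    push_cast
    ring
  have hsq : ∀ n ∈ s, Squarefree n ∧ n.primeFactors ⊆ S := by
    intro n hn
    obtain ⟨q, hq, rfl⟩ := Finset.mem_image.1 hn
    obtain ⟨g1, g2, g3, g4, g5⟩ := hcp q hq
    refine ⟨(Nat.squarefree_mul g1).2 ⟨g2, g3⟩, ?_⟩
    rw [g1.primeFactors_mul]
    exact Finset.union_subset ((primeFactors_subset_PP g4).trans hS) ((primeFactors_subset_PP g5).trans hS)
  have h1 := hyper_sqf 1 le_rfl S s hsq c
  have h2 : av S (fun T => ‖∑ p ∈ cp Y, (rf T p.1 : ℂ) * (rf T p.2 : ℂ) * Φ p‖ ^ 2) =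
      av S (fun T => ‖∑ n ∈ s, (rf T n : ℂ) * c n‖ ^ 2) :=
    av_congr fun T _ => by rw [hsum T]
  have h3 : (∑ n ∈ s, (2 * ((1 : ℕ) : ℝ) - 1) ^ om n * ‖c n‖ ^ 2) ^ 1 = ∑ n ∈ s, ‖c n‖ ^ 2 := by
    rw [pow_one]
    refine Finset.sum_congr rfl fun n _ => ?_
    norm_num
  rw [h3, mul_one] at h1
  rw [h2]
  refine h1.trans ?_
  rw [← Finset.sum_fiberwise_of_maps_to hmaps]
  refine Finset.sum_le_sum fun n _ => ?_
  have h4 : ‖c n‖ ≤ ∑ q ∈ (cp Y).filter (fun q => q.1 * q.2 = n), ‖Φ q‖ := norm_sum_le _ _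
  have h5 : ‖c n‖ ^ 2 ≤ (∑ q ∈ (cp Y).filter (fun q => q.1 * q.2 = n), ‖Φ q‖) ^ 2 :=
    pow_le_pow_left₀ (norm_nonneg _) h4 2
  refine h5.trans (le_of_eq ?_)
  rw [sq, Finset.sum_mul]
  refine Finset.sum_congr rfl fun q hq => ?_
  rw [Finset.mul_sum, (Finset.mem_filter.1 hq).2]

end Pool.Agent.Helper5.RS
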