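import Pool.Agent.Helper5.RS.Defs

/-!
# Block RS-L2: the pointwise estimate from a bound of the conditional variance

Adapt the proof of `point` (`RM/POINT.lean`). Two changes. (1) The bound of `∑_{l ∈ LI N B z 1} ‖XX‖^2` is the hypothesis `hV1` (instead of `v1`). (2) Use `point_iter` with `K = (5/2) log D` (instead of `5 log D`; `exp (-K) = D^(-5/2)`), so
`2K = 5 log D = lam / 2` with `lam = 10 log D`: for `i = 1` `‖S_1‖^2 ≤ 2K V = 5 log D * V`; for `i ≥ 2` the variance is at most `2N / lam^i` (as before, from `hni` and `vi` with `t = 1/lam^i`), so `‖S_i‖^2 ≤ (lam/2)^i * 2N / lam^i = 2N / 2^i`.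
Then `‖SN‖ ≤ √N` (the `n < B`) `+ √N` (`S_z`) `+ √(5 log D V) + ∑_{i ≥ 2} √(2N) 2^(-i/2) ≤ 5 √N + √(5 log D V)` (`∑_{i≥2} 2^(-i/2) ≤ 1.71`, `√2 * 1.71 ≤ 2.5`).
Probabilities: `p1`; `2 i D^(-5/2)` for each `i ≤ I`, together `≤ 2 I^2 D^(-5/2)`; the rest as in `point`: `≤ 1 / D^4` by `hfin` (all terms of `hfin` are `≥ 0`).
-/

set_option autoImplicit false

namespace Pool.Agent.Helper5.RS

open Finset Pool.Agent.Helper5.RM

/-- number of large primes of `l` -/
private lemma point_om63 {N B z I l : ℕ} (hB : 2 ≤ B) (hIz : B ≤ z ^ I)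
    (hl : l ∈ LA N B) (hz : z < l.minFac) : 1 ≤ om l ∧ om l ≤ I := by
  unfold LA at hl
  rw [Finset.mem_filter, Finset.mem_Icc] at hl
  obtain ⟨⟨h1, hN⟩, hsq, hBl, hlt⟩ := hl
  have hl1 : l ≠ 1 := by omega
  have hl0 : l ≠ 0 := by omega
  have hp : l.minFac.Prime := Nat.minFac_prime hl1
  have hmem : l.minFac ∈ l.primeFactors := Nat.mem_primeFactors.2 ⟨hp, Nat.minFac_dvd l, hl0⟩
  have hone : 1 ≤ om l := by
    unfold om
    exact Finset.card_pos.2 ⟨_, hmem⟩
  refine ⟨hone, ?_⟩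
  have hprod : ∏ p ∈ l.primeFactors, p = l := Nat.prod_primeFactors_of_squarefree hsq
  have hsplit : l.minFac * ∏ p ∈ l.primeFactors.erase l.minFac, p = l := by
    exact (Finset.mul_prod_erase l.primeFactors (fun p => p) hmem).trans hprod
  have hquot : l / l.minFac = ∏ p ∈ l.primeFactors.erase l.minFac, p :=
    Nat.div_eq_of_eq_mul_right hp.pos hsplit.symm
  have hge : z ^ (om l - 1) ≤ l / l.minFac := by
    rw [hquot]
    have hcard : (l.primeFactors.erase l.minFac).card = om l - 1 := by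
      rw [Finset.card_erase_of_mem hmem]; rfl
    rw [← hcard]
    refine Finset.pow_card_le_prod _ _ _ ?_
    intro p hpm
    have hp' := Finset.mem_of_mem_erase hpm
    have := Nat.minFac_le_of_dvd (Nat.prime_of_mem_primeFactors hp').two_le (Nat.dvd_of_mem_primeFactors hp')
    omega
  have hlt2 : z ^ (om l - 1) < z ^ I := lt_of_le_of_lt hge (lt_of_lt_of_le hlt hIz)
  by_contra hcon
  have hle : I ≤ om l - 1 := by omega
  have hz1 : 1 ≤ z := by
    by_contra h
    have hz0 : z = 0 := by omega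
    subst hz0
    rcases Nat.eq_zero_or_pos I with hI | hI
    · subst hI; simp at hIz; omega
    · rw [zero_pow (by omega)] at hIz; omega
  exact absurd (Nat.pow_le_pow_right hz1 hle) (not_le.2 hlt2)

/-- the sum over `LA` is split by the number of primes -/
private lemma point_split63 {N B z I : ℕ} (hB : 2 ≤ B) (hIz : B ≤ z ^ I) (F : ℕ → ℂ) :
    ∑ l ∈ LA N B, F l = ∑ l ∈ LZ N B z, F l + ∑ i ∈ Finset.Icc 1 I, ∑ l ∈ LI N B z i, F l := by
  rw [← Finset.sum_filter_add_sum_filter_not (LA N B) (fun l => l.minFac ≤ z)]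
  congr 1
  rw [← Finset.sum_fiberwise_of_maps_to (g := om) (t := Finset.Icc 1 I)]
  · refine Finset.sum_congr rfl fun i _ => Finset.sum_congr ?_ fun _ _ => rfl
    unfold LI
    rw [Finset.filter_filter]
    refine Finset.filter_congr fun l _ => ?_
    rw [not_le]
  · intro l hl
    rw [Finset.mem_filter, not_le] at hl
    rw [Finset.mem_Icc]
    exact point_om63 hB hIz hl.1 hl.2

/-- `iter` for one sum -/
private lemma point_iter63 (N B z i : ℕ) (θ K v0 : ℝ) (hK : 0 < K) (hv : 0 ≤ v0) :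
    pr (PP N) (fun T => (2 * K) ^ i * v0 < ‖∑ l ∈ LI N B z i, (rf T l : ℂ) * XX N θ l T‖ ^ 2 ∧
      ∑ l ∈ LI N B z i, ‖XX N θ l T‖ ^ 2 ≤ v0) ≤ 2 * i * Real.exp (-K) := by
  have h := iter (PP N) (fun p hp => (mem_PP.1 hp).1) K hK i Unit {()} (fun _ => LI N B z i)
    (fun _ l => XX N θ l) v0 hv ?_ ?_
  · simpa using h
  · intro _ _ l hl
    unfold LI LA at hl
    rw [Finset.mem_filter, Finset.mem_filter, Finset.mem_Icc] at hl
    exact ⟨hl.1.2.1, primeFactors_subset_PP hl.1.1.2, hl.2.2⟩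
  · intro _ _ l _ p hp
    exact XX_pred N θ l p hp

theorem point_gen (N : ℕ) (θ D : ℝ) (hF : Far N θ D) (B z k w I : ℕ) (η : ℝ) (hP : Par N D B z k w I η)
    (V p1 : ℝ) (hV : 0 ≤ V)
    (hV1 : pr (PP N) (fun T => V < ∑ l ∈ LI N B z 1, ‖XX N θ l T‖ ^ 2) ≤ p1) :
    pr (PP N) (fun T => 5 * Real.sqrt N + Real.sqrt (5 * Real.log D * V) < ‖SN N T θ‖) ≤
      p1 + 2 * (I : ℝ) ^ 2 * D ^ (-(5 / 2) : ℝ) + 1 / D ^ 4 := by
  have hD4 := hP.hD4
  have hDN := hP.hDN
  have hD0 : (0 : ℝ) < D := by linarith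
  have hN4 : (4 : ℝ) ≤ N := hD4.trans hDN
  have hN0 : (0 : ℝ) < N := by linarith
  have hB2 : 2 ≤ B := by have := hP.hB36; omega
  have hB1 : (1 : ℝ) ≤ B := by exact_mod_cast (by omega : 1 ≤ B)
  have hlogD1 : 1 ≤ Real.log D := by
    rw [Real.le_log_iff_exp_le hD0]
    exact (Real.exp_one_lt_d9.le.trans (by norm_num)).trans hD4
  have hL1 : 1 ≤ LL N := by
    have : LL N = 1 + Real.log N := rfl
    have := Real.log_nonneg (by linarith : (1 : ℝ) ≤ N)
    linarith
  set L := LL N with hLdef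
  set lam : ℝ := 10 * Real.log D with hlam
  have hlam1 : 1 ≤ lam := by rw [hlam]; linarith
  have hlam0 : 0 < lam := by linarith
  have hK : (0 : ℝ) < 5 / 2 * Real.log D := by linarith
  have h2K : 2 * (5 / 2 * Real.log D) = lam / 2 := by rw [hlam]; ring
  set A1 : ℝ := 2 * L * (18 * L ^ (2 * w + 5) * (128 * L / B) ^ (η / 4)) ^ k with hA1
  set A2 : ℝ := 2 * B * L * (72 * L ^ (2 * w + 9) * (6 / Real.sqrt B) ^ (η / 4) * lam ^ (2 * I)) ^ k with hA2
  have hA10 : 0 ≤ A1 := by positivity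
  have hA20 : 0 ≤ A2 := by positivity
  have hp10 : 0 ≤ p1 := le_trans (pr_nonneg _ _) hV1
  set dd : ℝ := D ^ (-(5 / 2) : ℝ) with hdd
  have hdd0 : 0 ≤ dd := Real.rpow_nonneg hD0.le _
  have hexpD : Real.exp (-(5 / 2 * Real.log D)) = dd := by
    rw [hdd, Real.rpow_def_of_pos hD0]
    congr 1
    ring
  set Sz : Finset ℕ → ℂ := fun T => ∑ l ∈ LZ N B z, (rf T l : ℂ) * XX N θ l T with hSz
  set Si : ℕ → Finset ℕ → ℂ := fun i T => ∑ l ∈ LI N B z i, (rf T l : ℂ) * XX N θ l T with hSi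
  -- the event for `S0`
  have hE0 : pr (PP N) (fun T => (N : ℝ) ≤ ‖Sz T‖ ^ 2) ≤ (E0 N z (2 * k - 1) / N) ^ k := by
    have h := markov_pow (S := PP N) (F := fun T => ‖Sz T‖ ^ 2) (c := (N : ℝ)) (E := (E0 N z (2 * k - 1)) ^ k) k
      (fun T _ => by positivity) hN0 ?_
    · rw [div_pow]; exact h
    · have h2 := szero N B z k hP.hk hB2 hP.hBN hP.hz θ
      refine le_trans (le_of_eq (av_congr fun T _ => ?_)) h2
      rw [← pow_mul]
  -- the events for `S_i`
  have hEi : ∀ i ∈ Finset.Icc 1 I,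
      pr (PP N) (fun T => (if i = 1 then 5 * Real.log D * V else 2 * (N : ℝ) / 2 ^ i) < ‖Si i T‖ ^ 2) ≤
        (if i = 1 then p1 else 0) + A2 + 2 * I * dd := by
    intro i hi
    rw [Finset.mem_Icc] at hi
    have hiI : (i : ℝ) ≤ I := by exact_mod_cast hi.2
    have hexp : 2 * (i : ℝ) * Real.exp (-(5 / 2 * Real.log D)) ≤ 2 * I * dd := by
      rw [hexpD]
      gcongr
    by_cases h1 : i = 1
    · subst h1
      rw [if_pos rfl, if_pos rfl]
      have hb := point_iter63 N B z 1 θ (5 / 2 * Real.log D) V hK hV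
      have hc := pr_le_add (S := PP N)
        (P := fun T => 5 * Real.log D * V < ‖Si 1 T‖ ^ 2)
        (Q := fun T => V < ∑ l ∈ LI N B z 1, ‖XX N θ l T‖ ^ 2)
        (R := fun T => (2 * (5 / 2 * Real.log D)) ^ 1 * V < ‖∑ l ∈ LI N B z 1, (rf T l : ℂ) * XX N θ l T‖ ^ 2 ∧
          ∑ l ∈ LI N B z 1, ‖XX N θ l T‖ ^ 2 ≤ V) ?_
      · refine hc.trans ((add_le_add hV1 (hb.trans hexp)).trans ?_)
        linarith
      · intro T _ hT
        by_cases hv : ∑ l ∈ LI N B z 1, ‖XX N θ l T‖ ^ 2 ≤ V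
        · right
          refine ⟨lt_of_le_of_lt (le_of_eq ?_) hT, hv⟩
          ring
        · left
          rw [not_le] at hv
          exact hv
    · have hi2 : 2 ≤ i := by omega
      rw [if_neg h1, if_neg h1]
      set t : ℝ := 1 / lam ^ i with ht
      have ht0 : 0 < t := by positivity
      have ha := vi N θ D hD4 hDN hF B z k w η hP.hB36 hP.hBD hP.hk hP.hη0 hP.hη1 hP.hw i hi2 t ht0
      have hb := point_iter63 N B z i θ (5 / 2 * Real.log D) (2 * (t * N)) hK (by positivity)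
      have hcard : ∑ l ∈ LI N B z i, ((MS N l).card : ℝ) ≤ t * N := by
        refine (ni_bound N B z i hi2 hB2 hP.hBN).trans ((hP.hni i hi2 hi.2).trans (le_of_eq ?_))
        rw [ht]; ring
      have hc := pr_le_add (S := PP N)
        (P := fun T => 2 * (N : ℝ) / 2 ^ i < ‖Si i T‖ ^ 2)
        (Q := fun T => ∑ l ∈ LI N B z i, ((MS N l).card : ℝ) + t * N < ∑ l ∈ LI N B z i, ‖XX N θ l T‖ ^ 2)
        (R := fun T => (2 * (5 / 2 * Real.log D)) ^ i * (2 * (t * N)) <
            ‖∑ l ∈ LI N B z i, (rf T l : ℂ) * XX N θ l T‖ ^ 2 ∧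
          ∑ l ∈ LI N B z i, ‖XX N θ l T‖ ^ 2 ≤ 2 * (t * N)) ?_
      · have hA2' : 2 * B * LL N * (72 * LL N ^ (2 * w + 9) * (6 / Real.sqrt B) ^ (η / 4) / t ^ 2) ^ k ≤ A2 := by
          rw [hA2, ← hLdef]
          have ht2 : 1 / t ^ 2 ≤ lam ^ (2 * I) := by
            rw [ht, div_pow, one_pow, one_div_one_div, ← pow_mul, mul_comm i 2]
            exact pow_le_pow_right₀ hlam1 (by omega)
          have h0 : 0 ≤ 72 * L ^ (2 * w + 9) * (6 / Real.sqrt B) ^ (η / 4) := by positivity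
          gcongr
          rw [div_eq_mul_one_div]
          exact mul_le_mul_of_nonneg_left ht2 h0
        refine hc.trans ((add_le_add (ha.trans hA2') (hb.trans hexp)).trans (le_of_eq ?_))
        ring
      · intro T _ hT
        by_cases hv : ∑ l ∈ LI N B z i, ‖XX N θ l T‖ ^ 2 ≤ 2 * (t * N)
        · right
          refine ⟨lt_of_le_of_lt (le_of_eq ?_) hT, hv⟩
          rw [h2K, ht, div_pow]
          field_simp
        · left
          rw [not_le] at hv
          linarith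
  -- union
  have hU : pr (PP N) (fun T => ∃ i ∈ Finset.Icc 1 I,
      (if i = 1 then 5 * Real.log D * V else 2 * (N : ℝ) / 2 ^ i) < ‖Si i T‖ ^ 2) ≤ p1 + I * A2 + 2 * I ^ 2 * dd := by
    refine (pr_exists _ _ _).trans ((Finset.sum_le_sum hEi).trans ?_)
    rw [Finset.sum_add_distrib, Finset.sum_add_distrib, Finset.sum_ite_eq', Finset.sum_const, Finset.sum_const,
      Nat.card_Icc, Nat.add_sub_cancel, nsmul_eq_mul, nsmul_eq_mul, if_pos (Finset.mem_Icc.2 ⟨le_rfl, hP.hI⟩)]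
    have : (I : ℝ) * (2 * I * dd) = 2 * I ^ 2 * dd := by ring
    rw [this]
  -- the total
  refine (pr_le_add (Q := fun T => (N : ℝ) ≤ ‖Sz T‖ ^ 2) (R := fun T => ∃ i ∈ Finset.Icc 1 I,
      (if i = 1 then 5 * Real.log D * V else 2 * (N : ℝ) / 2 ^ i) < ‖Si i T‖ ^ 2) ?_).trans ?_
  · intro T _ hT
    by_contra hcon
    rw [not_or] at hcon
    obtain ⟨hc0, hci⟩ := hcon
    rw [not_le] at hc0
    have hci' : ∀ i ∈ Finset.Icc 1 I,
        ‖Si i T‖ ^ 2 ≤ (if i = 1 then 5 * Real.log D * V else 2 * (N : ℝ) / 2 ^ i) := by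
      intro i hi
      by_contra hh
      exact hci ⟨i, hi, not_le.1 hh⟩
    have hsN : 0 ≤ Real.sqrt N := Real.sqrt_nonneg _
    have hsq : Real.sqrt N ^ 2 = N := Real.sq_sqrt hN0.le
    have hdec := dec_SN N B hB2 T θ
    rw [point_split63 hB2 hP.hIz] at hdec
    have hless : ‖∑ n ∈ (Finset.Icc 1 N).filter (· < B), (rf T n : ℂ) * e (n * θ)‖ ≤ Real.sqrt N := by
      refine (norm_sum_le_of_le (n := fun _ => (1 : ℝ)) _ fun n _ => ?_).trans ?_
      · rw [norm_mul, norm_e, mul_one, Complex.norm_real, Real.norm_eq_abs]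
        exact abs_rf_le T n
      · rw [Finset.sum_const, nsmul_eq_mul, mul_one]
        have hcard : ((Finset.Icc 1 N).filter (· < B)).card ≤ B := by
          have hsub : (Finset.Icc 1 N).filter (· < B) ⊆ Finset.range B := by
            intro x hx
            rw [Finset.mem_filter] at hx
            exact Finset.mem_range.2 hx.2
          exact (Finset.card_le_card hsub).trans (by simp)
        refine le_trans (by exact_mod_cast hcard : _ ≤ (B : ℝ)) ?_
        refine Real.le_sqrt_of_sq_le (le_trans ?_ hP.hBN)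
        exact pow_le_pow_right₀ hB1 (by norm_num)
    have hz' : ‖Sz T‖ ≤ Real.sqrt N := Real.le_sqrt_of_sq_le hc0.le
    set SV : ℝ := Real.sqrt (5 * Real.log D * V) with hSV
    have hi' : ∀ i ∈ Finset.Icc 1 I, ‖Si i T‖ ≤ (if i = 1 then SV - 1.5 * Real.sqrt N * 0.7072 else 0) +
        1.5 * Real.sqrt N * 0.7072 ^ i := by
      intro i hi
      have := hci' i hi
      by_cases h1 : i = 1
      · subst h1
        rw [if_pos rfl] at this ⊢
        rw [pow_one, sub_add_cancel]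
        exact Real.le_sqrt_of_sq_le this
      · rw [if_neg h1] at this ⊢
        rw [zero_add]
        refine (abs_le_of_sq_le_sq' ?_ (by positivity)).2
        refine this.trans ?_
        rw [mul_pow, mul_pow, hsq, ← pow_mul, mul_comm i 2, pow_mul]
        have h2 : (1 : ℝ) / 2 ^ i ≤ (0.7072 ^ 2) ^ i := by
          rw [one_div, ← inv_pow]
          exact pow_le_pow_left₀ (by norm_num) (by norm_num) i
        calc 2 * (N : ℝ) / 2 ^ i = 2 * N * (1 / 2 ^ i) := by ring
          _ ≤ 1.5 ^ 2 * N * (1 / 2 ^ i) := by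
              have : (0 : ℝ) ≤ 1 / 2 ^ i := by positivity
              nlinarith [mul_nonneg hN0.le this]
          _ ≤ 1.5 ^ 2 * N * (0.7072 ^ 2) ^ i := by gcongr
    have hgeom : ∀ n : ℕ, ∑ i ∈ Finset.Icc 1 n, (0.7072 : ℝ) ^ i = (0.7072 - 0.7072 ^ (n + 1)) / (1 - 0.7072) := by
      intro n
      induction n with
      | zero => norm_num
      | succ n ih =>
        rw [Finset.sum_Icc_succ_top (by omega), ih]
        field_simp
        ring
    have hsum : ‖∑ i ∈ Finset.Icc 1 I, Si i T‖ ≤ SV + 3 * Real.sqrt N := by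
      refine (norm_sum_le_of_le _ hi').trans ?_
      rw [Finset.sum_add_distrib, Finset.sum_ite_eq', if_pos (Finset.mem_Icc.2 ⟨le_rfl, hP.hI⟩),
        ← Finset.mul_sum, hgeom]
      have h3 : (0 : ℝ) ≤ 0.7072 ^ (I + 1) := by positivity
      have h4 : ((0.7072 : ℝ) - 0.7072 ^ (I + 1)) / (1 - 0.7072) ≤ 2.4154 := by
        rw [div_le_iff₀ (by norm_num)]
        have h6 : (0.7072 : ℝ) ≤ 2.4154 * (1 - 0.7072) := by norm_num
        linarith
      have h5 : 1.5 * Real.sqrt N * (((0.7072 : ℝ) - 0.7072 ^ (I + 1)) / (1 - 0.7072)) ≤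
          1.5 * Real.sqrt N * 2.4154 := mul_le_mul_of_nonneg_left h4 (by positivity)
      linarith
    have htot : ‖SN N T θ‖ ≤ Real.sqrt N + (Real.sqrt N + (SV + 3 * Real.sqrt N)) := by
      rw [hdec]
      refine (norm_add_le _ _).trans (add_le_add hless ((norm_add_le _ _).trans (add_le_add hz' hsum)))
    linarith
  · have hfin := hP.hfin
    have hl : 0 ≤ 2 * (I : ℝ) ^ 2 / D ^ 5 := by positivity
    have hall : (E0 N z (2 * k - 1) / N) ^ k + I * A2 ≤ 1 / D ^ 4 := by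
      refine le_trans ?_ hfin
      linarith
    linarith [add_le_add hE0 hU]

end Pool.Agent.Helper5.RS
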