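import Pool.Agent.Helper5.RS.Defs

/-!
# Block RS-L3b: expansion and mean of the majorant

`major_expand`: `aj zs l = ∑_{d,e ∈ D zs, lcm (d,e) ∣ l} lam d lam e`, so `∑_l aj ‖XP‖^2 = ∑_{d,e} lam d lam e VF (lcm d e)` and `∑_l aj |MP N l| = ∑_{d,e} lam d lam e mF (lcm d e)`; `|lam d lam e| ≤ zs^2` (`BT.abs_lam_le`).
`major_mean`: `|MP N l| ≤ N / l ≤ N / H`, and `∑_{l ∈ [H,2H)} aj zs l = ∑_{d,e} lam d lam e #{l : lcm ∣ l} ≤ H ∑ lam d lam e / lcm + ∑ |lam d lam e| ≤ H / G zs + zs^4` (`BT.main_eq`, `BT.count_dvd` with `u = H - 1`, `h = H`; at most `zs^2` pairs).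
The expansions are done in the proof of `BT.sieve` (`Pool/Agent/Helper66/AF/BT.lean`).
-/

set_option autoImplicit false

namespace Pool.Agent.Helper5.RS

open Finset Pool.Agent.Helper5.RM

private theorem aj_expand (zs : ℕ) (I : Finset ℕ) (w : ℕ → ℝ) :
    ∑ l ∈ I, aj zs l * w l =
      ∑ d ∈ Pool.Agent.Helper66.AF.BT.D zs, ∑ d' ∈ Pool.Agent.Helper66.AF.BT.D zs,
        Pool.Agent.Helper66.AF.BT.lam zs d * Pool.Agent.Helper66.AF.BT.lam zs d' *
          ∑ l ∈ I.filter (fun l => Nat.lcm d d' ∣ l), w l := by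
  classical
  have e1 : ∀ n ∈ I, aj zs n * w n =
      ∑ d ∈ Pool.Agent.Helper66.AF.BT.D zs, ∑ e ∈ Pool.Agent.Helper66.AF.BT.D zs,
        if Nat.lcm d e ∣ n then Pool.Agent.Helper66.AF.BT.lam zs d * Pool.Agent.Helper66.AF.BT.lam zs e * w n else 0 := by
    intro n _
    unfold aj
    rw [Finset.sum_filter, sq, Finset.sum_mul_sum, Finset.sum_mul]
    refine Finset.sum_congr rfl fun d _ => ?_
    rw [Finset.sum_mul]
    refine Finset.sum_congr rfl fun e _ => ?_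
    simp only [Nat.lcm_dvd_iff]
    by_cases a : d ∣ n <;> by_cases b : e ∣ n <;> simp [a, b]
  rw [Finset.sum_congr rfl e1, Finset.sum_comm]
  refine Finset.sum_congr rfl fun d _ => ?_
  rw [Finset.sum_comm]
  refine Finset.sum_congr rfl fun e _ => ?_
  rw [← Finset.sum_filter, Finset.mul_sum]

theorem major_expand (N zs H : ℕ) (θ : ℝ) (T : Finset ℕ) (hzs : 1 ≤ zs) :
    ∑ l ∈ Finset.Ico H (2 * H), aj zs l * ‖XP N θ l T‖ ^ 2 ≤
      ∑ l ∈ Finset.Ico H (2 * H), aj zs l * (MP N l).card +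
      (zs : ℝ) ^ 2 * ∑ d ∈ Pool.Agent.Helper66.AF.BT.D zs, ∑ d' ∈ Pool.Agent.Helper66.AF.BT.D zs,
        |VF N θ H (Nat.lcm d d') T - mF N H (Nat.lcm d d')| := by
  classical
  have h1 := aj_expand zs (Finset.Ico H (2 * H)) (fun l => ‖XP N θ l T‖ ^ 2)
  have h2 := aj_expand zs (Finset.Ico H (2 * H)) (fun l => ((MP N l).card : ℝ))
  rw [h1, h2, Finset.mul_sum, ← Finset.sum_add_distrib]
  refine Finset.sum_le_sum fun d hd => ?_
  rw [Finset.mul_sum, ← Finset.sum_add_distrib]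
  refine Finset.sum_le_sum fun e he => ?_
  have e1 : ∑ l ∈ (Finset.Ico H (2 * H)).filter (fun l => Nat.lcm d e ∣ l), ‖XP N θ l T‖ ^ 2 =
      VF N θ H (Nat.lcm d e) T := rfl
  have e2 : ∑ l ∈ (Finset.Ico H (2 * H)).filter (fun l => Nat.lcm d e ∣ l), ((MP N l).card : ℝ) =
      mF N H (Nat.lcm d e) := rfl
  rw [e1, e2]
  have c1 : Pool.Agent.Helper66.AF.BT.lam zs d * Pool.Agent.Helper66.AF.BT.lam zs e * VF N θ H (Nat.lcm d e) T =
      Pool.Agent.Helper66.AF.BT.lam zs d * Pool.Agent.Helper66.AF.BT.lam zs e * mF N H (Nat.lcm d e) +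
      Pool.Agent.Helper66.AF.BT.lam zs d * Pool.Agent.Helper66.AF.BT.lam zs e *
        (VF N θ H (Nat.lcm d e) T - mF N H (Nat.lcm d e)) := by ring
  rw [c1]
  have c2 : |Pool.Agent.Helper66.AF.BT.lam zs d * Pool.Agent.Helper66.AF.BT.lam zs e| ≤ (zs : ℝ) ^ 2 := by
    rw [abs_mul, sq]
    exact mul_le_mul (Pool.Agent.Helper66.AF.BT.abs_lam_le hd) (Pool.Agent.Helper66.AF.BT.abs_lam_le he)
      (abs_nonneg _) (Nat.cast_nonneg _)
  have c3 : Pool.Agent.Helper66.AF.BT.lam zs d * Pool.Agent.Helper66.AF.BT.lam zs e *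
        (VF N θ H (Nat.lcm d e) T - mF N H (Nat.lcm d e)) ≤
      (zs : ℝ) ^ 2 * |VF N θ H (Nat.lcm d e) T - mF N H (Nat.lcm d e)| := by
    refine (le_abs_self _).trans ?_
    rw [abs_mul]
    exact mul_le_mul_of_nonneg_right c2 (abs_nonneg _)
  linarith

theorem major_mean (N zs H : ℕ) (hzs : 1 ≤ zs) (hH : 1 ≤ H) :
    ∑ l ∈ Finset.Ico H (2 * H), aj zs l * (MP N l).card ≤
      (N : ℝ) / H * (H / Pool.Agent.Helper66.AF.BT.G zs + (zs : ℝ) ^ 4) := by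
  classical
  have hH0 : (0 : ℝ) < H := by exact_mod_cast hH
  have a1 : ∀ l ∈ Finset.Ico H (2 * H), aj zs l * (MP N l).card ≤ (N : ℝ) / H * (aj zs l * 1) := by
    intro l hl
    rw [Finset.mem_Ico] at hl
    have hl0 : (0 : ℝ) < l := by exact_mod_cast (by omega : 0 < l)
    have b1 : (MP N l).card ≤ N / l := by
      unfold MP
      refine (Finset.card_filter_le _ _).trans ?_
      rw [Nat.card_Icc, Nat.add_sub_cancel]
    have b2 : ((MP N l).card : ℝ) ≤ (N : ℝ) / H := by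
      have b3 : ((N / l : ℕ) : ℝ) ≤ (N : ℝ) / l := Nat.cast_div_le
      have b4 : ((MP N l).card : ℝ) ≤ ((N / l : ℕ) : ℝ) := by exact_mod_cast b1
      have b5 : (N : ℝ) / l ≤ (N : ℝ) / H := by
        have : (H : ℝ) ≤ l := by exact_mod_cast hl.1
        gcongr
      linarith
    have b6 : 0 ≤ aj zs l := by unfold aj; positivity
    have := mul_le_mul_of_nonneg_left b2 b6
    linarith
  refine (Finset.sum_le_sum a1).trans ?_
  rw [← Finset.mul_sum]
  refine mul_le_mul_of_nonneg_left ?_ (by positivity)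
  have h1 := aj_expand zs (Finset.Ico H (2 * H)) (fun _ => (1 : ℝ))
  rw [h1]
  have hI : Finset.Ico H (2 * H) = Finset.Ioc (H - 1) (H - 1 + H) := by
    ext x
    simp only [Finset.mem_Ico, Finset.mem_Ioc]
    omega
  rw [hI]
  have h4 : ∑ d ∈ Pool.Agent.Helper66.AF.BT.D zs, ∑ e ∈ Pool.Agent.Helper66.AF.BT.D zs,
      Pool.Agent.Helper66.AF.BT.lam zs d * Pool.Agent.Helper66.AF.BT.lam zs e *
        ∑ l ∈ (Finset.Ioc (H - 1) (H - 1 + H)).filter (fun l => Nat.lcm d e ∣ l), (1 : ℝ) ≤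
      ∑ d ∈ Pool.Agent.Helper66.AF.BT.D zs, ∑ e ∈ Pool.Agent.Helper66.AF.BT.D zs,
        (H * (Pool.Agent.Helper66.AF.BT.lam zs d * Pool.Agent.Helper66.AF.BT.lam zs e / (Nat.lcm d e : ℝ)) + (zs : ℝ) ^ 2) := by
    refine Finset.sum_le_sum fun d hd => Finset.sum_le_sum fun e he => ?_
    have hl : 0 < Nat.lcm d e := Nat.lcm_pos (Pool.Agent.Helper66.AF.BT.mem_D.1 hd).1.1 (Pool.Agent.Helper66.AF.BT.mem_D.1 he).1.1
    have c1 := Pool.Agent.Helper66.AF.BT.count_dvd (H - 1) H (Nat.lcm d e) hl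
    rw [Finset.sum_const, nsmul_eq_mul, mul_one]
    have c2 : Pool.Agent.Helper66.AF.BT.lam zs d * Pool.Agent.Helper66.AF.BT.lam zs e *
        ((((Finset.Ioc (H - 1) (H - 1 + H)).filter (fun n => Nat.lcm d e ∣ n)).card : ℕ) : ℝ) -
        H * (Pool.Agent.Helper66.AF.BT.lam zs d * Pool.Agent.Helper66.AF.BT.lam zs e / (Nat.lcm d e : ℝ)) =
        Pool.Agent.Helper66.AF.BT.lam zs d * Pool.Agent.Helper66.AF.BT.lam zs e *
          (((((Finset.Ioc (H - 1) (H - 1 + H)).filter (fun n => Nat.lcm d e ∣ n)).card : ℕ) : ℝ) - H / (Nat.lcm d e : ℝ)) := by ring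
    have c3 : |Pool.Agent.Helper66.AF.BT.lam zs d * Pool.Agent.Helper66.AF.BT.lam zs e *
          (((((Finset.Ioc (H - 1) (H - 1 + H)).filter (fun n => Nat.lcm d e ∣ n)).card : ℕ) : ℝ) - H / (Nat.lcm d e : ℝ))| ≤ (zs : ℝ) ^ 2 := by
      rw [abs_mul, abs_mul]
      calc |Pool.Agent.Helper66.AF.BT.lam zs d| * |Pool.Agent.Helper66.AF.BT.lam zs e| *
          |((((Finset.Ioc (H - 1) (H - 1 + H)).filter (fun n => Nat.lcm d e ∣ n)).card : ℕ) : ℝ) - H / (Nat.lcm d e : ℝ)| ≤ zs * zs * 1 := by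
            gcongr
            · exact Pool.Agent.Helper66.AF.BT.abs_lam_le hd
            · exact Pool.Agent.Helper66.AF.BT.abs_lam_le he
        _ = _ := by ring
    have c4 := (le_abs_self (Pool.Agent.Helper66.AF.BT.lam zs d * Pool.Agent.Helper66.AF.BT.lam zs e *
          (((((Finset.Ioc (H - 1) (H - 1 + H)).filter (fun n => Nat.lcm d e ∣ n)).card : ℕ) : ℝ) - H / (Nat.lcm d e : ℝ)))).trans c3
    linarith
  refine h4.trans ?_
  simp only [Finset.sum_add_distrib, ← Finset.mul_sum, Pool.Agent.Helper66.AF.BT.main_eq hzs, Finset.sum_const, nsmul_eq_mul]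
  have hc : ((Pool.Agent.Helper66.AF.BT.D zs).card : ℝ) ≤ zs := by
    have : (Pool.Agent.Helper66.AF.BT.D zs).card ≤ (Finset.Icc 1 zs).card := Finset.card_filter_le _ _
    rw [Nat.card_Icc, Nat.add_sub_cancel] at this
    exact_mod_cast this
  have hc0 : (0 : ℝ) ≤ (Pool.Agent.Helper66.AF.BT.D zs).card := by positivity
  have : ((Pool.Agent.Helper66.AF.BT.D zs).card : ℝ) * (((Pool.Agent.Helper66.AF.BT.D zs).card : ℝ) * (zs : ℝ) ^ 2) ≤ (zs : ℝ) ^ 4 := by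
    calc ((Pool.Agent.Helper66.AF.BT.D zs).card : ℝ) * (((Pool.Agent.Helper66.AF.BT.D zs).card : ℝ) * (zs : ℝ) ^ 2) ≤ zs * (zs * (zs : ℝ) ^ 2) := by gcongr
      _ = _ := by ring
  have h6 : (H : ℝ) * (1 / Pool.Agent.Helper66.AF.BT.G zs) = H / Pool.Agent.Helper66.AF.BT.G zs := by ring
  linarith

end Pool.Agent.Helper5.RS
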