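import Pool.Agent.Helper5.RS.Defs

/-!
# Block RS-L4: concentration of `VF` for `B ≤ H ≤ N / B`

Write `l = f l'`, `l' ∈ Lam = {l' : H ≤ f l' < 2H} ⊆ [H', 2H')`, `H' = ⌈H / f⌉`; `Nn` = squarefree `m ≤ Y' := N / H` (primes in `PP N`); `m ∈ MP N (f l')` iff `m ∈ Nn`, `lo m ≤ l'` and `l' ≤ hi m` with `lo m = m.primeFactors.sup id / f + 1` (all primes
of `m` are `< f l'`), `hi m = N / (f m)`. So `VF N θ H f T = VV Lam Nn lo hi (f θ) T` and `mF N H f = mm Lam Nn lo hi`. Apply `conc` (RM/CONC) with `H'`, `Y'`, `L0 = LL N`, `γ = 160 LL N f / B ≤ 1` (`hfB`), and Markov (`markov_pow`-like, power `2k`, threshold `t`):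
`pr ≤ (18 (H' Y')^2 LL N^(2w+5) γ^(η/4))^k / t^(2k)`; `H' Y' ≤ (H/f + 1) (N/H) ≤ 2N`, `γ^(η/4) ≤ (5/4 f)^(η/4) (128 LL N / B)^(η/4) ≤ 2 f (128 LL N / B)^(η/4)` (`η ≤ 1`, `5f/4 ≥ 1`): this gives the constant `18 * 4 * 2 = 144`.
The hypothesis on `γ`: `Y' + 2 ∑_{1 ≤ j < H'} mn Y' (j f θ) ≤ H' Y' γ`. `dl` (RM/DL) with `Ñ = N / f` (natural division), `θ̃ = f θ`, `D̃ = D / (2 f)`: `Far Ñ (f θ) D̃`, since for `m ≥ 1`: `D ≤ f m + N nd (f m θ)` (`Far N θ D` at `f m`), and
`Ñ ≥ N / (2 f)`, so `D / (2 f) ≤ m + Ñ nd (m (f θ))`; `2 ≤ D̃ ≤ Ñ` (`B^4 ≤ D ≤ N`, `f ≤ B`). `dl` gives `∑ ≤ 8 LL N (Ñ/D̃ + H' + Y' + H' Y'/D̃)`; `Ñ/D̃ ≤ 2N/D ≤ (4 f/D) H' Y'` (`H' Y' ≥ (H/f) (N/(2H)) = N/(2f)`), `1/Y' ≤ 2/B`,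
`1/H' ≤ f/B`, so the left side is at most `H' Y' (f/B + 16 LL N (4f/D + 2/B + f/B + 2f/D)) ≤ H' Y' * 145 LL N f / B` (`D ≥ B`).
-/

set_option autoImplicit false

namespace Pool.Agent.Helper5.RS

open Finset Pool.Agent.Helper5.RM

private theorem ce67 (H f : ℕ) (hf : 1 ≤ f) : H ≤ f * ((H + f - 1) / f) ∧
    f * ((H + f - 1) / f) ≤ H + f - 1 := by
  have h1 := Nat.div_add_mod (H + f - 1) f
  have h2 := Nat.mod_lt (H + f - 1) (show 0 < f by omega)
  constructor
  · omega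
  · omega

private theorem MP67 (N H f l : ℕ) (hf : 1 ≤ f) (hH : 0 < H) (hl : H ≤ l) (hfl : f ∣ l) :
    MP N l = ((Finset.Icc 1 (N / H)).filter Squarefree).filter
      (fun m => m.primeFactors.sup id / f + 1 ≤ l / f ∧ l / f ≤ N / (f * m)) := by
  obtain ⟨l', rfl⟩ := hfl
  have hf0 : 0 < f := by omega
  have hl0 : 0 < f * l' := by omega
  rw [Nat.mul_div_cancel_left _ hf0]
  unfold MP
  ext m
  simp only [Finset.mem_filter, Finset.mem_Icc]
  constructor
  · rintro ⟨⟨h1, h2⟩, h3, h4⟩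
    have h2' : m * (f * l') ≤ N := (Nat.le_div_iff_mul_le hl0).1 h2
    refine ⟨⟨⟨h1, ?_⟩, h3⟩, ?_, ?_⟩
    · rw [Nat.le_div_iff_mul_le hH]
      exact (Nat.mul_le_mul_left m hl).trans h2'
    · have h5 : m.primeFactors.sup id < f * l' := by
        rw [Finset.sup_lt_iff (by simpa using hl0)]
        intro q hq
        exact h4 q hq
      have h6 : m.primeFactors.sup id / f < l' := by
        rw [Nat.div_lt_iff_lt_mul hf0, mul_comm]
        exact h5
      omega
    · rw [Nat.le_div_iff_mul_le (Nat.mul_pos hf0 (by omega))]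
      calc l' * (f * m) = m * (f * l') := by ring
        _ ≤ N := h2'
  · rintro ⟨⟨⟨h1, h2⟩, h3⟩, h4, h5⟩
    refine ⟨⟨h1, ?_⟩, h3, ?_⟩
    · rw [Nat.le_div_iff_mul_le hl0]
      rw [Nat.le_div_iff_mul_le (Nat.mul_pos hf0 (by omega))] at h5
      calc m * (f * l') = l' * (f * m) := by ring
        _ ≤ N := h5
    · intro q hq
      have h6 : q ≤ m.primeFactors.sup id := Finset.le_sup (f := id) hq
      have h7 : m.primeFactors.sup id / f < l' := by omega
      rw [Nat.div_lt_iff_lt_mul hf0, mul_comm] at h7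
      omega

private theorem VF67 (N H f : ℕ) (hf : 1 ≤ f) (hH : 0 < H) (θ : ℝ) (T : Finset ℕ) :
    VF N θ H f T = VV (((Finset.Ico H (2 * H)).filter (fun l => f ∣ l)).image (fun l => l / f))
      ((Finset.Icc 1 (N / H)).filter Squarefree) (fun m => m.primeFactors.sup id / f + 1)
      (fun m => N / (f * m)) (f * θ) T := by
  unfold VF VV
  rw [Finset.sum_image]
  · refine Finset.sum_congr rfl fun l hl => ?_
    rw [Finset.mem_filter, Finset.mem_Ico] at hl
    unfold XP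
    rw [MP67 N H f l hf hH hl.1.1 hl.2]
    have h1 : (l : ℝ) = f * ((l / f : ℕ) : ℝ) := by
      have := Nat.mul_div_cancel' hl.2
      exact_mod_cast this.symm
    congr 2
    refine Finset.sum_congr rfl fun m _ => ?_
    congr 2
    rw [h1]
    ring
  · intro a ha b hb hab
    rw [Finset.mem_coe, Finset.mem_filter] at ha hb
    simp only at hab
    rw [← Nat.mul_div_cancel' ha.2, ← Nat.mul_div_cancel' hb.2, hab]

private theorem mF67 (N H f : ℕ) (hf : 1 ≤ f) (hH : 0 < H) :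
    mF N H f = mm (((Finset.Ico H (2 * H)).filter (fun l => f ∣ l)).image (fun l => l / f))
      ((Finset.Icc 1 (N / H)).filter Squarefree) (fun m => m.primeFactors.sup id / f + 1)
      (fun m => N / (f * m)) := by
  unfold mF mm
  rw [Finset.sum_image]
  · refine Finset.sum_congr rfl fun l hl => ?_
    rw [Finset.mem_filter, Finset.mem_Ico] at hl
    rw [MP67 N H f l hf hH hl.1.1 hl.2]
  · intro a ha b hb hab
    rw [Finset.mem_coe, Finset.mem_filter] at ha hb
    simp only at hab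
    rw [← Nat.mul_div_cancel' ha.2, ← Nat.mul_div_cancel' hb.2, hab]

theorem fluct_small (N : ℕ) (θ D : ℝ) (hD4 : 4 ≤ D) (hDN : D ≤ N) (hF : Far N θ D) (B k w : ℕ) (η : ℝ)
    (hB36 : 36 ≤ B) (hBD : (B : ℝ) ^ 4 ≤ D) (hk : 1 ≤ k) (hη : 0 < η) (hη1 : η ≤ 1)
    (hw : (4 * (k : ℝ)) ^ (1 + η) ≤ w) (H f : ℕ) (hH1 : B ≤ H) (hH2 : B * H ≤ N) (hf : 1 ≤ f)
    (hfB : 160 * LL N * f ≤ B) (t : ℝ) (ht : 0 < t) :
    pr (PP N) (fun T => t < |VF N θ H f T - mF N H f|) ≤
      (144 * (N : ℝ) ^ 2 * LL N ^ (2 * w + 5) * f * (128 * LL N / B) ^ (η / 4) / t ^ 2) ^ k := by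
  classical
  have hN0 : (0 : ℝ) < N := by linarith
  have hN1 : (1 : ℝ) ≤ N := by linarith
  have hD0 : 0 < D := by linarith
  have hB36' : (36 : ℝ) ≤ B := by exact_mod_cast hB36
  have hBR : (0 : ℝ) < B := by linarith
  have hH0 : 0 < H := by omega
  have hHr : (0 : ℝ) < H := by exact_mod_cast hH0
  have hHN' : H ≤ N := le_trans (by nlinarith) hH2
  have hHN : (H : ℝ) ≤ N := by exact_mod_cast hHN'
  have hf0 : 0 < f := by omega
  have hfr : (1 : ℝ) ≤ f := by exact_mod_cast hf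
  have hfr0 : (0 : ℝ) < f := by linarith
  have hBH : (B : ℝ) ≤ H := by exact_mod_cast hH1
  set Y := N / H with hY
  have hYB : B ≤ Y := (Nat.le_div_iff_mul_le hH0).2 hH2
  have hYBr : (B : ℝ) ≤ Y := by exact_mod_cast hYB
  have hY1 : 1 ≤ Y := by omega
  have hYN : Y ≤ N := Nat.div_le_self _ _
  have hYR : (1 : ℝ) ≤ Y := by exact_mod_cast hY1
  have hY0 : (0 : ℝ) < Y := by linarith
  have hYle : (H : ℝ) * Y ≤ N := by
    have : H * Y ≤ N := Nat.mul_div_le N H
    exact_mod_cast this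
  have hYge : (N : ℝ) ≤ 2 * (H * Y) := by
    have h1 : N < (Y + 1) * H := by
      have h2 := Nat.div_add_mod N H
      have h3 := Nat.mod_lt N hH0
      rw [← hY] at h2
      nlinarith
    have h2 : (Y + 1) * H ≤ 2 * Y * H := by
      apply Nat.mul_le_mul_right
      omega
    have h3 : N ≤ 2 * Y * H := h1.le.trans h2
    have h4 : (N : ℝ) ≤ 2 * Y * H := by exact_mod_cast h3
    linarith
  set L := LL N with hL
  have hL1 : 1 ≤ L := by
    rw [hL]; unfold LL
    have := Real.log_nonneg hN1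
    linarith
  have hL0 : 0 < L := by linarith
  have hfB' : 160 * (f : ℝ) ≤ B := by
    refine le_trans ?_ hfB
    nlinarith
  -- the dyadic length
  set H' := (H + f - 1) / f with hH'
  obtain ⟨hce1, hce2⟩ := ce67 H f hf
  rw [← hH'] at hce1 hce2
  have hce1r : (H : ℝ) ≤ f * H' := by exact_mod_cast hce1
  have hce2r : (f : ℝ) * H' ≤ 2 * H := by
    have h1 : f * H' ≤ H + f := by omega
    have h2 : (f : ℝ) * H' ≤ H + f := by exact_mod_cast h1
    linarith
  have hH'0 : 0 < H' := by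
    rcases Nat.eq_zero_or_pos H' with h | h
    · rw [h, mul_zero] at hce1; omega
    · exact h
  have hH'r : (0 : ℝ) < H' := by exact_mod_cast hH'0
  have hH'H : (H' : ℝ) ≤ 2 * H := by
    refine le_trans ?_ hce2r
    nlinarith
  have hH'N : (H' : ℝ) ≤ N := by
    have h1 : 2 * (H : ℝ) ≤ B * H := by nlinarith
    have h2 : (B : ℝ) * H ≤ N := by exact_mod_cast hH2
    linarith
  set x : ℝ := H' * Y with hx
  have hx0 : 0 < x := by positivity
  have hNx : (N : ℝ) ≤ 2 * f * x := by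
    refine hYge.trans ?_
    rw [hx]
    have h1 : (H : ℝ) * Y ≤ (f * H') * Y := mul_le_mul_of_nonneg_right hce1r hY0.le
    nlinarith
  have hxN : x ≤ 2 * N := by
    rw [hx]
    have h1 : (H' : ℝ) * Y ≤ (2 * H) * Y := mul_le_mul_of_nonneg_right hH'H hY0.le
    nlinarith
  -- the frequency `f * θ`
  set N1 := N / f with hN1'
  have hfN : f ≤ N := by
    have h1 : (f : ℝ) ≤ N := by linarith
    exact_mod_cast h1
  have hN1pos : 1 ≤ N1 := (Nat.one_le_div_iff hf0).2 hfN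
  have hN1ge : (N : ℝ) ≤ 2 * f * N1 := by
    have h1 : N < (N1 + 1) * f := by
      have h2 := Nat.div_add_mod N f
      have h3 := Nat.mod_lt N hf0
      rw [← hN1'] at h2
      nlinarith
    have h2 : (N1 + 1) * f ≤ 2 * N1 * f := by
      apply Nat.mul_le_mul_right
      omega
    have h3 : N ≤ 2 * N1 * f := h1.le.trans h2
    have h4 : (N : ℝ) ≤ 2 * N1 * f := by exact_mod_cast h3
    linarith
  have hN1le : (f : ℝ) * N1 ≤ N := by
    have : f * N1 ≤ N := Nat.mul_div_le N f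
    exact_mod_cast this
  have hN1N : (N1 : ℝ) ≤ N := by nlinarith
  set D1 : ℝ := D / (2 * f) with hD1
  have hD10 : 0 < D1 := by positivity
  have hBD' : (B : ℝ) * 36 ^ 3 ≤ D := by
    refine le_trans ?_ hBD
    have : (36 : ℝ) ^ 3 ≤ (B : ℝ) ^ 3 := by gcongr
    nlinarith
  have hD12 : 2 ≤ D1 := by
    rw [hD1, le_div_iff₀ (by positivity)]
    linarith
  have hD1N : D1 ≤ N1 := by
    rw [hD1, div_le_iff₀ (by positivity)]
    linarith
  have hFar : Far N1 (f * θ) D1 := by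
    intro m hm
    have h1 := hF (f * m) (Nat.mul_pos hf0 hm)
    have h2 : ((f * m : ℕ) : ℝ) * θ = m * (f * θ) := by push_cast; ring
    rw [h2] at h1
    push_cast at h1
    have h3 := nd_nonneg ((m : ℝ) * (f * θ))
    rw [hD1, div_le_iff₀ (by positivity)]
    have h4 : (N : ℝ) * nd (m * (f * θ)) ≤ (2 * f * N1) * nd (m * (f * θ)) :=
      mul_le_mul_of_nonneg_right hN1ge h3
    have h5 : (0 : ℝ) ≤ f * m := by positivity
    nlinarith
  have hdl := dl N1 (f * θ) D1 hD12 hD1N hFar (Y : ℝ) hY0.le H'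
  have hLN1 : LL N1 ≤ L := by
    rw [hL]; unfold LL
    have h1 : (0 : ℝ) < N1 := by exact_mod_cast hN1pos
    have := Real.log_le_log h1 hN1N
    linarith
  have hLN10 : 0 ≤ LL N1 := by
    unfold LL
    have h1 : (1 : ℝ) ≤ N1 := by exact_mod_cast hN1pos
    have := Real.log_nonneg h1
    linarith
  have b1 : (N1 : ℝ) / D1 ≤ 4 * f * x / D := by
    rw [hD1, div_div_eq_mul_div]
    apply div_le_div_of_nonneg_right _ hD0.le
    nlinarith
  have b2 : (H' : ℝ) ≤ x / B := by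
    rw [le_div_iff₀ hBR, hx]
    exact mul_le_mul_of_nonneg_left hYBr hH'r.le
  have b3 : (Y : ℝ) ≤ f * x / B := by
    rw [le_div_iff₀ hBR, hx]
    have h1 : (Y : ℝ) * B ≤ Y * (f * H') :=
      mul_le_mul_of_nonneg_left (hBH.trans hce1r) hY0.le
    linarith
  have b4 : (H' : ℝ) * Y / D1 ≤ 2 * f * x / D := by
    rw [hD1, div_div_eq_mul_div, ← hx]
    exact div_le_div_of_nonneg_right (le_of_eq (by ring)) hD0.le
  have b5 : f * x / D ≤ f * x / B / 36 := by
    rw [div_div]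
    apply div_le_div_of_nonneg_left (by positivity) (by positivity)
    nlinarith
  have b6 : x / B ≤ f * x / B := by
    apply div_le_div_of_nonneg_right _ hBR.le
    nlinarith
  have b7 : 0 ≤ f * x / B := by positivity
  have hsum1 : (N1 : ℝ) / D1 + H' + Y + H' * Y / D1 ≤ 3 * (f * x / B) := by
    have e1 : 4 * f * x / D = 4 * (f * x / D) := by ring
    have e2 : 2 * f * x / D = 2 * (f * x / D) := by ring
    rw [e1] at b1
    rw [e2] at b4
    linarith
  have hdl2 : ∑ j ∈ Finset.Icc 1 H', mn (Y : ℝ) (j * (f * θ)) ≤ 24 * L * (f * x / B) := by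
    refine hdl.trans ?_
    have h1 : 0 ≤ (N1 : ℝ) / D1 + H' + Y + H' * Y / D1 := by positivity
    calc 8 * LL N1 * ((N1 : ℝ) / D1 + H' + Y + H' * Y / D1)
        ≤ 8 * L * ((N1 : ℝ) / D1 + H' + Y + H' * Y / D1) := by
          apply mul_le_mul_of_nonneg_right _ h1
          linarith
      _ ≤ 8 * L * (3 * (f * x / B)) := mul_le_mul_of_nonneg_left hsum1 (by positivity)
      _ = 24 * L * (f * x / B) := by ring
  have hγ0 : 0 < 160 * L * f / B := by positivity
  have hγ1 : 160 * L * f / B ≤ 1 := by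
    rw [div_le_one hBR]; exact hfB
  have hsum : (Y : ℝ) + 2 * ∑ j ∈ Finset.Ico 1 H', mn Y (j * (f * θ)) ≤
      H' * Y * (160 * L * f / B) := by
    have h1 : ∑ j ∈ Finset.Ico 1 H', mn (Y : ℝ) (j * (f * θ)) ≤
        ∑ j ∈ Finset.Icc 1 H', mn (Y : ℝ) (j * (f * θ)) := by
      refine Finset.sum_le_sum_of_subset_of_nonneg ?_ fun j _ _ => mn_nonneg (by positivity) _
      intro j hj
      rw [Finset.mem_Ico] at hj
      rw [Finset.mem_Icc]
      omega
    have h2 : f * x / B ≤ L * (f * x / B) := le_mul_of_one_le_left b7 hL1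
    have h3 : (H' : ℝ) * Y * (160 * L * f / B) = 160 * (L * (f * x / B)) := by
      rw [hx]; ring
    rw [h3]
    have h4 : 0 ≤ L * (f * x / B) := by positivity
    linarith
  have hlogH : 1 + Real.log H' ≤ L := by
    rw [hL]; unfold LL
    have := Real.log_le_log hH'r hH'N
    linarith
  have hlogY : 1 + Real.log Y ≤ L := by
    rw [hL]; unfold LL
    have hYN' : (Y : ℝ) ≤ N := by exact_mod_cast hYN
    have := Real.log_le_log (by linarith) hYN'
    linarith
  set Lam := ((Finset.Ico H (2 * H)).filter (fun l => f ∣ l)).image (fun l => l / f) with hLam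
  set Nn := (Finset.Icc 1 (N / H)).filter Squarefree with hNn
  set lo : ℕ → ℕ := fun m => m.primeFactors.sup id / f + 1 with hlo
  set hi : ℕ → ℕ := fun m => N / (f * m) with hhi
  have hconc := conc k hk (PP N) H' Y hH'0 hY1 Lam Nn lo hi (f * θ) (160 * L * f / B) η L w
    (by
      intro l hl
      rw [hLam, Finset.mem_image] at hl
      obtain ⟨a, ha, rfl⟩ := hl
      rw [Finset.mem_filter, Finset.mem_Ico] at ha
      obtain ⟨⟨h1, h2⟩, b, rfl⟩ := ha
      rw [Nat.mul_div_cancel_left _ hf0]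
      constructor
      · have h3 : H' < b + 1 := by
          rw [hH', Nat.div_lt_iff_lt_mul hf0]
          have h4 : (b + 1) * f = f * b + f := by ring
          omega
        omega
      · by_contra h3
        push Not at h3
        have h4 : f * (2 * H') ≤ f * b := Nat.mul_le_mul_left f h3
        have h5 : f * (2 * H') = 2 * (f * H') := by ring
        omega)
    (by
      intro n hn
      rw [hNn, Finset.mem_filter, Finset.mem_Icc] at hn
      exact ⟨hn.1.1, hn.1.2, hn.2, primeFactors_subset_PP (hn.1.2.trans hYN)⟩)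
    hsum hγ1 hη hη1 hw hlogH hlogY
  -- the power of `γ`
  have hgam : (160 * L * f / B) ^ (η / 4) ≤ 2 * f * (128 * L / B) ^ (η / 4) := by
    have h1 : 160 * L * f / B = (5 / 4 * f) * (128 * L / B) := by ring
    have h2 : (0 : ℝ) ≤ 128 * L / B := by positivity
    rw [h1, Real.mul_rpow (by positivity) h2]
    refine mul_le_mul_of_nonneg_right ?_ (Real.rpow_nonneg h2 _)
    have h3 : (1 : ℝ) ≤ 5 / 4 * f := by linarith
    calc (5 / 4 * (f : ℝ)) ^ (η / 4) ≤ (5 / 4 * (f : ℝ)) ^ (1 : ℝ) :=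
          Real.rpow_le_rpow_of_exponent_le h3 (by linarith)
      _ = 5 / 4 * f := Real.rpow_one _
      _ ≤ 2 * f := by linarith
  have hE : av (PP N) (fun T => (|VF N θ H f T - mF N H f| ^ 2) ^ k) ≤
      (144 * (N : ℝ) ^ 2 * L ^ (2 * w + 5) * f * (128 * L / B) ^ (η / 4)) ^ k := by
    have h1 : av (PP N) (fun T => (|VF N θ H f T - mF N H f| ^ 2) ^ k) =
        av (PP N) (fun T => |VV Lam Nn lo hi (f * θ) T - mm Lam Nn lo hi| ^ (2 * k)) :=
      av_congr fun T _ => by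
        rw [← pow_mul, VF67 N H f hf hH0, mF67 N H f hf hH0]
    rw [h1]
    refine hconc.trans ?_
    apply pow_le_pow_left₀ (by positivity)
    have h2 : ((H' : ℝ) * Y) ^ 2 ≤ (2 * N) ^ 2 := by
      rw [← hx]
      exact pow_le_pow_left₀ hx0.le hxN 2
    calc 18 * ((H' : ℝ) * Y) ^ 2 * L ^ (2 * w + 5) * (160 * L * f / B) ^ (η / 4)
        ≤ 18 * (2 * (N : ℝ)) ^ 2 * L ^ (2 * w + 5) * (160 * L * f / B) ^ (η / 4) := by
          gcongr
      _ ≤ 18 * (2 * (N : ℝ)) ^ 2 * L ^ (2 * w + 5) * (2 * f * (128 * L / B) ^ (η / 4)) :=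
          mul_le_mul_of_nonneg_left hgam (by positivity)
      _ = 144 * (N : ℝ) ^ 2 * L ^ (2 * w + 5) * f * (128 * L / B) ^ (η / 4) := by ring
  have hmark := markov_pow (S := PP N) (F := fun T => |VF N θ H f T - mF N H f| ^ 2)
    (c := t ^ 2) k (fun T _ => by positivity) (by positivity) hE
  rw [← div_pow] at hmark
  refine le_trans (pr_mono ?_) hmark
  intro T _ hT
  exact pow_le_pow_left₀ ht.le hT.le 2

end Pool.Agent.Helper5.RS
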