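import Pool.Agent.Helper5.RS.SvA
import Pool.Agent.Helper5.RS.SvB
import Pool.Agent.Helper5.RS.SvC
import Pool.Agent.Helper5.RS.SvD

/-!
# Block RS-L6: the conditional variance is `O(N log N / log zs)`

Let `t0 = N / (2 LL N zs^4)`. Outside the event `∃ i ≤ Nat.log 2 N, ∃ d, d' ∈ D zs: t0 < |VF - mF|` (with `H = B 2^i`, `f = lcm d d' ≤ zs^2`), by `v1_major`, `major_expand`, `major_mean` (`Nat.log 2 N + 1 ≤ 2 LL N`; `H ≥ B`):
`∑ ‖XX‖^2 ≤ 2 LL N (N / G zs + N zs^4 / B) + 2 LL N zs^4 t0 ≤ 2 C2 N LL N / log zs + N + N` (`G_lower`; `2 LL N zs^4 ≤ B` by `hzB`; note `(Nat.log 2 N + 1) zs^2 * zs^2 t0 ≤ N`).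
Probability of the event: for `B H > N` there is none (`fluct_large`, `N / B ≤ t0` by `hzB`); for `B H ≤ N` `fluct_small` (`160 LL N zs^2 ≤ B`): every triple `(i, d, d')` has probability at most
`(144 N^2 LL^(2w+5) zs^2 (128 LL/B)^(η/4) / t0^2)^k = (576 LL^(2w+7) zs^10 (..)^(η/4))^k = (32 LL^2 zs^10)^k (18 LL^(2w+5) (..)^(η/4))^k`, there are at most `2 LL zs^2` triples, and `2 LL (18 LL^(2w+5) (..)^(η/4))^k ≤ 1/D^4` (`hfin`; all terms of
`hfin` are `≥ 0`). So it is at most `zs^2 (32 LL^2 zs^10)^k / D^4 ≤ D * D^(1/2) / D^4 = D^(-5/2)` (`zs^(10k+2) ≤ zs^(12k) ≤ D`, `(32 LL^2)^(2k) ≤ D`).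
-/

set_option autoImplicit false

namespace Pool.Agent.Helper5.RS

open Finset Pool.Agent.Helper5.RM

private lemma sve_log (N : ℕ) (hN : 1 ≤ N) : ((Nat.log 2 N + 1 : ℕ) : ℝ) ≤ 2 * LL N := by
  have hN0 : (N : ℝ) ≠ 0 := by positivity
  have h1 : (2 : ℝ) ^ (Nat.log 2 N) ≤ N := by
    exact_mod_cast Nat.pow_log_le_self 2 (by omega)
  have h2 : (Nat.log 2 N : ℝ) * Real.log 2 ≤ Real.log N := by
    have := Real.log_le_log (by positivity) h1
    rwa [Real.log_pow] at this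
  have h3 : (0.6931471803 : ℝ) < Real.log 2 := Real.log_two_gt_d9
  have h4 : (0 : ℝ) ≤ Nat.log 2 N := Nat.cast_nonneg _
  have h5 : (1 : ℝ) ≤ N := by exact_mod_cast hN
  have h6 : 0 ≤ Real.log N := Real.log_nonneg h5
  unfold LL
  push_cast
  nlinarith

private lemma sve_card (zs : ℕ) : ((Pool.Agent.Helper66.AF.BT.D zs).card : ℝ) ≤ zs := by
  have h : (Pool.Agent.Helper66.AF.BT.D zs).card ≤ zs := by
    unfold Pool.Agent.Helper66.AF.BT.D
    exact (Finset.card_filter_le _ _).trans (by simp)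
  exact_mod_cast h

private lemma sve_det (N B zs : ℕ) (z : ℕ) (θ : ℝ) (T : Finset ℕ) (hN : 1 ≤ N) (hzs : 2 ≤ zs)
    (hzB : 160 * LL N * (zs : ℝ) ^ 4 ≤ B)
    (h : ∀ i ∈ Finset.range (Nat.log 2 N + 1), ∀ d ∈ Pool.Agent.Helper66.AF.BT.D zs,
      ∀ d' ∈ Pool.Agent.Helper66.AF.BT.D zs,
        |VF N θ (B * 2 ^ i) (Nat.lcm d d') T - mF N (B * 2 ^ i) (Nat.lcm d d')| ≤
          N / (2 * LL N * (zs : ℝ) ^ 4)) :
    ∑ l ∈ LI N B z 1, ‖XX N θ l T‖ ^ 2 ≤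
      2 * Pool.Agent.Helper66.AF.BT.C2 * N * LL N / Real.log zs + 2 * N := by
  have hN1 : (1 : ℝ) ≤ N := by exact_mod_cast hN
  have hL1 : 1 ≤ LL N := by
    unfold LL
    have := Real.log_nonneg hN1
    linarith
  have hz1 : (2 : ℝ) ≤ zs := by exact_mod_cast hzs
  have hz4 : (zs : ℝ) ≤ (zs : ℝ) ^ 4 := by
    nlinarith [pow_le_pow_right₀ (show (1 : ℝ) ≤ zs by linarith) (show 1 ≤ 4 by norm_num)]
  have hz40 : (0 : ℝ) < (zs : ℝ) ^ 4 := by positivity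
  have hBbig : (zs : ℝ) < B := by nlinarith
  have hB : zs < B := by exact_mod_cast hBbig
  have hB0 : (0 : ℝ) < B := by linarith
  have hB1 : 1 ≤ B := by omega
  have hG := Pool.Agent.Helper66.AF.BT.G_pos (z := zs) (by omega)
  have hlz : 0 < Real.log zs := Real.log_pos (by linarith)
  have hGl := Pool.Agent.Helper66.AF.BT.G_lower (z := zs) (by omega)
  have hn2 := sve_log N hN
  set t0 : ℝ := N / (2 * LL N * (zs : ℝ) ^ 4) with ht0
  have ht00 : 0 ≤ t0 := by positivity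
  have hDc := sve_card zs
  have hDc0 : (0 : ℝ) ≤ ((Pool.Agent.Helper66.AF.BT.D zs).card : ℝ) := Nat.cast_nonneg _
  have hblock : ∀ i ∈ Finset.range (Nat.log 2 N + 1),
      ∑ l ∈ Finset.Ico (B * 2 ^ i) (2 * (B * 2 ^ i)), aj zs l * ‖XP N θ l T‖ ^ 2 ≤
        N / Pool.Agent.Helper66.AF.BT.G zs + N * (zs : ℝ) ^ 4 / B + (zs : ℝ) ^ 4 * t0 := by
    intro i hi
    have hH1 : 1 ≤ B * 2 ^ i := Nat.mul_pos hB1 (by positivity)
    have hHB : (B : ℝ) ≤ ((B * 2 ^ i : ℕ) : ℝ) := by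
      have : B ≤ B * 2 ^ i := Nat.le_mul_of_pos_right B (by positivity)
      exact_mod_cast this
    have hH0 : (0 : ℝ) < ((B * 2 ^ i : ℕ) : ℝ) := by linarith
    refine (major_expand N zs (B * 2 ^ i) θ T (by omega)).trans ?_
    have h1 := major_mean N zs (B * 2 ^ i) (by omega) hH1
    have h2 : ∑ d ∈ Pool.Agent.Helper66.AF.BT.D zs, ∑ d' ∈ Pool.Agent.Helper66.AF.BT.D zs,
        |VF N θ (B * 2 ^ i) (Nat.lcm d d') T - mF N (B * 2 ^ i) (Nat.lcm d d')| ≤ (zs : ℝ) ^ 2 * t0 := by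
      calc ∑ d ∈ Pool.Agent.Helper66.AF.BT.D zs, ∑ d' ∈ Pool.Agent.Helper66.AF.BT.D zs,
            |VF N θ (B * 2 ^ i) (Nat.lcm d d') T - mF N (B * 2 ^ i) (Nat.lcm d d')|
          ≤ ∑ d ∈ Pool.Agent.Helper66.AF.BT.D zs, ∑ d' ∈ Pool.Agent.Helper66.AF.BT.D zs, t0 :=
            Finset.sum_le_sum fun d hd => Finset.sum_le_sum fun d' hd' => h i hi d hd d' hd'
        _ = ((Pool.Agent.Helper66.AF.BT.D zs).card : ℝ) * (((Pool.Agent.Helper66.AF.BT.D zs).card : ℝ) * t0) := by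
            simp only [Finset.sum_const, nsmul_eq_mul]
        _ ≤ (zs : ℝ) * ((zs : ℝ) * t0) := by gcongr
        _ = (zs : ℝ) ^ 2 * t0 := by ring
    have h3 : (N : ℝ) / ((B * 2 ^ i : ℕ) : ℝ) *
        (((B * 2 ^ i : ℕ) : ℝ) / Pool.Agent.Helper66.AF.BT.G zs + (zs : ℝ) ^ 4) ≤
        N / Pool.Agent.Helper66.AF.BT.G zs + N * (zs : ℝ) ^ 4 / B := by
      have e1 : (N : ℝ) / ((B * 2 ^ i : ℕ) : ℝ) *
        (((B * 2 ^ i : ℕ) : ℝ) / Pool.Agent.Helper66.AF.BT.G zs + (zs : ℝ) ^ 4) =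
        N / Pool.Agent.Helper66.AF.BT.G zs + N * (zs : ℝ) ^ 4 / ((B * 2 ^ i : ℕ) : ℝ) := by
        field_simp
      rw [e1]
      gcongr
    have h4 : (zs : ℝ) ^ 2 * ∑ d ∈ Pool.Agent.Helper66.AF.BT.D zs, ∑ d' ∈ Pool.Agent.Helper66.AF.BT.D zs,
        |VF N θ (B * 2 ^ i) (Nat.lcm d d') T - mF N (B * 2 ^ i) (Nat.lcm d d')| ≤ (zs : ℝ) ^ 4 * t0 := by
      calc (zs : ℝ) ^ 2 * ∑ d ∈ Pool.Agent.Helper66.AF.BT.D zs, ∑ d' ∈ Pool.Agent.Helper66.AF.BT.D zs,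
            |VF N θ (B * 2 ^ i) (Nat.lcm d d') T - mF N (B * 2 ^ i) (Nat.lcm d d')|
          ≤ (zs : ℝ) ^ 2 * ((zs : ℝ) ^ 2 * t0) := by gcongr
        _ = (zs : ℝ) ^ 4 * t0 := by ring
    linarith
  have hX0 : 0 ≤ (N : ℝ) / Pool.Agent.Helper66.AF.BT.G zs + N * (zs : ℝ) ^ 4 / B + (zs : ℝ) ^ 4 * t0 := by
    positivity
  refine (v1_major N B z zs θ T (by omega) hB).trans ?_
  refine (Finset.sum_le_sum hblock).trans ?_
  rw [Finset.sum_const, Finset.card_range, nsmul_eq_mul]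
  have hstep : ((Nat.log 2 N + 1 : ℕ) : ℝ) *
      (N / Pool.Agent.Helper66.AF.BT.G zs + N * (zs : ℝ) ^ 4 / B + (zs : ℝ) ^ 4 * t0) ≤
      2 * LL N * (N / Pool.Agent.Helper66.AF.BT.G zs + N * (zs : ℝ) ^ 4 / B + (zs : ℝ) ^ 4 * t0) :=
    mul_le_mul_of_nonneg_right hn2 hX0
  refine hstep.trans ?_
  have hC20 : 0 < Pool.Agent.Helper66.AF.BT.C2 := by
    have := Pool.Agent.Helper66.AF.BT.one_le_C2
    linarith
  have p1 : (N : ℝ) / Pool.Agent.Helper66.AF.BT.G zs ≤ Pool.Agent.Helper66.AF.BT.C2 * N / Real.log zs := by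
    rw [div_le_div_iff₀ hG hlz]
    nlinarith
  have p2 : 2 * LL N * (N * (zs : ℝ) ^ 4 / B) ≤ N := by
    rw [← mul_div_assoc, div_le_iff₀ hB0]
    nlinarith [mul_le_mul_of_nonneg_left hzB (show (0 : ℝ) ≤ N by linarith),
      mul_nonneg (mul_nonneg (show (0 : ℝ) ≤ N by linarith) (show 0 ≤ LL N by linarith)) hz40.le]
  have p3 : 2 * LL N * ((zs : ℝ) ^ 4 * t0) = N := by
    rw [ht0]
    field_simp
  have p4 : 2 * LL N * (N / Pool.Agent.Helper66.AF.BT.G zs) ≤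
      2 * Pool.Agent.Helper66.AF.BT.C2 * N * LL N / Real.log zs := by
    calc 2 * LL N * (N / Pool.Agent.Helper66.AF.BT.G zs)
        ≤ 2 * LL N * (Pool.Agent.Helper66.AF.BT.C2 * N / Real.log zs) := by gcongr
      _ = _ := by ring
  nlinarith

private lemma sve_fin {N : ℕ} {D : ℝ} {B z k w I : ℕ} {η : ℝ} (hP : Par N D B z k w I η) :
    2 * LL N * (18 * LL N ^ (2 * w + 5) * (128 * LL N / B) ^ (η / 4)) ^ k ≤ 1 / D ^ 4 := by
  have hD4 := hP.hD4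
  have hDN := hP.hDN
  have hN1 : (1 : ℝ) ≤ N := by linarith
  have hL1 : 1 ≤ LL N := by
    unfold LL
    have := Real.log_nonneg hN1
    linarith
  have hL0 : 0 ≤ LL N := by linarith
  have hlD : 0 ≤ Real.log D := Real.log_nonneg (by linarith)
  have h := hP.hfin
  have a1 : 0 ≤ (E0 N z (2 * k - 1) / N) ^ k := by
    have : 0 ≤ E0 N z (2 * k - 1) := by
      unfold E0
      positivity
    positivity
  have a2 : 0 ≤ 2 * (I : ℝ) ^ 2 / D ^ 5 := by positivity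
  have a4 : 0 ≤ (I : ℝ) * (2 * B * LL N *
        (72 * LL N ^ (2 * w + 9) * (6 / Real.sqrt B) ^ (η / 4) * (10 * Real.log D) ^ (2 * I)) ^ k) := by
    positivity
  linarith

private lemma sve_one (N : ℕ) (θ D : ℝ) (hF : Far N θ D) (B z k w I : ℕ) (η : ℝ) (hP : Par N D B z k w I η)
    (zs : ℕ) (hzs : 2 ≤ zs) (hzB : 160 * LL N * (zs : ℝ) ^ 4 ≤ B) (i d d' : ℕ)
    (hd : d ∈ Pool.Agent.Helper66.AF.BT.D zs) (hd' : d' ∈ Pool.Agent.Helper66.AF.BT.D zs) :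
    pr (PP N) (fun T => N / (2 * LL N * (zs : ℝ) ^ 4) <
        |VF N θ (B * 2 ^ i) (Nat.lcm d d') T - mF N (B * 2 ^ i) (Nat.lcm d d')|) ≤
      ((32 * LL N ^ 2 * (zs : ℝ) ^ 10) * (18 * LL N ^ (2 * w + 5) * (128 * LL N / B) ^ (η / 4))) ^ k := by
  have hD4 := hP.hD4
  have hDN := hP.hDN
  have hB36 := hP.hB36
  have hN1 : (1 : ℝ) ≤ N := by linarith
  have hN0 : (0 : ℝ) < N := by linarith
  have hL1 : 1 ≤ LL N := by
    unfold LL
    have := Real.log_nonneg hN1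
    linarith
  have hL0 : 0 < LL N := by linarith
  have hz1 : (2 : ℝ) ≤ zs := by exact_mod_cast hzs
  have hB0 : (0 : ℝ) < B := by
    have : (36 : ℝ) ≤ B := by exact_mod_cast hB36
    linarith
  obtain ⟨⟨hd1, hd2⟩, -⟩ := Pool.Agent.Helper66.AF.BT.mem_D.1 hd
  obtain ⟨⟨hd1', hd2'⟩, -⟩ := Pool.Agent.Helper66.AF.BT.mem_D.1 hd'
  set f : ℕ := Nat.lcm d d' with hf
  have hf1 : 1 ≤ f := Nat.lcm_pos (by omega) (by omega)
  have hfz : f ≤ zs ^ 2 := by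
    calc f ≤ d * d' := Nat.le_of_dvd (Nat.mul_pos (by omega) (by omega)) (Nat.lcm_dvd_mul d d')
      _ ≤ zs * zs := Nat.mul_le_mul hd2 hd2'
      _ = zs ^ 2 := by ring
  have hfzr : (f : ℝ) ≤ (zs : ℝ) ^ 2 := by exact_mod_cast hfz
  have hz24 : (zs : ℝ) ^ 2 ≤ (zs : ℝ) ^ 4 := pow_le_pow_right₀ (by linarith) (by norm_num)
  have hf0 : (0 : ℝ) < f := by
    have : (1 : ℝ) ≤ f := by exact_mod_cast hf1
    linarith
  have hfB : 160 * LL N * (f : ℝ) ≤ B := by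
    refine le_trans ?_ hzB
    have : (f : ℝ) ≤ (zs : ℝ) ^ 4 := hfzr.trans hz24
    gcongr
  have ht0 : (0 : ℝ) < N / (2 * LL N * (zs : ℝ) ^ 4) := by positivity
  have hX0 : (0 : ℝ) ≤ (128 * LL N / B) ^ (η / 4) := by positivity
  by_cases hBH : B * (B * 2 ^ i) ≤ N
  · have hBle : B ≤ B * 2 ^ i := Nat.le_mul_of_pos_right B (by positivity)
    refine (fluct_small N θ D hD4 hDN hF B k w η hB36 hP.hBD hP.hk hP.hη0 hP.hη1 hP.hw (B * 2 ^ i) f
      hBle hBH hf1 hfB _ ht0).trans ?_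
    refine pow_le_pow_left₀ (by positivity) ?_ k
    calc 144 * (N : ℝ) ^ 2 * LL N ^ (2 * w + 5) * f * (128 * LL N / B) ^ (η / 4) /
          (N / (2 * LL N * (zs : ℝ) ^ 4)) ^ 2
        = 576 * LL N ^ 2 * LL N ^ (2 * w + 5) * (zs : ℝ) ^ 8 * f * (128 * LL N / B) ^ (η / 4) := by
          field_simp
          ring
      _ ≤ 576 * LL N ^ 2 * LL N ^ (2 * w + 5) * (zs : ℝ) ^ 8 * (zs : ℝ) ^ 2 * (128 * LL N / B) ^ (η / 4) := by
          gcongr
      _ = _ := by ring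
  · push Not at hBH
    rw [pr_false]
    · positivity
    · intro T _ hT
      have hfB' : f ≤ B := by
        have : (f : ℝ) ≤ B := by nlinarith
        exact_mod_cast this
      have h1 := fluct_large N θ D hD4 hDN hF B (B * 2 ^ i) f hB36 hP.hBD
        (Nat.mul_pos (by omega) (by positivity)) hBH hf1 hfB' T
      have h2 : (N : ℝ) / B ≤ N / (2 * LL N * (zs : ℝ) ^ 4) := by
        apply div_le_div_of_nonneg_left hN0.le (by positivity)
        have : 0 < LL N * (zs : ℝ) ^ 4 := by positivity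
        nlinarith
      linarith

theorem v1_sieve (N : ℕ) (θ D : ℝ) (hF : Far N θ D) (B z k w I : ℕ) (η : ℝ) (hP : Par N D B z k w I η)
    (zs : ℕ) (hzs : 2 ≤ zs) (hz12 : (zs : ℝ) ^ (12 * k) ≤ D) (hzB : 160 * LL N * (zs : ℝ) ^ 4 ≤ B)
    (hC : (32 * LL N ^ 2) ^ (2 * k) ≤ D) :
    pr (PP N) (fun T => 2 * Pool.Agent.Helper66.AF.BT.C2 * N * LL N / Real.log zs + 2 * N <
      ∑ l ∈ LI N B z 1, ‖XX N θ l T‖ ^ 2) ≤ D ^ (-(5 / 2) : ℝ) := by
  classical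
  have hD4 := hP.hD4
  have hDN := hP.hDN
  have hD0 : 0 < D := by linarith
  have hN1 : (1 : ℝ) ≤ N := by linarith
  have hN : 1 ≤ N := by exact_mod_cast hN1
  have hL1 : 1 ≤ LL N := by
    unfold LL
    have := Real.log_nonneg hN1
    linarith
  have hL0 : 0 < LL N := by linarith
  have hz1 : (2 : ℝ) ≤ zs := by exact_mod_cast hzs
  have hk := hP.hk
  set t0 : ℝ := N / (2 * LL N * (zs : ℝ) ^ 4) with ht0
  set DD0 := Pool.Agent.Helper66.AF.BT.D zs with hDD0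
  set A : ℝ := 18 * LL N ^ (2 * w + 5) * (128 * LL N / B) ^ (η / 4) with hA
  have hA0 : 0 ≤ A := by positivity
  set P : ℝ := ((32 * LL N ^ 2 * (zs : ℝ) ^ 10) * A) ^ k with hPdef
  have hP0 : 0 ≤ P := by positivity
  have step1 : pr (PP N) (fun T => 2 * Pool.Agent.Helper66.AF.BT.C2 * N * LL N / Real.log zs + 2 * N <
      ∑ l ∈ LI N B z 1, ‖XX N θ l T‖ ^ 2) ≤
      pr (PP N) (fun T => ∃ i ∈ Finset.range (Nat.log 2 N + 1), ∃ d ∈ DD0, ∃ d' ∈ DD0,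
        t0 < |VF N θ (B * 2 ^ i) (Nat.lcm d d') T - mF N (B * 2 ^ i) (Nat.lcm d d')|) := by
    refine pr_mono fun T _ hT => ?_
    by_contra hcon
    push Not at hcon
    have := sve_det N B zs z θ T hN hzs hzB hcon
    linarith
  refine step1.trans ?_
  have step2 : pr (PP N) (fun T => ∃ i ∈ Finset.range (Nat.log 2 N + 1), ∃ d ∈ DD0, ∃ d' ∈ DD0,
        t0 < |VF N θ (B * 2 ^ i) (Nat.lcm d d') T - mF N (B * 2 ^ i) (Nat.lcm d d')|) ≤
      ∑ i ∈ Finset.range (Nat.log 2 N + 1), ∑ d ∈ DD0, ∑ d' ∈ DD0, P := by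
    refine (pr_exists _ _ _).trans (Finset.sum_le_sum fun i _ => ?_)
    refine (pr_exists _ _ _).trans (Finset.sum_le_sum fun d hd => ?_)
    refine (pr_exists _ _ _).trans (Finset.sum_le_sum fun d' hd' => ?_)
    exact sve_one N θ D hF B z k w I η hP zs hzs hzB i d d' hd hd'
  refine step2.trans ?_
  have hcard := sve_card zs
  have hlog := sve_log N hN
  have hfin := sve_fin hP
  calc ∑ i ∈ Finset.range (Nat.log 2 N + 1), ∑ d ∈ DD0, ∑ d' ∈ DD0, P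
      = ((Nat.log 2 N + 1 : ℕ) : ℝ) * ((DD0.card : ℝ) * ((DD0.card : ℝ) * P)) := by
        simp only [Finset.sum_const, nsmul_eq_mul, Finset.card_range]
    _ ≤ (2 * LL N) * ((zs : ℝ) * ((zs : ℝ) * P)) := by gcongr
    _ = ((zs : ℝ) ^ 2 * (zs : ℝ) ^ (10 * k)) * (32 * LL N ^ 2) ^ k * (2 * LL N * A ^ k) := by
        rw [hPdef, mul_pow, mul_pow, ← pow_mul]
        ring
    _ ≤ D * Real.sqrt D * (1 / D ^ 4) := by
        have e1 : (zs : ℝ) ^ 2 * (zs : ℝ) ^ (10 * k) ≤ D := by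
          refine le_trans ?_ hz12
          rw [← pow_add]
          exact pow_le_pow_right₀ (by linarith) (by omega)
        have e2 : (32 * LL N ^ 2) ^ k ≤ Real.sqrt D := by
          apply Real.le_sqrt_of_sq_le
          rw [← pow_mul, mul_comm k 2]
          exact hC
        have e3 : 0 ≤ (32 * LL N ^ 2) ^ k := by positivity
        have e4 : 0 ≤ 2 * LL N * A ^ k := by positivity
        gcongr
    _ = D ^ (-(5 / 2) : ℝ) := by
        rw [Real.sqrt_eq_rpow]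
        have e1 : D * D ^ (1 / 2 : ℝ) = D ^ (3 / 2 : ℝ) := by
          rw [show (3 / 2 : ℝ) = 1 + 1 / 2 by norm_num, Real.rpow_add hD0, Real.rpow_one]
        have e2 : 1 / D ^ 4 = D ^ (-4 : ℝ) := by
          rw [Real.rpow_neg hD0.le, one_div]
          norm_cast
        rw [e1, e2, ← Real.rpow_add hD0]
        norm_num

end Pool.Agent.Helper5.RS
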