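import Pool.Agent.Helper5.RS.ParL
import Pool.Agent.Helper5.RS.PG
import Pool.Agent.Helper5.RS.SvE

/-!
# Block RS-L7b: one point, `(log LL N)^8 ≤ log D`

`u = log (LL N)`. Parameters from `par_large2`; `zs = ⌊D^(1/(12 k))⌋`: `log D / (12 k) ≥ u^8 / (12 * 6001 u^2) ≥ 10` for large `N`, so `zs ≥ 2`, `zs^(12k) ≤ D`, `log zs ≥ log D / (24 k) ≥ log D / (150000 u^2)`.
`hzB`: `log (160 LL N zs^4) ≤ 6 + u + log D / (3k) ≤ 6 + u + log D / (18000 u^2) ≤ log D / (100 u) ≤ log B`; `hC`: `2k log (32 LL^2) ≤ 12002 u^2 (2u + 4) ≤ u^8 ≤ log D`.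
`v1_sieve` gives `hV1` with `V = 2 C2 N LL N / log zs + 2N ≤ C N LL N u^2 / log D` (`log D ≤ LL N`) and `p1 = D^(-5/2)`. `point_gen`: threshold `5 √N + √(5 log D V) ≤ √N (5 + √(5 C u^2 LL N)) ≤ √N LL N^(1/2+ε)` for large `N`.
Probability `≤ D^(-5/2) + 8 LL N^2 D^(-5/2) + 1/D^4 ≤ D^(-9/4)` for large `N` (`D ≥ exp (u^8)`, so `D^(1/4) ≥ 16 LL N^2`).
-/

set_option autoImplicit false

namespace Pool.Agent.Helper5.RS

open Finset Pool.Agent.Helper5.RM

/-- large `N` -/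
private lemma event24B (ε : ℝ) (hε : 0 < ε) (c : ℝ) (m : ℕ) : ∃ N0 : ℕ, ∀ N : ℕ, N0 ≤ N →
    1 ≤ N ∧ 1000 ≤ Real.log (LL N) ∧ c * Real.log (LL N) ^ m ≤ LL N ^ ε := by
  have h1 : Filter.Tendsto (fun N : ℕ => LL N) Filter.atTop Filter.atTop := by
    unfold LL
    exact Filter.tendsto_atTop_add_const_left _ _ (Real.tendsto_log_atTop.comp tendsto_natCast_atTop_atTop)
  have h2 : Filter.Tendsto (fun N : ℕ => Real.log (LL N)) Filter.atTop Filter.atTop :=
    Real.tendsto_log_atTop.comp h1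
  have h3 := (isLittleO_log_rpow_rpow_atTop (m : ℝ) hε).comp_tendsto h1
  have h4 := h3.bound (show (0 : ℝ) < 1 / (|c| + 1) by positivity)
  have e1 := h2.eventually_ge_atTop (1000 : ℝ)
  have e3 := h1.eventually_ge_atTop 1
  obtain ⟨N0, h⟩ := Filter.eventually_atTop.1 ((e1.and h4).and (e3.and (Filter.eventually_ge_atTop 1)))
  refine ⟨N0, fun N hN => ?_⟩
  obtain ⟨⟨a, b⟩, cL, d⟩ := h N hN
  refine ⟨d, a, ?_⟩
  simp only [Function.comp, Real.rpow_natCast] at b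
  have hu : 0 ≤ Real.log (LL N) := by linarith
  have hL : 0 < LL N := by linarith
  rw [Real.norm_eq_abs, Real.norm_eq_abs, abs_of_nonneg (pow_nonneg hu m),
    abs_of_nonneg (Real.rpow_nonneg hL.le ε), one_div, inv_mul_eq_div, le_div_iff₀ (by positivity)] at b
  have hc : c ≤ |c| + 1 := (le_abs_self c).trans (by linarith)
  calc c * Real.log (LL N) ^ m ≤ (|c| + 1) * Real.log (LL N) ^ m :=
        mul_le_mul_of_nonneg_right hc (pow_nonneg hu m)
    _ = Real.log (LL N) ^ m * (|c| + 1) := by ring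
    _ ≤ LL N ^ ε := b

/-- the final bound of the probability -/
private lemma prob24B {D L p1 : ℝ} {I : ℕ} (hD : 1 ≤ D) (hL : 1 ≤ L) (hI : (I : ℝ) ≤ 2 * L)
    (h : (16 * L ^ 2) ^ 4 ≤ D) (hp : p1 ≤ D ^ (-(5 / 2) : ℝ)) :
    p1 + 2 * (I : ℝ) ^ 2 * D ^ (-(5 / 2) : ℝ) + 1 / D ^ 4 ≤ D ^ (-(9 / 4) : ℝ) := by
  have hD0 : 0 < D := by linarith
  have h1 : 16 * L ^ 2 ≤ D ^ (1 / 4 : ℝ) := by
    calc 16 * L ^ 2 = ((16 * L ^ 2) ^ 4) ^ (1 / 4 : ℝ) := by
          rw [← Real.rpow_natCast (16 * L ^ 2) 4, ← Real.rpow_mul (by positivity)]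
          norm_num
      _ ≤ D ^ (1 / 4 : ℝ) := Real.rpow_le_rpow (by positivity) h (by norm_num)
  have h2 : D ^ (-(9 / 4) : ℝ) = D ^ (1 / 4 : ℝ) * D ^ (-(5 / 2) : ℝ) := by
    rw [← Real.rpow_add hD0]
    norm_num
  have h3 : 1 / D ^ 4 ≤ D ^ (-(5 / 2) : ℝ) := by
    rw [show (1 : ℝ) / D ^ 4 = D ^ (-4 : ℝ) by
      rw [Real.rpow_neg hD0.le, one_div, ← Real.rpow_natCast D 4]
      norm_num]
    exact Real.rpow_le_rpow_of_exponent_le hD (by norm_num)
  have h4 : 0 < D ^ (-(5 / 2) : ℝ) := Real.rpow_pos_of_pos hD0 _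
  have h5 : 2 * (I : ℝ) ^ 2 ≤ 8 * L ^ 2 := by
    have : (I : ℝ) ^ 2 ≤ (2 * L) ^ 2 := pow_le_pow_left₀ (Nat.cast_nonneg I) hI 2
    nlinarith
  have h6 : (2 + 8 * L ^ 2) ≤ 16 * L ^ 2 := by nlinarith
  rw [h2]
  calc p1 + 2 * (I : ℝ) ^ 2 * D ^ (-(5 / 2) : ℝ) + 1 / D ^ 4
      ≤ D ^ (-(5 / 2) : ℝ) + 8 * L ^ 2 * D ^ (-(5 / 2) : ℝ) + D ^ (-(5 / 2) : ℝ) := by
        have := mul_le_mul_of_nonneg_right h5 h4.le
        linarith
    _ = (2 + 8 * L ^ 2) * D ^ (-(5 / 2) : ℝ) := by ring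
    _ ≤ D ^ (1 / 4 : ℝ) * D ^ (-(5 / 2) : ℝ) := by
        exact mul_le_mul_of_nonneg_right (h6.trans h1) h4.le

/-- the threshold -/
private lemma thr24B {N : ℕ} {ε L W c : ℝ} (hL : 1 ≤ L) (hc : 0 ≤ c) (hW : W ≤ N * L * c ^ 2) (h : 5 + c ≤ L ^ ε) :
    5 * Real.sqrt N + Real.sqrt W ≤ Real.sqrt N * L ^ (1 / 2 + ε) := by
  have hL0 : 0 < L := by linarith
  have h1 : Real.sqrt W ≤ Real.sqrt N * Real.sqrt L * c := by
    calc Real.sqrt W ≤ Real.sqrt (N * L * c ^ 2) := Real.sqrt_le_sqrt hW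
      _ = Real.sqrt N * Real.sqrt L * c := by
          rw [Real.sqrt_mul (by positivity), Real.sqrt_mul (Nat.cast_nonneg N), Real.sqrt_sq hc]
  have h2 : L ^ (1 / 2 + ε) = Real.sqrt L * L ^ ε := by
    rw [Real.rpow_add hL0, Real.sqrt_eq_rpow]
  have h3 : 1 ≤ Real.sqrt L := Real.one_le_sqrt.mpr hL
  rw [h2]
  have h4 : 0 ≤ Real.sqrt N := Real.sqrt_nonneg _
  calc 5 * Real.sqrt N + Real.sqrt W ≤ 5 * Real.sqrt N + Real.sqrt N * Real.sqrt L * c := by linarith
    _ ≤ Real.sqrt N * Real.sqrt L * (5 + c) := by nlinarith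
    _ ≤ Real.sqrt N * Real.sqrt L * L ^ ε := mul_le_mul_of_nonneg_left h (by positivity)
    _ = Real.sqrt N * (Real.sqrt L * L ^ ε) := by ring

/-- the choice of `zs` -/
private lemma zs24 {L D B : ℝ} {k : ℕ} {u : ℝ} (hu : 1000 ≤ u) (hL : L = Real.exp u) (hD : 1 ≤ D) (huD : u ^ 8 ≤ Real.log D)
    (hk1 : (k : ℝ) ≤ 6001 * u ^ 2) (hk2 : 6000 * u ^ 2 ≤ k) (hB0 : 0 < B) (hB : Real.log D ≤ 100 * u * Real.log B) :
    ∃ zs : ℕ, 2 ≤ zs ∧ (zs : ℝ) ^ (12 * k) ≤ D ∧ 160 * L * (zs : ℝ) ^ 4 ≤ B ∧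
      Real.log D / (150000 * u ^ 2) ≤ Real.log zs := by
  have hu0 : 0 < u := by linarith
  have hD0 : 0 < D := by linarith
  have hkpos : (0 : ℝ) < k := lt_of_lt_of_le (by positivity) hk2
  have hk0 : k ≠ 0 := by
    rintro rfl
    simp at hkpos
  have hu8 : u ^ 8 = u ^ 6 * u ^ 2 := by ring
  have hu6 : (1000 : ℝ) ^ 6 ≤ u ^ 6 := pow_le_pow_left₀ (by norm_num) hu 6
  have hu2 : 0 < u ^ 2 := by positivity
  set X : ℝ := Real.exp (Real.log D / (12 * k)) with hX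
  have hXlog : Real.log X = Real.log D / (12 * k) := Real.log_exp _
  have hX0 : 0 < X := Real.exp_pos _
  have h10 : 10 ≤ Real.log D / (12 * k) := by
    rw [le_div_iff₀ (by positivity)]
    nlinarith
  have hX4 : 4 ≤ X := by
    have := Real.add_one_le_exp (Real.log D / (12 * k))
    linarith
  have hfl : X - 1 < (⌊X⌋₊ : ℝ) := by
    have := Nat.lt_floor_add_one X
    linarith
  have hfle : (⌊X⌋₊ : ℝ) ≤ X := Nat.floor_le hX0.le
  have hlogDpos : 0 < Real.log D := lt_of_lt_of_le (by positivity) huD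
  refine ⟨⌊X⌋₊, ?_, ?_, ?_, ?_⟩
  · exact Nat.le_floor (by push_cast; linarith)
  · calc (⌊X⌋₊ : ℝ) ^ (12 * k) ≤ X ^ (12 * k) := pow_le_pow_left₀ (Nat.cast_nonneg _) hfle _
      _ = D := by
        rw [hX, ← Real.exp_nat_mul]
        push_cast
        rw [mul_div_cancel₀ _ (by positivity), Real.exp_log hD0]
  · have h1 : (⌊X⌋₊ : ℝ) ^ 4 ≤ X ^ 4 := pow_le_pow_left₀ (Nat.cast_nonneg _) hfle _
    have h2 : X ^ 4 = Real.exp (4 * (Real.log D / (12 * k))) := by
      rw [hX, ← Real.exp_nat_mul]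
      norm_num
    have h3 : (160 : ℝ) ≤ Real.exp 6 := by
      have h4 : (2 : ℝ) ^ 6 ≤ Real.exp 1 ^ 6 := pow_le_pow_left₀ (by norm_num) (by
        have := Real.exp_one_gt_d9
        linarith) 6
      have h5 : (2.5 : ℝ) ^ 6 ≤ Real.exp 1 ^ 6 := pow_le_pow_left₀ (by norm_num) (by
        have := Real.exp_one_gt_d9
        linarith) 6
      have h6 : Real.exp 1 ^ 6 = Real.exp 6 := by
        rw [← Real.exp_nat_mul]
        norm_num
      rw [← h6]
      refine le_trans (by norm_num) h5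
    have h7 : Real.exp 6 * Real.exp u * Real.exp (4 * (Real.log D / (12 * k))) ≤ Real.exp (Real.log B) := by
      rw [← Real.exp_add, ← Real.exp_add]
      refine Real.exp_le_exp.mpr ?_
      have h8 : 4 * (Real.log D / (12 * k)) ≤ Real.log D / (200 * u) := by
        rw [mul_div_assoc', div_le_div_iff₀ (by positivity) (by positivity)]
        have h9 : 4 * (200 * u) ≤ 12 * (k : ℝ) := by nlinarith
        nlinarith
      have h9 : 6 + u ≤ Real.log D / (200 * u) := by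
        rw [le_div_iff₀ (by positivity)]
        refine le_trans ?_ huD
        rw [hu8]
        have : (6 + u) * (200 * u) ≤ 400 * u ^ 2 := by nlinarith
        nlinarith
      have h10 : Real.log D / (100 * u) ≤ Real.log B := by
        rw [div_le_iff₀ (by positivity)]
        linarith
      have h11 : Real.log D / (100 * u) = Real.log D / (200 * u) + Real.log D / (200 * u) := by
        field_simp
        ring
      linarith
    rw [Real.exp_log hB0] at h7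
    refine le_trans ?_ h7
    rw [hL]
    have h12 : (⌊X⌋₊ : ℝ) ^ 4 ≤ Real.exp (4 * (Real.log D / (12 * k))) := h1.trans h2.le
    gcongr
  · have h1 : X / 2 ≤ (⌊X⌋₊ : ℝ) := by linarith
    have h2 : Real.log (X / 2) ≤ Real.log (⌊X⌋₊ : ℝ) := Real.log_le_log (by positivity) h1
    rw [Real.log_div hX0.ne' (by norm_num), hXlog] at h2
    have h3 : Real.log 2 ≤ 1 := by
      have := Real.log_two_lt_d9
      linarith
    have h4 : Real.log D / (24 * k) ≤ Real.log (⌊X⌋₊ : ℝ) := by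
      have h5 : Real.log D / (12 * k) = Real.log D / (24 * k) + Real.log D / (24 * k) := by
        field_simp
        ring
      linarith
    refine le_trans ?_ h4
    refine div_le_div_of_nonneg_left hlogDpos.le (by positivity) ?_
    nlinarith

private lemma hC24 {L D : ℝ} {k : ℕ} {u : ℝ} (hu : 1000 ≤ u) (hL : L = Real.exp u) (hD : 1 ≤ D)
    (huD : u ^ 8 ≤ Real.log D) (hk1 : (k : ℝ) ≤ 6001 * u ^ 2) : (32 * L ^ 2) ^ (2 * k) ≤ D := by
  have hu0 : 0 < u := by linarith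
  have hD0 : 0 < D := by linarith
  have h1 : (32 : ℝ) * L ^ 2 ≤ Real.exp (4 + 2 * u) := by
    have h2 : (32 : ℝ) ≤ Real.exp 4 := by
      have h5 : (2.5 : ℝ) ^ 4 ≤ Real.exp 1 ^ 4 := pow_le_pow_left₀ (by norm_num) (by
        have := Real.exp_one_gt_d9
        linarith) 4
      have h6 : Real.exp 1 ^ 4 = Real.exp 4 := by
        rw [← Real.exp_nat_mul]
        norm_num
      rw [← h6]
      refine le_trans (by norm_num) h5
    have h3 : L ^ 2 = Real.exp (2 * u) := by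
      rw [hL, ← Real.exp_nat_mul]
      norm_num
    rw [Real.exp_add, h3]
    exact mul_le_mul_of_nonneg_right h2 (Real.exp_pos _).le
  have hL0 : 0 < L := by rw [hL]; exact Real.exp_pos _
  calc (32 * L ^ 2) ^ (2 * k) ≤ Real.exp (4 + 2 * u) ^ (2 * k) := pow_le_pow_left₀ (by positivity) h1 _
    _ = Real.exp (2 * k * (4 + 2 * u)) := by
        rw [← Real.exp_nat_mul]
        push_cast
        ring_nf
    _ ≤ Real.exp (Real.log D) := by
        refine Real.exp_le_exp.mpr (le_trans ?_ huD)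
        have h2 : 4 + 2 * u ≤ 3 * u := by linarith
        have h3 : 2 * (k : ℝ) * (4 + 2 * u) ≤ 2 * (6001 * u ^ 2) * (3 * u) := by
          have : (0 : ℝ) ≤ k := Nat.cast_nonneg k
          gcongr
        have h4 : (1000 : ℝ) ^ 5 ≤ u ^ 5 := pow_le_pow_left₀ (by norm_num) hu 5
        have h5 : u ^ 8 = u ^ 5 * u ^ 3 := by ring
        have h6 : 2 * (6001 * u ^ 2) * (3 * u) = 36006 * u ^ 3 := by ring
        have h7 : 0 < u ^ 3 := by positivity
        rw [h5]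
        nlinarith
    _ = D := Real.exp_log hD0

private lemma hD24 {L D : ℝ} {u : ℝ} (hu : 1000 ≤ u) (hL : L = Real.exp u) (hD : 1 ≤ D)
    (huD : u ^ 8 ≤ Real.log D) : (16 * L ^ 2) ^ 4 ≤ D := by
  have h1 := hC24 (k := 2) hu hL hD huD (by
    push_cast
    nlinarith)
  refine le_trans ?_ h1
  have hL0 : 0 < L := by rw [hL]; exact Real.exp_pos _
  refine pow_le_pow_left₀ (by positivity) ?_ 4
  nlinarith [sq_nonneg L]

theorem point_farB (ε : ℝ) (hε : 0 < ε) : ∃ N0 : ℕ, ∀ N : ℕ, N0 ≤ N → ∀ θ D : ℝ, Far N θ D →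
    1 ≤ D → D ≤ N → Real.log (LL N) ^ 8 ≤ Real.log D →
    pr (PP N) (fun T => Real.sqrt N * LL N ^ (1 / 2 + ε) < ‖SN N T θ‖) ≤ D ^ (-(9 / 4) : ℝ) := by
  obtain ⟨N1, h1⟩ := par_large2
  obtain ⟨N2, h2⟩ := event24B ε hε (5 + (1500000 * Pool.Agent.Helper66.AF.BT.C2 + 10)) 1
  have hC2 := Pool.Agent.Helper66.AF.BT.one_le_C2
  set C2 := Pool.Agent.Helper66.AF.BT.C2 with hC2def
  refine ⟨max N1 N2, fun N hN θ D hF hD hDN hlD => ?_⟩
  obtain ⟨hN1, hu, hev⟩ := h2 N ((le_max_right _ _).trans hN)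
  have hN1r : (1 : ℝ) ≤ N := by exact_mod_cast hN1
  have hlogN : 0 ≤ Real.log N := Real.log_nonneg hN1r
  have hL1 : 1 ≤ LL N := by unfold LL; linarith
  have hL0 : 0 < LL N := by linarith
  have hLexp : LL N = Real.exp (Real.log (LL N)) := (Real.exp_log hL0).symm
  obtain ⟨B, z, k, w, I, η, hP, hk1, hk2, hlB⟩ := h1 N ((le_max_left _ _).trans hN) D hlD hD hDN
  have hD4 := hP.hD4
  have hD0 : 0 < D := by linarith
  have hB0 : (0 : ℝ) < B := by
    have := hP.hBL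
    linarith
  set u := Real.log (LL N) with hudef
  have hu0 : 0 < u := by linarith
  have hlogD : 0 < Real.log D := lt_of_lt_of_le (by positivity) hlD
  have hlogDL : Real.log D ≤ LL N := by
    have : Real.log D ≤ Real.log N := Real.log_le_log hD0 hDN
    unfold LL
    linarith
  obtain ⟨zs, hz2, hz12, hzB, hzlog⟩ := zs24 (L := LL N) hu hLexp hD hlD hk1 hk2 hB0 hlB
  have hC := hC24 (L := LL N) hu hLexp hD hlD hk1
  have hv := v1_sieve N θ D hF B z k w I η hP zs hz2 hz12 hzB hC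
  rw [← hC2def] at hv
  have hlz : 0 < Real.log zs := lt_of_lt_of_le (by positivity) hzlog
  have hV0 : 0 ≤ 2 * C2 * N * LL N / Real.log zs + 2 * N := by positivity
  have hpg := point_gen N θ D hF B z k w I η hP _ _ hV0 hv
  have hthr : 5 * Real.sqrt N + Real.sqrt (5 * Real.log D * (2 * C2 * N * LL N / Real.log zs + 2 * N)) ≤
      Real.sqrt N * LL N ^ (1 / 2 + ε) := by
    refine thr24B (c := (1500000 * C2 + 10) * u) hL1 (by positivity) ?_ ?_
    · have h3 : Real.log D / Real.log zs ≤ 150000 * u ^ 2 := by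
        rw [div_le_iff₀ hlz]
        have := (div_le_iff₀ (show (0 : ℝ) < 150000 * u ^ 2 by positivity)).mp hzlog
        linarith
      have h4 : 5 * Real.log D * (2 * C2 * N * LL N / Real.log zs + 2 * N) =
          10 * C2 * (N * LL N) * (Real.log D / Real.log zs) + 10 * N * Real.log D := by
        field_simp
        ring
      rw [h4]
      have h5 : 10 * C2 * (N * LL N) * (Real.log D / Real.log zs) ≤ 10 * C2 * (N * LL N) * (150000 * u ^ 2) :=
        mul_le_mul_of_nonneg_left h3 (by positivity)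
      have h6 : 10 * N * Real.log D ≤ 10 * (N * LL N) * u ^ 2 := by
        have h7 : (1 : ℝ) ≤ u ^ 2 := one_le_pow₀ (by linarith)
        have h8 : 10 * N * Real.log D ≤ 10 * (N * LL N) := by nlinarith
        have h9 : 0 ≤ (N : ℝ) * LL N := by positivity
        nlinarith
      have h7 : 10 * C2 * (N * LL N) * (150000 * u ^ 2) + 10 * (N * LL N) * u ^ 2 =
          (N * LL N) * ((1500000 * C2 + 10) * u ^ 2) := by ring
      have h8 : (1500000 * C2 + 10) * u ^ 2 ≤ ((1500000 * C2 + 10) * u) ^ 2 := by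
        have h9 : (1 : ℝ) ≤ 1500000 * C2 + 10 := by linarith
        have h10 : 0 ≤ u ^ 2 := by positivity
        rw [mul_pow]
        refine mul_le_mul_of_nonneg_right ?_ h10
        nlinarith
      have h9 : 0 ≤ (N : ℝ) * LL N := by positivity
      have h10 := mul_le_mul_of_nonneg_left h8 h9
      linarith
    · rw [pow_one] at hev
      nlinarith
  have hpr : pr (PP N) (fun T => Real.sqrt N * LL N ^ (1 / 2 + ε) < ‖SN N T θ‖) ≤
      pr (PP N) (fun T => 5 * Real.sqrt N +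
        Real.sqrt (5 * Real.log D * (2 * C2 * N * LL N / Real.log zs + 2 * N)) < ‖SN N T θ‖) :=
    pr_mono fun T _ hT => lt_of_le_of_lt hthr hT
  refine hpr.trans (hpg.trans ?_)
  exact prob24B (by linarith) hL1 hP.hIL (hD24 hu hLexp hD hlD) le_rfl

end Pool.Agent.Helper5.RS
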