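import Pool.Agent.Helper5.RS.PTA
import Pool.Agent.Helper5.RS.PTB

/-!
# One point of large complexity (assembly)
-/

set_option autoImplicit false

namespace Pool.Agent.Helper5.RS

open Finset Pool.Agent.Helper5.RM

theorem point_far : ∃ C0 : ℕ, ∀ ε : ℝ, 0 < ε → ∃ N0 : ℕ, ∀ N : ℕ, N0 ≤ N → ∀ θ D : ℝ, Far N θ D →
    LL N ^ C0 ≤ D → D ≤ N →
    pr (PP N) (fun T => Real.sqrt N * LL N ^ (1 / 2 + ε) < ‖SN N T θ‖) ≤ D ^ (-(9 / 4) : ℝ) := by
  obtain ⟨C0, hA⟩ := point_farA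
  refine ⟨C0, fun ε hε => ?_⟩
  obtain ⟨N1, h1⟩ := hA ε hε
  obtain ⟨N2, h2⟩ := point_farB ε hε
  refine ⟨max (max N1 N2) 1, fun N hN θ D hF hD hDN => ?_⟩
  have hN1 : N1 ≤ N := (le_max_left _ _).trans ((le_max_left _ _).trans hN)
  have hN2 : N2 ≤ N := (le_max_right _ _).trans ((le_max_left _ _).trans hN)
  have hN3 : 1 ≤ N := (le_max_right _ _).trans hN
  have hL : 1 ≤ LL N := by
    unfold LL
    have : 0 ≤ Real.log N := Real.log_nonneg (by exact_mod_cast hN3)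
    linarith
  have hD1 : 1 ≤ D := (one_le_pow₀ hL).trans hD
  rcases le_total (Real.log D) (Real.log (LL N) ^ 8) with h | h
  · exact h1 N hN1 θ D hF hD hDN h
  · exact h2 N hN2 θ D hF hD1 hDN h

end Pool.Agent.Helper5.RS
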