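import Pool.Agent.Helper5.RS.PG

/-!
# Block RS-L7a: one point, `log D ≤ (log LL N)^8`

`u = log (LL N)`. `par_small` (`RM/PARB`, constant `C0'`) gives the parameters for `LL N ^ C0' ≤ D`, `log D ≤ u^8`. `V = 4 N LL N`; `hV1` of `point_gen` with `p1 = 1/D^4`: `v1` of `RM/B8c` and `hfin` (all terms of `hfin` are `≥ 0`). `point_gen`: threshold
`5 √N + √(5 log D * 4 N LL N) ≤ √N (5 + √(20 u^8 LL N)) ≤ √N LL N^(1/2+ε)` for large `N` (`LL N^ε = exp (ε u)` beats every power of `u`). Probability `≤ 2/D^4 + 8 LL N^2 D^(-5/2) ≤ D^(-9/4)` if `D^(1/4) ≥ 16 LL N^2` (`I ≤ 2 LL N`), which holds for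
`D ≥ LL N ^ C0`, `C0 = C0' + 12`, large `N`.
-/

set_option autoImplicit false

namespace Pool.Agent.Helper5.RS

open Finset Pool.Agent.Helper5.RM

/-- large `N` -/
private lemma event24A (ε : ℝ) (hε : 0 < ε) (c : ℝ) (m : ℕ) : ∃ N0 : ℕ, ∀ N : ℕ, N0 ≤ N →
    1 ≤ N ∧ 1000 ≤ Real.log (LL N) ∧ c * Real.log (LL N) ^ m ≤ LL N ^ ε := by
  have h1 : Filter.Tendsto (fun N : ℕ => LL N) Filter.atTop Filter.atTop := by
    unfold LL
    exact Filter.tendsto_atTop_add_const_left _ _ (Real.tendsto_log_atTop.comp tendsto_natCast_atTop_atTop)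
  have h2 : Filter.Tendsto (fun N : ℕ => Real.log (LL N)) Filter.atTop Filter.atTop :=
    Real.tendsto_log_atTop.comp h1
  have h3 := (isLittleO_log_rpow_rpow_atTop (m : ℝ) hε).comp_tendsto h1
  have h4 := h3.bound (show (0 : ℝ) < 1 / (|c| + 1) by positivity)
  have e1 := h2.eventually_ge_atTop (1000 : ℝ)
  have e3 := h1.eventually_ge_atTop 1
  obtain ⟨N0, h⟩ := Filter.eventually_atTop.1 ((e1.and h4).and (e3.and (Filter.eventually_ge_atTop 1)))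
  refine ⟨N0, fun N hN => ?_⟩
  obtain ⟨⟨a, b⟩, cL, d⟩ := h N hN
  refine ⟨d, a, ?_⟩
  simp only [Function.comp, Real.rpow_natCast] at b
  have hu : 0 ≤ Real.log (LL N) := by linarith
  have hL : 0 < LL N := by linarith
  rw [Real.norm_eq_abs, Real.norm_eq_abs, abs_of_nonneg (pow_nonneg hu m),
    abs_of_nonneg (Real.rpow_nonneg hL.le ε), one_div, inv_mul_eq_div, le_div_iff₀ (by positivity)] at b
  have hc : c ≤ |c| + 1 := (le_abs_self c).trans (by linarith)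
  calc c * Real.log (LL N) ^ m ≤ (|c| + 1) * Real.log (LL N) ^ m :=
        mul_le_mul_of_nonneg_right hc (pow_nonneg hu m)
    _ = Real.log (LL N) ^ m * (|c| + 1) := by ring
    _ ≤ LL N ^ ε := b

/-- the final bound of the probability -/
private lemma prob24A {D L p1 : ℝ} {I : ℕ} (hD : 1 ≤ D) (hL : 1 ≤ L) (hI : (I : ℝ) ≤ 2 * L)
    (h : (16 * L ^ 2) ^ 4 ≤ D) (hp : p1 ≤ D ^ (-(5 / 2) : ℝ)) :
    p1 + 2 * (I : ℝ) ^ 2 * D ^ (-(5 / 2) : ℝ) + 1 / D ^ 4 ≤ D ^ (-(9 / 4) : ℝ) := by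
  have hD0 : 0 < D := by linarith
  have h1 : 16 * L ^ 2 ≤ D ^ (1 / 4 : ℝ) := by
    calc 16 * L ^ 2 = ((16 * L ^ 2) ^ 4) ^ (1 / 4 : ℝ) := by
          rw [← Real.rpow_natCast (16 * L ^ 2) 4, ← Real.rpow_mul (by positivity)]
          norm_num
      _ ≤ D ^ (1 / 4 : ℝ) := Real.rpow_le_rpow (by positivity) h (by norm_num)
  have h2 : D ^ (-(9 / 4) : ℝ) = D ^ (1 / 4 : ℝ) * D ^ (-(5 / 2) : ℝ) := by
    rw [← Real.rpow_add hD0]
    norm_num
  have h3 : 1 / D ^ 4 ≤ D ^ (-(5 / 2) : ℝ) := by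
    rw [show (1 : ℝ) / D ^ 4 = D ^ (-4 : ℝ) by
      rw [Real.rpow_neg hD0.le, one_div, ← Real.rpow_natCast D 4]
      norm_num]
    exact Real.rpow_le_rpow_of_exponent_le hD (by norm_num)
  have h4 : 0 < D ^ (-(5 / 2) : ℝ) := Real.rpow_pos_of_pos hD0 _
  have h5 : 2 * (I : ℝ) ^ 2 ≤ 8 * L ^ 2 := by
    have : (I : ℝ) ^ 2 ≤ (2 * L) ^ 2 := pow_le_pow_left₀ (Nat.cast_nonneg I) hI 2
    nlinarith
  have h6 : (2 + 8 * L ^ 2) ≤ 16 * L ^ 2 := by nlinarith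
  rw [h2]
  calc p1 + 2 * (I : ℝ) ^ 2 * D ^ (-(5 / 2) : ℝ) + 1 / D ^ 4
      ≤ D ^ (-(5 / 2) : ℝ) + 8 * L ^ 2 * D ^ (-(5 / 2) : ℝ) + D ^ (-(5 / 2) : ℝ) := by
        have := mul_le_mul_of_nonneg_right h5 h4.le
        linarith
    _ = (2 + 8 * L ^ 2) * D ^ (-(5 / 2) : ℝ) := by ring
    _ ≤ D ^ (1 / 4 : ℝ) * D ^ (-(5 / 2) : ℝ) := by
        exact mul_le_mul_of_nonneg_right (h6.trans h1) h4.le

/-- the threshold -/
private lemma thr24A {N : ℕ} {ε L W c : ℝ} (hL : 1 ≤ L) (hc : 0 ≤ c) (hW : W ≤ N * L * c ^ 2) (h : 5 + c ≤ L ^ ε) :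
    5 * Real.sqrt N + Real.sqrt W ≤ Real.sqrt N * L ^ (1 / 2 + ε) := by
  have hL0 : 0 < L := by linarith
  have h1 : Real.sqrt W ≤ Real.sqrt N * Real.sqrt L * c := by
    calc Real.sqrt W ≤ Real.sqrt (N * L * c ^ 2) := Real.sqrt_le_sqrt hW
      _ = Real.sqrt N * Real.sqrt L * c := by
          rw [Real.sqrt_mul (by positivity), Real.sqrt_mul (Nat.cast_nonneg N), Real.sqrt_sq hc]
  have h2 : L ^ (1 / 2 + ε) = Real.sqrt L * L ^ ε := by
    rw [Real.rpow_add hL0, Real.sqrt_eq_rpow]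
  have h3 : 1 ≤ Real.sqrt L := Real.one_le_sqrt.mpr hL
  rw [h2]
  have h4 : 0 ≤ Real.sqrt N := Real.sqrt_nonneg _
  calc 5 * Real.sqrt N + Real.sqrt W ≤ 5 * Real.sqrt N + Real.sqrt N * Real.sqrt L * c := by linarith
    _ ≤ Real.sqrt N * Real.sqrt L * (5 + c) := by nlinarith
    _ ≤ Real.sqrt N * Real.sqrt L * L ^ ε := mul_le_mul_of_nonneg_left h (by positivity)
    _ = Real.sqrt N * (Real.sqrt L * L ^ ε) := by ring

theorem point_farA : ∃ C0 : ℕ, ∀ ε : ℝ, 0 < ε → ∃ N0 : ℕ, ∀ N : ℕ, N0 ≤ N → ∀ θ D : ℝ, Far N θ D →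
    LL N ^ C0 ≤ D → D ≤ N → Real.log D ≤ Real.log (LL N) ^ 8 →
    pr (PP N) (fun T => Real.sqrt N * LL N ^ (1 / 2 + ε) < ‖SN N T θ‖) ≤ D ^ (-(9 / 4) : ℝ) := by
  obtain ⟨C0, N1, h1⟩ := par_small
  refine ⟨C0 + 12, fun ε hε => ?_⟩
  obtain ⟨N2, h2⟩ := event24A ε hε 10 4
  refine ⟨max N1 N2, fun N hN θ D hF hD hDN hlD => ?_⟩
  obtain ⟨hN1, hu, hev⟩ := h2 N ((le_max_right _ _).trans hN)
  have hN1r : (1 : ℝ) ≤ N := by exact_mod_cast hN1
  have hlogN : 0 ≤ Real.log N := Real.log_nonneg hN1r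
  have hL1 : 1 ≤ LL N := by unfold LL; linarith
  have hL0 : 0 < LL N := by linarith
  have hL16 : (16 : ℝ) ≤ LL N := by
    have : (16 : ℝ) ≤ Real.exp (Real.log (LL N)) := by
      have := Real.add_one_le_exp (Real.log (LL N))
      linarith
    rwa [Real.exp_log hL0] at this
  have hD1 : LL N ^ C0 ≤ D := (pow_le_pow_right₀ hL1 (by omega)).trans hD
  obtain ⟨B, z, k, w, I, η, hP⟩ := h1 N ((le_max_left _ _).trans hN) D hD1 hlD hDN
  have hD4 := hP.hD4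
  have hD0 : 0 < D := by linarith
  have hlogD : 0 ≤ Real.log D := Real.log_nonneg (by linarith)
  have hB0 : (0 : ℝ) < B := by
    have := hP.hBL
    linarith
  set A0 : ℝ := (E0 N z (2 * k - 1) / N) ^ k with hA0
  set A1 : ℝ := 2 * LL N * (18 * LL N ^ (2 * w + 5) * (128 * LL N / B) ^ (η / 4)) ^ k with hA1
  set A2 : ℝ := I * (2 * B * LL N *
        (72 * LL N ^ (2 * w + 9) * (6 / Real.sqrt B) ^ (η / 4) * (10 * Real.log D) ^ (2 * I)) ^ k) with hA2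
  have hA00 : 0 ≤ A0 := by
    rw [hA0]
    unfold E0
    positivity
  have hA20 : 0 ≤ A2 := by
    rw [hA2]
    positivity
  have hI5 : 0 ≤ 2 * (I : ℝ) ^ 2 / D ^ 5 := by positivity
  have hp1 : A1 ≤ 1 / D ^ 4 := by
    have := hP.hfin
    linarith
  have hv1 := v1 N θ D hD4 hDN hF B z k w η hP.hB36 hP.hBL hP.hBD hP.hk hP.hη0 hP.hη1 hP.hw
  have hpg := point_gen N θ D hF B z k w I η hP (4 * N * LL N) (1 / D ^ 4) (by positivity) (hv1.trans hp1)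
  have hthr : 5 * Real.sqrt N + Real.sqrt (5 * Real.log D * (4 * N * LL N)) ≤ Real.sqrt N * LL N ^ (1 / 2 + ε) := by
    refine thr24A (c := 5 * Real.log (LL N) ^ 4) hL1 (by positivity) ?_ ?_
    · have h3 : 5 * Real.log D * (4 * N * LL N) = (N * LL N) * (20 * Real.log D) := by ring
      rw [h3]
      refine mul_le_mul_of_nonneg_left ?_ (by positivity)
      have h4 : (5 * Real.log (LL N) ^ 4) ^ 2 = 25 * Real.log (LL N) ^ 8 := by ring
      rw [h4]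
      linarith
    · have h5 : (1 : ℝ) ≤ Real.log (LL N) ^ 4 := one_le_pow₀ (by linarith)
      linarith
  have hpr : pr (PP N) (fun T => Real.sqrt N * LL N ^ (1 / 2 + ε) < ‖SN N T θ‖) ≤
      pr (PP N) (fun T => 5 * Real.sqrt N + Real.sqrt (5 * Real.log D * (4 * N * LL N)) < ‖SN N T θ‖) :=
    pr_mono fun T _ hT => lt_of_le_of_lt hthr hT
  refine hpr.trans (hpg.trans ?_)
  refine prob24A (by linarith) hL1 hP.hIL ?_ ?_
  · calc (16 * LL N ^ 2) ^ 4 = 16 ^ 4 * LL N ^ 8 := by ring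
      _ ≤ LL N ^ 4 * LL N ^ 8 := by
          refine mul_le_mul_of_nonneg_right ?_ (by positivity)
          exact pow_le_pow_left₀ (by norm_num) hL16 4
      _ = LL N ^ 12 := by ring
      _ ≤ LL N ^ (C0 + 12) := pow_le_pow_right₀ hL1 (by omega)
      _ ≤ D := hD
  · rw [show (1 : ℝ) / D ^ 4 = D ^ (-4 : ℝ) by
      rw [Real.rpow_neg hD0.le, one_div, ← Real.rpow_natCast D 4]
      norm_num]
    exact Real.rpow_le_rpow_of_exponent_le (by linarith) (by norm_num)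

end Pool.Agent.Helper5.RS
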