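import Pool.Agent.Helper5.RS.Defs

/-!
# Block RS-L1: the parameters for large complexity, with the size of `k` and `B`

This is `par_large` of `RM/PARA.lean` with two more conclusions. The proof there chooses `u = log (LL N)`, `t = log D / (80 u)`, `B = ⌊exp t⌋`, `k = ⌈6000 u^2⌉`, and shows `k ≤ 6001 u^2` (`hk2`), `t - 1 ≤ log B` (`htb`),
`1000 u ≤ t`, so `log D = 80 u t ≤ 100 u (t - 1) ≤ 100 u log B`. Copy the file (its lemmas are private) and add the two conclusions at the end. `N0` may be increased.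
-/

set_option autoImplicit false

namespace Pool.Agent.Helper5.RS

open Finset Pool.Agent.Helper5.RM

private lemma parb99_log2 {c : ℝ} {m : ℕ} (h0 : 0 < c) (h : c ≤ 2 ^ m) : Real.log c ≤ 0.7 * m := by
  have h1 : Real.log c ≤ Real.log (2 ^ m) := Real.log_le_log h0 h
  rw [Real.log_pow] at h1
  have h2 := Real.log_two_lt_d9
  have h3 : (0:ℝ) ≤ m := Nat.cast_nonneg m
  nlinarith

private lemma parb99_pow {x y : ℝ} {k : ℕ} (hx : 0 ≤ x) (h : x ≤ Real.exp y) :
    x ^ k ≤ Real.exp (k * y) := by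
  rw [Real.exp_nat_mul]
  exact pow_le_pow_left₀ hx h k

private lemma parb99_exp8 {u : ℝ} (hu : 0 ≤ u) : u ^ 8 ≤ 40320 * Real.exp u := by
  have h := Real.pow_div_factorial_le_exp u hu 8
  have h8 : ((Nat.factorial 8 : ℕ) : ℝ) = 40320 := by norm_num [Nat.factorial]
  rw [h8, div_le_iff₀ (by norm_num)] at h
  linarith

/-- `M = exp u - 1` is larger than `1.5 * 10^10 u^6` -/
private lemma parb99_M {u : ℝ} (hu : 10 ^ 8 ≤ u) : 15000000000 * u ^ 6 + 1 ≤ Real.exp u - 1 := by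
  have hu0 : 0 ≤ u := by linarith
  have h8 := parb99_exp8 hu0
  have h2 : (10:ℝ) ^ 16 ≤ u ^ 2 := by nlinarith
  have h6 : (1:ℝ) ≤ u ^ 6 := one_le_pow₀ (by linarith)
  have h3 : (10:ℝ) ^ 16 * u ^ 6 ≤ u ^ 8 := by
    have : u ^ 8 = u ^ 2 * u ^ 6 := by ring
    rw [this]
    exact mul_le_mul_of_nonneg_right h2 (by positivity)
  nlinarith

private lemma parb99_t1 {u M lz : ℝ} {N z W : ℕ} (hu : 10 ^ 8 ≤ u) (hN : (N:ℝ) = Real.exp M)
    (hLL : LL N = Real.exp u) (hMu : M = Real.exp u - 1) (hlz : Real.log z = lz)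
    (h4 : 4 ≤ lz) (h130 : lz ≤ 130 * u ^ 2) (hW : (W:ℝ) ≤ 12002 * u ^ 2) :
    E0 N z W / N ≤ Real.exp (-(M / (3 * lz))) := by
  have hu0 : 0 < u := by linarith
  have hM := parb99_M hu
  rw [← hMu] at hM
  have hW0 : (0:ℝ) ≤ W := Nat.cast_nonneg W
  have hM0 : 0 ≤ M := by
    have : 0 ≤ u ^ 6 := by positivity
    linarith
  have hlN : Real.log N = M := by rw [hN, Real.log_exp]
  have e1 : E0 N z W / N = Real.exp (W * u - M / 2) +
      Real.exp (W * u + (-(3 / 8) * M / lz + 3 * W * (1 + lz))) := by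
    unfold E0
    rw [hlN, hlz, hLL, hN, ← Real.exp_half]
    rw [← Real.exp_nat_mul, add_div]
    congr 1
    · rw [← Real.exp_add, ← Real.exp_sub]
      congr 1
      ring
    · rw [Real.exp_add (W * u)]
      field_simp
  have hlz0 : 0 < lz := by linarith
  have hu1 : 1 ≤ u := by linarith
  have hu2 : 1 ≤ u ^ 2 := one_le_pow₀ hu1
  have hu3 : u ^ 3 = u ^ 2 * u := by ring
  have hu4 : u ^ 4 = u ^ 2 * u ^ 2 := by ring
  have hWu : W * u ≤ 12002 * u ^ 3 := by
    rw [hu3, ← mul_assoc]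
    exact mul_le_mul_of_nonneg_right hW hu0.le
  have h34 : u ^ 3 ≤ u ^ 4 := pow_le_pow_right₀ hu1 (by norm_num)
  have h24 : u ^ 2 ≤ u ^ 4 := pow_le_pow_right₀ hu1 (by norm_num)
  have h14 : 1 ≤ u ^ 4 := one_le_pow₀ hu1
  have h46 : u ^ 4 ≤ u ^ 6 := pow_le_pow_right₀ hu1 (by norm_num)
  have hWl : 3 * (W:ℝ) * (1 + lz) ≤ 3 * (12002 * u ^ 2) * (131 * u ^ 2) := by
    apply mul_le_mul
    · linarith
    · linarith
    · linarith
    · positivity
  have hpoly : W * u + 3 * (W:ℝ) * (1 + lz) + 1 ≤ 4750000 * u ^ 4 := by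
    have : 3 * (12002 * u ^ 2) * (131 * u ^ 2) = 4716786 * u ^ 4 := by ring
    linarith
  -- the two exponents
  have b1 : W * u - M / 2 ≤ -(M / (3 * lz)) - 1 := by
    have h1 : M / (3 * lz) ≤ M / 12 := by
      apply div_le_div_of_nonneg_left hM0 (by norm_num) (by linarith)
    have h2 : 0 ≤ 3 * (W:ℝ) * (1 + lz) := by positivity
    linarith
  have b2 : W * u + (-(3 / 8) * M / lz + 3 * W * (1 + lz)) ≤ -(M / (3 * lz)) - 1 := by
    have h1 : 4750000 * u ^ 4 ≤ M / (24 * lz) := by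
      rw [le_div_iff₀ (by positivity)]
      have : 4750000 * u ^ 4 * (24 * lz) ≤ 4750000 * u ^ 4 * (24 * (130 * u ^ 2)) := by
        apply mul_le_mul_of_nonneg_left _ (by positivity)
        linarith
      have h2 : 4750000 * u ^ 4 * (24 * (130 * u ^ 2)) = 14820000000 * u ^ 6 := by ring
      linarith
    have h2 : -(3 / 8) * M / lz = -(M / (3 * lz)) - M / (24 * lz) := by
      field_simp
      ring
    rw [h2]
    linarith
  rw [e1]
  have c1 := Real.exp_le_exp.mpr b1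
  have c2 := Real.exp_le_exp.mpr b2
  have c3 : 2 * Real.exp (-(M / (3 * lz)) - 1) ≤ Real.exp (-(M / (3 * lz))) := by
    have h5 : Real.exp (-(M / (3 * lz))) = Real.exp 1 * Real.exp (-(M / (3 * lz)) - 1) := by
      rw [← Real.exp_add]; congr 1; ring
    rw [h5]
    have h6 := Real.exp_one_gt_d9
    have h7 := Real.exp_pos (-(M / (3 * lz)) - 1)
    nlinarith
  linarith

/-- the third and fourth terms -/
private lemma parb99_t3 {u t b Lr B : ℝ} {k w : ℕ} (hu : 10 ^ 8 ≤ u) (hL : Lr = Real.exp u)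
    (hB : 0 < B) (hb : Real.log B = b) (ht : t - 1 ≤ b) (ht7 : u ^ 7 ≤ 80 * t)
    (hk : 6000 * u ^ 2 ≤ k) (hk' : (k:ℝ) ≤ 6001 * u ^ 2) (hw : w = 8 * k) :
    2 * Lr * (18 * Lr ^ (2 * w + 5) * (128 * Lr / B) ^ (1 / u / 4)) ^ k ≤
      Real.exp (-(4 * (80 * u * t)) - 2) := by
  have hu0 : 0 < u := by linarith
  have hu1 : 1 ≤ u := by linarith
  have hLpos : 0 < Lr := by rw [hL]; exact Real.exp_pos u
  have hlL : Real.log Lr = u := by rw [hL, Real.log_exp]
  obtain ⟨q, hq⟩ : ∃ q, q = t / u := ⟨_, rfl⟩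
  have hqu : q * u = t := by rw [hq]; field_simp
  have hX : 0 < 18 * Lr ^ (2 * w + 5) * (128 * Lr / B) ^ (1 / u / 4) := by positivity
  have hlog : Real.log (18 * Lr ^ (2 * w + 5) * (128 * Lr / B) ^ (1 / u / 4)) =
      Real.log 18 + (2 * w + 5) * u + (Real.log 128 + u - b) / (4 * u) := by
    rw [Real.log_mul (by positivity) (by positivity), Real.log_mul (by norm_num) (by positivity),
      Real.log_pow, Real.log_rpow (by positivity), Real.log_div (by positivity) hB.ne',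
      Real.log_mul (by norm_num) hLpos.ne', hlL, hb]
    push_cast
    field_simp
  have l18 := parb99_log2 (c := 18) (m := 5) (by norm_num) (by norm_num)
  have l128 := parb99_log2 (c := 128) (m := 7) (by norm_num) (by norm_num)
  norm_num at l18 l128
  have hA : (Real.log 128 + u - b) / (4 * u) ≤ 1 - q / 4 := by
    rw [div_le_iff₀ (by positivity)]
    have : (1 - q / 4) * (4 * u) = 4 * u - t := by rw [← hqu]; ring
    rw [this]; linarith
  have hwr : (w:ℝ) = 8 * k := by rw [hw]; push_cast; ring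
  have hu3 : 1 ≤ u ^ 3 := one_le_pow₀ hu1
  have hu2 : 1 ≤ u ^ 2 := one_le_pow₀ hu1
  have h13 : u ≤ u ^ 3 := by
    calc u = u ^ 1 := (pow_one u).symm
      _ ≤ u ^ 3 := pow_le_pow_right₀ hu1 (by norm_num)
  have hpol : (2 * (w:ℝ) + 5) * u ≤ 96021 * u ^ 3 := by
    have h1 : (2 * (w:ℝ) + 5) ≤ 96021 * u ^ 2 := by rw [hwr]; linarith
    calc (2 * (w:ℝ) + 5) * u ≤ (96021 * u ^ 2) * u := mul_le_mul_of_nonneg_right h1 hu0.le
      _ = 96021 * u ^ 3 := by ring
  have hS : 100000 * u ^ 3 ≤ q / 8 := by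
    have h4 : 64000000 * u ^ 4 ≤ u ^ 7 := by
      have : u ^ 7 = u ^ 3 * u ^ 4 := by ring
      rw [this]
      have h8 : (64000000:ℝ) ≤ u ^ 3 := by
        calc (64000000:ℝ) ≤ u := by linarith
          _ ≤ u ^ 3 := h13
      exact mul_le_mul_of_nonneg_right h8 (by positivity)
    have h5 : 800000 * u ^ 3 * u ≤ q * u := by
      rw [hqu]
      have : 800000 * u ^ 3 * u = 800000 * u ^ 4 := by ring
      rw [this]; linarith
    have := le_of_mul_le_mul_right h5 hu0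
    linarith
  have hin : Real.log (18 * Lr ^ (2 * w + 5) * (128 * Lr / B) ^ (1 / u / 4)) ≤ -(q / 8) := by
    rw [hlog]
    linarith
  have hX2 : 18 * Lr ^ (2 * w + 5) * (128 * Lr / B) ^ (1 / u / 4) ≤ Real.exp (-(q / 8)) := by
    rw [← Real.log_le_iff_le_exp hX]; exact hin
  have hXk := parb99_pow (k := k) hX.le hX2
  have h2L : 2 * Lr = Real.exp (Real.log 2 + u) := by
    rw [Real.exp_add, Real.exp_log (by norm_num), hL]
  calc 2 * Lr * (18 * Lr ^ (2 * w + 5) * (128 * Lr / B) ^ (1 / u / 4)) ^ k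
      ≤ 2 * Lr * Real.exp (k * (-(q / 8))) := mul_le_mul_of_nonneg_left hXk (by positivity)
    _ = Real.exp (Real.log 2 + u + k * (-(q / 8))) := by rw [h2L, ← Real.exp_add]
    _ ≤ Real.exp (-(4 * (80 * u * t)) - 2) := by
      apply Real.exp_le_exp.mpr
      have hq0 : 0 ≤ q := by
        have : 0 ≤ 100000 * u ^ 3 := by positivity
        linarith
      have h6 : 6000 * u ^ 2 * (q / 8) ≤ k * (q / 8) :=
        mul_le_mul_of_nonneg_right hk (by linarith)
      have h7 : 6000 * u ^ 2 * (q / 8) = 750 * (u * t) := by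
        rw [← hqu]; ring
      have h8 := Real.log_two_lt_d9
      have ht0 : 1 ≤ t := by
        have : (80:ℝ) ≤ u ^ 7 := by
          calc (80:ℝ) ≤ u := by linarith
            _ = u ^ 1 := (pow_one u).symm
            _ ≤ u ^ 7 := pow_le_pow_right₀ hu1 (by norm_num)
        linarith
      have h9 : u ≤ u * t := le_mul_of_one_le_right hu0.le ht0
      have h11 : (k:ℝ) * (-(q / 8)) = -(k * (q / 8)) := by ring
      have h12 : 4 * (80 * u * t) = 320 * (u * t) := by ring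
      rw [h11, h12]
      linarith

private lemma parb99_t4 {u t b lz Lr B Ir lD : ℝ} {k w I : ℕ} (hu : 10 ^ 8 ≤ u) (hL : Lr = Real.exp u)
    (hB : 0 < B) (hb : Real.log B = b) (ht : t - 1 ≤ b) (ht' : b ≤ t) (ht7 : u ^ 7 ≤ 80 * t)
    (hk : 6000 * u ^ 2 ≤ k) (hk' : (k:ℝ) ≤ 6001 * u ^ 2) (hw : w = 8 * k)
    (hlz : 128 * u * (u + 3) ≤ lz) (hI : (I:ℝ) ≤ b / lz + 1) (hIr : Ir = I) (hI0 : 0 < Ir)
    (hI2 : Ir ≤ 2 * Lr) (hlD0 : 0 < lD) (hlD : Real.log (10 * lD) ≤ u + 3) :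
    Ir * (2 * B * Lr *
        (72 * Lr ^ (2 * w + 9) * (6 / Real.sqrt B) ^ (1 / u / 4) * (10 * lD) ^ (2 * I)) ^ k) ≤
      Real.exp (-(4 * (80 * u * t)) - 2) := by
  have hu0 : 0 < u := by linarith
  have hu1 : 1 ≤ u := by linarith
  have hLpos : 0 < Lr := by rw [hL]; exact Real.exp_pos u
  have hlL : Real.log Lr = u := by rw [hL, Real.log_exp]
  obtain ⟨q, hq⟩ : ∃ q, q = t / u := ⟨_, rfl⟩
  have hqu : q * u = t := by rw [hq]; field_simp
  have hsB : 0 < Real.sqrt B := Real.sqrt_pos.mpr hB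
  have hX : 0 < 72 * Lr ^ (2 * w + 9) * (6 / Real.sqrt B) ^ (1 / u / 4) * (10 * lD) ^ (2 * I) := by
    positivity
  have hlsq : Real.log (Real.sqrt B) = b / 2 := by rw [Real.log_sqrt hB.le, hb]
  have hlog : Real.log (72 * Lr ^ (2 * w + 9) * (6 / Real.sqrt B) ^ (1 / u / 4) *
      (10 * lD) ^ (2 * I)) =
      Real.log 72 + (2 * w + 9) * u + (Real.log 6 - b / 2) / (4 * u) +
        2 * I * Real.log (10 * lD) := by
    rw [Real.log_mul (by positivity) (by positivity), Real.log_mul (by positivity) (by positivity),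
      Real.log_mul (by norm_num) (by positivity),
      Real.log_pow, Real.log_pow, Real.log_rpow (by positivity), Real.log_div (by norm_num) hsB.ne',
      hlL, hlsq]
    push_cast
    field_simp
  have l72 := parb99_log2 (c := 72) (m := 7) (by norm_num) (by norm_num)
  have l6 := parb99_log2 (c := 6) (m := 3) (by norm_num) (by norm_num)
  norm_num at l72 l6
  have hA : (Real.log 6 - b / 2) / (4 * u) ≤ 1 - q / 8 := by
    rw [div_le_iff₀ (by positivity)]
    have : (1 - q / 8) * (4 * u) = 4 * u - t / 2 := by rw [← hqu]; ring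
    rw [this]; linarith
  have hwr : (w:ℝ) = 8 * k := by rw [hw]; push_cast; ring
  have hu3 : 1 ≤ u ^ 3 := one_le_pow₀ hu1
  have hu2 : 1 ≤ u ^ 2 := one_le_pow₀ hu1
  have h13 : u ≤ u ^ 3 := by
    calc u = u ^ 1 := (pow_one u).symm
      _ ≤ u ^ 3 := pow_le_pow_right₀ hu1 (by norm_num)
  have hpol : (2 * (w:ℝ) + 9) * u ≤ 96025 * u ^ 3 := by
    have h1 : (2 * (w:ℝ) + 9) ≤ 96025 * u ^ 2 := by rw [hwr]; linarith
    calc (2 * (w:ℝ) + 9) * u ≤ (96025 * u ^ 2) * u := mul_le_mul_of_nonneg_right h1 hu0.le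
      _ = 96025 * u ^ 3 := by ring
  have ht0 : 1 ≤ t := by
    have : (80:ℝ) ≤ u ^ 7 := by
      calc (80:ℝ) ≤ u := by linarith
        _ = u ^ 1 := (pow_one u).symm
        _ ≤ u ^ 7 := pow_le_pow_right₀ hu1 (by norm_num)
    linarith
  have hb0 : 0 ≤ b := by linarith
  have hlz0 : 0 < lz := lt_of_lt_of_le (by positivity) hlz
  have hI1 : (I:ℝ) * (u + 3) ≤ (u + 3) + q / 128 := by
    have h1 : b / lz * (u + 3) ≤ q / 128 := by
      rw [div_mul_eq_mul_div, div_le_iff₀ hlz0]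
      have hq0 : 0 ≤ q / 128 := by rw [hq]; positivity
      calc b * (u + 3) ≤ t * (u + 3) := mul_le_mul_of_nonneg_right ht' (by linarith)
        _ = q / 128 * (128 * u * (u + 3)) := by rw [← hqu]; ring
        _ ≤ q / 128 * lz := mul_le_mul_of_nonneg_left hlz hq0
    have h2 : (I:ℝ) * (u + 3) ≤ (b / lz + 1) * (u + 3) :=
      mul_le_mul_of_nonneg_right hI (by linarith)
    have h3 : (b / lz + 1) * (u + 3) = b / lz * (u + 3) + (u + 3) := by ring
    linarith
  have hI3 : 2 * (I:ℝ) * Real.log (10 * lD) ≤ 2 * (u + 3) + q / 64 := by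
    have h1 : (I:ℝ) * Real.log (10 * lD) ≤ I * (u + 3) :=
      mul_le_mul_of_nonneg_left hlD (Nat.cast_nonneg I)
    have h2 : 2 * (I:ℝ) * Real.log (10 * lD) = 2 * ((I:ℝ) * Real.log (10 * lD)) := by ring
    rw [h2]; linarith
  have hS : 100000 * u ^ 3 ≤ q / 64 := by
    have h4 : 512000000 * u ^ 4 ≤ u ^ 7 := by
      have : u ^ 7 = u ^ 3 * u ^ 4 := by ring
      rw [this]
      have h8 : (512000000:ℝ) ≤ u ^ 3 := by
        have h9 : u ^ 3 = u * u ^ 2 := by ring
        have h10 : (10:ℝ) ^ 16 ≤ u ^ 2 := by nlinarith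
        rw [h9]; nlinarith
      exact mul_le_mul_of_nonneg_right h8 (by positivity)
    have h5 : 6400000 * u ^ 3 * u ≤ q * u := by
      rw [hqu]
      have : 6400000 * u ^ 3 * u = 6400000 * u ^ 4 := by ring
      rw [this]; linarith
    have := le_of_mul_le_mul_right h5 hu0
    linarith
  have hin : Real.log (72 * Lr ^ (2 * w + 9) * (6 / Real.sqrt B) ^ (1 / u / 4) *
      (10 * lD) ^ (2 * I)) ≤ -(6 * q / 64) := by
    rw [hlog]
    linarith
  have hX2 : 72 * Lr ^ (2 * w + 9) * (6 / Real.sqrt B) ^ (1 / u / 4) * (10 * lD) ^ (2 * I) ≤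
      Real.exp (-(6 * q / 64)) := by
    rw [← Real.log_le_iff_le_exp hX]; exact hin
  have hXk := parb99_pow (k := k) hX.le hX2
  have hBe : B = Real.exp b := by rw [← hb, Real.exp_log hB]
  have h2L : Ir * (2 * B * Lr) ≤ Real.exp (Real.log 4 + b + 2 * u) := by
    have e1 : Real.exp (Real.log 4 + b + 2 * u) = 4 * B * (Lr * Lr) := by
      rw [Real.exp_add, Real.exp_add, Real.exp_log (by norm_num), ← hBe, two_mul, Real.exp_add, ← hL]
    rw [e1]
    have : Ir * (2 * B * Lr) ≤ (2 * Lr) * (2 * B * Lr) :=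
      mul_le_mul_of_nonneg_right hI2 (by positivity)
    linarith
  generalize 72 * Lr ^ (2 * w + 9) * (6 / Real.sqrt B) ^ (1 / u / 4) * (10 * lD) ^ (2 * I) = X
    at hX hXk ⊢
  rw [← mul_assoc]
  calc Ir * (2 * B * Lr) * X ^ k
      ≤ Real.exp (Real.log 4 + b + 2 * u) * Real.exp (k * (-(6 * q / 64))) :=
        mul_le_mul h2L hXk (pow_nonneg hX.le k) (Real.exp_pos _).le
    _ = Real.exp (Real.log 4 + b + 2 * u + k * (-(6 * q / 64))) := by rw [← Real.exp_add]
    _ ≤ Real.exp (-(4 * (80 * u * t)) - 2) := by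
      apply Real.exp_le_exp.mpr
      have hq0 : 0 ≤ q := by
        have : 0 ≤ 100000 * u ^ 3 := by positivity
        linarith
      have h6 : 6000 * u ^ 2 * (6 * q / 64) ≤ k * (6 * q / 64) :=
        mul_le_mul_of_nonneg_right hk (by linarith)
      have h7 : 6000 * u ^ 2 * (6 * q / 64) = 562.5 * (u * t) := by
        rw [← hqu]; ring
      have l4 := parb99_log2 (c := 4) (m := 2) (by norm_num) (by norm_num)
      norm_num at l4
      have h9 : u ≤ u * t := le_mul_of_one_le_right hu0.le ht0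
      have h10 : t ≤ u * t := le_mul_of_one_le_left (by linarith) hu1
      have h11 : (k:ℝ) * (-(6 * q / 64)) = -(k * (6 * q / 64)) := by ring
      have h12 : 4 * (80 * u * t) = 320 * (u * t) := by ring
      rw [h11, h12]
      linarith

private lemma parb99_ni {u M b lz lD : ℝ} {N i I : ℕ} (hu : 10 ^ 8 ≤ u) (hN : (N:ℝ) = Real.exp M)
    (hLL : LL N = Real.exp u) (hMu : M = Real.exp u - 1) (hb0 : 0 < b)
    (hbM : 80 * u * b ≤ M) (hlz : 128 * u * (u + 3) ≤ lz) (hI : (I:ℝ) ≤ b / lz + 1)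
    (hlD0 : 0 < lD) (hlD : Real.log (10 * lD) ≤ u + 3) (h2 : 2 ≤ i) (hiI : i ≤ I) :
    Real.sqrt N + Real.exp 18 * N * LL N ^ 13 * Real.exp (-(3 / 8) * ((i:ℝ) - 1) * M / b) ≤
      N / (10 * lD) ^ i := by
  have hu0 : 0 < u := by linarith
  have hM := parb99_M hu
  rw [← hMu] at hM
  have hiI' : (i:ℝ) ≤ I := by exact_mod_cast hiI
  have hi2 : (2:ℝ) ≤ i := by exact_mod_cast h2
  have hlz0 : 0 < lz := lt_of_lt_of_le (by positivity) hlz
  have hlz1 : u + 3 ≤ lz := by nlinarith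
  have h6 : u ≤ u ^ 6 := by
    calc u = u ^ 1 := (pow_one u).symm
      _ ≤ u ^ 6 := pow_le_pow_right₀ (by linarith) (by norm_num)
  have hpow : (10 * lD) ^ i = Real.exp (i * Real.log (10 * lD)) := by
    rw [Real.exp_nat_mul, Real.exp_log (by positivity)]
  have hil : i * Real.log (10 * lD) ≤ i * (u + 3) := mul_le_mul_of_nonneg_left hlD (by linarith)
  rw [hpow, hN, hLL, ← Real.exp_half, ← Real.exp_nat_mul, ← Real.exp_sub, ← Real.exp_add,
    ← Real.exp_add, ← Real.exp_add]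
  push_cast
  have hbM' : b ≤ M / 80 := by
    have : b ≤ u * b := by nlinarith
    have h3 : 80 * u * b = 80 * (u * b) := by ring
    linarith
  have hbl : b / lz * (u + 3) ≤ b := by
    rw [div_mul_eq_mul_div, div_le_iff₀ hlz0]
    exact mul_le_mul_of_nonneg_left hlz1 hb0.le
  have a1 : M / 2 ≤ M - i * Real.log (10 * lD) - 1 := by
    have h1 : (i:ℝ) * (u + 3) ≤ (b / lz + 1) * (u + 3) :=
      mul_le_mul_of_nonneg_right (hiI'.trans hI) (by linarith)
    have h3 : (b / lz + 1) * (u + 3) = b / lz * (u + 3) + (u + 3) := by ring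
    linarith
  have a2 : 18 + M + 13 * u + -(3 / 8) * ((i:ℝ) - 1) * M / b ≤ M - i * Real.log (10 * lD) - 1 := by
    have h1 : 30 * u * ((i:ℝ) - 1) ≤ 3 / 8 * ((i:ℝ) - 1) * M / b := by
      rw [le_div_iff₀ hb0]
      have h3 : 3 / 8 * ((i:ℝ) - 1) * (80 * u * b) ≤ 3 / 8 * ((i:ℝ) - 1) * M :=
        mul_le_mul_of_nonneg_left hbM (by linarith)
      linarith
    have h4 : -(3 / 8) * ((i:ℝ) - 1) * M / b = -(3 / 8 * ((i:ℝ) - 1) * M / b) := by ring
    rw [h4]
    nlinarith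
  have c1 := Real.exp_le_exp.mpr a1
  have c2 := Real.exp_le_exp.mpr a2
  have c3 : 2 * Real.exp (M - i * Real.log (10 * lD) - 1) ≤ Real.exp (M - i * Real.log (10 * lD)) := by
    have h5 : Real.exp (M - i * Real.log (10 * lD)) =
        Real.exp 1 * Real.exp (M - i * Real.log (10 * lD) - 1) := by
      rw [← Real.exp_add]; congr 1; ring
    rw [h5]
    have h6 := Real.exp_one_gt_d9
    have h7 := Real.exp_pos (M - i * Real.log (10 * lD) - 1)
    nlinarith
  linarith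

private lemma parb99_a {x y B c : ℝ} (h1 : x < B + 1) (h2 : x = c * y) (h3 : 2 ≤ c) (h4 : 1 ≤ y) :
    y ≤ B := by nlinarith

private lemma parb99_b {y z c : ℝ} (h1 : z < y + 1) (h3 : 2 ≤ c) (h4 : 1 ≤ y) : z ≤ y * c := by
  nlinarith

private lemma parb99_c {u lz : ℝ} (hu : 10 ^ 8 ≤ u) (h : lz ≤ 128 * u * (u + 3) + 1) :
    lz ≤ 130 * u ^ 2 := by nlinarith

private lemma parb99_d {u lz : ℝ} (hu : 10 ^ 8 ≤ u) (h : 128 * u * (u + 3) ≤ lz) : 4 ≤ lz := by
  nlinarith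

private lemma parb99_e {u t : ℝ} (hu : 10 ^ 8 ≤ u) (ht : 0 ≤ t) : 8 * t ≤ 80 * u * t := by nlinarith

private lemma parb99_f {u : ℝ} (hu : 10 ^ 8 ≤ u) : 80000 * u ≤ u ^ 7 := by
  have h2 : u ^ 2 ≤ u ^ 7 := pow_le_pow_right₀ (by linarith) (by norm_num)
  nlinarith

private lemma parb99_g : (4:ℝ) ≤ Real.exp 2 := by
  have h2 : Real.exp 2 = Real.exp 1 * Real.exp 1 := by rw [← Real.exp_add]; norm_num
  have := Real.exp_one_gt_d9
  rw [h2]; nlinarith

private lemma parb99_h {u : ℝ} (hu : 10 ^ 8 ≤ u) : u / 2 ≤ Real.log 2 * u := by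
  have := Real.log_two_gt_d9
  nlinarith

private lemma parb99_j {u : ℝ} (hu : 10 ^ 8 ≤ u) : 24004 * u ^ 2 ≤ Real.exp (u / 2) := by
  have hu0 : 0 < u := by linarith
  have h4 := parb99_exp8 (u := u / 2) (by linarith)
  have h5 : (u / 2) ^ 8 = u ^ 8 / 256 := by ring
  rw [h5] at h4
  have h6 : (10:ℝ) ^ 16 ≤ u ^ 2 := by nlinarith
  have h7 : (10:ℝ) ^ 16 * u ^ 2 ≤ u ^ 8 := by
    have e : u ^ 8 = u ^ 6 * u ^ 2 := by ring
    rw [e]
    apply mul_le_mul_of_nonneg_right _ (by positivity)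
    calc (10:ℝ) ^ 16 ≤ u ^ 2 := h6
      _ ≤ u ^ 6 := pow_le_pow_right₀ (by linarith) (by norm_num)
  have h8 : 0 ≤ u ^ 2 := by positivity
  linarith

private lemma parb99_k {u : ℝ} (hu : 10 ^ 8 ≤ u) : 1 ≤ 128 * u * (u + 3) := by nlinarith

theorem par_large2 : ∃ N0 : ℕ, ∀ N : ℕ, N0 ≤ N → ∀ D : ℝ, Real.log (LL N) ^ 8 ≤ Real.log D → 1 ≤ D → D ≤ N →
    ∃ (B z k w I : ℕ) (η : ℝ), Par N D B z k w I η ∧ (k : ℝ) ≤ 6001 * Real.log (LL N) ^ 2 ∧
      6000 * Real.log (LL N) ^ 2 ≤ k ∧ Real.log D ≤ 100 * Real.log (LL N) * Real.log B := by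
  refine ⟨⌈Real.exp (Real.exp (10 ^ 8))⌉₊, fun N hN D hD8 hD1 hDN => ?_⟩
  -- basic quantities
  have hNe : Real.exp (Real.exp (10 ^ 8)) ≤ N := Nat.ceil_le.mp hN
  have hN0 : (0:ℝ) < N := lt_of_lt_of_le (Real.exp_pos _) hNe
  have hlN : Real.exp (10 ^ 8) ≤ Real.log N := by
    rw [Real.le_log_iff_exp_le hN0]; exact hNe
  obtain ⟨M, hM⟩ : ∃ M, M = Real.log N := ⟨_, rfl⟩
  have hNM : (N:ℝ) = Real.exp M := by rw [hM, Real.exp_log hN0]
  have hLLdef : LL N = 1 + M := by rw [hM]; rfl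
  have hLpos : 0 < LL N := by
    rw [hLLdef, hM]; have := Real.exp_pos (10 ^ 8); linarith
  obtain ⟨u, hu⟩ : ∃ u, u = Real.log (LL N) := ⟨_, rfl⟩
  have hLL : LL N = Real.exp u := by rw [hu, Real.exp_log hLpos]
  have hMu : M = Real.exp u - 1 := by rw [← hLL, hLLdef]; ring
  have hu8 : 10 ^ 8 ≤ u := by
    rw [hu, Real.le_log_iff_exp_le hLpos, hLLdef, hM]; linarith
  rw [← hu] at hD8
  have hD0 : 0 < D := by linarith
  obtain ⟨Lam, hLam⟩ : ∃ Lam, Lam = Real.log D := ⟨_, rfl⟩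
  rw [← hLam] at hD8
  have hDe : D = Real.exp Lam := by rw [hLam, Real.exp_log hD0]
  have hLamM : Lam ≤ M := by
    rw [hLam, hM]; exact Real.log_le_log hD0 hDN
  have hu0 : 0 < u := by linarith
  have hu1 : 1 ≤ u := by linarith
  have hMbig := parb99_M hu8
  rw [← hMu] at hMbig
  -- t
  obtain ⟨t, ht⟩ : ∃ t, t = Lam / (80 * u) := ⟨_, rfl⟩
  have hLt : Lam = 80 * u * t := by rw [ht]; field_simp
  have ht7 : u ^ 7 ≤ 80 * t := by
    have h1 : u * u ^ 7 ≤ u * (80 * t) := by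
      have : u * u ^ 7 = u ^ 8 := by ring
      rw [this]; linarith
    exact le_of_mul_le_mul_left h1 hu0
  have hu17 : u ≤ u ^ 7 := by
    calc u = u ^ 1 := (pow_one u).symm
      _ ≤ u ^ 7 := pow_le_pow_right₀ hu1 (by norm_num)
  have hut7 : 1000 * u ≤ t := by
    have h1 := parb99_f hu8
    linarith
  have ht1 : 1 ≤ t := by linarith
  have h8t : 8 * t ≤ Lam := by
    rw [hLt]; exact parb99_e hu8 (by linarith)
  have htLam : t ≤ Lam := by linarith
  have h4t : 4 * t ≤ Lam := by linarith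
  -- B
  obtain ⟨B, hB⟩ : ∃ B : ℕ, B = ⌊Real.exp t⌋₊ := ⟨_, rfl⟩
  have hB1 : (B:ℝ) ≤ Real.exp t := by rw [hB]; exact Nat.floor_le (Real.exp_pos t).le
  have hB2 : Real.exp (t - 1) ≤ B := by
    have h1 : Real.exp t < B + 1 := by rw [hB]; exact Nat.lt_floor_add_one _
    have h2 : Real.exp t = Real.exp 1 * Real.exp (t - 1) := by rw [← Real.exp_add]; congr 1; ring
    have h3 := Real.exp_one_gt_d9
    have h4 : 1 ≤ Real.exp (t - 1) := Real.one_le_exp (by linarith)
    exact parb99_a h1 h2 (by linarith) h4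
  have hBpos : (0:ℝ) < B := lt_of_lt_of_le (Real.exp_pos _) hB2
  obtain ⟨b, hb⟩ : ∃ b, b = Real.log B := ⟨_, rfl⟩
  have hbt : b ≤ t := by
    rw [hb]; calc Real.log B ≤ Real.log (Real.exp t) := Real.log_le_log hBpos hB1
      _ = t := Real.log_exp t
  have htb : t - 1 ≤ b := by
    rw [hb, Real.le_log_iff_exp_le hBpos]; exact hB2
  have hb0 : 0 < b := by linarith
  -- k
  obtain ⟨k, hk⟩ : ∃ k : ℕ, k = ⌈6000 * u ^ 2⌉₊ := ⟨_, rfl⟩
  have hk1 : 6000 * u ^ 2 ≤ k := by rw [hk]; exact Nat.le_ceil _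
  have hu2 : 1 ≤ u ^ 2 := one_le_pow₀ hu1
  have hk2 : (k:ℝ) ≤ 6001 * u ^ 2 := by
    have h1 : (k:ℝ) < 6000 * u ^ 2 + 1 := by rw [hk]; exact Nat.ceil_lt_add_one (by positivity)
    linarith
  -- z
  obtain ⟨z, hz⟩ : ∃ z : ℕ, z = ⌈Real.exp (128 * u * (u + 3))⌉₊ := ⟨_, rfl⟩
  have hz1 : Real.exp (128 * u * (u + 3)) ≤ z := by rw [hz]; exact Nat.le_ceil _
  have hzpos : (0:ℝ) < z := lt_of_lt_of_le (Real.exp_pos _) hz1
  have hz2 : (z:ℝ) ≤ Real.exp (128 * u * (u + 3) + 1) := by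
    have h1 : (z:ℝ) < Real.exp (128 * u * (u + 3)) + 1 := by
      rw [hz]; exact Nat.ceil_lt_add_one (Real.exp_pos _).le
    rw [Real.exp_add]
    have h3 := Real.exp_one_gt_d9
    have h4 : 1 ≤ Real.exp (128 * u * (u + 3)) := Real.one_le_exp (by positivity)
    exact parb99_b h1 (by linarith) h4
  obtain ⟨lz, hlz⟩ : ∃ lz, lz = Real.log z := ⟨_, rfl⟩
  have hlz1 : 128 * u * (u + 3) ≤ lz := by
    rw [hlz, Real.le_log_iff_exp_le hzpos]; exact hz1
  have hlz2 : lz ≤ 130 * u ^ 2 := by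
    have h1 : lz ≤ 128 * u * (u + 3) + 1 := by
      rw [hlz]
      calc Real.log z ≤ Real.log (Real.exp (128 * u * (u + 3) + 1)) := Real.log_le_log hzpos hz2
        _ = _ := Real.log_exp _
    exact parb99_c hu8 h1
  have hlz4 : 4 ≤ lz := parb99_d hu8 hlz1
  have hlz0 : 0 < lz := by linarith
  -- I
  obtain ⟨I, hI⟩ : ∃ I : ℕ, I = ⌊b / lz⌋₊ + 1 := ⟨_, rfl⟩
  have hI1 : (I:ℝ) ≤ b / lz + 1 := by
    rw [hI]; push_cast
    have := Nat.floor_le (a := b / lz) (by positivity)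
    linarith
  have hI2 : b / lz ≤ I := by
    rw [hI]; push_cast
    exact (Nat.lt_floor_add_one _).le
  have hIpos : 1 ≤ I := by omega
  have hIpos' : (0:ℝ) < I := by exact_mod_cast hIpos
  have hI3 : (I:ℝ) ≤ 2 * LL N := by
    have h1 : b / lz ≤ b := div_le_self hb0.le (by linarith)
    rw [hLLdef]; linarith
  -- log (10 log D)
  have hLampos : 0 < Lam := by linarith
  have hl10 : Real.log (10 * Lam) ≤ u + 3 := by
    rw [Real.log_mul (by norm_num) hLampos.ne']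
    have l10 := parb99_log2 (c := 10) (m := 4) (by norm_num) (by norm_num)
    norm_num at l10
    have h1 : Real.log Lam ≤ u := by
      rw [hu]; exact Real.log_le_log hLampos (by rw [hLLdef]; linarith)
    linarith
  have hnew : Real.log D ≤ 100 * Real.log (LL N) * Real.log B := by
    rw [← hu, ← hLam, ← hb, hLt]
    have h1 : 80 * t ≤ 100 * b := by linarith
    have h2 := mul_le_mul_of_nonneg_left h1 hu0.le
    calc 80 * u * t = u * (80 * t) := by ring
      _ ≤ u * (100 * b) := h2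
      _ = 100 * u * b := by ring
  refine ⟨B, z, k, 8 * k, I, 1 / u, ?_, by rw [← hu]; exact hk2, by rw [← hu]; exact hk1, hnew⟩
  refine ⟨?_, hDN, ?_, ?_, ?_, ?_, ?_, ?_, by positivity, ?_, ?_, hIpos, ?_, hI3, ?_, ?_⟩
  · -- 4 ≤ D
    rw [hDe]
    exact parb99_g.trans (Real.exp_le_exp.mpr (by linarith))
  · -- 36 ≤ B
    have h1 : (36:ℝ) ≤ B := by
      refine le_trans ?_ hB2
      have h2 : Real.exp (t - 1) ≥ t - 1 + 1 := Real.add_one_le_exp (t - 1)
      linarith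
    exact_mod_cast h1
  · -- 128 L ≤ B
    refine le_trans ?_ hB2
    rw [hLL]
    have h1 : (128:ℝ) ≤ Real.exp 128 := by
      have := Real.add_one_le_exp (128:ℝ); linarith
    calc 128 * Real.exp u ≤ Real.exp 128 * Real.exp u :=
          mul_le_mul_of_nonneg_right h1 (Real.exp_pos u).le
      _ = Real.exp (128 + u) := by rw [Real.exp_add]
      _ ≤ Real.exp (t - 1) := Real.exp_le_exp.mpr (by linarith)
  · -- B ^ 4 ≤ D
    have := parb99_pow (k := 4) hBpos.le hB1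
    refine this.trans ?_
    rw [hDe]
    exact Real.exp_le_exp.mpr (by push_cast; linarith)
  · have := parb99_pow (k := 8) hBpos.le hB1
    refine this.trans ?_
    rw [hNM]
    exact Real.exp_le_exp.mpr (by push_cast; linarith)
  · -- 2 ≤ z
    have h1 : (2:ℝ) ≤ z := by
      refine le_trans ?_ hz1
      have h2 := Real.add_one_le_exp (128 * u * (u + 3))
      have h3 := parb99_k hu8
      linarith
    exact_mod_cast h1
  · have h1 : (1:ℝ) ≤ k := by linarith
    exact_mod_cast h1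
  · rw [div_le_one hu0]; exact hu1
  · -- hw
    have hk0 : (0:ℝ) < 4 * k := by
      have : (1:ℝ) ≤ k := by linarith
      linarith
    rw [Real.rpow_add hk0, Real.rpow_one]
    push_cast
    have h1 : (4 * (k:ℝ)) ^ (1 / u) ≤ 2 := by
      rw [Real.rpow_def_of_pos hk0]
      have h2 : Real.log (4 * (k:ℝ)) * (1 / u) ≤ Real.log 2 := by
        rw [mul_one_div, div_le_iff₀ hu0, Real.log_le_iff_le_exp hk0]
        refine le_trans ?_ (Real.exp_le_exp.mpr (parb99_h hu8))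
        have h4 := parb99_j hu8
        linarith
      calc Real.exp (Real.log (4 * (k:ℝ)) * (1 / u)) ≤ Real.exp (Real.log 2) :=
            Real.exp_le_exp.mpr h2
        _ = 2 := Real.exp_log (by norm_num)
    calc 4 * (k:ℝ) * (4 * (k:ℝ)) ^ (1 / u) ≤ 4 * k * 2 := mul_le_mul_of_nonneg_left h1 hk0.le
      _ = 8 * k := by ring
  · -- B ≤ z ^ I
    have h1 : (B:ℝ) ≤ (z:ℝ) ^ I := by
      rw [← Real.log_le_log_iff hBpos (by positivity), Real.log_pow, ← hb, ← hlz]
      rw [div_le_iff₀ hlz0] at hI2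
      exact hI2
    exact_mod_cast h1
  · -- hni
    intro i h2 hiI
    have hbM : 80 * u * b ≤ M := by
      refine le_trans ?_ hLamM
      rw [hLt]
      exact mul_le_mul_of_nonneg_left hbt (by positivity)
    have := parb99_ni hu8 hNM hLL hMu hb0 hbM hlz1 hI1 hLampos hl10 h2 hiI
    rw [hM, hb, hLam] at this
    exact this
  · -- hfin
    have hW : ((2 * k - 1 : ℕ):ℝ) ≤ 12002 * u ^ 2 := by
      have h1 : ((2 * k - 1 : ℕ):ℝ) ≤ ((2 * k : ℕ):ℝ) := by exact_mod_cast Nat.sub_le _ _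
      push_cast at h1
      linarith
    have T1 := parb99_t1 (z := z) hu8 hNM hLL hMu hlz.symm hlz4 hlz2 hW
    have hE0 : 0 ≤ E0 N z (2 * k - 1) / N := by
      unfold E0; positivity
    have T1' := parb99_pow (k := k) hE0 T1
    have T3 := parb99_t3 hu8 hLL hBpos hb.symm htb ht7 hk1 hk2 (rfl : 8 * k = 8 * k)
    have T4 := parb99_t4 (Ir := (I:ℝ)) hu8 hLL hBpos hb.symm htb hbt ht7 hk1 hk2
      (rfl : 8 * k = 8 * k) hlz1 hI1 rfl hIpos' hI3 hLampos hl10
    have S1 : (E0 N z (2 * k - 1) / N) ^ k ≤ Real.exp (-(4 * (80 * u * t)) - 2) := by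
      refine T1'.trans (Real.exp_le_exp.mpr ?_)
      rw [← hLt]
      have h1 : 15 * M ≤ k * (M / (3 * lz)) := by
        rw [← mul_div_assoc, le_div_iff₀ (by positivity)]
        have hM0 : 0 ≤ M := by linarith
        calc 15 * M * (3 * lz) ≤ 15 * M * (3 * (130 * u ^ 2)) := by
              apply mul_le_mul_of_nonneg_left _ (by positivity)
              linarith
          _ = 5850 * u ^ 2 * M := by ring
          _ ≤ k * M := by
              apply mul_le_mul_of_nonneg_right _ hM0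
              linarith
      have h2 : (k:ℝ) * -(M / (3 * lz)) = -(k * (M / (3 * lz))) := by ring
      rw [h2]
      linarith
    have S2 : 2 * (I:ℝ) ^ 2 / D ^ 5 ≤ Real.exp (-(4 * (80 * u * t)) - 2) := by
      rw [← hLt, div_le_iff₀ (by positivity), hDe, ← Real.exp_nat_mul, ← Real.exp_add]
      have h1 : (I:ℝ) ^ 2 ≤ (2 * Real.exp u) ^ 2 := by
        rw [← hLL]; exact pow_le_pow_left₀ hIpos'.le hI3 2
      have h2 : 2 * (2 * Real.exp u) ^ 2 = 8 * Real.exp (2 * u) := by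
        rw [mul_pow, ← Real.exp_nat_mul]; push_cast; ring
      have h3 : (8:ℝ) ≤ Real.exp 8 := by have := Real.add_one_le_exp (8:ℝ); linarith
      calc 2 * (I:ℝ) ^ 2 ≤ 8 * Real.exp (2 * u) := by linarith
        _ ≤ Real.exp 8 * Real.exp (2 * u) := mul_le_mul_of_nonneg_right h3 (Real.exp_pos _).le
        _ = Real.exp (8 + 2 * u) := by rw [Real.exp_add]
        _ ≤ Real.exp (-(4 * Lam) - 2 + (5:ℕ) * Lam) := by
          apply Real.exp_le_exp.mpr
          push_cast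
          linarith
    have hfin : 4 * Real.exp (-(4 * (80 * u * t)) - 2) ≤ 1 / D ^ 4 := by
      rw [← hLt, hDe, ← Real.exp_nat_mul, one_div, ← Real.exp_neg]
      have h1 : Real.exp (-(((4:ℕ):ℝ) * Lam)) = Real.exp 2 * Real.exp (-(4 * Lam) - 2) := by
        rw [← Real.exp_add]; congr 1; push_cast; ring
      rw [h1]
      exact mul_le_mul_of_nonneg_right parb99_g (Real.exp_pos _).le
    rw [← hLam]
    linarith

end Pool.Agent.Helper5.RS
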