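import Pool.Agent.Helper5.RS.Defs

/-!
# Block RS-V3: the regrouped coefficients

`Psi Nn Y c a b = ∑_{g ≤ Y, g a ∈ Nn, g b ∈ Nn} c (g a) (g b)`. For `a ≠ b`: `dst (g a) (g b) = g dst a b`, `max (g a) (g b) = g max a b`, `gcd (q, g d) ≤ gcd (q, g) gcd (q, d)`, so
`wq q τ (g a) (g b) ≤ (gcd (q, g) / g) wq q τ a b`, and `∑_{g ≤ Y} gcd (q, g) / g ≤ ∑_{d ∣ q} ∑_{g ≤ Y, d ∣ g} d / g ≤ τ(q) LL Y` (`gcd (q, g)` is one of the `d` with `d ∣ q`, `d ∣ g`;
`∑_{k ≤ Y/d} 1/k ≤ 1 + log Y`).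
-/

set_option autoImplicit false

namespace Pool.Agent.Helper5.RS

open Finset Pool.Agent.Helper5.RM

theorem gcd_sum (q Y : ℕ) (hq : 1 ≤ q) (hY : 1 ≤ Y) :
    ∑ g ∈ Finset.Icc 1 Y, (Nat.gcd q g : ℝ) / g ≤ (q.divisors.card : ℝ) * LL Y := by
  have hin : ∀ d ∈ q.divisors, ∑ g ∈ (Finset.Icc 1 Y).filter (fun g => d ∣ g), (d : ℝ) / g ≤ LL Y := by
    intro d hd
    have hd0 : 0 < d := Nat.pos_of_mem_divisors hd
    have hd0' : (d : ℝ) ≠ 0 := by positivity
    have hsub : (Finset.Icc 1 Y).filter (fun g => d ∣ g) ⊆ (Finset.Icc 1 Y).image (fun k => d * k) := by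
      intro g hg
      rw [Finset.mem_filter, Finset.mem_Icc] at hg
      obtain ⟨⟨h1, h2⟩, k, hk⟩ := hg
      rw [Finset.mem_image]
      refine ⟨k, Finset.mem_Icc.2 ⟨?_, ?_⟩, hk.symm⟩
      · rcases Nat.eq_zero_or_pos k with h | h
        · subst h; omega
        · exact h
      · calc k ≤ d * k := Nat.le_mul_of_pos_left k hd0
          _ ≤ Y := by omega
    calc ∑ g ∈ (Finset.Icc 1 Y).filter (fun g => d ∣ g), (d : ℝ) / g
        ≤ ∑ g ∈ (Finset.Icc 1 Y).image (fun k => d * k), (d : ℝ) / g :=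
          Finset.sum_le_sum_of_subset_of_nonneg hsub (fun _ _ _ => by positivity)
      _ = ∑ k ∈ Finset.Icc 1 Y, (d : ℝ) / ((d * k : ℕ) : ℝ) :=
          Finset.sum_image (fun x _ y _ hxy => Nat.eq_of_mul_eq_mul_left hd0 hxy)
      _ = ∑ k ∈ Finset.Icc 1 Y, ((k : ℝ))⁻¹ := by
          refine Finset.sum_congr rfl fun k hk => ?_
          have hk0 : (k : ℝ) ≠ 0 := by
            have := (Finset.mem_Icc.1 hk).1
            positivity
          push_cast
          field_simp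
      _ ≤ LL Y := by
          have h1 := harmonic_le_one_add_log Y
          rw [harmonic_eq_sum_Icc] at h1
          push_cast at h1
          exact h1
  have hg : ∀ g ∈ Finset.Icc 1 Y, (Nat.gcd q g : ℝ) / g ≤
      ∑ d ∈ q.divisors, if d ∣ g then (d : ℝ) / g else 0 := by
    intro g hg
    have hm : Nat.gcd q g ∈ q.divisors :=
      Nat.mem_divisors.2 ⟨Nat.gcd_dvd_left q g, by omega⟩
    have h1 := Finset.single_le_sum (f := fun d : ℕ => if d ∣ g then (d : ℝ) / g else 0)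
      (fun d _ => by positivity) hm
    simpa [Nat.gcd_dvd_right q g] using h1
  calc ∑ g ∈ Finset.Icc 1 Y, (Nat.gcd q g : ℝ) / g
      ≤ ∑ g ∈ Finset.Icc 1 Y, ∑ d ∈ q.divisors, (if d ∣ g then (d : ℝ) / g else 0) :=
        Finset.sum_le_sum hg
    _ = ∑ d ∈ q.divisors, ∑ g ∈ Finset.Icc 1 Y, (if d ∣ g then (d : ℝ) / g else 0) :=
        Finset.sum_comm
    _ = ∑ d ∈ q.divisors, ∑ g ∈ (Finset.Icc 1 Y).filter (fun g => d ∣ g), (d : ℝ) / g :=
        Finset.sum_congr rfl fun d _ => (Finset.sum_filter _ _).symm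
    _ ≤ ∑ d ∈ q.divisors, LL Y := Finset.sum_le_sum hin
    _ = (q.divisors.card : ℝ) * LL Y := by rw [Finset.sum_const, nsmul_eq_mul]

theorem Psi_le (Nn : Finset ℕ) (Y q : ℕ) (τ A : ℝ) (c : ℕ → ℕ → ℂ) (hq : 1 ≤ q) (hY : 1 ≤ Y)
    (hτ : 1 ≤ τ) (hA : 0 ≤ A) (hc : ∀ m ∈ Nn, ∀ n ∈ Nn, m ≠ n → ‖c m n‖ ≤ A * wq q τ m n)
    (a b : ℕ) (ha : 1 ≤ a) (hb : 1 ≤ b) (hab : a ≠ b) :
    ‖Psi Nn Y c a b‖ ≤ A * (q.divisors.card : ℝ) * LL Y * wq q τ a b := by
  have hw0 : 0 ≤ wq q τ a b := by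
    unfold wq
    have h0 : (0 : ℝ) ≤ τ := by linarith
    exact mul_nonneg (by positivity) (le_min (by positivity) (by positivity))
  have hw : ∀ g : ℕ, 1 ≤ g → wq q τ (g * a) (g * b) ≤ ((Nat.gcd q g : ℝ) / g) * wq q τ a b := by
    intro g hg
    have hg0 : (0 : ℝ) < g := by exact_mod_cast hg
    have hq0 : (0 : ℝ) < q := by exact_mod_cast hq
    have hd : dst (g * a) (g * b) = g * dst a b := by
      unfold dst
      rw [Nat.mul_add, Nat.mul_sub, Nat.mul_sub]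
    have hmx : max (g * a) (g * b) = g * max a b := Nat.mul_max_mul_left g a b
    have hm0 : (0 : ℝ) < ((max a b : ℕ) : ℝ) := by
      have : 0 < max a b := lt_of_lt_of_le ha (le_max_left a b)
      exact_mod_cast this
    have hd0 : (0 : ℝ) < (dst a b : ℝ) := by
      have : 0 < dst a b := by unfold dst; omega
      exact_mod_cast this
    have hgcd : (Nat.gcd q (g * dst a b) : ℝ) ≤ (Nat.gcd q g : ℝ) * (Nat.gcd q (dst a b) : ℝ) := by
      have h1 := Nat.le_of_dvd (Nat.mul_pos (Nat.gcd_pos_of_pos_left _ hq)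
        (Nat.gcd_pos_of_pos_left _ hq)) (Nat.gcd_mul_right_dvd_mul_gcd q g (dst a b))
      exact_mod_cast h1
    unfold wq
    rw [hd, hmx]
    have hmin : min (1 / ((g * max a b : ℕ) : ℝ)) (1 / (τ * ((g * dst a b : ℕ) : ℝ))) =
        (1 / (g : ℝ)) * min (1 / ((max a b : ℕ) : ℝ)) (1 / (τ * dst a b)) := by
      rw [mul_min_of_nonneg _ _ (by positivity)]
      congr 1
      · push_cast
        field_simp
      · push_cast
        field_simp
    rw [hmin]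
    have hmin0 : 0 ≤ min (1 / ((max a b : ℕ) : ℝ)) (1 / (τ * dst a b)) :=
      le_min (by positivity) (by positivity)
    calc (Nat.gcd q (g * dst a b) : ℝ) / q *
          ((1 / (g : ℝ)) * min (1 / ((max a b : ℕ) : ℝ)) (1 / (τ * dst a b)))
        ≤ ((Nat.gcd q g : ℝ) * (Nat.gcd q (dst a b) : ℝ)) / q *
          ((1 / (g : ℝ)) * min (1 / ((max a b : ℕ) : ℝ)) (1 / (τ * dst a b))) := by
          gcongr
      _ = _ := by ring
  unfold Psi
  calc ‖∑ g ∈ (Finset.Icc 1 Y).filter (fun g => g * a ∈ Nn ∧ g * b ∈ Nn), c (g * a) (g * b)‖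
      ≤ ∑ g ∈ (Finset.Icc 1 Y).filter (fun g => g * a ∈ Nn ∧ g * b ∈ Nn), ‖c (g * a) (g * b)‖ :=
        norm_sum_le _ _
    _ ≤ ∑ g ∈ (Finset.Icc 1 Y).filter (fun g => g * a ∈ Nn ∧ g * b ∈ Nn),
          A * (((Nat.gcd q g : ℝ) / g) * wq q τ a b) := by
        refine Finset.sum_le_sum fun g hg => ?_
        rw [Finset.mem_filter, Finset.mem_Icc] at hg
        refine (hc _ hg.2.1 _ hg.2.2 ?_).trans (mul_le_mul_of_nonneg_left (hw g hg.1.1) hA)
        intro h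
        exact hab (Nat.eq_of_mul_eq_mul_left (by omega) h)
    _ ≤ ∑ g ∈ Finset.Icc 1 Y, A * (((Nat.gcd q g : ℝ) / g) * wq q τ a b) :=
        Finset.sum_le_sum_of_subset_of_nonneg (Finset.filter_subset _ _)
          (fun _ _ _ => mul_nonneg hA (mul_nonneg (by positivity) hw0))
    _ = A * (∑ g ∈ Finset.Icc 1 Y, (Nat.gcd q g : ℝ) / g) * wq q τ a b := by
        rw [Finset.mul_sum, Finset.sum_mul]
        exact Finset.sum_congr rfl fun g _ => by ring
    _ ≤ A * ((q.divisors.card : ℝ) * LL Y) * wq q τ a b := by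
        gcongr
        exact gcd_sum q Y hq hY
    _ = A * (q.divisors.card : ℝ) * LL Y * wq q τ a b := by ring

end Pool.Agent.Helper5.RS
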