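import Pool.Agent.Helper5.RS.Cas1
import Pool.Agent.Helper5.RS.Cas2

/-!
# Block RS-V8: the sum over the quadruples

`F (r,s,u,v) = wq q τ (r s) (u v) * wq q τ (r u) (s v)` (`wq` is symmetric in its two arguments, `≥ 0`). Symmetries of `F` and of `Qd Y`: (i) `r ↔ v, s ↔ u` (first factor `wq (v u) (s r)`, second `wq (v s) (u r)`);
(ii) `s ↔ u` (exchanges the two factors); (iii) `r ↔ s, v ↔ u` (first factor `wq (s r) (v u)`, second `wq (s v) (r u)`).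
Step 1: every quadruple satisfies one of `v ≤ r ∧ u ≤ s`, `v ≤ r ∧ s ≤ u`, `r ≤ v ∧ u ≤ s`, `r ≤ v ∧ s ≤ u`; (ii) maps the second to the first, (i) the fourth to the first, (ii) the third to the fourth.
So `∑_{Qd} F ≤ 4 ∑_{v ≤ r, u ≤ s} F`. Step 2: by (iii) (which maps `v ≤ r ∧ u ≤ s` to itself) this is `≤ 8 ∑_{v ≤ r, u ≤ s, r ≤ s} F`.
Step 3: for `v ≤ r`, `u ≤ s`, `r s ≠ u v`: `u v < r s`, `max (r s) (u v) = r s`, `dst (r s) (u v) = r s - u v`, and `wq (r u) (s v) ≤ 1 / max (r u) (s v) ≤ 1 / √(r s u v)` (`gcd (q, .) ≤ q`; `max^2 ≥` product);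
so `F ≤ g4 q τ r s u v`. Step 4: split the range `v ≤ r ≤ s`, `u ≤ s`: if `r ≤ u`: `case1`; if `u < r`, `v ≤ u`: `case2`; if `u < r`, `u < v`: then `u ≤ v ≤ r ≤ s` and `g4` is symmetric in `u`, `v`; after the
exchange `u ↔ v` this is in the range of `case2` (`Coprime r u`). Total at most `8 * 3 * 200 = 4800`.
-/

set_option autoImplicit false

namespace Pool.Agent.Helper5.RS

open Finset Pool.Agent.Helper5.RM

private theorem dbl27 {T : Type} [DecidableEq T] (S : Finset T) (F : T → ℝ) (hF : ∀ t, 0 ≤ F t) (e : T → T)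
    (he : ∀ t, e (e t) = t) (hS : ∀ t ∈ S, e t ∈ S) (hFe : ∀ t, F (e t) = F t)
    (P : T → Prop) [DecidablePred P] (hP : ∀ t ∈ S, P t ∨ P (e t)) :
    ∑ t ∈ S, F t ≤ 2 * ∑ t ∈ S.filter P, F t := by
  have h1 : ∑ t ∈ S.filter (fun t => P (e t)), F t = ∑ t ∈ S.filter P, F t := by
    refine Finset.sum_nbij' e e ?_ ?_ ?_ ?_ ?_
    · intro t ht
      rw [Finset.mem_filter] at ht ⊢
      exact ⟨hS t ht.1, ht.2⟩
    · intro t ht
      rw [Finset.mem_filter] at ht ⊢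
      exact ⟨hS t ht.1, by rw [he]; exact ht.2⟩
    · intro t _
      exact he t
    · intro t _
      exact he t
    · intro t _
      exact (hFe t).symm
  have h2 : ∑ t ∈ S, F t ≤ ∑ t ∈ S.filter P, F t + ∑ t ∈ S.filter (fun t => P (e t)), F t := by
    rw [← Finset.sum_filter_add_sum_filter_not S P]
    refine add_le_add le_rfl ?_
    refine Finset.sum_le_sum_of_subset_of_nonneg ?_ fun t _ _ => hF t
    intro t ht
    rw [Finset.mem_filter] at ht ⊢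
    exact ⟨ht.1, (hP t ht.1).resolve_left ht.2⟩
  rw [h1] at h2
  linarith

private theorem wq_comm27 (q : ℕ) (τ : ℝ) (a b : ℕ) : wq q τ a b = wq q τ b a := by
  unfold wq
  have h1 : dst a b = dst b a := by
    unfold dst
    omega
  rw [h1, max_comm]

private theorem wq_nonneg27 (q : ℕ) (τ : ℝ) (hτ : 1 ≤ τ) (a b : ℕ) : 0 ≤ wq q τ a b := by
  unfold wq
  refine mul_nonneg (by positivity) (le_min (by positivity) ?_)
  have : 0 ≤ τ := by linarith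
  positivity

private theorem g4_nonneg27 (q : ℕ) (τ : ℝ) (hτ : 1 ≤ τ) (r s u v : ℕ) : 0 ≤ g4 q τ r s u v := by
  unfold g4
  refine div_nonneg (mul_nonneg (by positivity) (le_min (by positivity) ?_)) (Real.sqrt_nonneg _)
  have : 0 ≤ τ := by linarith
  positivity

private theorem g4_comm27 (q : ℕ) (τ : ℝ) (r s u v : ℕ) : g4 q τ r s u v = g4 q τ r s v u := by
  unfold g4
  rw [mul_comm u v, mul_right_comm (r * s) u v]

private theorem wq_le27 (q : ℕ) (τ : ℝ) (hq : 1 ≤ q) (r s u v : ℕ) (hr : 1 ≤ r) (hs : 1 ≤ s) (hu : 1 ≤ u) (hv : 1 ≤ v) :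
    wq q τ (r * u) (s * v) ≤ 1 / Real.sqrt ((r * s * u * v : ℕ) : ℝ) := by
  unfold wq
  have hpos : (0 : ℝ) < ((r * s * u * v : ℕ) : ℝ) := by
    have : 0 < r * s * u * v := by positivity
    exact_mod_cast this
  have hq' : (0 : ℝ) < q := by exact_mod_cast hq
  have h1 : (Nat.gcd q (dst (r * u) (s * v)) : ℝ) / q ≤ 1 := by
    rw [div_le_one hq']
    exact_mod_cast Nat.gcd_le_left _ hq
  have h2 : Real.sqrt ((r * s * u * v : ℕ) : ℝ) ≤ ((max (r * u) (s * v) : ℕ) : ℝ) := by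
    rw [Real.sqrt_le_left (by positivity)]
    have h3 : r * s * u * v ≤ max (r * u) (s * v) ^ 2 := by
      calc r * s * u * v = (r * u) * (s * v) := by ring
        _ ≤ max (r * u) (s * v) * max (r * u) (s * v) :=
          Nat.mul_le_mul (le_max_left _ _) (le_max_right _ _)
        _ = _ := by ring
    exact_mod_cast h3
  have h4 : min (1 / ((max (r * u) (s * v) : ℕ) : ℝ)) (1 / (τ * dst (r * u) (s * v))) ≤
      1 / Real.sqrt ((r * s * u * v : ℕ) : ℝ) :=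
    (min_le_left _ _).trans (one_div_le_one_div_of_le (Real.sqrt_pos.2 hpos) h2)
  have h5 : (0 : ℝ) ≤ 1 / Real.sqrt ((r * s * u * v : ℕ) : ℝ) := by positivity
  have h6 : (0 : ℝ) ≤ (Nat.gcd q (dst (r * u) (s * v)) : ℝ) / q := by positivity
  calc _ ≤ (Nat.gcd q (dst (r * u) (s * v)) : ℝ) / q * (1 / Real.sqrt ((r * s * u * v : ℕ) : ℝ)) :=
        mul_le_mul_of_nonneg_left h4 h6
    _ ≤ 1 * (1 / Real.sqrt ((r * s * u * v : ℕ) : ℝ)) := mul_le_mul_of_nonneg_right h1 h5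
    _ = _ := one_mul _

private theorem F_le27 (q : ℕ) (τ : ℝ) (hq : 1 ≤ q) (hτ : 1 ≤ τ) (r s u v : ℕ) (hr : 1 ≤ r) (hs : 1 ≤ s) (hu : 1 ≤ u)
    (hv : 1 ≤ v) (h : u * v < r * s) :
    wq q τ (r * s) (u * v) * wq q τ (r * u) (s * v) ≤ g4 q τ r s u v := by
  have h1 : wq q τ (r * s) (u * v) = (Nat.gcd q (r * s - u * v) : ℝ) / q *
      min (1 / ((r * s : ℕ) : ℝ)) (1 / (τ * ((r * s - u * v : ℕ) : ℝ))) := by
    unfold wq
    have h2 : dst (r * s) (u * v) = r * s - u * v := by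
      unfold dst
      omega
    rw [h2, max_eq_left h.le]
  have h3 := wq_le27 q τ hq r s u v hr hs hu hv
  have h4 := wq_nonneg27 q τ hτ (r * s) (u * v)
  refine (mul_le_mul_of_nonneg_left h3 h4).trans (le_of_eq ?_)
  rw [h1]
  unfold g4
  rw [mul_one_div]

theorem quad_sum (q Y : ℕ) (τ : ℝ) (hq : 1 ≤ q) (hY : 1 ≤ Y) (hτ : 1 ≤ τ) :
    ∑ t ∈ Qd Y, wq q τ (t.1 * t.2.1) (t.2.2.1 * t.2.2.2) * wq q τ (t.1 * t.2.2.1) (t.2.1 * t.2.2.2) ≤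
      4800 * LL Y ^ 2 * Xi q τ := by
  classical
  set F : ℕ × ℕ × ℕ × ℕ → ℝ := fun t =>
    wq q τ (t.1 * t.2.1) (t.2.2.1 * t.2.2.2) * wq q τ (t.1 * t.2.2.1) (t.2.1 * t.2.2.2) with hFdef
  set G : ℕ × ℕ × ℕ × ℕ → ℝ := fun t => g4 q τ t.1 t.2.1 t.2.2.1 t.2.2.2 with hGdef
  have hF0 : ∀ t, 0 ≤ F t := fun t => mul_nonneg (wq_nonneg27 q τ hτ _ _) (wq_nonneg27 q τ hτ _ _)
  have hG0 : ∀ t, 0 ≤ G t := fun t => g4_nonneg27 q τ hτ _ _ _ _
  -- first symmetry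
  have s1 : ∑ t ∈ Qd Y, F t ≤ 2 * ∑ t ∈ (Qd Y).filter (fun t => t.2.2.2 ≤ t.1), F t := by
    refine dbl27 _ F hF0 (fun t => (t.2.2.2, t.2.2.1, t.2.1, t.1)) (fun t => rfl) ?_ ?_ _ ?_
    · rintro ⟨r, s, u, v⟩ ht
      simp only [Qd, Finset.mem_filter, Finset.mem_product] at ht ⊢
      obtain ⟨⟨h1, h2, h3, h4⟩, c1, c2, c3, c4, c5, c6, c7, c8⟩ := ht
      refine ⟨⟨h4, h3, h2, h1⟩, c6.symm, c5.symm, c3.symm, c4.symm, c2.symm, c1.symm, ?_, ?_⟩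
      · intro h
        apply c7
        rw [mul_comm r s, mul_comm u v]
        exact h.symm
      · intro h
        apply c8
        rw [mul_comm r u, mul_comm s v]
        exact h.symm
    · rintro ⟨r, s, u, v⟩
      show wq q τ (v * u) (s * r) * wq q τ (v * s) (u * r) = wq q τ (r * s) (u * v) * wq q τ (r * u) (s * v)
      rw [wq_comm27 q τ (v * u), wq_comm27 q τ (v * s), mul_comm v u, mul_comm s r, mul_comm v s, mul_comm u r]
    · rintro ⟨r, s, u, v⟩ _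
      exact le_total _ _
  have s2 : ∑ t ∈ (Qd Y).filter (fun t => t.2.2.2 ≤ t.1), F t ≤
      2 * ∑ t ∈ ((Qd Y).filter (fun t => t.2.2.2 ≤ t.1)).filter (fun t => t.2.2.1 ≤ t.2.1), F t := by
    refine dbl27 _ F hF0 (fun t => (t.1, t.2.2.1, t.2.1, t.2.2.2)) (fun t => rfl) ?_ ?_ _ ?_
    · rintro ⟨r, s, u, v⟩ ht
      simp only [Qd, Finset.mem_filter, Finset.mem_product] at ht ⊢
      obtain ⟨⟨⟨h1, h2, h3, h4⟩, c1, c2, c3, c4, c5, c6, c7, c8⟩, d1⟩ := ht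
      exact ⟨⟨⟨h1, h3, h2, h4⟩, c2, c1, c3, c4.symm, c6, c5, c8, c7⟩, d1⟩
    · rintro ⟨r, s, u, v⟩
      show wq q τ (r * u) (s * v) * wq q τ (r * s) (u * v) = wq q τ (r * s) (u * v) * wq q τ (r * u) (s * v)
      rw [mul_comm]
    · rintro ⟨r, s, u, v⟩ _
      exact le_total _ _
  have s3 : ∑ t ∈ ((Qd Y).filter (fun t => t.2.2.2 ≤ t.1)).filter (fun t => t.2.2.1 ≤ t.2.1), F t ≤
      2 * ∑ t ∈ (((Qd Y).filter (fun t => t.2.2.2 ≤ t.1)).filter (fun t => t.2.2.1 ≤ t.2.1)).filter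
        (fun t => t.1 ≤ t.2.1), F t := by
    refine dbl27 _ F hF0 (fun t => (t.2.1, t.1, t.2.2.2, t.2.2.1)) (fun t => rfl) ?_ ?_ _ ?_
    · rintro ⟨r, s, u, v⟩ ht
      simp only [Qd, Finset.mem_filter, Finset.mem_product] at ht ⊢
      obtain ⟨⟨⟨⟨h1, h2, h3, h4⟩, c1, c2, c3, c4, c5, c6, c7, c8⟩, d1⟩, d2⟩ := ht
      refine ⟨⟨⟨⟨h2, h1, h4, h3⟩, c1.symm, c5, c4, c3, c2, c6.symm, ?_, ?_⟩, d2⟩, d1⟩
      · intro h
        apply c7
        rw [mul_comm r s, mul_comm u v]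
        exact h
      · intro h
        exact c8 h.symm
    · rintro ⟨r, s, u, v⟩
      show wq q τ (s * r) (v * u) * wq q τ (s * v) (r * u) = wq q τ (r * s) (u * v) * wq q τ (r * u) (s * v)
      rw [wq_comm27 q τ (s * v), mul_comm s r, mul_comm v u]
    · rintro ⟨r, s, u, v⟩ _
      exact le_total _ _
  set R := (((Qd Y).filter (fun t => t.2.2.2 ≤ t.1)).filter (fun t => t.2.2.1 ≤ t.2.1)).filter
        (fun t => t.1 ≤ t.2.1) with hR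
  have hRm : ∀ t ∈ R, ((1 ≤ t.1 ∧ t.1 ≤ Y) ∧ (1 ≤ t.2.1 ∧ t.2.1 ≤ Y) ∧ (1 ≤ t.2.2.1 ∧ t.2.2.1 ≤ Y) ∧ (1 ≤ t.2.2.2 ∧ t.2.2.2 ≤ Y)) ∧
      Nat.Coprime t.1 t.2.2.1 ∧ Nat.Coprime t.1 t.2.2.2 ∧ t.2.2.2 ≤ t.1 ∧ t.2.2.1 ≤ t.2.1 ∧ t.1 ≤ t.2.1 ∧
      t.2.2.1 * t.2.2.2 < t.1 * t.2.1 := by
    intro t ht
    rw [hR] at ht
    simp only [Qd, Finset.mem_filter, Finset.mem_product, Finset.mem_Icc] at ht
    obtain ⟨⟨⟨⟨h1, c1, c2, c3, c4, c5, c6, c7, c8⟩, d1⟩, d2⟩, d3⟩ := ht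
    refine ⟨h1, c2, c3, d1, d2, d3, ?_⟩
    refine lt_of_le_of_ne ?_ (Ne.symm c7)
    rw [mul_comm t.1 t.2.1]
    exact Nat.mul_le_mul d2 d1
  have s4 : ∑ t ∈ R, F t ≤ ∑ t ∈ R, G t := by
    refine Finset.sum_le_sum fun t ht => ?_
    obtain ⟨⟨h1, h2, h3, h4⟩, -, -, -, -, -, h5⟩ := hRm t ht
    exact F_le27 q τ hq hτ _ _ _ _ h1.1 h2.1 h3.1 h4.1 h5
  have c1 := case1 q Y τ hq hY hτ
  have c2 := case2 q Y τ hq hY hτ
  have s5 : ∑ t ∈ R.filter (fun t => t.1 ≤ t.2.2.1), G t ≤ 200 * LL Y ^ 2 * Xi q τ := by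
    refine le_trans (Finset.sum_le_sum_of_subset_of_nonneg ?_ fun t _ _ => hG0 t) c1
    intro t ht
    rw [Finset.mem_filter] at ht
    obtain ⟨⟨h1, h2, h3, h4⟩, e1, e2, e3, e4, e5, e6⟩ := hRm t ht.1
    simp only [Finset.mem_filter, Finset.mem_product, Finset.mem_Icc]
    exact ⟨⟨h1, h2, h3, h4⟩, e2, e3, e5, e4, ht.2, e6⟩
  have s6 : ∑ t ∈ (R.filter (fun t => ¬ t.1 ≤ t.2.2.1)).filter (fun t => t.2.2.2 ≤ t.2.2.1), G t ≤
      200 * LL Y ^ 2 * Xi q τ := by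
    refine le_trans (Finset.sum_le_sum_of_subset_of_nonneg ?_ fun t _ _ => hG0 t) c2
    intro t ht
    rw [Finset.mem_filter, Finset.mem_filter] at ht
    obtain ⟨⟨h1, h2, h3, h4⟩, e1, e2, e3, e4, e5, e6⟩ := hRm t ht.1.1
    simp only [Finset.mem_filter, Finset.mem_product, Finset.mem_Icc]
    exact ⟨⟨h1, h2, h3, h4⟩, e2, ht.2, (not_le.1 ht.1.2).le, e5, e6⟩
  have s7 : ∑ t ∈ (R.filter (fun t => ¬ t.1 ≤ t.2.2.1)).filter (fun t => ¬ t.2.2.2 ≤ t.2.2.1), G t ≤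
      200 * LL Y ^ 2 * Xi q τ := by
    refine le_trans ?_ c2
    have h7 : ∑ t ∈ (R.filter (fun t => ¬ t.1 ≤ t.2.2.1)).filter (fun t => ¬ t.2.2.2 ≤ t.2.2.1), G t =
        ∑ t ∈ ((R.filter (fun t => ¬ t.1 ≤ t.2.2.1)).filter (fun t => ¬ t.2.2.2 ≤ t.2.2.1)).image
          (fun t => (t.1, t.2.1, t.2.2.2, t.2.2.1)), G t := by
      rw [Finset.sum_image]
      · refine Finset.sum_congr rfl fun t _ => ?_
        exact g4_comm27 q τ _ _ _ _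
      · rintro ⟨r, s, u, v⟩ _ ⟨r', s', u', v'⟩ _ h
        simp only [Prod.mk.injEq] at h ⊢
        exact ⟨h.1, h.2.1, h.2.2.2, h.2.2.1⟩
    rw [h7]
    refine Finset.sum_le_sum_of_subset_of_nonneg ?_ fun t _ _ => hG0 t
    intro t' ht'
    rw [Finset.mem_image] at ht'
    obtain ⟨t, ht, rfl⟩ := ht'
    rw [Finset.mem_filter, Finset.mem_filter] at ht
    obtain ⟨⟨h1, h2, h3, h4⟩, e1, e2, e3, e4, e5, e6⟩ := hRm t ht.1.1
    simp only [Finset.mem_filter, Finset.mem_product, Finset.mem_Icc]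
    refine ⟨⟨h1, h2, h4, h3⟩, e1, (not_le.1 ht.2).le, e3, e5, ?_⟩
    rw [mul_comm]
    exact e6
  have s8 : ∑ t ∈ R, G t ≤ 600 * LL Y ^ 2 * Xi q τ := by
    rw [← Finset.sum_filter_add_sum_filter_not R (fun t => t.1 ≤ t.2.2.1),
      ← Finset.sum_filter_add_sum_filter_not (R.filter (fun t => ¬ t.1 ≤ t.2.2.1)) (fun t => t.2.2.2 ≤ t.2.2.1)]
    linarith
  linarith

end Pool.Agent.Helper5.RS
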