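import Pool.Agent.Helper5.RS.Defs

/-!
# Block RS-V5: pairs of pairs with the same product

Let `(a, b)`, `(a', b')` in `cp Y` (coprime, squarefree, `a ≠ b`, `a' ≠ b'`) with `a b = a' b'`. Put `r = gcd (a, a')`, `s = gcd (a, b')`, `u = gcd (b, a')`, `v = gcd (b, b')`. As `a' , b'` are coprime
and `a ∣ a' b'`: `a = gcd (a, a' b') = r s`; in the same way `b = u v`, `a' = r u`, `b' = s v`. The numbers `r, s, u, v` are pairwise coprime (`r, u ∣ a', s, v ∣ b'`; `r, s ∣ a, u, v ∣ b`), all `≤ Y`, and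
`r s ≠ u v`, `r u ≠ s v`. So `((a, b), (a', b')) ↦ (r, s, u, v)` maps into `Qd Y`; it is injective since `a = r s`, ...; `F ≥ 0`.
-/

set_option autoImplicit false

namespace Pool.Agent.Helper5.RS

open Finset Pool.Agent.Helper5.RM

private theorem fac65 {a b a' b' : ℕ} (hc : Nat.Coprime a' b') (h : a * b = a' * b') :
    Nat.gcd a a' * Nat.gcd a b' = a := by
  rw [← Nat.Coprime.gcd_mul a hc, ← h]
  exact Nat.gcd_eq_left (Dvd.intro _ rfl)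

private theorem fac65' {a b a' b' : ℕ} (hc : Nat.Coprime a' b') (h : a * b = a' * b') :
    Nat.gcd b a' * Nat.gcd b b' = b := by
  rw [← Nat.Coprime.gcd_mul b hc, ← h]
  exact Nat.gcd_eq_left (Dvd.intro_left _ rfl)

private def qm65 (x : (_ : ℕ × ℕ) × (ℕ × ℕ)) : ℕ × ℕ × ℕ × ℕ :=
  (Nat.gcd x.1.1 x.2.1, Nat.gcd x.1.1 x.2.2, Nat.gcd x.1.2 x.2.1, Nat.gcd x.1.2 x.2.2)

theorem pairs_le_quad (Y : ℕ) (F : ℕ → ℕ → ℝ) (hF : ∀ a b, 0 ≤ F a b) :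
    ∑ p ∈ cp Y, ∑ p' ∈ (cp Y).filter (fun p' => p'.1 * p'.2 = p.1 * p.2), F p.1 p.2 * F p'.1 p'.2 ≤
      ∑ t ∈ Qd Y, F (t.1 * t.2.1) (t.2.2.1 * t.2.2.2) * F (t.1 * t.2.2.1) (t.2.1 * t.2.2.2) := by
  classical
  rw [Finset.sum_sigma']
  set S := (cp Y).sigma (fun p => (cp Y).filter (fun p' => p'.1 * p'.2 = p.1 * p.2)) with hS
  have hmem : ∀ x ∈ S, (1 ≤ x.1.1 ∧ x.1.1 ≤ Y) ∧ (1 ≤ x.1.2 ∧ x.1.2 ≤ Y) ∧
      (1 ≤ x.2.1 ∧ x.2.1 ≤ Y) ∧ (1 ≤ x.2.2 ∧ x.2.2 ≤ Y) ∧ x.1.1 ≠ x.1.2 ∧ x.2.1 ≠ x.2.2 ∧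
      Nat.Coprime x.1.1 x.1.2 ∧ Nat.Coprime x.2.1 x.2.2 ∧ x.1.1 * x.1.2 = x.2.1 * x.2.2 := by
    intro x hx
    rw [hS, Finset.mem_sigma, Finset.mem_filter] at hx
    obtain ⟨h1, h2, h3⟩ := hx
    unfold cp at h1 h2
    rw [Finset.mem_filter, Finset.mem_product, Finset.mem_Icc, Finset.mem_Icc] at h1 h2
    exact ⟨h1.1.1, h1.1.2, h2.1.1, h2.1.2, h1.2.1, h2.2.1, h1.2.2.1, h2.2.2.1, h3.symm⟩
  have hfac : ∀ x ∈ S, (qm65 x).1 * (qm65 x).2.1 = x.1.1 ∧ (qm65 x).2.2.1 * (qm65 x).2.2.2 = x.1.2 ∧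
      (qm65 x).1 * (qm65 x).2.2.1 = x.2.1 ∧ (qm65 x).2.1 * (qm65 x).2.2.2 = x.2.2 := by
    intro x hx
    obtain ⟨-, -, -, -, -, -, h1, h2, h3⟩ := hmem x hx
    refine ⟨fac65 h2 h3, fac65' h2 h3, ?_, ?_⟩
    · show Nat.gcd x.1.1 x.2.1 * Nat.gcd x.1.2 x.2.1 = x.2.1
      rw [Nat.gcd_comm x.1.1, Nat.gcd_comm x.1.2]
      exact fac65 h1 h3.symm
    · show Nat.gcd x.1.1 x.2.2 * Nat.gcd x.1.2 x.2.2 = x.2.2
      rw [Nat.gcd_comm x.1.1, Nat.gcd_comm x.1.2]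
      exact fac65' h1 h3.symm
  have hinj : Set.InjOn qm65 (S : Set ((_ : ℕ × ℕ) × (ℕ × ℕ))) := by
    intro x hx y hy hxy
    obtain ⟨a1, a2, a3, a4⟩ := hfac x hx
    obtain ⟨b1, b2, b3, b4⟩ := hfac y hy
    rw [hxy] at a1 a2 a3 a4
    obtain ⟨⟨x1, x2⟩, ⟨x3, x4⟩⟩ := x
    obtain ⟨⟨y1, y2⟩, ⟨y3, y4⟩⟩ := y
    simp only at a1 a2 a3 a4 b1 b2 b3 b4
    have e1 : x1 = y1 := a1.symm.trans b1
    have e2 : x2 = y2 := a2.symm.trans b2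
    have e3 : x3 = y3 := a3.symm.trans b3
    have e4 : x4 = y4 := a4.symm.trans b4
    rw [e1, e2, e3, e4]
  have hsub : S.image qm65 ⊆ Qd Y := by
    intro t ht
    obtain ⟨x, hx, rfl⟩ := Finset.mem_image.1 ht
    obtain ⟨h1, h2, h3, h4, h5, h6, h7, h8, h9⟩ := hmem x hx
    obtain ⟨f1, f2, f3, f4⟩ := hfac x hx
    have b : ∀ m n : ℕ, 1 ≤ m → m ≤ Y → Nat.gcd m n ∈ Finset.Icc 1 Y := by
      intro m n hm hmY
      rw [Finset.mem_Icc]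
      exact ⟨Nat.gcd_pos_of_pos_left _ hm, (Nat.gcd_le_left _ hm).trans hmY⟩
    unfold Qd
    rw [Finset.mem_filter]
    refine ⟨?_, ?_, ?_, ?_, ?_, ?_, ?_, ?_, ?_⟩
    · simp only [Finset.mem_product]
      exact ⟨b _ _ h1.1 h1.2, b _ _ h1.1 h1.2, b _ _ h2.1 h2.2, b _ _ h2.1 h2.2⟩
    · exact Nat.Coprime.of_dvd (Nat.gcd_dvd_right _ _) (Nat.gcd_dvd_right _ _) h8
    · exact Nat.Coprime.of_dvd (Nat.gcd_dvd_left _ _) (Nat.gcd_dvd_left _ _) h7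
    · exact Nat.Coprime.of_dvd (Nat.gcd_dvd_left _ _) (Nat.gcd_dvd_left _ _) h7
    · exact Nat.Coprime.of_dvd (Nat.gcd_dvd_left _ _) (Nat.gcd_dvd_left _ _) h7
    · exact Nat.Coprime.of_dvd (Nat.gcd_dvd_left _ _) (Nat.gcd_dvd_left _ _) h7
    · exact Nat.Coprime.of_dvd (Nat.gcd_dvd_right _ _) (Nat.gcd_dvd_right _ _) h8
    · rw [f1, f2]; exact h5
    · rw [f3, f4]; exact h6
  calc ∑ x ∈ S, F x.1.1 x.1.2 * F x.2.1 x.2.2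
      = ∑ x ∈ S, F ((qm65 x).1 * (qm65 x).2.1) ((qm65 x).2.2.1 * (qm65 x).2.2.2) *
          F ((qm65 x).1 * (qm65 x).2.2.1) ((qm65 x).2.1 * (qm65 x).2.2.2) := by
        refine Finset.sum_congr rfl fun x hx => ?_
        obtain ⟨f1, f2, f3, f4⟩ := hfac x hx
        rw [f1, f2, f3, f4]
    _ = ∑ t ∈ S.image qm65, F (t.1 * t.2.1) (t.2.2.1 * t.2.2.2) *
          F (t.1 * t.2.2.1) (t.2.1 * t.2.2.2) := (Finset.sum_image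
            (f := fun t : ℕ × ℕ × ℕ × ℕ => F (t.1 * t.2.1) (t.2.2.1 * t.2.2.2) *
              F (t.1 * t.2.2.1) (t.2.1 * t.2.2.2)) hinj).symm
    _ ≤ _ := Finset.sum_le_sum_of_subset_of_nonneg hsub fun t _ _ =>
        mul_nonneg (hF _ _) (hF _ _)

end Pool.Agent.Helper5.RS
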