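import Pool.Agent.Helper5.RS.Defs

/-!
# Block RS-V1: Ramanujan sums

`∑_{b mod q, (b,q)=1} e (b h / q) = ∑_{d ∣ q} μ(d) ∑_{b' < q/d} e (b' d h / q)` (insert `∑_{d ∣ gcd(b,q)} μ(d)`, `b = d b'`), and the inner sum is `q/d` if `(q/d) ∣ h` and `0` otherwise
(a full sum of a nontrivial character of `Z/(q/d)`; compare `CMP_orth` in `RM/CMP.lean`). So its norm is at most `∑_{d' ∣ q, d' ∣ h} d' ≤ τ(q) gcd (q, h)` (`d' = q/d`).
`q_le`: `q / φ(q) = ∏_{p ∣ q} p / (p-1) ≤ ∏_{p ∣ q} 2 ≤ τ(q)`; or by multiplicativity, `p^k ≤ (k+1) p^(k-1) (p-1)`.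
`ramanujan_le`: combine, for a nonzero integer `h` (`e` is conjugated by `h ↦ -h`).
-/

set_option autoImplicit false

namespace Pool.Agent.Helper5.RS

open Finset Pool.Agent.Helper5.RM

private theorem q_le_nat77 (q : ℕ) (hq : q ≠ 0) : q ≤ q.divisors.card * Nat.totient q := by
  induction q using Nat.recOnPosPrimePosCoprime with
  | prime_pow p k hp hk =>
    rw [Nat.divisors_prime_pow hp, Finset.card_map, Finset.card_range,
      Nat.totient_prime_pow hp hk]
    obtain ⟨m, rfl⟩ : ∃ m, k = m + 1 := ⟨k - 1, by omega⟩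
    obtain ⟨r, rfl⟩ : ∃ r, p = r + 2 := ⟨p - 2, by have := hp.two_le; omega⟩
    have h1 : r + 2 - 1 = r + 1 := by omega
    have h2 : m + 1 - 1 = m := by omega
    rw [h1, h2, pow_succ]
    have h3 : 0 < (r + 2) ^ m := by positivity
    have h4 : r + 2 ≤ (m + 1 + 1) * (r + 1) := by nlinarith
    calc (r + 2) ^ m * (r + 2) ≤ (r + 2) ^ m * ((m + 1 + 1) * (r + 1)) := Nat.mul_le_mul_left _ h4
      _ = (m + 1 + 1) * ((r + 2) ^ m * (r + 1)) := by ring
  | zero => exact absurd rfl hq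
  | one => simp
  | coprime a b ha hb hab iha ihb =>
    rw [Nat.Coprime.card_divisors_mul hab, Nat.totient_mul hab]
    have h1 := iha (by omega)
    have h2 := ihb (by omega)
    calc a * b ≤ (a.divisors.card * Nat.totient a) * (b.divisors.card * Nat.totient b) :=
          Nat.mul_le_mul h1 h2
      _ = a.divisors.card * b.divisors.card * (Nat.totient a * Nat.totient b) := by ring

theorem q_le (q : ℕ) (hq : 1 ≤ q) : (q : ℝ) ≤ (q.divisors.card : ℝ) * Nat.totient q := by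
  have h := q_le_nat77 q (by omega)
  exact_mod_cast h

private theorem e_pow77 (x : ℝ) (h : ℕ) : e (h * x) = e x ^ h := by
  induction h with
  | zero => simp [e_zero]
  | succ n ih =>
    rw [pow_succ, ← ih, ← e_add]
    congr 1
    push_cast
    ring

private theorem full77 (n : ℕ) (hn : 1 ≤ n) (h : ℤ) :
    ∑ b ∈ Finset.range n, e ((b : ℝ) * (h / n)) = if (n : ℤ) ∣ h then (n : ℂ) else 0 := by
  have hn0 : (n : ℝ) ≠ 0 := by
    have : (0 : ℝ) < n := by exact_mod_cast hn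
    exact this.ne'
  split_ifs with hd
  · obtain ⟨c, rfl⟩ := hd
    have : ∀ b ∈ Finset.range n, e ((b : ℝ) * (((n : ℤ) * c : ℤ) / n)) = 1 := by
      intro b _
      have h1 : (b : ℝ) * (((n : ℤ) * c : ℤ) / n) = (((b : ℤ) * c : ℤ) : ℝ) := by
        push_cast
        field_simp
      rw [h1, e_int]
    rw [Finset.sum_congr rfl this]
    simp
  · have hne : e ((h : ℝ) / n) ≠ 1 := by
      intro h1
      unfold e at h1
      rw [Complex.exp_eq_one_iff] at h1
      obtain ⟨m, hm⟩ := h1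
      have hpi : (2 * (Real.pi : ℂ) * Complex.I) ≠ 0 := by
        simp [Real.pi_ne_zero, Complex.I_ne_zero]
      have h2 : (((h : ℝ) / n : ℝ) : ℂ) = m := by
        apply mul_right_cancel₀ hpi
        rw [← hm]
        ring
      have h3 : (h : ℝ) / n = m := by exact_mod_cast h2
      have h4 : (h : ℝ) = m * n := by
        rw [← h3]
        field_simp
      have h5 : h = m * n := by exact_mod_cast h4
      exact hd ⟨m, by rw [h5]; ring⟩
    simp_rw [e_pow77]
    rw [geom_sum_eq hne]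
    have h2 : e ((h : ℝ) / n) ^ n = 1 := by
      rw [← e_pow77, mul_div_cancel₀ _ hn0]
      exact e_int h
    rw [h2, sub_self, zero_div]

private theorem mu77 (q b : ℕ) (hq : q ≠ 0) :
    ∑ d ∈ q.divisors.filter (fun d => d ∣ b), ArithmeticFunction.moebius d =
      if Nat.Coprime b q then (1 : ℤ) else 0 := by
  have h1 : q.divisors.filter (fun d => d ∣ b) = (Nat.gcd b q).divisors := by
    ext d
    rw [Finset.mem_filter, Nat.mem_divisors, Nat.mem_divisors, Nat.dvd_gcd_iff]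
    constructor
    · rintro ⟨⟨h1, _⟩, h2⟩
      exact ⟨⟨h2, h1⟩, Nat.gcd_ne_zero_right hq⟩
    · rintro ⟨⟨h2, h1⟩, _⟩
      exact ⟨⟨h1, hq⟩, h2⟩
  rw [h1, ← ArithmeticFunction.coe_mul_zeta_apply, ArithmeticFunction.moebius_mul_coe_zeta,
    ArithmeticFunction.one_apply]

private theorem ram_eq77 (q : ℕ) (hq : 1 ≤ q) (h : ℤ) :
    ∑ b ∈ (Finset.range q).filter (fun b => Nat.Coprime b q), e ((b : ℝ) * h / q) =
      ∑ d ∈ q.divisors, ((ArithmeticFunction.moebius d : ℤ) : ℂ) *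
        (if ((q / d : ℕ) : ℤ) ∣ h then ((q / d : ℕ) : ℂ) else 0) := by
  have hq0 : q ≠ 0 := by omega
  rw [Finset.sum_filter]
  have h1 : ∀ b ∈ Finset.range q, (if Nat.Coprime b q then e ((b : ℝ) * h / q) else 0) =
      ∑ d ∈ q.divisors, if d ∣ b then ((ArithmeticFunction.moebius d : ℤ) : ℂ) *
        e ((b : ℝ) * h / q) else 0 := by
    intro b _
    have h2 := mu77 q b hq0
    have h3 : (if Nat.Coprime b q then e ((b : ℝ) * h / q) else 0) =
        (((if Nat.Coprime b q then (1 : ℤ) else 0) : ℤ) : ℂ) * e ((b : ℝ) * h / q) := by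
      split_ifs <;> simp
    rw [h3, ← h2, Int.cast_sum, Finset.sum_mul, Finset.sum_filter]
  rw [Finset.sum_congr rfl h1, Finset.sum_comm]
  refine Finset.sum_congr rfl fun d hd => ?_
  rw [Nat.mem_divisors] at hd
  have hd0 : 0 < d := Nat.pos_of_dvd_of_pos hd.1 (by omega)
  have hqd : 1 ≤ q / d := Nat.div_pos (Nat.le_of_dvd (by omega) hd.1) hd0
  obtain ⟨c, hc⟩ := hd.1
  have hcd : q / d = c := by rw [hc]; exact Nat.mul_div_cancel_left _ hd0
  rw [← full77 (q / d) hqd h, Finset.mul_sum, ← Finset.sum_filter]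
  symm
  apply Finset.sum_bij (fun b _ => d * b)
  · intro b hb
    rw [Finset.mem_range, hcd] at hb
    rw [Finset.mem_filter, Finset.mem_range, hc]
    exact ⟨Nat.mul_lt_mul_of_pos_left hb hd0, Dvd.intro _ rfl⟩
  · intro b _ b' _ hbb
    exact Nat.eq_of_mul_eq_mul_left hd0 hbb
  · intro b hb
    rw [Finset.mem_filter, Finset.mem_range] at hb
    obtain ⟨hb1, b', rfl⟩ := hb
    refine ⟨b', ?_, rfl⟩
    rw [Finset.mem_range, hcd]
    rw [hc] at hb1
    exact Nat.lt_of_mul_lt_mul_left hb1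
  · intro b _
    congr 2
    rw [hcd, hc]
    push_cast
    have h4 : (d : ℝ) ≠ 0 := by positivity
    have h5 : (c : ℝ) ≠ 0 := by
      rw [← hcd]
      have : (0 : ℝ) < ((q / d : ℕ) : ℝ) := by exact_mod_cast hqd
      exact this.ne'
    field_simp

theorem ramanujan_le (q : ℕ) (hq : 1 ≤ q) (h : ℤ) (hh : h ≠ 0) :
    ‖∑ b ∈ (Finset.range q).filter (fun b => Nat.Coprime b q), e ((b : ℝ) * h / q)‖ / Nat.totient q ≤
      (q.divisors.card : ℝ) ^ 2 * ((Nat.gcd q h.natAbs : ℝ) / q) := by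
  have hq0 : (0 : ℝ) < q := by exact_mod_cast hq
  have hφ : (0 : ℝ) < Nat.totient q := by exact_mod_cast Nat.totient_pos.mpr hq
  have hgpos : 0 < Nat.gcd q h.natAbs := Nat.gcd_pos_of_pos_left _ hq
  have h1 : ‖∑ b ∈ (Finset.range q).filter (fun b => Nat.Coprime b q), e ((b : ℝ) * h / q)‖ ≤
      (q.divisors.card : ℝ) * (Nat.gcd q h.natAbs : ℝ) := by
    rw [ram_eq77 q hq h]
    refine (norm_sum_le _ _).trans ?_
    rw [← nsmul_eq_mul]
    refine Finset.sum_le_card_nsmul _ _ _ fun d hd => ?_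
    rw [Nat.mem_divisors] at hd
    rw [norm_mul]
    have hmu : ‖((ArithmeticFunction.moebius d : ℤ) : ℂ)‖ ≤ 1 := by
      rw [Complex.norm_intCast]
      have h2 := ArithmeticFunction.abs_moebius_le_one (n := d)
      exact_mod_cast h2
    have h3 : ‖(if ((q / d : ℕ) : ℤ) ∣ h then ((q / d : ℕ) : ℂ) else 0)‖ ≤
        (Nat.gcd q h.natAbs : ℝ) := by
      split_ifs with hdv
      · rw [Complex.norm_natCast]
        have h4 : q / d ∣ h.natAbs := Int.natCast_dvd.mp hdv
        have h5 : q / d ∣ q := Nat.div_dvd_of_dvd hd.1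
        exact_mod_cast Nat.le_of_dvd hgpos (Nat.dvd_gcd h5 h4)
      · simp
    calc _ ≤ 1 * (Nat.gcd q h.natAbs : ℝ) := mul_le_mul hmu h3 (norm_nonneg _) zero_le_one
      _ = _ := one_mul _
  have h2 := q_le q hq
  rw [div_le_iff₀ hφ]
  refine h1.trans ?_
  have h3 : (q.divisors.card : ℝ) ^ 2 * ((Nat.gcd q h.natAbs : ℝ) / q) * Nat.totient q =
      ((q.divisors.card : ℝ) * (Nat.gcd q h.natAbs : ℝ)) *
        (((q.divisors.card : ℝ) * Nat.totient q) / q) := by ring
  rw [h3]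
  have h4 : 1 ≤ ((q.divisors.card : ℝ) * Nat.totient q) / q := by
    rw [le_div_iff₀ hq0]
    linarith
  exact le_mul_of_one_le_right (by positivity) h4

end Pool.Agent.Helper5.RS
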