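import Pool.Agent.Helper5.RS.Defs

/-!
# Block RS-L3a: the Selberg majorant for the conditional variance of one large prime

An `l ∈ LI N B z 1` is a prime `p` with `B ≤ p ≤ N` (`om l = 1`, squarefree); `minFac p = p`, so `MS N p = MP N p`, `XX N θ p T = XP N θ p T`; `aj zs p = 1` since the only divisor of `p` in `BT.D zs` (`zs < B ≤ p`) is `1` and
`lam zs 1 = 1` (`BT.lam_one`). Every such `p` lies in exactly one `[B 2^i, 2 B 2^i)`, `i ≤ Nat.log 2 N`; all other terms are `≥ 0`.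
-/

set_option autoImplicit false

namespace Pool.Agent.Helper5.RS

open Finset Pool.Agent.Helper5.RM

theorem v1_major (N B z zs : ℕ) (θ : ℝ) (T : Finset ℕ) (hzs : 1 ≤ zs) (hB : zs < B) :
    ∑ l ∈ LI N B z 1, ‖XX N θ l T‖ ^ 2 ≤ ∑ i ∈ Finset.range (Nat.log 2 N + 1),
      ∑ l ∈ Finset.Ico (B * 2 ^ i) (2 * (B * 2 ^ i)), aj zs l * ‖XP N θ l T‖ ^ 2 := by
  classical
  have hB0 : 0 < B := by omega
  have hnn : ∀ l : ℕ, 0 ≤ aj zs l * ‖XP N θ l T‖ ^ 2 := by
    intro l
    unfold aj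
    positivity
  have hmem : ∀ l ∈ LI N B z 1, l.Prime ∧ B ≤ l ∧ l ≤ N := by
    intro l hl
    unfold LI LA at hl
    simp only [Finset.mem_filter, Finset.mem_Icc] at hl
    obtain ⟨⟨⟨_, hlN⟩, hsq, hBl, _⟩, _, hom⟩ := hl
    refine ⟨?_, hBl, hlN⟩
    unfold om at hom
    obtain ⟨p, hp⟩ := Finset.card_eq_one.1 hom
    have h1 := Nat.prod_primeFactors_of_squarefree hsq
    rw [hp, Finset.prod_singleton] at h1
    have h2 : p ∈ l.primeFactors := by rw [hp]; exact Finset.mem_singleton_self p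
    rw [← h1]
    exact Nat.prime_of_mem_primeFactors h2
  have hval : ∀ l ∈ LI N B z 1, ‖XX N θ l T‖ ^ 2 = aj zs l * ‖XP N θ l T‖ ^ 2 := by
    intro l hl
    obtain ⟨hpr, hBl, _⟩ := hmem l hl
    have h1 : XX N θ l T = XP N θ l T := by
      unfold XX XP MS MP
      rw [hpr.minFac_eq]
    have h2 : (Pool.Agent.Helper66.AF.BT.D zs).filter (fun d => d ∣ l) = {1} := by
      ext d
      simp only [Finset.mem_filter, Finset.mem_singleton]
      constructor
      · rintro ⟨hd, hdl⟩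
        rcases (Nat.dvd_prime hpr).1 hdl with h | h
        · exact h
        · have := (Pool.Agent.Helper66.AF.BT.mem_D.1 hd).1.2
          omega
      · rintro rfl
        exact ⟨Pool.Agent.Helper66.AF.BT.one_mem_D hzs, one_dvd l⟩
    have h3 : aj zs l = 1 := by
      unfold aj
      rw [h2, Finset.sum_singleton, Pool.Agent.Helper66.AF.BT.lam_one hzs, one_pow]
    rw [h1, h3, one_mul]
  rw [Finset.sum_congr rfl hval]
  have hmaps : ∀ l ∈ LI N B z 1, Nat.log 2 (l / B) ∈ Finset.range (Nat.log 2 N + 1) := by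
    intro l hl
    obtain ⟨_, _, hlN⟩ := hmem l hl
    rw [Finset.mem_range]
    have : Nat.log 2 (l / B) ≤ Nat.log 2 N := Nat.log_mono_right ((Nat.div_le_self l B).trans hlN)
    omega
  rw [← Finset.sum_fiberwise_of_maps_to hmaps]
  refine Finset.sum_le_sum fun i _ => ?_
  refine Finset.sum_le_sum_of_subset_of_nonneg ?_ fun l _ _ => hnn l
  intro l hl
  rw [Finset.mem_filter] at hl
  obtain ⟨hl, rfl⟩ := hl
  obtain ⟨_, hBl, _⟩ := hmem l hl
  have hq : l / B ≠ 0 := by
    have := Nat.div_pos hBl hB0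
    omega
  rw [Finset.mem_Ico]
  constructor
  · have h1 : 2 ^ Nat.log 2 (l / B) ≤ l / B := Nat.pow_log_le_self 2 hq
    have h2 := Nat.mul_le_mul_left B h1
    exact h2.trans (Nat.mul_div_le l B)
  · have h1 : l / B < 2 ^ (Nat.log 2 (l / B) + 1) := Nat.lt_pow_succ_log_self (by norm_num) _
    have h2 := (Nat.div_lt_iff_lt_mul hB0).1 h1
    calc l < 2 ^ (Nat.log 2 (l / B) + 1) * B := h2
      _ = 2 * (B * 2 ^ Nat.log 2 (l / B)) := by rw [pow_succ]; ring

end Pool.Agent.Helper5.RS
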