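import Pool.Agent.Helper5.RS.NearU
import Pool.Agent.Helper5.RS.FarU

/-!
# Block RS-U3: all points of the grids

`far_unif` gives `C1`, `near_unif C1` gives `c'`, `i0`. For every `(a, jj)` either `DD < Λ^C1` or `Λ^C1 ≤ DD`: `pr_le_add`, `Λ^(-c') + 600/Λ ≤ Λ^(-c)` with `c = min (c'/2) (1/2)` for large `i`.
-/

set_option autoImplicit false

namespace Pool.Agent.Helper5.RS

open Finset Pool.Agent.Helper5.RM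

theorem unif2 (ε : ℝ) (hε : 0 < ε) : ∃ (c : ℝ) (i0 : ℕ), 0 < c ∧ ∀ i : ℕ, i0 ≤ i →
    pr (PP (2 ^ (2 * 2 ^ i))) (fun T => ∃ a jj N : ℕ, 2 ^ i ≤ a ∧ a < 2 * 2 ^ i ∧ jj < 2 ^ a ∧
      2 ^ a ≤ N ∧ N ≤ 2 ^ (a + 1) ∧
      Real.sqrt (2 ^ a) * ((2 : ℝ) ^ i) ^ (1 / 2 + ε) < ‖SN N T ((jj : ℝ) / (2 ^ a : ℕ))‖) ≤
      ((2 : ℝ) ^ i) ^ (-c) := by
  obtain ⟨C1, hfar⟩ := far_unif
  obtain ⟨i1, hfar⟩ := hfar ε hε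
  obtain ⟨c', i2, hc', hnear⟩ := near_unif C1 ε hε
  set c := min (c' / 2) (1 / 2) with hcdef
  have hc : 0 < c := lt_min (by linarith) (by norm_num)
  have hc1 : 2 * c ≤ c' := by
    have := min_le_left (c' / 2) (1 / 2 : ℝ)
    rw [← hcdef] at this
    linarith
  have hc2 : 2 * c ≤ 1 := by
    have := min_le_right (c' / 2) (1 / 2 : ℝ)
    rw [← hcdef] at this
    linarith
  have h2c : (1 : ℝ) < 2 ^ c := Real.one_lt_rpow (by norm_num) hc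
  obtain ⟨i3, hi3⟩ := pow_unbounded_of_one_lt (601 : ℝ) h2c
  refine ⟨c, max (max i1 i2) i3, hc, ?_⟩
  intro i hi
  have hi1 : i1 ≤ i := (le_max_left _ _).trans ((le_max_left _ _).trans hi)
  have hi2 : i2 ≤ i := (le_max_right _ _).trans ((le_max_left _ _).trans hi)
  have hi3' : i3 ≤ i := (le_max_right _ _).trans hi
  have hL1 : (1 : ℝ) ≤ 2 ^ i := one_le_pow₀ (by norm_num)
  have hL0 : (0 : ℝ) < 2 ^ i := by positivity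
  have hsum := pr_le_add (S := PP (2 ^ (2 * 2 ^ i)))
    (P := fun T => ∃ a jj N : ℕ, 2 ^ i ≤ a ∧ a < 2 * 2 ^ i ∧ jj < 2 ^ a ∧
      2 ^ a ≤ N ∧ N ≤ 2 ^ (a + 1) ∧
      Real.sqrt (2 ^ a) * ((2 : ℝ) ^ i) ^ (1 / 2 + ε) < ‖SN N T ((jj : ℝ) / (2 ^ a : ℕ))‖)
    (Q := fun T => ∃ a jj N : ℕ, 2 ^ i ≤ a ∧ a < 2 * 2 ^ i ∧ jj < 2 ^ a ∧
      DD (2 ^ a) ((jj : ℝ) / (2 ^ a : ℕ)) < ((2 : ℝ) ^ i) ^ C1 ∧ 2 ^ a ≤ N ∧ N ≤ 2 ^ (a + 1) ∧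
      Real.sqrt (2 ^ a) * ((2 : ℝ) ^ i) ^ (1 / 2 + ε) < ‖SN N T ((jj : ℝ) / (2 ^ a : ℕ))‖)
    (R := fun T => ∃ a jj N : ℕ, 2 ^ i ≤ a ∧ a < 2 * 2 ^ i ∧ jj < 2 ^ a ∧
      ((2 : ℝ) ^ i) ^ C1 ≤ DD (2 ^ a) ((jj : ℝ) / (2 ^ a : ℕ)) ∧ 2 ^ a ≤ N ∧ N ≤ 2 ^ (a + 1) ∧
      Real.sqrt (2 ^ a) * ((2 : ℝ) ^ i) ^ (1 / 2 + ε) < ‖SN N T ((jj : ℝ) / (2 ^ a : ℕ))‖)
    (by
      rintro T _ ⟨a, jj, N, h1, h2, h3, h4, h5, h6⟩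
      rcases lt_or_ge (DD (2 ^ a) ((jj : ℝ) / (2 ^ a : ℕ))) (((2 : ℝ) ^ i) ^ C1) with h | h
      · exact Or.inl ⟨a, jj, N, h1, h2, h3, h, h4, h5, h6⟩
      · exact Or.inr ⟨a, jj, N, h1, h2, h3, h, h4, h5, h6⟩)
  refine hsum.trans ((add_le_add (hnear i hi2) (hfar i hi1)).trans ?_)
  have e1 : ((2 : ℝ) ^ i) ^ (-c') ≤ ((2 : ℝ) ^ i) ^ (-(2 * c)) :=
    Real.rpow_le_rpow_of_exponent_le hL1 (by linarith)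
  have e2 : 600 / (2 : ℝ) ^ i ≤ 600 * ((2 : ℝ) ^ i) ^ (-(2 * c)) := by
    have h : ((2 : ℝ) ^ i) ^ (-1 : ℝ) ≤ ((2 : ℝ) ^ i) ^ (-(2 * c)) :=
      Real.rpow_le_rpow_of_exponent_le hL1 (by linarith)
    rw [Real.rpow_neg_one] at h
    rw [div_eq_mul_inv]
    linarith
  have e3 : (601 : ℝ) ≤ ((2 : ℝ) ^ i) ^ c := by
    have h1 : ((2 : ℝ) ^ i) ^ c = (2 ^ c) ^ i := by
      rw [← Real.rpow_natCast, ← Real.rpow_mul (by norm_num), mul_comm, Real.rpow_mul (by norm_num),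
        Real.rpow_natCast]
    rw [h1]
    exact hi3.le.trans (pow_le_pow_right₀ h2c.le hi3')
  have e4 : ((2 : ℝ) ^ i) ^ (-(2 * c)) * ((2 : ℝ) ^ i) ^ c = ((2 : ℝ) ^ i) ^ (-c) := by
    rw [← Real.rpow_add hL0]
    congr 1; ring
  have e5 : 0 < ((2 : ℝ) ^ i) ^ (-(2 * c)) := Real.rpow_pos_of_pos hL0 _
  calc ((2 : ℝ) ^ i) ^ (-c') + 600 / (2 : ℝ) ^ i ≤ ((2 : ℝ) ^ i) ^ (-(2 * c)) * 601 := by linarith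
    _ ≤ ((2 : ℝ) ^ i) ^ (-(2 * c)) * ((2 : ℝ) ^ i) ^ c := mul_le_mul_of_nonneg_left e3 e5.le
    _ = ((2 : ℝ) ^ i) ^ (-c) := e4

end Pool.Agent.Helper5.RS
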