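import Pool.Agent.Helper5.RS.Kap
import Pool.Agent.Helper5.RS.Psw
import Pool.Agent.Helper5.RS.Orth
import Pool.Agent.Helper5.RS.Quad
import Pool.Agent.Helper5.RS.Qsum

/-!
# Block RS-V9: the variance of `VQ`

`VQ_expand`, then `regroup` (RM/LG1a, `Nn = Sm z Y`, `c = kap R q j ρ`): `VQ - mQ = ∑_{p ∈ cp Y} rf T p.1 rf T p.2 Psi (Sm z Y) Y kap p.1 p.2`. By `kap_le` and `Psi_le` (`A = τ(q)^2`, `τ = tj j ≥ 1`)
`‖Psi p.1 p.2‖ ≤ τ(q)^3 LL Y wq q (tj j) p.1 p.2` for `p ∈ cp Y`. `pair_second`, `pairs_le_quad` (with `F a b = wq q (tj j) a b ≥ 0`) and `quad_sum` give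
`av |VQ - mQ|^2 ≤ τ(q)^6 LL Y^2 * 4800 LL Y^2 Xi`.
`mQ_le`: `ρ / m ≤ R / m`, `∑_{m ≤ Y} 1/m ≤ LL Y`.
-/

set_option autoImplicit false

namespace Pool.Agent.Helper5.RS

open Finset Pool.Agent.Helper5.RM

private lemma Sm_mem (z Y : ℕ) : ∀ n ∈ Sm z Y, 1 ≤ n ∧ n ≤ Y ∧ Squarefree n := by
  intro n hn
  unfold Sm at hn
  rw [Finset.mem_filter, Finset.mem_Icc] at hn
  exact ⟨hn.1.1, hn.1.2, hn.2.1⟩

private lemma wq_nonneg (q : ℕ) (τ : ℝ) (hτ : 1 ≤ τ) (a b : ℕ) : 0 ≤ wq q τ a b := by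
  unfold wq
  have h0 : 0 ≤ τ := by linarith
  refine mul_nonneg (by positivity) (le_min (by positivity) (by positivity))

theorem var_VQ (S : Finset ℕ) (z Y R q : ℕ) (j : ℤ) (ρ : ℕ) (hS : PP Y ⊆ S) (hq : 1 ≤ q) (hY : 1 ≤ Y)
    (hR : 1 ≤ R) (hρ : ρ ≤ R) (hjR : 2 * |(j : ℝ)| * Y ≤ R) :
    av S (fun T => (VQ z Y R q j ρ T - mQ z Y R ρ) ^ 2) ≤
      4800 * (q.divisors.card : ℝ) ^ 6 * LL Y ^ 4 * Xi q (tj j) := by
  classical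
  have hτ : 1 ≤ tj j := le_max_left _ _
  have hSm := Sm_mem z Y
  have hLL : 0 ≤ LL Y := by
    unfold LL
    have : 0 ≤ Real.log (Y : ℝ) := Real.log_nonneg (by exact_mod_cast hY)
    linarith
  set C : ℝ := (q.divisors.card : ℝ) ^ 2 * (q.divisors.card : ℝ) * LL Y with hC
  have hC0 : 0 ≤ C := by positivity
  have hΦ : ∀ p ∈ cp Y, ‖Psi (Sm z Y) Y (kap R q j ρ) p.1 p.2‖ ≤ C * wq q (tj j) p.1 p.2 := by
    intro p hp
    unfold cp at hp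
    rw [Finset.mem_filter, Finset.mem_product, Finset.mem_Icc, Finset.mem_Icc] at hp
    refine Psi_le (Sm z Y) Y q (tj j) ((q.divisors.card : ℝ) ^ 2) (kap R q j ρ) hq hY hτ (by positivity) ?_
      p.1 p.2 hp.1.1.1 hp.1.2.1 hp.2.1
    intro m hm n hn hmn
    exact kap_le Y R q j ρ m n hq hR hρ hjR (hSm m hm).1 (hSm m hm).2.1 (hSm n hn).1 (hSm n hn).2.1 hmn
  have h1 : ∀ T, (VQ z Y R q j ρ T - mQ z Y R ρ) ^ 2 =
      ‖∑ p ∈ cp Y, (rf T p.1 : ℂ) * (rf T p.2 : ℂ) *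
        (fun p : ℕ × ℕ => Psi (Sm z Y) Y (kap R q j ρ) p.1 p.2) p‖ ^ 2 := by
    intro T
    simp only
    rw [← regroup Y (Sm z Y) hSm (kap R q j ρ) T, ← VQ_expand z Y R q j ρ T hq hR hρ, Complex.norm_real,
      Real.norm_eq_abs, sq_abs]
  calc av S (fun T => (VQ z Y R q j ρ T - mQ z Y R ρ) ^ 2)
      = av S (fun T => ‖∑ p ∈ cp Y, (rf T p.1 : ℂ) * (rf T p.2 : ℂ) *
        (fun p : ℕ × ℕ => Psi (Sm z Y) Y (kap R q j ρ) p.1 p.2) p‖ ^ 2) := av_congr fun T _ => h1 T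
    _ ≤ ∑ p ∈ cp Y, ∑ p' ∈ (cp Y).filter (fun p' => p'.1 * p'.2 = p.1 * p.2),
          ‖Psi (Sm z Y) Y (kap R q j ρ) p.1 p.2‖ * ‖Psi (Sm z Y) Y (kap R q j ρ) p'.1 p'.2‖ :=
        pair_second S Y hS (fun p : ℕ × ℕ => Psi (Sm z Y) Y (kap R q j ρ) p.1 p.2)
    _ ≤ ∑ p ∈ cp Y, ∑ p' ∈ (cp Y).filter (fun p' => p'.1 * p'.2 = p.1 * p.2),
          C ^ 2 * (wq q (tj j) p.1 p.2 * wq q (tj j) p'.1 p'.2) := by
        refine Finset.sum_le_sum fun p hp => Finset.sum_le_sum fun p' hp' => ?_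
        have hp'' : p' ∈ cp Y := (Finset.mem_filter.1 hp').1
        calc ‖Psi (Sm z Y) Y (kap R q j ρ) p.1 p.2‖ * ‖Psi (Sm z Y) Y (kap R q j ρ) p'.1 p'.2‖
            ≤ (C * wq q (tj j) p.1 p.2) * (C * wq q (tj j) p'.1 p'.2) :=
              mul_le_mul (hΦ p hp) (hΦ p' hp'') (norm_nonneg _)
                (mul_nonneg hC0 (wq_nonneg q _ hτ _ _))
          _ = C ^ 2 * (wq q (tj j) p.1 p.2 * wq q (tj j) p'.1 p'.2) := by ring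
    _ = C ^ 2 * ∑ p ∈ cp Y, ∑ p' ∈ (cp Y).filter (fun p' => p'.1 * p'.2 = p.1 * p.2),
          wq q (tj j) p.1 p.2 * wq q (tj j) p'.1 p'.2 := by
        simp only [Finset.mul_sum]
    _ ≤ C ^ 2 * ∑ t ∈ Qd Y, wq q (tj j) (t.1 * t.2.1) (t.2.2.1 * t.2.2.2) *
          wq q (tj j) (t.1 * t.2.2.1) (t.2.1 * t.2.2.2) :=
        mul_le_mul_of_nonneg_left (pairs_le_quad Y (fun a b => wq q (tj j) a b)
          (fun a b => wq_nonneg q _ hτ a b)) (by positivity)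
    _ ≤ C ^ 2 * (4800 * LL Y ^ 2 * Xi q (tj j)) :=
        mul_le_mul_of_nonneg_left (quad_sum q Y (tj j) hq hY hτ) (by positivity)
    _ = 4800 * (q.divisors.card : ℝ) ^ 6 * LL Y ^ 4 * Xi q (tj j) := by rw [hC]; ring

theorem mQ_le (z Y R ρ : ℕ) (hY : 1 ≤ Y) (hR : 1 ≤ R) (hρ : ρ ≤ R) : 0 ≤ mQ z Y R ρ ∧ mQ z Y R ρ ≤ LL Y := by
  have hR0 : (0 : ℝ) < R := by exact_mod_cast hR
  unfold mQ
  refine ⟨by positivity, ?_⟩
  rw [div_le_iff₀ hR0]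
  have h1 : ∑ m ∈ Sm z Y, ((ρ / m : ℕ) : ℝ) ≤ ∑ m ∈ Finset.Icc 1 Y, (R : ℝ) * ((m : ℝ))⁻¹ := by
    calc ∑ m ∈ Sm z Y, ((ρ / m : ℕ) : ℝ) ≤ ∑ m ∈ Sm z Y, (R : ℝ) * ((m : ℝ))⁻¹ := by
          refine Finset.sum_le_sum fun m hm => ?_
          have h2 : ((ρ / m : ℕ) : ℝ) ≤ (ρ : ℝ) / m := Nat.cast_div_le
          have h3 : (ρ : ℝ) ≤ R := by exact_mod_cast hρ
          rw [div_eq_mul_inv] at h2
          exact h2.trans (mul_le_mul_of_nonneg_right h3 (by positivity))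
      _ ≤ ∑ m ∈ Finset.Icc 1 Y, (R : ℝ) * ((m : ℝ))⁻¹ := by
          refine Finset.sum_le_sum_of_subset_of_nonneg ?_ (fun i _ _ => by positivity)
          intro m hm
          have := Sm_mem z Y m hm
          exact Finset.mem_Icc.2 ⟨this.1, this.2.1⟩
  have h4 : ∑ m ∈ Finset.Icc 1 Y, ((m : ℝ))⁻¹ ≤ LL Y := by
    have := harmonic_le_one_add_log Y
    rw [harmonic_eq_sum_Icc] at this
    push_cast at this
    unfold LL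
    exact this
  rw [← Finset.mul_sum] at h1
  calc ∑ m ∈ Sm z Y, ((ρ / m : ℕ) : ℝ) ≤ (R : ℝ) * ∑ m ∈ Finset.Icc 1 Y, ((m : ℝ))⁻¹ := h1
    _ ≤ (R : ℝ) * LL Y := mul_le_mul_of_nonneg_left h4 hR0.le
    _ = LL Y * R := mul_comm _ _

end Pool.Agent.Helper5.RS
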